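import Mathlib

/-!
# VKZ.Contour: the Gaussian contour integral

`gint F σ w τ = (1/√(2π)) ∫ exp(s²/2 + s w) F(1 + iτ + s) dv`, `s = σ + iv`.

PROOF. `gauss_mellin`: for `σ > 0` and an absolutely convergent Dirichlet series `F(s) = ∑ a_n n^(-s)`
(`Re s > 1`) integrate term by term:
`(1/√(2π)) ∫ exp(s²/2 + s w) n^(-s) dv = exp(-(w - log n)²/2)` (`s = σ + iv`; Gaussian integral, the result does not
depend on `σ`). `laplace_gauss`: the same for `F(z) = 1/(z-1)`, `1/(s + iτ) = ∫_0^∞ exp(-(s+iτ) x) dx`.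
`shift_le`: `F` analytic in the region `Re z ≥ 1 - b` for `|Im z| ≤ |τ| + V`, bounded there by `B` for
`Re z ≤ 2`; and bounded by `B'` on the line `Re z = 1 + σ`. Move the part `|v| ≤ V` of the line `Re s = σ` to
`Re s = -b` (Cauchy's theorem for a rectangle); the horizontal pieces are at most
`2 (b + σ) exp((σ² - V²)/2 + σ w) B`, the left side is at most `exp(b²/2 - b w) B √(2π)`, the rest of the line
`Re s = σ` is at most `B' exp(σ²/2 + σ w) ∫_{|v|>V} exp(-v²/2) dv ≤ B' exp(σ²/2 + σ w) 6 exp(-V²/4)`.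
-/

namespace VKZ

open MeasureTheory

/-- The Gaussian contour integral. -/
noncomputable def gint (F : ℂ → ℂ) (σ w τ : ℝ) : ℂ :=
  (1 / Real.sqrt (2 * Real.pi) : ℝ) * ∫ v : ℝ,
    Complex.exp (((σ : ℂ) + v * Complex.I) ^ 2 / 2 + ((σ : ℂ) + v * Complex.I) * w) *
      F (1 + τ * Complex.I + ((σ : ℂ) + v * Complex.I))

/-- The Gaussian kernel. -/
private noncomputable def Contour_k (σ u v : ℝ) : ℂ :=
  Complex.exp (((σ : ℂ) + v * Complex.I) ^ 2 / 2 + ((σ : ℂ) + v * Complex.I) * u)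

private theorem Contour_k_eq (σ u v : ℝ) : Contour_k σ u v =
    Complex.exp ((-(1 / 2) : ℂ) * (v : ℂ) ^ 2 + (((σ : ℂ) + u) * Complex.I) * v +
      ((σ : ℂ) ^ 2 / 2 + σ * u)) := by
  unfold Contour_k
  congr 1
  have h := Complex.I_sq
  linear_combination ((v : ℂ) ^ 2 / 2) * h

private theorem Contour_half : ((-(1 / 2) : ℂ)).re < 0 := by
  norm_num

private theorem Contour_k_int (σ u : ℝ) : Integrable (fun v => Contour_k σ u v) := by
  simp only [Contour_k_eq]
  exact integrable_cexp_quadratic' Contour_half _ _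

private theorem Contour_sqrt : ((Real.pi : ℂ) / -(-(1 / 2) : ℂ)) ^ (1 / 2 : ℂ) =
    ((Real.sqrt (2 * Real.pi) : ℝ) : ℂ) := by
  have h1 : (Real.pi : ℂ) / -(-(1 / 2) : ℂ) = ((2 * Real.pi : ℝ) : ℂ) := by
    push_cast
    ring
  have h2 : (1 / 2 : ℂ) = ((1 / 2 : ℝ) : ℂ) := by
    push_cast
    ring
  rw [h1, h2, ← Complex.ofReal_cpow (by positivity), Real.sqrt_eq_rpow]

private theorem Contour_k_integral (σ u : ℝ) : ∫ v : ℝ, Contour_k σ u v =
    ((Real.sqrt (2 * Real.pi) : ℝ) : ℂ) * ((Real.exp (-u ^ 2 / 2) : ℝ) : ℂ) := by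
  simp only [Contour_k_eq]
  rw [integral_cexp_quadratic Contour_half, Contour_sqrt]
  congr 1
  rw [Complex.ofReal_exp]
  congr 1
  push_cast
  have h := Complex.I_sq
  linear_combination ((((σ : ℂ) + u) ^ 2) / 2) * h

private theorem Contour_re (σ u v : ℝ) :
    (((σ : ℂ) + v * Complex.I) ^ 2 / 2 + ((σ : ℂ) + v * Complex.I) * u).re =
      σ ^ 2 / 2 - v ^ 2 / 2 + σ * u := by
  have h1 : ((σ : ℂ) + v * Complex.I) ^ 2 / 2 + ((σ : ℂ) + v * Complex.I) * u =
      ((σ ^ 2 / 2 - v ^ 2 / 2 + σ * u : ℝ) : ℂ) + ((σ * v + v * u : ℝ) : ℂ) * Complex.I := by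
    push_cast
    have h := Complex.I_sq
    linear_combination ((v : ℂ) ^ 2 / 2) * h
  rw [h1, Complex.add_re, Complex.ofReal_re, Complex.re_ofReal_mul, Complex.I_re, mul_zero,
    add_zero]

private theorem Contour_k_norm (σ u v : ℝ) :
    ‖Contour_k σ u v‖ = Real.exp (σ ^ 2 / 2 - v ^ 2 / 2 + σ * u) := by
  unfold Contour_k
  rw [Complex.norm_exp, Contour_re]

private theorem Contour_k_cont (σ u : ℝ) : Continuous (fun v => Contour_k σ u v) := by
  unfold Contour_k
  fun_prop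

/-- Shift of the parameter. -/
private theorem Contour_k_shift (σ u x v : ℝ) :
    Contour_k σ u v * Complex.exp (-((σ : ℂ) + v * Complex.I) * x) = Contour_k σ (u - x) v := by
  unfold Contour_k
  rw [← Complex.exp_add]
  congr 1
  push_cast
  ring

private theorem Contour_sqrt_ne : ((Real.sqrt (2 * Real.pi) : ℝ) : ℂ) ≠ 0 := by
  rw [Complex.ofReal_ne_zero]
  positivity

private theorem Contour_cancel (z : ℂ) :
    ((1 / Real.sqrt (2 * Real.pi) : ℝ) : ℂ) * (((Real.sqrt (2 * Real.pi) : ℝ) : ℂ) * z) = z := by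
  rw [Complex.ofReal_div, Complex.ofReal_one, ← mul_assoc, one_div,
    inv_mul_cancel₀ Contour_sqrt_ne, one_mul]

private theorem Contour_norm_integral (σ u : ℝ) :
    ∫ v : ℝ, ‖Contour_k σ u v‖ =
      Real.exp (σ * u) * ∫ v : ℝ, ‖Contour_k σ 0 v‖ := by
  rw [← integral_const_mul]
  refine integral_congr_ae (Filter.Eventually.of_forall fun v => ?_)
  simp only [Contour_k_norm]
  rw [← Real.exp_add]
  congr 1
  ring

theorem gauss_mellin {a : ℕ → ℂ} (ha : ∀ σ : ℝ, 1 < σ → Summable fun n : ℕ => ‖a n‖ * (n : ℝ) ^ (-σ))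
    (h0 : a 0 = 0) {σ : ℝ} (hσ : 0 < σ) (w τ : ℝ) :
    ∑' n : ℕ, a n * (n : ℂ) ^ (-(1 + τ * Complex.I)) * Real.exp (-(Real.log n - w) ^ 2 / 2) =
      gint (fun z => ∑' n : ℕ, a n * (n : ℂ) ^ (-z)) σ w τ := by
  set c : ℕ → ℂ := fun n => a n * (n : ℂ) ^ (-(1 + τ * Complex.I)) with hc
  have hterm : ∀ v : ℝ, ∀ n : ℕ, Contour_k σ w v *
      (a n * (n : ℂ) ^ (-(1 + τ * Complex.I + ((σ : ℂ) + v * Complex.I)))) =
      c n * Contour_k σ (w - Real.log n) v := by
    intro v n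
    rcases Nat.eq_zero_or_pos n with h | h
    · subst h
      rw [hc]
      simp only [h0, zero_mul, mul_zero]
    · have hn : (n : ℂ) ≠ 0 := by exact_mod_cast h.ne'
      rw [← Contour_k_shift, hc]
      have h1 : (n : ℂ) ^ (-(1 + τ * Complex.I + ((σ : ℂ) + v * Complex.I))) =
          (n : ℂ) ^ (-(1 + τ * Complex.I)) * Complex.exp (-((σ : ℂ) + v * Complex.I) * Real.log n) := by
        rw [neg_add, Complex.cpow_add _ _ hn]
        congr 1
        rw [Complex.cpow_def_of_ne_zero hn, Complex.natCast_log, mul_comm]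
      rw [h1]
      ring
  have hnorm : ∀ n : ℕ, ∫ v : ℝ, ‖c n * Contour_k σ (w - Real.log n) v‖ =
      (‖a n‖ * (n : ℝ) ^ (-(1 + σ))) * (Real.exp (σ * w) * ∫ v : ℝ, ‖Contour_k σ 0 v‖) := by
    intro n
    simp only [norm_mul]
    rw [integral_const_mul, Contour_norm_integral]
    rcases Nat.eq_zero_or_pos n with h | h
    · subst h
      rw [hc]
      simp only [h0, norm_zero, zero_mul]
    · have hn : (0 : ℝ) < n := by exact_mod_cast h
      have h1 : ‖c n‖ = ‖a n‖ * (n : ℝ) ^ (-1 : ℝ) := by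
        rw [hc]
        simp only [norm_mul]
        congr 1
        rw [← Complex.ofReal_natCast, Complex.norm_cpow_eq_rpow_re_of_pos hn]
        congr 1
        simp
      have h2 : Real.exp (σ * (w - Real.log n)) = Real.exp (σ * w) * (n : ℝ) ^ (-σ) := by
        rw [Real.rpow_def_of_pos hn, ← Real.exp_add]
        congr 1
        ring
      have h3 : (n : ℝ) ^ (-(1 + σ)) = (n : ℝ) ^ (-1 : ℝ) * (n : ℝ) ^ (-σ) := by
        rw [← Real.rpow_add hn]
        congr 1
        ring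
      rw [h1, h2, h3]
      ring
  have hsum := integral_tsum_of_summable_integral_norm (μ := volume)
    (F := fun (n : ℕ) (v : ℝ) => c n * Contour_k σ (w - Real.log n) v)
    (fun n => (Contour_k_int σ _).const_mul _) (by
      simp only [hnorm]
      exact (ha (1 + σ) (by linarith)).mul_right _)
  have hR : gint (fun z => ∑' n : ℕ, a n * (n : ℂ) ^ (-z)) σ w τ =
      ((1 / Real.sqrt (2 * Real.pi) : ℝ) : ℂ) *
        ∫ v : ℝ, ∑' n : ℕ, c n * Contour_k σ (w - Real.log n) v := by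
    unfold gint
    congr 1
    refine integral_congr_ae (Filter.Eventually.of_forall fun v => ?_)
    show Contour_k σ w v * ∑' n : ℕ, a n * (n : ℂ) ^ (-(1 + τ * Complex.I + ((σ : ℂ) + v * Complex.I))) = _
    rw [← tsum_mul_left]
    exact tsum_congr fun n => hterm v n
  rw [hR, ← hsum, ← tsum_mul_left]
  refine tsum_congr fun n => ?_
  rw [integral_const_mul, Contour_k_integral]
  have h4 : -(Real.log n - w) ^ 2 / 2 = -(w - Real.log n) ^ 2 / 2 := by ring
  rw [h4, mul_left_comm, Contour_cancel]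

theorem laplace_gauss {σ : ℝ} (hσ : 0 < σ) (w τ : ℝ) :
    gint (fun z => 1 / (z - 1)) σ w τ =
      ∫ x in Set.Ioi (0 : ℝ), Complex.exp (-(τ * x * Complex.I)) * Real.exp (-(x - w) ^ 2 / 2) := by
  set f : ℝ → ℝ → ℂ := fun v x =>
    Contour_k σ w v * Complex.exp (-((σ : ℂ) + (v + τ) * Complex.I) * x) with hf
  have hre : ∀ v : ℝ, (-((σ : ℂ) + (v + τ) * Complex.I)).re = -σ := by
    intro v
    have : -((σ : ℂ) + (v + τ) * Complex.I) =
        ((-σ : ℝ) : ℂ) + ((-(v + τ) : ℝ) : ℂ) * Complex.I := by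
      push_cast
      ring
    rw [this]
    simp
  have h1 : ∀ v : ℝ, ∫ x in Set.Ioi (0 : ℝ), f v x =
      Contour_k σ w v * (1 / (1 + τ * Complex.I + ((σ : ℂ) + v * Complex.I) - 1)) := by
    intro v
    rw [hf]
    simp only []
    rw [integral_const_mul, integral_exp_mul_complex_Ioi (by rw [hre]; linarith)]
    congr 1
    rw [Complex.ofReal_zero, mul_zero, Complex.exp_zero]
    have h3 : (1 + τ * Complex.I + ((σ : ℂ) + v * Complex.I) - 1) =
        (σ : ℂ) + (v + τ) * Complex.I := by ring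
    rw [h3, neg_div_neg_eq]
  have hint : Integrable (Function.uncurry f)
      ((volume : Measure ℝ).prod (volume.restrict (Set.Ioi (0 : ℝ)))) := by
    have hg : Integrable (fun z : ℝ × ℝ => ‖Contour_k σ w z.1‖ * Real.exp (-σ * z.2))
        ((volume : Measure ℝ).prod (volume.restrict (Set.Ioi (0 : ℝ)))) :=
      (Contour_k_int σ w).norm.mul_prod (integrableOn_exp_mul_Ioi (by linarith) 0)
    refine hg.mono' ?_ (Filter.Eventually.of_forall fun z => ?_)
    · refine Continuous.aestronglyMeasurable ?_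
      rw [hf]
      unfold Function.uncurry Contour_k
      fun_prop
    · show ‖f z.1 z.2‖ ≤ _
      rw [hf]
      simp only [norm_mul]
      refine le_of_eq ?_
      congr 1
      rw [Complex.norm_exp, Complex.re_mul_ofReal, hre]
  unfold gint
  have h5 : (∫ v : ℝ, Complex.exp (((σ : ℂ) + v * Complex.I) ^ 2 / 2 +
      ((σ : ℂ) + v * Complex.I) * w) * (1 / (1 + τ * Complex.I + ((σ : ℂ) + v * Complex.I) - 1))) =
      ∫ v : ℝ, ∫ x in Set.Ioi (0 : ℝ), f v x :=
    integral_congr_ae (Filter.Eventually.of_forall fun v => (h1 v).symm)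
  rw [h5, integral_integral_swap hint, ← integral_const_mul]
  refine integral_congr_ae (Filter.Eventually.of_forall fun x => ?_)
  simp only []
  have h6 : ∫ v : ℝ, f v x = Complex.exp (-(τ * x * Complex.I)) *
      ∫ v : ℝ, Contour_k σ (w - x) v := by
    rw [← integral_const_mul]
    refine integral_congr_ae (Filter.Eventually.of_forall fun v => ?_)
    simp only [hf]
    rw [← Contour_k_shift, ← mul_assoc, mul_comm (Complex.exp (-(τ * x * Complex.I))), mul_assoc,
      ← Complex.exp_add]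
    congr 2
    ring
  rw [h6, Contour_k_integral, mul_left_comm, Contour_cancel]
  have h7 : -(x - w) ^ 2 / 2 = -(w - x) ^ 2 / 2 := by ring
  rw [h7]

private theorem Contour_gauss_two : ∫ v : ℝ, Real.exp (-v ^ 2 / 2) = Real.sqrt (2 * Real.pi) := by
  have h := integral_gaussian (1 / 2)
  have h2 : Real.pi / (1 / 2) = 2 * Real.pi := by ring
  rw [h2] at h
  rw [← h]
  refine integral_congr_ae (Filter.Eventually.of_forall fun v => ?_)
  simp only []
  congr 1
  ring

private theorem Contour_gauss_int : Integrable (fun v : ℝ => Real.exp (-v ^ 2 / 2)) := by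
  have h := integrable_exp_neg_mul_sq (b := 1 / 2) (by norm_num)
  refine h.congr (Filter.Eventually.of_forall fun v => ?_)
  simp only []
  congr 1
  ring

private theorem Contour_gauss_four : ∫ v : ℝ, Real.exp (-v ^ 2 / 4) ≤ 6 := by
  have h := integral_gaussian (1 / 4)
  have h2 : ∫ v : ℝ, Real.exp (-v ^ 2 / 4) = Real.sqrt (Real.pi / (1 / 4)) := by
    rw [← h]
    refine integral_congr_ae (Filter.Eventually.of_forall fun v => ?_)
    simp only []
    congr 1
    ring
  rw [h2, Real.sqrt_le_left (by norm_num)]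
  have := Real.pi_lt_four
  linarith

private theorem Contour_gauss_four_int : Integrable (fun v : ℝ => Real.exp (-v ^ 2 / 4)) := by
  have h := integrable_exp_neg_mul_sq (b := 1 / 4) (by norm_num)
  refine h.congr (Filter.Eventually.of_forall fun v => ?_)
  simp only []
  congr 1
  ring

theorem shift_le {F : ℂ → ℂ} {b B B' σ w τ V : ℝ} (hb : 0 < b) (hb1 : b ≤ 1) (hσ : 0 < σ)
    (hσ1 : σ ≤ 1) (hw : 0 ≤ w) (hV : 1 ≤ V) (hB : 0 ≤ B) (hB' : 0 ≤ B')
    (hF : ∀ z : ℂ, 1 - b ≤ z.re → z.re ≤ 2 → |z.im - τ| ≤ V → AnalyticAt ℂ F z ∧ ‖F z‖ ≤ B)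
    (hF' : ∀ v : ℝ, ‖F (1 + τ * Complex.I + ((σ : ℂ) + v * Complex.I))‖ ≤ B')
    (hc : Continuous fun v : ℝ => F (1 + τ * Complex.I + ((σ : ℂ) + v * Complex.I))) :
    ‖gint F σ w τ‖ ≤ B * Real.exp (b ^ 2 / 2 - b * w) +
      2 * B * (b + σ) * Real.exp ((σ ^ 2 + b ^ 2 - V ^ 2) / 2 + σ * w) +
      6 * B' * Real.exp (σ ^ 2 / 2 + σ * w - V ^ 2 / 4) := by
  have hV0 : 0 < V := by linarith
  set g : ℂ → ℂ := fun s => Complex.exp (s ^ 2 / 2 + s * w) * F (1 + τ * Complex.I + s) with hg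
  -- norm of the kernel
  have hk : ∀ x y : ℝ, ‖Complex.exp (((x : ℂ) + y * Complex.I) ^ 2 / 2 +
      ((x : ℂ) + y * Complex.I) * w)‖ = Real.exp (x ^ 2 / 2 - y ^ 2 / 2 + x * w) := fun x y =>
    Contour_k_norm x w y
  -- points of the rectangle
  have hz : ∀ x y : ℝ, (1 + τ * Complex.I + ((x : ℂ) + y * Complex.I)).re = 1 + x ∧
      (1 + τ * Complex.I + ((x : ℂ) + y * Complex.I)).im = τ + y := by
    intro x y
    constructor <;> simp
  have hgB : ∀ x y : ℝ, -b ≤ x → x ≤ σ → |y| ≤ V →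
      ‖g ((x : ℂ) + y * Complex.I)‖ ≤ Real.exp (x ^ 2 / 2 - y ^ 2 / 2 + x * w) * B := by
    intro x y h1 h2 h3
    rw [hg]
    simp only [norm_mul, hk]
    refine mul_le_mul_of_nonneg_left ?_ (Real.exp_pos _).le
    refine (hF _ ?_ ?_ ?_).2
    · rw [(hz x y).1]
      linarith
    · rw [(hz x y).1]
      linarith
    · rw [(hz x y).2, add_sub_cancel_left]
      exact h3
  -- Cauchy's theorem
  have hcau := Complex.integral_boundary_rect_eq_zero_of_differentiableOn g
    (((-b : ℝ) : ℂ) + ((-V : ℝ) : ℂ) * Complex.I) ((σ : ℂ) + (V : ℂ) * Complex.I) (by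
      intro s hs
      have hs' := Complex.mem_reProdIm.1 hs
      have e1 : (((-b : ℝ) : ℂ) + ((-V : ℝ) : ℂ) * Complex.I).re = -b := by simp
      have e2 : (((-b : ℝ) : ℂ) + ((-V : ℝ) : ℂ) * Complex.I).im = -V := by simp
      have e3 : ((σ : ℂ) + (V : ℂ) * Complex.I).re = σ := by simp
      have e4 : ((σ : ℂ) + (V : ℂ) * Complex.I).im = V := by simp
      rw [e1, e2, e3, e4, Set.uIcc_of_le (by linarith), Set.uIcc_of_le (by linarith)] at hs'
      have hs1 := hs'.1
      have hs2 := hs'.2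
      have hA : AnalyticAt ℂ F (1 + τ * Complex.I + s) := by
        refine (hF _ ?_ ?_ ?_).1
        · have : (1 + τ * Complex.I + s).re = 1 + s.re := by simp
          rw [this]
          linarith [hs1.1]
        · have : (1 + τ * Complex.I + s).re = 1 + s.re := by simp
          rw [this]
          linarith [hs1.2]
        · have : (1 + τ * Complex.I + s).im = τ + s.im := by simp
          rw [this, add_sub_cancel_left, abs_le]
          exact ⟨hs2.1, hs2.2⟩
      refine DifferentiableAt.differentiableWithinAt ?_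
      rw [hg]
      refine DifferentiableAt.mul (by fun_prop) ?_
      exact hA.differentiableAt.comp s (by fun_prop))
  have e1 : (((-b : ℝ) : ℂ) + ((-V : ℝ) : ℂ) * Complex.I).re = -b := by simp
  have e2 : (((-b : ℝ) : ℂ) + ((-V : ℝ) : ℂ) * Complex.I).im = -V := by simp
  have e3 : ((σ : ℂ) + (V : ℂ) * Complex.I).re = σ := by simp
  have e4 : ((σ : ℂ) + (V : ℂ) * Complex.I).im = V := by simp
  rw [e1, e2, e3, e4] at hcau
  have hwidth : |σ - -b| = b + σ := by
    rw [abs_of_pos (by linarith)]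
    ring
  -- horizontal sides
  have hhor : ∀ y : ℝ, |y| = V → ‖∫ x in (-b)..σ, g ((x : ℂ) + y * Complex.I)‖ ≤
      B * Real.exp ((σ ^ 2 + b ^ 2 - V ^ 2) / 2 + σ * w) * (b + σ) := by
    intro y hy
    rw [← hwidth]
    refine intervalIntegral.norm_integral_le_of_norm_le_const fun x hx => ?_
    rw [Set.uIoc_of_le (by linarith)] at hx
    refine (hgB x y hx.1.le hx.2 hy.le).trans ?_
    rw [mul_comm]
    refine mul_le_mul_of_nonneg_left ?_ hB
    refine Real.exp_le_exp.2 ?_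
    have hy2 : y ^ 2 = V ^ 2 := by rw [← hy, sq_abs]
    have hx2 : x ^ 2 ≤ σ ^ 2 + b ^ 2 := by
      rcases le_total 0 x with h | h
      · nlinarith [hx.2, sq_nonneg b]
      · nlinarith [hx.1, sq_nonneg σ]
    have hxw : x * w ≤ σ * w := mul_le_mul_of_nonneg_right hx.2 hw
    rw [hy2]
    linarith
  -- left side
  have hleft : ‖∫ y in (-V)..V, g (((-b : ℝ) : ℂ) + y * Complex.I)‖ ≤
      B * Real.exp (b ^ 2 / 2 - b * w) * Real.sqrt (2 * Real.pi) := by
    have h1 : ∀ y ∈ Set.Ioc (-V) V, ‖g (((-b : ℝ) : ℂ) + y * Complex.I)‖ ≤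
        B * Real.exp (b ^ 2 / 2 - b * w) * Real.exp (-y ^ 2 / 2) := by
      intro y hy
      refine (hgB (-b) y le_rfl (by linarith) (abs_le.2 ⟨hy.1.le, hy.2⟩)).trans (le_of_eq ?_)
      rw [mul_assoc, ← Real.exp_add, mul_comm]
      congr 2
      ring
    refine (intervalIntegral.norm_integral_le_integral_norm_uIoc).trans ?_
    rw [Set.uIoc_of_le (by linarith)]
    have hint : IntegrableOn
        (fun y : ℝ => B * Real.exp (b ^ 2 / 2 - b * w) * Real.exp (-y ^ 2 / 2)) (Set.Ioc (-V) V) :=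
      (Contour_gauss_int.const_mul _).integrableOn
    calc ∫ y in Set.Ioc (-V) V, ‖g (((-b : ℝ) : ℂ) + y * Complex.I)‖
        ≤ ∫ y in Set.Ioc (-V) V, B * Real.exp (b ^ 2 / 2 - b * w) * Real.exp (-y ^ 2 / 2) := by
          refine integral_mono_of_nonneg (Filter.Eventually.of_forall fun y => norm_nonneg _) hint ?_
          filter_upwards [ae_restrict_mem measurableSet_Ioc] with y hy
          exact h1 y hy
      _ ≤ ∫ y : ℝ, B * Real.exp (b ^ 2 / 2 - b * w) * Real.exp (-y ^ 2 / 2) :=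
          setIntegral_le_integral (Contour_gauss_int.const_mul _)
            (Filter.Eventually.of_forall fun y => by positivity)
      _ = _ := by rw [integral_const_mul, Contour_gauss_two]
  -- the right side of the rectangle
  have hright : ‖∫ y in (-V)..V, g ((σ : ℂ) + y * Complex.I)‖ ≤
      B * Real.exp (b ^ 2 / 2 - b * w) * Real.sqrt (2 * Real.pi) +
        2 * (B * Real.exp ((σ ^ 2 + b ^ 2 - V ^ 2) / 2 + σ * w) * (b + σ)) := by
    have h1 : Complex.I • (∫ y in (-V)..V, g ((σ : ℂ) + y * Complex.I)) =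
        Complex.I • (∫ y in (-V)..V, g (((-b : ℝ) : ℂ) + y * Complex.I)) +
        (∫ x in (-b)..σ, g ((x : ℂ) + (V : ℂ) * Complex.I)) -
        (∫ x in (-b)..σ, g ((x : ℂ) + ((-V : ℝ) : ℂ) * Complex.I)) := by
      linear_combination hcau
    have h2 : ‖∫ y in (-V)..V, g ((σ : ℂ) + y * Complex.I)‖ =
        ‖Complex.I • (∫ y in (-V)..V, g ((σ : ℂ) + y * Complex.I))‖ := by
      rw [norm_smul, Complex.norm_I, one_mul]
    rw [h2, h1]
    have h3 := norm_sub_le (Complex.I • (∫ y in (-V)..V, g (((-b : ℝ) : ℂ) + y * Complex.I)) +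
        (∫ x in (-b)..σ, g ((x : ℂ) + (V : ℂ) * Complex.I)))
        (∫ x in (-b)..σ, g ((x : ℂ) + ((-V : ℝ) : ℂ) * Complex.I))
    have h4 := norm_add_le (Complex.I • (∫ y in (-V)..V, g (((-b : ℝ) : ℂ) + y * Complex.I)))
        (∫ x in (-b)..σ, g ((x : ℂ) + (V : ℂ) * Complex.I))
    have h5 : ‖Complex.I • (∫ y in (-V)..V, g (((-b : ℝ) : ℂ) + y * Complex.I))‖ =
        ‖∫ y in (-V)..V, g (((-b : ℝ) : ℂ) + y * Complex.I)‖ := by
      rw [norm_smul, Complex.norm_I, one_mul]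
    have h6 := hhor V (abs_of_pos hV0)
    have h7 := hhor (-V) (by rw [abs_neg, abs_of_pos hV0])
    rw [h5] at h4
    linarith
  -- the tails
  have hgint : Integrable (fun v : ℝ => g ((σ : ℂ) + v * Complex.I)) := by
    refine ((Contour_gauss_int.const_mul (Real.exp (σ ^ 2 / 2 + σ * w) * B'))).mono' ?_
      (Filter.Eventually.of_forall fun v => ?_)
    · refine Continuous.aestronglyMeasurable ?_
      rw [hg]
      refine Continuous.mul (by fun_prop) hc
    · rw [hg]
      simp only [norm_mul, hk]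
      calc Real.exp (σ ^ 2 / 2 - v ^ 2 / 2 + σ * w) *
            ‖F (1 + τ * Complex.I + ((σ : ℂ) + v * Complex.I))‖
          ≤ Real.exp (σ ^ 2 / 2 - v ^ 2 / 2 + σ * w) * B' :=
            mul_le_mul_of_nonneg_left (hF' v) (Real.exp_pos _).le
        _ = Real.exp (σ ^ 2 / 2 + σ * w) * B' * Real.exp (-v ^ 2 / 2) := by
            rw [mul_right_comm, ← Real.exp_add]
            congr 2
            ring
  have htail : ‖∫ v in (Set.Ioc (-V) V)ᶜ, g ((σ : ℂ) + v * Complex.I)‖ ≤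
      6 * B' * Real.exp (σ ^ 2 / 2 + σ * w - V ^ 2 / 4) := by
    refine (norm_integral_le_integral_norm _).trans ?_
    have h1 : ∀ v ∈ (Set.Ioc (-V) V)ᶜ, ‖g ((σ : ℂ) + v * Complex.I)‖ ≤
        B' * Real.exp (σ ^ 2 / 2 + σ * w - V ^ 2 / 4) * Real.exp (-v ^ 2 / 4) := by
      intro v hv
      have hv2 : V ^ 2 ≤ v ^ 2 := by
        rw [Set.mem_compl_iff, Set.mem_Ioc, not_and_or, not_lt, not_le] at hv
        rcases hv with h | h
        · nlinarith
        · nlinarith
      rw [hg]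
      simp only [norm_mul, hk]
      calc Real.exp (σ ^ 2 / 2 - v ^ 2 / 2 + σ * w) *
            ‖F (1 + τ * Complex.I + ((σ : ℂ) + v * Complex.I))‖
          ≤ Real.exp (σ ^ 2 / 2 - v ^ 2 / 2 + σ * w) * B' :=
            mul_le_mul_of_nonneg_left (hF' v) (Real.exp_pos _).le
        _ ≤ (Real.exp (σ ^ 2 / 2 + σ * w - V ^ 2 / 4) * Real.exp (-v ^ 2 / 4)) * B' := by
            refine mul_le_mul_of_nonneg_right ?_ hB'
            rw [← Real.exp_add]
            refine Real.exp_le_exp.2 ?_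
            linarith
        _ = _ := by ring
    have hint : Integrable
        (fun v : ℝ => B' * Real.exp (σ ^ 2 / 2 + σ * w - V ^ 2 / 4) * Real.exp (-v ^ 2 / 4)) :=
      Contour_gauss_four_int.const_mul _
    calc ∫ v in (Set.Ioc (-V) V)ᶜ, ‖g ((σ : ℂ) + v * Complex.I)‖
        ≤ ∫ v in (Set.Ioc (-V) V)ᶜ,
            B' * Real.exp (σ ^ 2 / 2 + σ * w - V ^ 2 / 4) * Real.exp (-v ^ 2 / 4) := by
          refine integral_mono_of_nonneg (Filter.Eventually.of_forall fun y => norm_nonneg _)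
            hint.integrableOn ?_
          filter_upwards [ae_restrict_mem measurableSet_Ioc.compl] with y hy
          exact h1 y hy
      _ ≤ ∫ v : ℝ, B' * Real.exp (σ ^ 2 / 2 + σ * w - V ^ 2 / 4) * Real.exp (-v ^ 2 / 4) :=
          setIntegral_le_integral hint (Filter.Eventually.of_forall fun y => by positivity)
      _ = B' * Real.exp (σ ^ 2 / 2 + σ * w - V ^ 2 / 4) * ∫ v : ℝ, Real.exp (-v ^ 2 / 4) :=
          integral_const_mul _ _
      _ ≤ B' * Real.exp (σ ^ 2 / 2 + σ * w - V ^ 2 / 4) * 6 :=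
          mul_le_mul_of_nonneg_left Contour_gauss_four (by positivity)
      _ = _ := by ring
  -- together
  have hsplit : ∫ v : ℝ, g ((σ : ℂ) + v * Complex.I) =
      (∫ v in (-V)..V, g ((σ : ℂ) + v * Complex.I)) +
        ∫ v in (Set.Ioc (-V) V)ᶜ, g ((σ : ℂ) + v * Complex.I) := by
    rw [intervalIntegral.integral_of_le (by linarith)]
    exact (integral_add_compl measurableSet_Ioc hgint).symm
  have hs0 : 1 ≤ Real.sqrt (2 * Real.pi) := by
    rw [Real.one_le_sqrt]
    have := Real.pi_gt_three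
    linarith
  have hs1 : 0 < Real.sqrt (2 * Real.pi) := by linarith
  have hgi : gint F σ w τ = ((1 / Real.sqrt (2 * Real.pi) : ℝ) : ℂ) *
      ∫ v : ℝ, g ((σ : ℂ) + v * Complex.I) := rfl
  rw [hgi, norm_mul, hsplit]
  have hn1 : ‖((1 / Real.sqrt (2 * Real.pi) : ℝ) : ℂ)‖ = 1 / Real.sqrt (2 * Real.pi) := by
    rw [Complex.norm_real, Real.norm_of_nonneg (by positivity)]
  rw [hn1]
  have hsum := norm_add_le (∫ v in (-V)..V, g ((σ : ℂ) + v * Complex.I))
    (∫ v in (Set.Ioc (-V) V)ᶜ, g ((σ : ℂ) + v * Complex.I))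
  have hX : 0 ≤ 2 * B * (b + σ) * Real.exp ((σ ^ 2 + b ^ 2 - V ^ 2) / 2 + σ * w) := by positivity
  have hY : 0 ≤ 6 * B' * Real.exp (σ ^ 2 / 2 + σ * w - V ^ 2 / 4) := by positivity
  rw [div_mul_eq_mul_div, one_mul, div_le_iff₀ hs1]
  calc ‖(∫ v in (-V)..V, g ((σ : ℂ) + v * Complex.I)) +
        ∫ v in (Set.Ioc (-V) V)ᶜ, g ((σ : ℂ) + v * Complex.I)‖
      ≤ B * Real.exp (b ^ 2 / 2 - b * w) * Real.sqrt (2 * Real.pi) +
        2 * (B * Real.exp ((σ ^ 2 + b ^ 2 - V ^ 2) / 2 + σ * w) * (b + σ)) +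
        6 * B' * Real.exp (σ ^ 2 / 2 + σ * w - V ^ 2 / 4) := by linarith
    _ = B * Real.exp (b ^ 2 / 2 - b * w) * Real.sqrt (2 * Real.pi) +
        2 * B * (b + σ) * Real.exp ((σ ^ 2 + b ^ 2 - V ^ 2) / 2 + σ * w) * 1 +
        6 * B' * Real.exp (σ ^ 2 / 2 + σ * w - V ^ 2 / 4) * 1 := by ring
    _ ≤ B * Real.exp (b ^ 2 / 2 - b * w) * Real.sqrt (2 * Real.pi) +
        2 * B * (b + σ) * Real.exp ((σ ^ 2 + b ^ 2 - V ^ 2) / 2 + σ * w) *
          Real.sqrt (2 * Real.pi) +
        6 * B' * Real.exp (σ ^ 2 / 2 + σ * w - V ^ 2 / 4) * Real.sqrt (2 * Real.pi) := by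
        gcongr
    _ = _ := by ring


end VKZ
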