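import Pool.Agent.VKZ.Region
import Pool.Agent.VKZ.Contour

/-!
# VKZ.PrimeG: Gaussian sums over primes and over the Möbius function

PROOF. Let `w` be large, `|τ| ≤ exp(K w)`, `V = w`, `σ = 1/w`. `Λ`: by `gauss_mellin` the sum is `gint (-ζ'/ζ) σ w τ`
(`LSeries` of `Λ`), and `-ζ'/ζ(z) = 1/(z-1) - Zf'/Zf(z)`. The first part is given by `laplace_gauss`:
`∫_0^∞ exp(-iτx) exp(-(x-w)²/2) dx = √(2π) exp(-τ²/2 - iτw) - ∫_{-∞}^0`, and the last integral is at most
`3 exp(-w²/2)`. The second part is estimated by `shift_le` with `F = Zf'/Zf`,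
`b = c (log (exp(Kw) + w + 3))^(-19/20)/2 ≥ c' w^(-19/20)` and `region`: `B ≤ C (log (exp(Kw)+w+3))^C ≤ C'' w^C`;
on the line `Re z = 1 + 1/w`: `|Zf'/Zf| ≤ |1/(z-1)| + |ζ'/ζ| ≤ 2w + C = B'` (`logderiv_upper`). So it is at most
`C'' w^C exp(-c' w^(1/20)) + ... ≤ w^(-A)` for large `w`.
`μ`: the same with `F = iz = 1/ζ`, no main term (`|1/ζ| ≤ ζ(1+1/w) ≤ 2w` on the line). The bound for
`z.re ≤ 2` in `shift_le` is in `region` (`z.re ≤ 3`).
-/

namespace VKZ

open ArithmeticFunction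

/-- Gaussian sum with coefficients `a`. -/
noncomputable def gs (a : ℕ → ℝ) (w τ : ℝ) : ℂ :=
  ∑' n : ℕ, (a n : ℂ) * (n : ℂ) ^ (-(1 + τ * Complex.I)) * Real.exp (-(Real.log n - w) ^ 2 / 2)

private theorem PrimeG_log {K w x : ℝ} (hw : 1 ≤ w) (hx : x ≤ Real.exp (K * w) + w) (hx0 : 0 ≤ x) :
    0 < Real.log (x + 3) ∧ Real.log (x + 3) ≤ (|K| + 5) * w := by
  constructor
  · exact Real.log_pos (by linarith)
  · have h1 : Real.exp (K * w) ≤ Real.exp ((|K| + 3) * w) := by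
      refine Real.exp_le_exp.2 ?_
      have := le_abs_self K
      nlinarith
    have h2 : w ≤ Real.exp ((|K| + 3) * w) := by
      have h3 := Real.add_one_le_exp ((|K| + 3) * w)
      have h4 := abs_nonneg K
      nlinarith
    have h3 : (3 : ℝ) ≤ Real.exp ((|K| + 3) * w) := by
      have h3 := Real.add_one_le_exp ((|K| + 3) * w)
      have h4 := abs_nonneg K
      nlinarith
    have h4 : (3 : ℝ) ≤ Real.exp (2 * w) := by
      have := Real.add_one_le_exp (2 * w)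
      linarith
    have h5 : x + 3 ≤ Real.exp ((|K| + 5) * w) := by
      have e : Real.exp ((|K| + 5) * w) = Real.exp (2 * w) * Real.exp ((|K| + 3) * w) := by
        rw [← Real.exp_add]
        congr 1
        ring
      rw [e]
      have h6 : 0 < Real.exp ((|K| + 3) * w) := Real.exp_pos _
      nlinarith
    calc Real.log (x + 3) ≤ Real.log (Real.exp ((|K| + 5) * w)) :=
          Real.log_le_log (by linarith) h5
      _ = (|K| + 5) * w := Real.log_exp _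

private theorem PrimeG_small (D q κ A : ℝ) (hκ : 0 < κ) :
    ∃ w0 : ℝ, 1 ≤ w0 ∧ ∀ w : ℝ, w0 ≤ w →
      D * w ^ q * Real.exp (-κ * w ^ (1 / 20 : ℝ)) ≤ w ^ (-A) / 2 := by
  have h1 := tendsto_rpow_mul_exp_neg_mul_atTop_nhds_zero (20 * (q + A)) κ hκ
  have h2 : Filter.Tendsto (fun w : ℝ => w ^ (1 / 20 : ℝ)) Filter.atTop Filter.atTop :=
    tendsto_rpow_atTop (by norm_num)
  have h3 := (h1.comp h2).const_mul D
  rw [mul_zero] at h3
  have h4 := h3.eventually_le_const (show (0 : ℝ) < 1 / 2 by norm_num)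
  obtain ⟨w0, hw0⟩ := Filter.eventually_atTop.1 h4
  refine ⟨max 1 w0, le_max_left _ _, fun w hw => ?_⟩
  have hw1 : 1 ≤ w := (le_max_left _ _).trans hw
  have hwp : 0 < w := by linarith
  have h5 := hw0 w ((le_max_right _ _).trans hw)
  simp only [Function.comp_apply] at h5
  have h6 : (w ^ (1 / 20 : ℝ)) ^ (20 * (q + A)) = w ^ q * w ^ A := by
    rw [← Real.rpow_mul hwp.le, ← Real.rpow_add hwp]
    congr 1
    ring
  rw [h6] at h5
  have h7 : 0 < w ^ A := Real.rpow_pos_of_pos hwp _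
  rw [Real.rpow_neg hwp.le, inv_eq_one_div, div_div, le_div_iff₀ (by positivity)]
  calc D * w ^ q * Real.exp (-κ * w ^ (1 / 20 : ℝ)) * (w ^ A * 2)
      = D * (w ^ q * w ^ A * Real.exp (-κ * w ^ (1 / 20 : ℝ))) * 2 := by ring
    _ ≤ 1 / 2 * 2 := by gcongr
    _ = 1 := by norm_num

private theorem PrimeG_shift {F : ℂ → ℂ} {c C C2 : ℝ} (hc : 0 < c) (hc1 : c ≤ 1 / 4)
    (hC : 1 ≤ C) (hC2 : 0 ≤ C2)
    (hF : ∀ z : ℂ, z.re ≤ 3 → 1 - c * (Real.log (|z.im| + 3)) ^ (-(19 : ℝ) / 20) ≤ z.re →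
      AnalyticAt ℂ F z ∧ ‖F z‖ ≤ C * Real.log (|z.im| + 3) ^ C)
    (hF' : ∀ z : ℂ, 1 < z.re → z.re ≤ 2 → ‖F z‖ ≤ C2 / (z.re - 1)) (K : ℝ) :
    ∃ D κ q : ℝ, 0 < κ ∧ ∀ w τ : ℝ, 1 ≤ w → |τ| ≤ Real.exp (K * w) →
      ‖gint F (1 / w) w τ‖ ≤ D * w ^ q * Real.exp (-κ * w ^ (1 / 20 : ℝ)) := by
  obtain ⟨K1, hK1⟩ : ∃ K1 : ℝ, K1 = |K| + 5 := ⟨_, rfl⟩
  have hK5 : 5 ≤ K1 := by
    rw [hK1]
    have := abs_nonneg K
    linarith
  have hK0 : 0 < K1 := by linarith
  obtain ⟨c', hc'⟩ : ∃ c' : ℝ, c' = c * K1 ^ (-(19 : ℝ) / 20) := ⟨_, rfl⟩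
  have hc'0 : 0 < c' := by
    rw [hc']
    exact mul_pos hc (Real.rpow_pos_of_pos hK0 _)
  refine ⟨C * K1 ^ C * Real.exp 1 + 4 * (C * K1 ^ C) * Real.exp 2 + 6 * C2 * Real.exp 2,
    min c' (1 / 4), C + 1, lt_min hc'0 (by norm_num), fun w τ hw hτ => ?_⟩
  obtain ⟨κ, hκ⟩ : ∃ κ : ℝ, κ = min c' (1 / 4) := ⟨_, rfl⟩
  rw [← hκ]
  have hκ1 : κ ≤ c' := by rw [hκ]; exact min_le_left _ _
  have hκ2 : κ ≤ 1 / 4 := by rw [hκ]; exact min_le_right _ _
  have hκ0 : 0 < κ := by rw [hκ]; exact lt_min hc'0 (by norm_num)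
  have hwp : 0 < w := by linarith
  have hKw : 1 ≤ K1 * w := by nlinarith
  -- the width
  obtain ⟨b, hb⟩ : ∃ b : ℝ, b = c * (K1 * w) ^ (-(19 : ℝ) / 20) := ⟨_, rfl⟩
  have hb0 : 0 < b := by
    rw [hb]
    exact mul_pos hc (Real.rpow_pos_of_pos (by linarith) _)
  have hb1 : b ≤ 1 / 4 := by
    rw [hb]
    have : (K1 * w) ^ (-(19 : ℝ) / 20) ≤ 1 :=
      Real.rpow_le_one_of_one_le_of_nonpos hKw (by norm_num)
    nlinarith
  have hbw : b * w = c' * w ^ (1 / 20 : ℝ) := by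
    rw [hb, hc', Real.mul_rpow hK0.le hwp.le]
    have : w ^ (-(19 : ℝ) / 20) * w = w ^ (1 / 20 : ℝ) := by
      rw [← Real.rpow_add_one hwp.ne']
      congr 1
      norm_num
    rw [← this]
    ring
  have hroot : w ^ (1 / 20 : ℝ) ≤ w := by
    calc w ^ (1 / 20 : ℝ) ≤ w ^ (1 : ℝ) := Real.rpow_le_rpow_of_exponent_le hw (by norm_num)
      _ = w := Real.rpow_one w
  have hroot0 : 0 < w ^ (1 / 20 : ℝ) := Real.rpow_pos_of_pos hwp _
  obtain ⟨B, hB⟩ : ∃ B : ℝ, B = C * (K1 * w) ^ C := ⟨_, rfl⟩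
  have hB0 : 0 ≤ B := by
    rw [hB]
    exact mul_nonneg (by linarith) (Real.rpow_nonneg (by linarith) _)
  have hσ0 : 0 < 1 / w := by positivity
  have hσ1 : 1 / w ≤ 1 := by
    rw [div_le_one hwp]
    exact hw
  have hregion : ∀ z : ℂ, 1 - b ≤ z.re → z.re ≤ 2 → |z.im - τ| ≤ w →
      AnalyticAt ℂ F z ∧ ‖F z‖ ≤ B := by
    intro z h1 h2 h3
    have him : |z.im| ≤ Real.exp (K * w) + w := by
      have h4 : |z.im| ≤ |z.im - τ| + |τ| := by
        have := abs_add_le (z.im - τ) τ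
        simpa using this
      linarith
    obtain ⟨hl0, hl1⟩ := PrimeG_log (K := K) hw him (abs_nonneg _)
    rw [← hK1] at hl1
    have h5 : (K1 * w) ^ (-(19 : ℝ) / 20) ≤ (Real.log (|z.im| + 3)) ^ (-(19 : ℝ) / 20) :=
      Real.rpow_le_rpow_of_nonpos hl0 hl1 (by norm_num)
    have h6 : 1 - c * (Real.log (|z.im| + 3)) ^ (-(19 : ℝ) / 20) ≤ z.re := by
      have : b ≤ c * (Real.log (|z.im| + 3)) ^ (-(19 : ℝ) / 20) := by
        rw [hb]
        exact mul_le_mul_of_nonneg_left h5 hc.le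
      linarith
    obtain ⟨h7, h8⟩ := hF z (by linarith) h6
    refine ⟨h7, h8.trans ?_⟩
    rw [hB]
    exact mul_le_mul_of_nonneg_left (Real.rpow_le_rpow hl0.le hl1 (by linarith)) (by linarith)
  have hline : ∀ v : ℝ, (1 + (τ : ℂ) * Complex.I + (((1 / w : ℝ) : ℂ) + v * Complex.I)).re =
      1 + 1 / w := by
    intro v
    simp
  have hbd : ∀ v : ℝ, ‖F (1 + τ * Complex.I + (((1 / w : ℝ) : ℂ) + v * Complex.I))‖ ≤ C2 * w := by
    intro v
    have h1 := hF' (1 + τ * Complex.I + (((1 / w : ℝ) : ℂ) + v * Complex.I))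
      (by rw [hline]; linarith) (by rw [hline]; linarith)
    rw [hline] at h1
    have h2 : C2 / (1 + 1 / w - 1) = C2 * w := by
      field_simp
      ring
    rwa [h2] at h1
  have hcont : Continuous fun v : ℝ => F (1 + τ * Complex.I +
      (((1 / w : ℝ) : ℂ) + v * Complex.I)) := by
    rw [continuous_iff_continuousAt]
    intro v
    have h1 : ContinuousAt F (1 + τ * Complex.I + (((1 / w : ℝ) : ℂ) + v * Complex.I)) := by
      refine (hF _ (by rw [hline]; linarith) ?_).1.continuousAt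
      rw [hline]
      have h2 : 0 ≤ c * (Real.log (|(1 + τ * Complex.I +
          (((1 / w : ℝ) : ℂ) + v * Complex.I)).im| + 3)) ^ (-(19 : ℝ) / 20) := by
        refine mul_nonneg hc.le (Real.rpow_nonneg (Real.log_nonneg ?_) _)
        have := abs_nonneg (1 + (τ : ℂ) * Complex.I +
          (((1 / w : ℝ) : ℂ) + v * Complex.I)).im
        linarith
      linarith
    refine ContinuousAt.comp (f := fun v : ℝ => 1 + (τ : ℂ) * Complex.I +
      (((1 / w : ℝ) : ℂ) + v * Complex.I)) h1 ?_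
    fun_prop
  have hsh := shift_le (F := F) (b := b) (B := B) (B' := C2 * w) (σ := 1 / w) (w := w) (τ := τ)
    (V := w) hb0 (by linarith) hσ0 hσ1 hwp.le hw hB0 (by positivity) hregion hbd hcont
  refine hsh.trans ?_
  have hσw : 1 / w * w = 1 := by field_simp
  have hσsq : (1 / w) ^ 2 ≤ 1 := pow_le_one₀ hσ0.le hσ1
  have hbsq : b ^ 2 ≤ 1 := pow_le_one₀ hb0.le (by linarith)
  have hE : Real.exp (-κ * w ^ (1 / 20 : ℝ)) = Real.exp (-κ * w ^ (1 / 20 : ℝ)) := rfl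
  have hww : w ≤ w ^ 2 := by nlinarith
  -- the three exponentials
  have e1 : Real.exp (b ^ 2 / 2 - b * w) ≤ Real.exp 1 * Real.exp (-κ * w ^ (1 / 20 : ℝ)) := by
    rw [← Real.exp_add, hbw]
    refine Real.exp_le_exp.2 ?_
    nlinarith
  have e2 : Real.exp (((1 / w) ^ 2 + b ^ 2 - w ^ 2) / 2 + 1 / w * w) ≤
      Real.exp 2 * Real.exp (-κ * w ^ (1 / 20 : ℝ)) := by
    rw [← Real.exp_add, hσw]
    refine Real.exp_le_exp.2 ?_
    nlinarith
  have e3 : Real.exp ((1 / w) ^ 2 / 2 + 1 / w * w - w ^ 2 / 4) ≤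
      Real.exp 2 * Real.exp (-κ * w ^ (1 / 20 : ℝ)) := by
    rw [← Real.exp_add, hσw]
    refine Real.exp_le_exp.2 ?_
    nlinarith
  have hEp : 0 < Real.exp (-κ * w ^ (1 / 20 : ℝ)) := Real.exp_pos _
  have hBw : B ≤ C * K1 ^ C * w ^ (C + 1) := by
    rw [hB, Real.mul_rpow hK0.le hwp.le, mul_assoc]
    refine mul_le_mul_of_nonneg_left (mul_le_mul_of_nonneg_left
      (Real.rpow_le_rpow_of_exponent_le hw (by linarith)) (Real.rpow_nonneg hK0.le _))
      (by linarith)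
  have hww2 : w ≤ w ^ (C + 1) := by
    calc w = w ^ (1 : ℝ) := (Real.rpow_one w).symm
      _ ≤ w ^ (C + 1) := Real.rpow_le_rpow_of_exponent_le hw (by linarith)
  have hwC : 0 < w ^ (C + 1) := Real.rpow_pos_of_pos hwp _
  have hbσ : b + 1 / w ≤ 2 := by linarith
  calc B * Real.exp (b ^ 2 / 2 - b * w) +
      2 * B * (b + 1 / w) * Real.exp (((1 / w) ^ 2 + b ^ 2 - w ^ 2) / 2 + 1 / w * w) +
      6 * (C2 * w) * Real.exp ((1 / w) ^ 2 / 2 + 1 / w * w - w ^ 2 / 4)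
      ≤ (C * K1 ^ C * w ^ (C + 1)) * (Real.exp 1 * Real.exp (-κ * w ^ (1 / 20 : ℝ))) +
      2 * (C * K1 ^ C * w ^ (C + 1)) * 2 * (Real.exp 2 * Real.exp (-κ * w ^ (1 / 20 : ℝ))) +
      6 * (C2 * w ^ (C + 1)) * (Real.exp 2 * Real.exp (-κ * w ^ (1 / 20 : ℝ))) := by
        gcongr
    _ = _ := by ring

private theorem PrimeG_gint_congr {F G : ℂ → ℂ} {σ : ℝ} (w τ : ℝ)
    (h : ∀ z : ℂ, z.re = 1 + σ → F z = G z) : gint F σ w τ = gint G σ w τ := by
  unfold gint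
  congr 1
  refine MeasureTheory.integral_congr_ae (Filter.Eventually.of_forall fun v => ?_)
  simp only
  rw [h]
  simp

private theorem PrimeG_series {f : ℕ → ℂ} (h0 : f 0 = 0) (z : ℂ) :
    ∑' n : ℕ, f n * (n : ℂ) ^ (-z) = LSeries f z := by
  unfold LSeries
  refine tsum_congr fun n => ?_
  rcases Nat.eq_zero_or_pos n with rfl | hn
  · simp [h0]
  · rw [LSeries.term_of_ne_zero hn.ne', Complex.cpow_neg, div_eq_mul_inv]

private theorem PrimeG_summ {f : ℕ → ℂ} (h0 : f 0 = 0) {σ : ℝ} (h : LSeriesSummable f σ) :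
    Summable fun n : ℕ => ‖f n‖ * (n : ℝ) ^ (-σ) := by
  have h1 : Summable fun n => ‖LSeries.term f σ n‖ := h.norm
  refine h1.congr fun n => ?_
  rcases Nat.eq_zero_or_pos n with rfl | hn
  · simp [h0]
  · rw [LSeries.norm_term_eq, if_neg hn.ne', Complex.ofReal_re, Real.rpow_neg (by positivity),
      div_eq_mul_inv]

private theorem PrimeG_ne_one {z : ℂ} (hz : 1 < z.re) : z ≠ 1 := by
  rintro rfl
  simp at hz

private theorem PrimeG_Zf {z : ℂ} (hz : 1 < z.re) : Zf z = (z - 1) * riemannZeta z := by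
  unfold Zf
  rw [if_neg (PrimeG_ne_one hz)]

private theorem PrimeG_iz {z : ℂ} (hz : 1 < z.re) : iz z = (riemannZeta z)⁻¹ := by
  unfold iz
  rw [PrimeG_Zf hz]
  have h1 : z - 1 ≠ 0 := sub_ne_zero.2 (PrimeG_ne_one hz)
  have h2 : riemannZeta z ≠ 0 := riemannZeta_ne_zero_of_one_lt_re hz
  field_simp

private theorem PrimeG_logderiv {z : ℂ} (hz : 1 < z.re) :
    deriv Zf z / Zf z = 1 / (z - 1) + deriv riemannZeta z / riemannZeta z := by
  have h1 : z - 1 ≠ 0 := sub_ne_zero.2 (PrimeG_ne_one hz)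
  have h2 : riemannZeta z ≠ 0 := riemannZeta_ne_zero_of_one_lt_re hz
  have h3 : Zf =ᶠ[nhds z] fun s => (s - 1) * riemannZeta s := by
    refine Filter.eventuallyEq_iff_exists_mem.mpr ⟨{s | 1 < s.re},
      (isOpen_lt continuous_const Complex.continuous_re).mem_nhds hz, fun s hs => ?_⟩
    exact PrimeG_Zf hs
  have h4 : HasDerivAt (fun s : ℂ => (s - 1) * riemannZeta s)
      (1 * riemannZeta z + (z - 1) * deriv riemannZeta z) z :=
    ((hasDerivAt_id z).sub_const 1).mul (differentiableAt_riemannZeta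
      (PrimeG_ne_one hz)).hasDerivAt
  rw [h3.deriv_eq, h4.deriv, PrimeG_Zf hz]
  field_simp

private theorem PrimeG_mellin {f : ℕ → ℂ} (h0 : f 0 = 0)
    (h : ∀ σ : ℝ, 1 < σ → LSeriesSummable f σ) {G : ℂ → ℂ}
    (hG : ∀ z : ℂ, 1 < z.re → LSeries f z = G z) {σ : ℝ} (hσ : 0 < σ) (w τ : ℝ) :
    ∑' n : ℕ, f n * (n : ℂ) ^ (-(1 + τ * Complex.I)) * Real.exp (-(Real.log n - w) ^ 2 / 2) =
      gint G σ w τ := by
  rw [gauss_mellin (fun σ hσ => PrimeG_summ h0 (h σ hσ)) h0 hσ w τ]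
  refine PrimeG_gint_congr w τ fun z hz => ?_
  rw [PrimeG_series h0, hG z (by rw [hz]; linarith)]

theorem mu_gauss (K A : ℝ) : ∃ w0 : ℝ, 1 ≤ w0 ∧ ∀ w τ : ℝ, w0 ≤ w → |τ| ≤ Real.exp (K * w) →
    ‖gs (fun n => (moebius n : ℝ)) w τ‖ ≤ w ^ (-A) := by
  obtain ⟨c, C, hc, hc1, hC, hreg⟩ := region
  obtain ⟨c2, hc2, hlow⟩ := zeta_lower
  have hF : ∀ z : ℂ, z.re ≤ 3 → 1 - c * (Real.log (|z.im| + 3)) ^ (-(19 : ℝ) / 20) ≤ z.re →
      AnalyticAt ℂ iz z ∧ ‖iz z‖ ≤ C * Real.log (|z.im| + 3) ^ C := by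
    intro z h1 h2
    obtain ⟨h3, -, h4⟩ := hreg z h1 h2
    refine ⟨?_, h4⟩
    have h5 : AnalyticAt ℂ Zf z := Zf_analytic.analyticAt z
    have h6 : AnalyticAt ℂ (fun s : ℂ => s - 1) z := analyticAt_id.sub analyticAt_const
    exact h6.div h5 h3
  have hF' : ∀ z : ℂ, 1 < z.re → z.re ≤ 2 → ‖iz z‖ ≤ (1 / c2) / (z.re - 1) := by
    intro z h1 h2
    rw [PrimeG_iz h1, norm_inv]
    have h3 := hlow z h1 (by linarith)
    have h4 : 0 < c2 * (z.re - 1) := mul_pos hc2 (by linarith)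
    calc ‖riemannZeta z‖⁻¹ ≤ (c2 * (z.re - 1))⁻¹ := inv_anti₀ h4 h3
      _ = (1 / c2) / (z.re - 1) := by
        rw [mul_inv, one_div, div_eq_mul_inv]
  obtain ⟨D, κ, q, hκ, hb⟩ := PrimeG_shift hc hc1 hC (by positivity) hF hF' K
  obtain ⟨w0, hw0, hs⟩ := PrimeG_small D q κ A hκ
  refine ⟨w0, hw0, fun w τ hw hτ => ?_⟩
  have hw1 : 1 ≤ w := hw0.trans hw
  have hwp : 0 < w := by linarith
  have h0 : ((moebius 0 : ℤ) : ℂ) = 0 := by simp
  have h1 : gs (fun n => (moebius n : ℝ)) w τ = gint iz (1 / w) w τ := by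
    unfold gs
    have h2 := PrimeG_mellin (f := fun n => ((moebius n : ℤ) : ℂ)) h0
      (fun σ hσ => LSeriesSummable_moebius_iff.2 (by simpa using hσ)) (G := iz)
      (fun z hz => by
        rw [PrimeG_iz hz]
        have h3 := LSeries_zeta_mul_Lseries_moebius hz
        rw [LSeries_zeta_eq_riemannZeta hz] at h3
        exact eq_inv_of_mul_eq_one_right h3) (σ := 1 / w) (by positivity) w τ
    rw [← h2]
    refine tsum_congr fun n => ?_
    push_cast
    rfl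
  rw [h1]
  have h2 := hb w τ hw1 hτ
  have h3 := hs w hw
  have h4 : 0 < w ^ (-A) := Real.rpow_pos_of_pos hwp _
  linarith

private theorem PrimeG_quad (w τ x : ℝ) :
    Complex.exp (-(τ * x * Complex.I)) * Real.exp (-(x - w) ^ 2 / 2) =
      Complex.exp ((-1 / 2 : ℂ) * (x : ℂ) ^ 2 + ((w : ℂ) - τ * Complex.I) * x + (-(w : ℂ) ^ 2 / 2)) := by
  rw [Complex.ofReal_exp, ← Complex.exp_add]
  congr 1
  push_cast
  ring

private theorem PrimeG_full (w τ : ℝ) :
    ∫ x : ℝ, Complex.exp (-(τ * x * Complex.I)) * Real.exp (-(x - w) ^ 2 / 2) =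
      Real.sqrt (2 * Real.pi) * Real.exp (-τ ^ 2 / 2) * Complex.exp (-(τ * w * Complex.I)) := by
  have hb : ((-1 / 2 : ℂ)).re < 0 := by norm_num
  simp_rw [PrimeG_quad]
  rw [integral_cexp_quadratic hb]
  have h1 : ((Real.pi : ℂ) / -(-1 / 2 : ℂ)) ^ (1 / 2 : ℂ) = ((Real.sqrt (2 * Real.pi) : ℝ) : ℂ) := by
    rw [Real.sqrt_eq_rpow, Complex.ofReal_cpow (by positivity)]
    congr 1
    · push_cast
      ring
    · push_cast
      ring
  rw [h1, Complex.ofReal_exp, mul_assoc, ← Complex.exp_add]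
  congr 2
  push_cast
  have hI : Complex.I ^ 2 = -1 := Complex.I_sq
  ring_nf
  rw [hI]
  ring

/-- The main term. -/
private theorem PrimeG_main {w : ℝ} (hw : 0 ≤ w) (τ : ℝ) :
    ‖(∫ x in Set.Ioi (0 : ℝ), Complex.exp (-(τ * x * Complex.I)) *
        Real.exp (-(x - w) ^ 2 / 2)) -
      Real.sqrt (2 * Real.pi) * Real.exp (-τ ^ 2 / 2) * Complex.exp (-(τ * w * Complex.I))‖ ≤
      3 * Real.exp (-w ^ 2 / 2) := by
  have hb : ((-1 / 2 : ℂ)).re < 0 := by norm_num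
  have hint : MeasureTheory.Integrable (fun x : ℝ => Complex.exp (-(τ * x * Complex.I)) *
      Real.exp (-(x - w) ^ 2 / 2)) := by
    simp_rw [PrimeG_quad]
    exact integrable_cexp_quadratic' hb _ _
  have h1 := MeasureTheory.integral_add_compl (measurableSet_Ioi (a := (0 : ℝ))) hint
  rw [PrimeG_full, Set.compl_Ioi] at h1
  rw [← h1, sub_add_eq_sub_sub, sub_self, zero_sub, norm_neg]
  have hg0 : MeasureTheory.Integrable (fun x : ℝ => Real.exp (-(1 / 2) * x ^ 2)) :=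
    integrable_exp_neg_mul_sq (by norm_num)
  have hg : MeasureTheory.Integrable (fun x : ℝ => Real.exp (-w ^ 2 / 2) *
      Real.exp (-(1 / 2) * x ^ 2)) := hg0.const_mul _
  have h2 : ‖∫ x in Set.Iic (0 : ℝ), Complex.exp (-(τ * x * Complex.I)) *
      Real.exp (-(x - w) ^ 2 / 2)‖ ≤ ∫ x in Set.Iic (0 : ℝ), Real.exp (-w ^ 2 / 2) *
      Real.exp (-(1 / 2) * x ^ 2) := by
    refine MeasureTheory.norm_integral_le_of_norm_le hg.integrableOn ?_
    filter_upwards [MeasureTheory.ae_restrict_mem measurableSet_Iic] with x hx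
    have hx0 : x ≤ 0 := hx
    rw [norm_mul, Complex.norm_real, Real.norm_of_nonneg (Real.exp_pos _).le]
    have h3 : ‖Complex.exp (-(τ * x * Complex.I))‖ = 1 := by
      have : -((τ : ℂ) * x * Complex.I) = ((-(τ * x) : ℝ) : ℂ) * Complex.I := by
        push_cast
        ring
      rw [this, Complex.norm_exp_ofReal_mul_I]
    rw [h3, one_mul, ← Real.exp_add]
    refine Real.exp_le_exp.2 ?_
    nlinarith
  refine h2.trans ((MeasureTheory.setIntegral_le_integral hg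
    (Filter.Eventually.of_forall fun x => by positivity)).trans ?_)
  rw [MeasureTheory.integral_const_mul, integral_gaussian]
  have h4 : Real.sqrt (Real.pi / (1 / 2)) ≤ 3 := by
    rw [Real.sqrt_le_left (by norm_num)]
    have := Real.pi_lt_d2
    linarith
  have h5 : 0 < Real.exp (-w ^ 2 / 2) := Real.exp_pos _
  nlinarith

private theorem PrimeG_integrable {F : ℂ → ℂ} {σ B w τ : ℝ}
    (hc : Continuous fun v : ℝ => F (1 + τ * Complex.I + ((σ : ℂ) + v * Complex.I)))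
    (hB : ∀ v : ℝ, ‖F (1 + τ * Complex.I + ((σ : ℂ) + v * Complex.I))‖ ≤ B) :
    MeasureTheory.Integrable fun v : ℝ =>
      Complex.exp (((σ : ℂ) + v * Complex.I) ^ 2 / 2 + ((σ : ℂ) + v * Complex.I) * w) *
      F (1 + τ * Complex.I + ((σ : ℂ) + v * Complex.I)) := by
  have h1 : MeasureTheory.Integrable fun v : ℝ =>
      Complex.exp (((σ : ℂ) + v * Complex.I) ^ 2 / 2 + ((σ : ℂ) + v * Complex.I) * w) := by
    have h2 := integrable_cexp_quadratic' (show ((-1 / 2 : ℂ)).re < 0 by norm_num)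
      ((σ + w : ℂ) * Complex.I) ((σ : ℂ) ^ 2 / 2 + σ * w)
    refine h2.congr (Filter.Eventually.of_forall fun v => ?_)
    simp only
    congr 1
    have hI : Complex.I ^ 2 = -1 := Complex.I_sq
    ring_nf
    rw [hI]
    ring
  exact h1.mul_bdd hc.aestronglyMeasurable (Filter.Eventually.of_forall hB)

theorem prime_gauss (K A : ℝ) : ∃ w0 : ℝ, 1 ≤ w0 ∧ ∀ w τ : ℝ, w0 ≤ w → |τ| ≤ Real.exp (K * w) →
    ‖gs (fun n => vonMangoldt n) w τ -
      Real.sqrt (2 * Real.pi) * Real.exp (-τ ^ 2 / 2) * Complex.exp (-(τ * w * Complex.I))‖ ≤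
      w ^ (-A) := by
  obtain ⟨c, C, hc, hc1, hC, hreg⟩ := region
  obtain ⟨c2, hc2, hup⟩ := logderiv_upper
  have hF : ∀ z : ℂ, z.re ≤ 3 → 1 - c * (Real.log (|z.im| + 3)) ^ (-(19 : ℝ) / 20) ≤ z.re →
      AnalyticAt ℂ (fun z => deriv Zf z / Zf z) z ∧
        ‖(fun z => deriv Zf z / Zf z) z‖ ≤ C * Real.log (|z.im| + 3) ^ C := by
    intro z h1 h2
    obtain ⟨h3, h4, -⟩ := hreg z h1 h2
    refine ⟨?_, h4⟩
    have h5 : AnalyticAt ℂ Zf z := Zf_analytic.analyticAt z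
    exact h5.deriv.div h5 h3
  have hF' : ∀ z : ℂ, 1 < z.re → z.re ≤ 2 →
      ‖(fun z => deriv Zf z / Zf z) z‖ ≤ (2 + c2) / (z.re - 1) := by
    intro z h1 h2
    show ‖deriv Zf z / Zf z‖ ≤ _
    rw [PrimeG_logderiv h1]
    have h3 := hup z h1
    have h4 : 0 < z.re - 1 := by linarith
    have h5 : ‖1 / (z - 1)‖ ≤ 1 / (z.re - 1) := by
      rw [norm_div, norm_one]
      refine one_div_le_one_div_of_le h4 ?_
      have := Complex.abs_re_le_norm (z - 1)
      rw [Complex.sub_re, Complex.one_re, abs_of_pos h4] at this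
      exact this
    have h6 : c2 ≤ c2 / (z.re - 1) := by
      rw [le_div_iff₀ h4]
      nlinarith
    calc ‖1 / (z - 1) + deriv riemannZeta z / riemannZeta z‖
        ≤ ‖1 / (z - 1)‖ + ‖deriv riemannZeta z / riemannZeta z‖ := norm_add_le _ _
      _ ≤ 1 / (z.re - 1) + (1 / (z.re - 1) + c2 / (z.re - 1)) := by linarith
      _ = (2 + c2) / (z.re - 1) := by ring
  obtain ⟨D, κ, q, hκ, hb⟩ := PrimeG_shift hc hc1 hC (by positivity) hF hF' K
  obtain ⟨w0, hw0, hs⟩ := PrimeG_small D q κ A hκ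
  obtain ⟨w1, hw1, hs1⟩ := PrimeG_small 3 0 (1 / 2) A (by norm_num)
  refine ⟨max w0 w1, hw0.trans (le_max_left _ _), fun w τ hw hτ => ?_⟩
  have hw1 : 1 ≤ w := hw0.trans ((le_max_left _ _).trans hw)
  have hwp : 0 < w := by linarith
  have hσ0 : 0 < 1 / w := by positivity
  have hσ1 : 1 / w ≤ 1 := by
    rw [div_le_one hwp]
    exact hw1
  have h0 : ((vonMangoldt 0 : ℝ) : ℂ) = 0 := by simp
  have h1 : gs (fun n => vonMangoldt n) w τ =
      gint (fun z => 1 / (z - 1) - deriv Zf z / Zf z) (1 / w) w τ := by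
    unfold gs
    have h2 := PrimeG_mellin (f := fun n => ((vonMangoldt n : ℝ) : ℂ)) h0
      (fun σ hσ => LSeriesSummable_vonMangoldt (by simpa using hσ))
      (G := fun z => 1 / (z - 1) - deriv Zf z / Zf z)
      (fun z hz => by
        rw [PrimeG_logderiv hz, LSeries_vonMangoldt_eq_deriv_riemannZeta_div hz]
        ring) hσ0 w τ
    exact h2
  have hline : ∀ v : ℝ, (1 + (τ : ℂ) * Complex.I + (((1 / w : ℝ) : ℂ) + v * Complex.I)).re =
      1 + 1 / w := by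
    intro v
    simp
  -- the two parts
  have hcont2 : Continuous fun v : ℝ => (fun z => deriv Zf z / Zf z) (1 + τ * Complex.I +
      (((1 / w : ℝ) : ℂ) + v * Complex.I)) := by
    rw [continuous_iff_continuousAt]
    intro v
    have h1 : ContinuousAt (fun z => deriv Zf z / Zf z)
        (1 + τ * Complex.I + (((1 / w : ℝ) : ℂ) + v * Complex.I)) := by
      refine (hF _ (by rw [hline]; linarith) ?_).1.continuousAt
      rw [hline]
      have h2 : 0 ≤ c * (Real.log (|(1 + τ * Complex.I +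
          (((1 / w : ℝ) : ℂ) + v * Complex.I)).im| + 3)) ^ (-(19 : ℝ) / 20) := by
        refine mul_nonneg hc.le (Real.rpow_nonneg (Real.log_nonneg ?_) _)
        have := abs_nonneg (1 + (τ : ℂ) * Complex.I +
          (((1 / w : ℝ) : ℂ) + v * Complex.I)).im
        linarith
      linarith
    refine ContinuousAt.comp (f := fun v : ℝ => 1 + (τ : ℂ) * Complex.I +
      (((1 / w : ℝ) : ℂ) + v * Complex.I)) h1 ?_
    fun_prop
  have hI2 := PrimeG_integrable (F := fun z => deriv Zf z / Zf z) (σ := 1 / w) (w := w) (τ := τ)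
    hcont2 (fun v => hF' _ (by rw [hline]; linarith) (by rw [hline]; linarith) |>.trans
      (le_of_eq (by rw [hline] : _ = (2 + c2) / (1 + 1 / w - 1))))
  have hne : ∀ v : ℝ, 1 + (τ : ℂ) * Complex.I + (((1 / w : ℝ) : ℂ) + v * Complex.I) - 1 ≠ 0 := by
    intro v
    exact sub_ne_zero.2 (PrimeG_ne_one (by rw [hline]; linarith))
  have hcont1 : Continuous fun v : ℝ => (fun z : ℂ => 1 / (z - 1)) (1 + τ * Complex.I +
      (((1 / w : ℝ) : ℂ) + v * Complex.I)) := by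
    refine Continuous.div continuous_const (by fun_prop) hne
  have hI1 := PrimeG_integrable (F := fun z : ℂ => 1 / (z - 1)) (σ := 1 / w) (w := w) (τ := τ)
    (B := w) hcont1 (fun v => by
      show ‖1 / (1 + (τ : ℂ) * Complex.I + (((1 / w : ℝ) : ℂ) + v * Complex.I) - 1)‖ ≤ w
      rw [norm_div, norm_one]
      have h2 := Complex.abs_re_le_norm
        (1 + (τ : ℂ) * Complex.I + (((1 / w : ℝ) : ℂ) + v * Complex.I) - 1)
      rw [Complex.sub_re, hline, Complex.one_re, add_sub_cancel_left, abs_of_pos hσ0] at h2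
      calc 1 / ‖1 + (τ : ℂ) * Complex.I + (((1 / w : ℝ) : ℂ) + v * Complex.I) - 1‖
          ≤ 1 / (1 / w) := one_div_le_one_div_of_le hσ0 h2
        _ = w := by rw [one_div_one_div])
  have h2 : gint (fun z => 1 / (z - 1) - deriv Zf z / Zf z) (1 / w) w τ =
      gint (fun z => 1 / (z - 1)) (1 / w) w τ - gint (fun z => deriv Zf z / Zf z) (1 / w) w τ := by
    unfold gint
    rw [← mul_sub, ← MeasureTheory.integral_sub hI1 hI2]
    congr 1
    refine MeasureTheory.integral_congr_ae (Filter.Eventually.of_forall fun v => ?_)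
    simp only
    ring
  rw [h1, h2, laplace_gauss hσ0]
  have h3 := PrimeG_main hwp.le τ
  have h4 := hb w τ hw1 hτ
  have h5 := hs w ((le_max_left _ _).trans hw)
  have h6 := hs1 w ((le_max_right _ _).trans hw)
  have h7 : 3 * Real.exp (-w ^ 2 / 2) ≤
      3 * w ^ (0 : ℝ) * Real.exp (-(1 / 2) * w ^ (1 / 20 : ℝ)) := by
    rw [Real.rpow_zero, mul_one]
    refine mul_le_mul_of_nonneg_left (Real.exp_le_exp.2 ?_) (by norm_num)
    have hroot : w ^ (1 / 20 : ℝ) ≤ w := by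
      calc w ^ (1 / 20 : ℝ) ≤ w ^ (1 : ℝ) := Real.rpow_le_rpow_of_exponent_le hw1 (by norm_num)
        _ = w := Real.rpow_one w
    nlinarith
  have h8 : ∀ a b m : ℂ, ‖a - b - m‖ ≤ ‖a - m‖ + ‖b‖ := by
    intro a b m
    have : a - b - m = (a - m) - b := by ring
    rw [this]
    exact norm_sub_le _ _
  refine (h8 _ _ _).trans ?_
  linarith

end VKZ
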