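import Mathlib

/-!
# VKZ.LandauL: Landau's lemmas on logarithmic derivatives

PROOF. `landau_point`: translate to `z0 = 0`. `f` has finitely many zeros in the open disc of radius `r`. Dividing
by the Blaschke factors `b_ρ(z) = r(z - ρ)/(r² - conj ρ z)` (modulus `1` on the circle `|z| = r`; Mathlib:
`Complex.canonicalFactor` and the finite canonical decomposition in
`Mathlib/Analysis/Complex/CanonicalDecomposition.lean`) we get `H` analytic without zeros in the open disc, with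
`|H| ≤ exp(M) |f(0)|` (maximum principle; first on discs of radius slightly smaller than `r` if convenient)
and `|H(0)| ≥ |f(0)|` (as `|b_ρ(0)| ≤ 1`). `G = log (H/H(0))` is analytic with `G(0) = 0`, `Re G ≤ M`, so
`|G'(0)| ≤ 2M/r` (Borel-Carathéodory: `Complex.borelCaratheodory_zero` and `r → 0`, or the Schwarz lemma).
`f'/f(0) = G'(0) + ∑_ρ b_ρ'/b_ρ(0)` and `b_ρ'/b_ρ(0) = 1/(0 - ρ) - conj(0 - ρ)/r²`, whose real part is
`Re(-ρ) (1/|ρ|² - 1/r²) ≥ 0` when `Re ρ ≤ 0`. Drop all of them but the one of `ρ0` (real part of `z0 - ρ0` is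
`|z0 - ρ0| = d` here, as `ρ0 = z0 - d`).
`landau_free`: no zeros; `G = log (f/f(z0))`, `Re G ≤ M`; Borel-Carathéodory: `|G| ≤ 2M (3/4)/(1/4) = 6M` for
`|z - z0| ≤ 3r/4`; Cauchy's estimate on discs of radius `r/4`: `|G'| ≤ 24 M/r` for `|z - z0| ≤ r/2`.
-/

namespace VKZ

open Metric

private theorem LandauL_log {H : ℂ → ℂ} {r : ℝ} (hr : 0 < r)
    (hd : DifferentiableOn ℂ H (ball 0 r)) (h0 : ∀ z ∈ ball (0 : ℂ) r, H z ≠ 0) :
    ∃ L : ℂ → ℂ, L 0 = 0 ∧ (∀ z ∈ ball (0 : ℂ) r, HasDerivAt L (deriv H z / H z) z) ∧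
      ∀ z ∈ ball (0 : ℂ) r, H z = H 0 * Complex.exp (L z) := by
  have hopen : IsOpen (ball (0 : ℂ) r) := isOpen_ball
  have h00 : (0 : ℂ) ∈ ball (0 : ℂ) r := mem_ball_self hr
  have hld : DifferentiableOn ℂ (fun z => deriv H z / H z) (ball 0 r) :=
    (hd.deriv hopen).div hd h0
  obtain ⟨g, hg0, hg⟩ := hld.isExactOn_ball.with_val_at 0 0
  refine ⟨g, hg0, hg, ?_⟩
  have hconst : ∀ z ∈ ball (0 : ℂ) r, H z * Complex.exp (-g z) = H 0 * Complex.exp (-g 0) := by
    intro z hz
    have hder : ∀ w ∈ ball (0 : ℂ) r,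
        HasDerivAt (fun w => H w * Complex.exp (-g w)) 0 w := by
      intro w hw
      have h1 : HasDerivAt H (deriv H w) w :=
        (hd.differentiableAt (hopen.mem_nhds hw)).hasDerivAt
      have h2 : HasDerivAt (fun w => Complex.exp (-g w))
          (Complex.exp (-g w) * (-(deriv H w / H w))) w :=
        (hg w hw).neg.cexp
      have h3 := h1.mul h2
      have h4 : H w * (deriv H w / H w) = deriv H w := mul_div_cancel₀ _ (h0 w hw)
      have h5 : deriv H w * Complex.exp (-g w) +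
          H w * (Complex.exp (-g w) * (-(deriv H w / H w))) = 0 := by
        linear_combination (-Complex.exp (-g w)) * h4
      rw [h5] at h3
      exact h3
    refine (convex_ball (0 : ℂ) r).is_const_of_fderivWithin_eq_zero (𝕜 := ℂ)
      (f := fun w => H w * Complex.exp (-g w)) ?_ ?_ hz h00
    · exact fun w hw => (hder w hw).differentiableAt.differentiableWithinAt
    · intro w hw
      rw [fderivWithin_of_isOpen hopen hw]
      ext
      simpa using (hder w hw).deriv
  intro z hz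
  have := hconst z hz
  rw [hg0, neg_zero, Complex.exp_zero, mul_one] at this
  rw [← this, mul_assoc, ← Complex.exp_add, neg_add_cancel, Complex.exp_zero, mul_one]

private theorem LandauL_bc {H : ℂ → ℂ} {r M : ℝ} (hr : 0 < r) (hM : 0 < M)
    (hd : DifferentiableOn ℂ H (ball 0 r)) (h0 : ∀ z ∈ ball (0 : ℂ) r, H z ≠ 0)
    (hb : ∀ z ∈ ball (0 : ℂ) r, ‖H z‖ ≤ Real.exp M * ‖H 0‖) :
    ∃ L : ℂ → ℂ, (∀ z ∈ ball (0 : ℂ) r, HasDerivAt L (deriv H z / H z) z) ∧
      ∀ z ∈ ball (0 : ℂ) r, ‖L z‖ ≤ 2 * M * ‖z‖ / (r - ‖z‖) := by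
  obtain ⟨L, hL0, hL, hexp⟩ := LandauL_log hr hd h0
  refine ⟨L, hL, ?_⟩
  have h00 : (0 : ℂ) ∈ ball (0 : ℂ) r := mem_ball_self hr
  have hG0 : 0 < ‖H 0‖ := norm_pos_iff.2 (h0 0 h00)
  have hre : Set.MapsTo L (ball 0 r) {z | z.re ≤ M} := by
    intro z hz
    have h1 := hb z hz
    rw [hexp z hz, norm_mul, Complex.norm_exp, mul_comm] at h1
    exact Real.exp_le_exp.1 (le_of_mul_le_mul_right h1 hG0)
  have hLd : DifferentiableOn ℂ L (ball 0 r) :=
    fun z hz => (hL z hz).differentiableAt.differentiableWithinAt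
  intro z hz
  exact Complex.borelCaratheodory_zero hM hLd hre hr hz hL0

private theorem LandauL_zero {H : ℂ → ℂ} {r M : ℝ} (hr : 0 < r) (hM : 0 ≤ M)
    (hd : DifferentiableOn ℂ H (ball 0 r)) (h0 : ∀ z ∈ ball (0 : ℂ) r, H z ≠ 0)
    (hb : ∀ z ∈ ball (0 : ℂ) r, ‖H z‖ ≤ Real.exp M * ‖H 0‖) :
    ‖deriv H 0 / H 0‖ ≤ 2 * M / r := by
  have h00 : (0 : ℂ) ∈ ball (0 : ℂ) r := mem_ball_self hr
  have key : ∀ M' : ℝ, M < M' → ‖deriv H 0 / H 0‖ ≤ 2 * M' / r := by
    intro M' hM'
    have hM'0 : 0 < M' := lt_of_le_of_lt hM hM'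
    obtain ⟨L, hL, hLb⟩ := LandauL_bc (M := M') hr hM'0 hd h0 (fun z hz =>
      (hb z hz).trans (mul_le_mul_of_nonneg_right (Real.exp_le_exp.2 hM'.le) (norm_nonneg _)))
    have hs : ∀ s : ℝ, 0 < s → s < r → ‖deriv H 0 / H 0‖ ≤ 2 * M' / (r - s) := by
      intro s hs0 hsr
      have hcl : DiffContOnCl ℂ L (ball 0 s) := by
        refine DifferentiableOn.diffContOnCl ?_
        rw [closure_ball _ hs0.ne']
        intro z hz
        exact (hL z (closedBall_subset_ball hsr hz)).differentiableAt.differentiableWithinAt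
      have h1 := Complex.norm_deriv_le_of_forall_mem_sphere_norm_le (c := (0 : ℂ)) (R := s)
        (C := 2 * M' * s / (r - s)) hs0 hcl (fun z hz => by
          have hz' : ‖z‖ = s := by simpa using hz
          have := hLb z (by rw [mem_ball_zero_iff, hz']; exact hsr)
          rwa [hz'] at this)
      rw [(hL 0 h00).deriv] at h1
      refine h1.trans (le_of_eq ?_)
      have : r - s ≠ 0 := by linarith
      field_simp
    have ht : Filter.Tendsto (fun s : ℝ => 2 * M' / (r - s)) (nhdsWithin 0 (Set.Ioi 0))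
        (nhds (2 * M' / (r - 0))) := by
      refine Filter.Tendsto.mono_left ?_ nhdsWithin_le_nhds
      refine Filter.Tendsto.div tendsto_const_nhds ?_ (by linarith)
      exact (continuous_const.sub continuous_id).tendsto 0
    rw [sub_zero] at ht
    refine ge_of_tendsto ht ?_
    have : Set.Ioo (0 : ℝ) r ∈ nhdsWithin 0 (Set.Ioi 0) := Ioo_mem_nhdsGT hr
    filter_upwards [this] with s hs'
    exact hs s hs'.1 hs'.2
  refine le_of_forall_pos_le_add fun δ hδ => ?_
  have := key (M + δ * r / 2) (by have := mul_pos hδ hr; linarith)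
  refine this.trans (le_of_eq ?_)
  field_simp

private theorem LandauL_factor {F : ℂ → ℂ} {r : ℝ} (hr : 0 < r)
    (hF : AnalyticOnNhd ℂ F (closedBall 0 r)) (h0 : F 0 ≠ 0) :
    ∃ (S : Finset ℂ) (n : ℂ → ℕ) (g : ℂ → ℂ),
      (∀ u ∈ S, u ∈ ball (0 : ℂ) r ∧ 1 ≤ n u) ∧ AnalyticOnNhd ℂ g (closedBall 0 r) ∧
      (∀ z ∈ ball (0 : ℂ) r, g z ≠ 0) ∧
      ∀ z ∈ closedBall (0 : ℂ) r, F z = (∏ u ∈ S, (z - u) ^ n u) * g z := by
  classical
  have h00 : (0 : ℂ) ∈ closedBall (0 : ℂ) r := mem_closedBall_self hr.le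
  have hmer : MeromorphicOn F (closedBall 0 r) := hF.meromorphicOn
  have hord0 : meromorphicOrderAt F 0 ≠ ⊤ := by
    rw [(hF 0 h00).meromorphicOrderAt_eq, (hF 0 h00).analyticOrderAt_eq_zero.2 h0]
    simp
  have hord : ∀ u : closedBall (0 : ℂ) r, meromorphicOrderAt F u ≠ ⊤ := by
    rw [← hmer.exists_meromorphicOrderAt_ne_top_iff_forall (isConnected_closedBall hr.le)]
    exact ⟨⟨0, h00⟩, hord0⟩
  have hfin := (MeromorphicOn.divisor F (closedBall 0 r)).finiteSupport (isCompact_closedBall 0 r)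
  obtain ⟨g, hg, hg0, hfg⟩ := hmer.extract_zeros_poles hord hfin
  have hD : 0 ≤ MeromorphicOn.divisor F (closedBall 0 r) :=
    MeromorphicOn.AnalyticOnNhd.divisor_nonneg hF
  set D := MeromorphicOn.divisor F (closedBall 0 r) with hDdef
  set S0 := hfin.toFinset with hS0
  have hprod : ∀ z : ℂ, (∏ᶠ u, (· - u) ^ D u : ℂ → ℂ) z = ∏ u ∈ S0, (z - u) ^ (D u).toNat := by
    intro z
    rw [Function.FactorizedRational.finprod_eq_fun hfin]
    show (∏ᶠ u, (z - u) ^ D u) = _
    rw [finprod_eq_prod_of_mulSupport_subset (s := S0)]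
    · refine Finset.prod_congr rfl fun u _ => ?_
      have : (0 : ℤ) ≤ D u := hD u
      conv_lhs => rw [← Int.toNat_of_nonneg this]
      rw [zpow_natCast]
    · intro u hu
      rw [Function.mem_mulSupport] at hu
      rw [hS0, Set.Finite.coe_toFinset, Function.mem_support]
      intro h
      exact hu (by simp [h])
  have hEq : Set.EqOn F (fun z => (∏ u ∈ S0, (z - u) ^ (D u).toNat) * g z) (closedBall 0 r) := by
    refine hF.eqOn_of_preconnected_of_frequently_eq ?_ (isConnected_closedBall hr.le).isPreconnected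
      h00 ?_
    · intro z hz
      refine AnalyticAt.mul ?_ (hg z hz)
      fun_prop
    · refine Filter.Eventually.frequently ?_
      have h1 : {z | F z = ((∏ᶠ u, (· - u) ^ D u : ℂ → ℂ) • g) z} ∈
          Filter.codiscreteWithin (closedBall (0 : ℂ) r) := hfg
      rw [mem_codiscreteWithin] at h1
      have h2 := h1 0 h00
      rw [Filter.disjoint_principal_right] at h2
      have h3 : closedBall (0 : ℂ) r ∈ nhdsWithin (0 : ℂ) {0}ᶜ :=
        nhdsWithin_le_nhds (closedBall_mem_nhds 0 hr)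
      filter_upwards [h2, h3] with z hz1 hz2
      have hz3 : F z = ((∏ᶠ u, (· - u) ^ D u : ℂ → ℂ) • g) z := by
        by_contra hne
        exact hz1 ⟨hz2, hne⟩
      rw [hz3, Pi.smul_apply', hprod, smul_eq_mul]
  refine ⟨S0.filter (fun u => ‖u‖ < r), fun u => (D u).toNat,
    fun z => (∏ u ∈ S0.filter (fun u => ¬ ‖u‖ < r), (z - u) ^ (D u).toNat) * g z, ?_, ?_, ?_, ?_⟩
  · intro u hu
    rw [Finset.mem_filter] at hu
    refine ⟨by simpa using hu.2, ?_⟩
    have h1 : D u ≠ 0 := by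
      have := hu.1
      rw [hS0, Set.Finite.mem_toFinset, Function.mem_support] at this
      exact this
    have h2 : (0 : ℤ) ≤ D u := hD u
    show 1 ≤ (D u).toNat
    omega
  · intro z hz
    refine AnalyticAt.mul ?_ (hg z hz)
    fun_prop
  · intro z hz
    refine mul_ne_zero ?_ (hg0 ⟨z, ball_subset_closedBall hz⟩)
    rw [Finset.prod_ne_zero_iff]
    intro u hu
    rw [Finset.mem_filter] at hu
    refine pow_ne_zero _ (sub_ne_zero.2 ?_)
    rintro rfl
    exact hu.2 (by simpa using hz)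
  · intro z hz
    rw [hEq hz]
    dsimp only
    rw [← mul_assoc, Finset.prod_filter_mul_prod_filter_not]

private theorem LandauL_main {F : ℂ → ℂ} {r M : ℝ} (hr : 0 < r) (hM : 0 ≤ M)
    (hF : AnalyticOnNhd ℂ F (closedBall 0 r)) (h0 : F 0 ≠ 0)
    (hb : ∀ z ∈ closedBall (0 : ℂ) r, ‖F z‖ ≤ Real.exp M * ‖F 0‖)
    (hz : ∀ z ∈ closedBall (0 : ℂ) r, F z = 0 → z.re ≤ 0) :
    -(deriv F 0 / F 0).re ≤ 2 * M / r ∧
    ∀ d : ℝ, 0 < d → d < r → F (-d) = 0 →
      -(deriv F 0 / F 0).re ≤ 2 * M / r - d * (1 / d ^ 2 - 1 / r ^ 2) := by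
  classical
  obtain ⟨S, n, g, hS, hg, hg0, hFg⟩ := LandauL_factor hr hF h0
  have h00 : (0 : ℂ) ∈ closedBall (0 : ℂ) r := mem_closedBall_self hr.le
  have h00' : (0 : ℂ) ∈ ball (0 : ℂ) r := mem_ball_self hr
  have hrC : (r : ℂ) ≠ 0 := by exact_mod_cast hr.ne'
  -- the zeros
  have hSz : ∀ u ∈ S, F u = 0 := by
    intro u hu
    rw [hFg u (ball_subset_closedBall (hS u hu).1)]
    rw [Finset.prod_eq_zero hu, zero_mul]
    rw [sub_self, zero_pow]
    have := (hS u hu).2
    omega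
  have hSre : ∀ u ∈ S, u.re ≤ 0 := fun u hu =>
    hz u (ball_subset_closedBall (hS u hu).1) (hSz u hu)
  have hS0 : ∀ u ∈ S, u ≠ 0 := by
    rintro u hu rfl
    exact h0 (hSz 0 hu)
  have hSn : ∀ u ∈ S, ‖u‖ < r := fun u hu => by simpa using (hS u hu).1
  -- the function without zeros
  set H : ℂ → ℂ := fun z =>
    g z * ∏ u ∈ S, (((r : ℂ) ^ 2 - (starRingEnd ℂ) u * z) / r) ^ n u with hH
  have hfac : ∀ u ∈ S, ∀ z ∈ ball (0 : ℂ) r, ((r : ℂ) ^ 2 - (starRingEnd ℂ) u * z) / r ≠ 0 := by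
    intro u hu z hz'
    refine div_ne_zero ?_ hrC
    intro h
    have h1 : (r : ℂ) ^ 2 = (starRingEnd ℂ) u * z := sub_eq_zero.1 h
    have h2 : ‖(r : ℂ) ^ 2‖ = ‖(starRingEnd ℂ) u * z‖ := by rw [h1]
    rw [norm_pow, norm_mul, Complex.norm_real, Real.norm_eq_abs, abs_of_pos hr,
      RCLike.norm_conj] at h2
    have h3 : ‖z‖ < r := by simpa using hz'
    have h4 := hSn u hu
    nlinarith [norm_nonneg z, norm_nonneg u]
  have hHan : AnalyticOnNhd ℂ H (closedBall 0 r) := by
    intro z hz'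
    refine AnalyticAt.mul (hg z hz') ?_
    fun_prop
  have hHne : ∀ z ∈ ball (0 : ℂ) r, H z ≠ 0 := by
    intro z hz'
    refine mul_ne_zero (hg0 z hz') ?_
    rw [Finset.prod_ne_zero_iff]
    intro u hu
    exact pow_ne_zero _ (hfac u hu z hz')
  have hHd : DifferentiableOn ℂ H (ball 0 r) :=
    (hHan.differentiableOn).mono ball_subset_closedBall
  have hsph : ∀ z ∈ sphere (0 : ℂ) r, ‖H z‖ = ‖F z‖ := by
    intro z hz'
    have hzn : ‖z‖ = r := by simpa using hz'
    rw [hFg z (sphere_subset_closedBall hz'), hH]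
    dsimp only
    rw [norm_mul, norm_mul, mul_comm, norm_prod, norm_prod]
    congr 1
    refine Finset.prod_congr rfl fun u hu => ?_
    rw [norm_pow, norm_pow]
    congr 1
    have h1 : (r : ℂ) ^ 2 - (starRingEnd ℂ) u * z = z * (starRingEnd ℂ) (z - u) := by
      have h2 : z * (starRingEnd ℂ) z = (r : ℂ) ^ 2 := by
        rw [Complex.mul_conj, Complex.normSq_eq_norm_sq, hzn]
        push_cast; ring
      rw [map_sub, mul_sub, h2]
      ring
    rw [h1, norm_div, norm_mul, RCLike.norm_conj, Complex.norm_real, Real.norm_eq_abs,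
      abs_of_pos hr, hzn]
    field_simp
  have hHF0 : ‖F 0‖ ≤ ‖H 0‖ := by
    rw [hFg 0 h00, hH]
    dsimp only
    rw [norm_mul, norm_mul, mul_comm, norm_prod, norm_prod]
    refine mul_le_mul_of_nonneg_left ?_ (norm_nonneg _)
    refine Finset.prod_le_prod (fun u _ => norm_nonneg _) fun u hu => ?_
    rw [norm_pow, norm_pow]
    refine pow_le_pow_left₀ (norm_nonneg _) ?_ _
    rw [zero_sub, norm_neg, mul_zero, sub_zero, norm_div, norm_pow, Complex.norm_real,
      Real.norm_eq_abs, abs_of_pos hr]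
    have := hSn u hu
    have h2 : r ^ 2 / r = r := by field_simp
    rw [h2]
    exact this.le
  have hHb : ∀ z ∈ ball (0 : ℂ) r, ‖H z‖ ≤ Real.exp M * ‖H 0‖ := by
    intro z hz'
    have hcl : DiffContOnCl ℂ H (ball 0 r) := by
      refine DifferentiableOn.diffContOnCl ?_
      rw [closure_ball _ hr.ne']
      exact hHan.differentiableOn
    have h1 := Complex.norm_le_of_forall_mem_frontier_norm_le (U := ball (0 : ℂ) r)
      isBounded_ball hcl (C := Real.exp M * ‖F 0‖) (fun w hw => by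
        rw [frontier_ball _ hr.ne'] at hw
        rw [hsph w hw]
        exact hb w (sphere_subset_closedBall hw)) (subset_closure hz')
    exact h1.trans (mul_le_mul_of_nonneg_left hHF0 (Real.exp_pos _).le)
  have hmain := LandauL_zero hr hM hHd hHne hHb
  -- logarithmic derivatives
  have hgd : DifferentiableAt ℂ g 0 := (hg 0 h00).differentiableAt
  have hF' : deriv F 0 / F 0 = (∑ u ∈ S, (n u : ℂ) * (-1 / u)) + deriv g 0 / g 0 := by
    have h1 : F =ᶠ[nhds 0] fun z => (∏ u ∈ S, (z - u) ^ n u) * g z := by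
      filter_upwards [closedBall_mem_nhds (0 : ℂ) hr] with z hz'
      exact hFg z hz'
    have h2 : deriv F 0 / F 0 = logDeriv (fun z => (∏ u ∈ S, (z - u) ^ n u) * g z) 0 := by
      rw [logDeriv_apply, h1.deriv_eq, h1.eq_of_nhds]
    rw [h2, logDeriv_mul, logDeriv_prod]
    · rw [← logDeriv_apply]
      congr 1
      refine Finset.sum_congr rfl fun u hu => ?_
      rw [logDeriv_fun_pow (by fun_prop)]
      congr 1
      rw [logDeriv_apply]
      have : deriv (fun z : ℂ => z - u) 0 = 1 := by simp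
      rw [this, zero_sub]
      have := hS0 u hu
      field_simp
    · intro u hu
      refine pow_ne_zero _ ?_
      rw [zero_sub]
      exact neg_ne_zero.2 (hS0 u hu)
    · intro u hu
      fun_prop
    · rw [Finset.prod_ne_zero_iff]
      intro u hu
      refine pow_ne_zero _ ?_
      rw [zero_sub]
      exact neg_ne_zero.2 (hS0 u hu)
    · exact hg0 0 h00'
    · fun_prop
    · exact hgd
  have hH' : deriv H 0 / H 0 = deriv g 0 / g 0 +
      ∑ u ∈ S, (n u : ℂ) * (-((starRingEnd ℂ) u) / (r : ℂ) ^ 2) := by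
    rw [← logDeriv_apply, hH, logDeriv_mul, logDeriv_prod]
    · rw [← logDeriv_apply]
      congr 1
      refine Finset.sum_congr rfl fun u hu => ?_
      rw [logDeriv_fun_pow (by fun_prop)]
      congr 1
      rw [logDeriv_apply]
      have : deriv (fun z : ℂ => ((r : ℂ) ^ 2 - (starRingEnd ℂ) u * z) / r) 0 =
          -((starRingEnd ℂ) u) / r := by
        have h1 : HasDerivAt (fun z : ℂ => ((r : ℂ) ^ 2 - (starRingEnd ℂ) u * z) / r)
            ((0 - (starRingEnd ℂ) u * 1) / r) 0 :=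
          ((hasDerivAt_const (0 : ℂ) ((r : ℂ) ^ 2)).sub
            ((hasDerivAt_id (0 : ℂ)).const_mul ((starRingEnd ℂ) u))).div_const _
        rw [h1.deriv]
        ring
      rw [this, mul_zero, sub_zero]
      field_simp
    · intro u hu
      exact pow_ne_zero _ (hfac u hu 0 h00')
    · intro u hu
      fun_prop
    · exact hg0 0 h00'
    · rw [Finset.prod_ne_zero_iff]
      intro u hu
      exact pow_ne_zero _ (hfac u hu 0 h00')
    · exact hgd
    · fun_prop
  have hdiff : (deriv F 0 / F 0).re = (deriv H 0 / H 0).re +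
      ∑ u ∈ S, (n u : ℝ) * (-u.re * (1 / ‖u‖ ^ 2 - 1 / r ^ 2)) := by
    have h1 : deriv F 0 / F 0 = deriv H 0 / H 0 +
        ∑ u ∈ S, (n u : ℂ) * (-1 / u + (starRingEnd ℂ) u / (r : ℂ) ^ 2) := by
      rw [hF', hH', add_assoc, ← Finset.sum_add_distrib, add_comm]
      congr 1
      refine Finset.sum_congr rfl fun u _ => ?_
      ring
    rw [h1, Complex.add_re, Complex.re_sum]
    congr 1
    refine Finset.sum_congr rfl fun u hu => ?_
    have h2 : ((n u : ℂ) * (-1 / u + (starRingEnd ℂ) u / (r : ℂ) ^ 2)).re =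
        (n u : ℝ) * (-1 / u + (starRingEnd ℂ) u / (r : ℂ) ^ 2).re := by
      rw [← Complex.ofReal_natCast, Complex.re_ofReal_mul]
    rw [h2]
    congr 1
    have h3 : (-1 / u : ℂ) = ((-1 / ‖u‖ ^ 2 : ℝ) : ℂ) * (starRingEnd ℂ) u := by
      have hu0 := hS0 u hu
      have hun : (‖u‖ : ℂ) ≠ 0 := by
        exact_mod_cast (norm_pos_iff.2 hu0).ne'
      have h4 : (starRingEnd ℂ) u * u = (‖u‖ : ℂ) ^ 2 := by
        rw [mul_comm, Complex.mul_conj, Complex.normSq_eq_norm_sq]
        push_cast; ring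
      push_cast
      rw [div_mul_eq_mul_div, div_eq_div_iff hu0 (pow_ne_zero _ hun), ← h4]
      ring
    have h5 : (starRingEnd ℂ) u / (r : ℂ) ^ 2 = ((1 / r ^ 2 : ℝ) : ℂ) * (starRingEnd ℂ) u := by
      push_cast
      ring
    rw [h3, h5, Complex.add_re, Complex.re_ofReal_mul, Complex.re_ofReal_mul, Complex.conj_re]
    ring
  have hterm : ∀ u ∈ S, 0 ≤ (n u : ℝ) * (-u.re * (1 / ‖u‖ ^ 2 - 1 / r ^ 2)) := by
    intro u hu
    refine mul_nonneg (Nat.cast_nonneg _) (mul_nonneg ?_ ?_)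
    · have := hSre u hu
      linarith
    · have hu0 : 0 < ‖u‖ := norm_pos_iff.2 (hS0 u hu)
      have h1 : ‖u‖ ^ 2 ≤ r ^ 2 := pow_le_pow_left₀ hu0.le (hSn u hu).le 2
      have := one_div_le_one_div_of_le (by positivity) h1
      linarith
  have hre : -(deriv H 0 / H 0).re ≤ 2 * M / r := by
    have h1 := Complex.abs_re_le_norm (deriv H 0 / H 0)
    have h2 := neg_le_abs (deriv H 0 / H 0).re
    linarith
  refine ⟨?_, ?_⟩
  · rw [hdiff]
    have := Finset.sum_nonneg hterm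
    linarith
  · intro d hd0 hdr hFd
    have hdball : (-(d : ℂ)) ∈ ball (0 : ℂ) r := by
      rw [mem_ball_zero_iff, norm_neg, Complex.norm_real, Real.norm_eq_abs, abs_of_pos hd0]
      exact hdr
    have hdS : (-(d : ℂ)) ∈ S := by
      have h1 := hFg _ (ball_subset_closedBall hdball)
      rw [hFd] at h1
      have h2 := (mul_eq_zero.1 h1.symm).resolve_right (hg0 _ hdball)
      rw [Finset.prod_eq_zero_iff] at h2
      obtain ⟨u, hu, hu2⟩ := h2
      have hn0 : n u ≠ 0 := by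
        have := (hS u hu).2
        omega
      have := (pow_eq_zero_iff hn0).1 hu2
      rw [sub_eq_zero] at this
      rw [this]
      exact hu
    have h1 := Finset.single_le_sum hterm hdS
    have h2 : (1 : ℝ) ≤ n (-(d : ℂ)) := by exact_mod_cast (hS _ hdS).2
    have h3 : (-(-(d : ℂ)).re * (1 / ‖(-(d : ℂ))‖ ^ 2 - 1 / r ^ 2)) =
        d * (1 / d ^ 2 - 1 / r ^ 2) := by
      rw [norm_neg, Complex.norm_real, Real.norm_eq_abs, abs_of_pos hd0]
      simp
    rw [h3] at h1
    have h4 : 0 ≤ d * (1 / d ^ 2 - 1 / r ^ 2) := by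
      refine mul_nonneg hd0.le ?_
      have h5 : d ^ 2 ≤ r ^ 2 := pow_le_pow_left₀ hd0.le hdr.le 2
      have := one_div_le_one_div_of_le (by positivity) h5
      linarith
    rw [hdiff]
    nlinarith

theorem landau_point {f : ℂ → ℂ} {z0 : ℂ} {r M : ℝ} (hr : 0 < r) (hM : 0 ≤ M)
    (hf : ∀ z ∈ closedBall z0 r, AnalyticAt ℂ f z) (h0 : f z0 ≠ 0)
    (hb : ∀ z ∈ closedBall z0 r, ‖f z‖ ≤ Real.exp M * ‖f z0‖)
    (hz : ∀ z ∈ closedBall z0 r, f z = 0 → z.re ≤ z0.re) :
    -(deriv f z0 / f z0).re ≤ 2 * M / r ∧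
    ∀ d : ℝ, 0 < d → d < r → f (z0 - d) = 0 →
      -(deriv f z0 / f z0).re ≤ 2 * M / r - d * (1 / d ^ 2 - 1 / r ^ 2) := by
  have hmem : ∀ z : ℂ, z ∈ closedBall (0 : ℂ) r → z0 + z ∈ closedBall z0 r := by
    intro z hz'
    rw [mem_closedBall, dist_eq_norm, add_sub_cancel_left]
    simpa using hz'
  have h1 := LandauL_main (F := fun z => f (z0 + z)) hr hM
    (fun z hz' => (hf _ (hmem z hz')).fun_comp (by fun_prop)) (by simpa using h0)
    (fun z hz' => by simpa using hb _ (hmem z hz'))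
    (fun z hz' h => by
      have := hz _ (hmem z hz') h
      rw [Complex.add_re] at this
      linarith)
  have h2 : deriv (fun z => f (z0 + z)) 0 = deriv f z0 := by
    rw [deriv_comp_const_add, add_zero]
  simp only [h2, add_zero] at h1
  refine ⟨h1.1, fun d hd0 hdr hfd => h1.2 d hd0 hdr ?_⟩
  rw [← sub_eq_add_neg]
  exact hfd

theorem landau_free {f : ℂ → ℂ} {z0 : ℂ} {r M : ℝ} (hr : 0 < r) (hM : 0 < M)
    (hf : ∀ z ∈ closedBall z0 r, AnalyticAt ℂ f z) (h0 : ∀ z ∈ closedBall z0 r, f z ≠ 0)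
    (hb : ∀ z ∈ closedBall z0 r, ‖f z‖ ≤ Real.exp M * ‖f z0‖) :
    ∀ z ∈ closedBall z0 (r / 2), ‖deriv f z / f z‖ ≤ 24 * M / r := by
  have hmem : ∀ z : ℂ, z ∈ ball (0 : ℂ) r → z0 + z ∈ closedBall z0 r := by
    intro z hz'
    rw [mem_closedBall, dist_eq_norm, add_sub_cancel_left]
    have : ‖z‖ < r := by simpa using hz'
    exact this.le
  obtain ⟨L, hL, hLb⟩ := LandauL_bc (H := fun z => f (z0 + z)) hr hM
    (fun z hz' => ((hf _ (hmem z hz')).fun_comp (f := fun z => z0 + z)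
      (by fun_prop)).differentiableAt.differentiableWithinAt)
    (fun z hz' => h0 _ (hmem z hz'))
    (fun z hz' => by simpa using hb _ (hmem z hz'))
  intro z hz
  have hz1 : ‖z - z0‖ ≤ r / 2 := by
    rw [← dist_eq_norm]
    exact hz
  have hzb : z - z0 ∈ ball (0 : ℂ) r := by
    rw [mem_ball_zero_iff]
    linarith
  have h1 : deriv L (z - z0) = deriv f z / f z := by
    rw [(hL _ hzb).deriv, deriv_comp_const_add, add_sub_cancel]
  rw [← h1]
  have hcb : ∀ w : ℂ, dist w (z - z0) ≤ r / 4 → ‖w‖ ≤ 3 * r / 4 := by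
    intro w hw
    rw [dist_eq_norm] at hw
    calc ‖w‖ = ‖(w - (z - z0)) + (z - z0)‖ := by ring_nf
      _ ≤ ‖w - (z - z0)‖ + ‖z - z0‖ := norm_add_le _ _
      _ ≤ r / 4 + r / 2 := add_le_add hw hz1
      _ = 3 * r / 4 := by ring
  have hr4 : 0 < r / 4 := by linarith
  have hcl : DiffContOnCl ℂ L (ball (z - z0) (r / 4)) := by
    refine DifferentiableOn.diffContOnCl ?_
    rw [closure_ball _ hr4.ne']
    intro w hw
    have h2 := hcb w hw
    refine (hL w ?_).differentiableAt.differentiableWithinAt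
    rw [mem_ball_zero_iff]
    linarith
  have h3 := Complex.norm_deriv_le_of_forall_mem_sphere_norm_le (c := z - z0) (R := r / 4)
    (C := 6 * M) hr4 hcl (fun w hw => by
      have h2 := hcb w (le_of_eq hw)
      have h4 := hLb w (by rw [mem_ball_zero_iff]; linarith)
      refine h4.trans ?_
      rw [div_le_iff₀ (by linarith)]
      nlinarith)
  refine h3.trans (le_of_eq ?_)
  field_simp
  norm_num

end VKZ
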