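import Pool.Agent.VKZ.UBound

/-!
# VKZ.ExpS: the sums of `n^(-it)`

PROOF. `κ = log t/log a ≥ 4/5`. For `a < N1` (an absolute constant) the trivial bound `b - a ≤ a` is enough, as
`(log a)^6/(log t)^5 ≤ (5/4)^5 log a`. Otherwise `shift_bound` with `k = ⌈5κ⌉ + 5`, `M = ⌊a^(2/5)⌋`
(`2 M² ≤ 2 a^(4/5) ≤ a` for `a ≥ 32`) and `U_bound`: the first term is at most `a C exp(..)`; the second one
`2 a^(4/5) ≤ 2 a exp(-(log a)/5)`; the third one is at most `a * 2 t a^(-(k+1)/5) ≤ 2 a a^(κ - (5κ+6)/5) ≤ 2`.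
All are `≤ C' a exp(-c (log a)^6/(log t)^5)` with `c ≤ 1/20`, because `(log a)^6/(log t)^5 ≤ (5/4)^5 log a ≤ 4 log a`.
-/

namespace VKZ

open Finset

private theorem norm_cpow_I (n : ℕ) (hn : 0 < n) (t : ℝ) :
    ‖(n : ℂ) ^ (-(t * Complex.I))‖ = 1 := by
  rw [Complex.norm_natCast_cpow_of_pos hn]
  simp

theorem exp_sum : ∃ c C : ℝ, 0 < c ∧ 1 ≤ C ∧ ∀ (a b : ℕ) (t : ℝ), 2 ≤ a → a < b → b ≤ 2 * a →
    (a : ℝ) ^ ((4 : ℝ) / 5) ≤ t →
    ‖∑ n ∈ Ioc a b, (n : ℂ) ^ (-(t * Complex.I))‖ ≤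
      C * a * Real.exp (-c * Real.log a ^ 6 / Real.log t ^ 5) := by
  obtain ⟨c0, C0, N1, hc0, hC0, hU⟩ := U_bound
  refine ⟨min c0 (1 / 20), max (C0 + 4) ((max N1 32 : ℕ) : ℝ), by positivity,
    le_trans (by linarith) (le_max_left _ _), ?_⟩
  intro a b t ha hab hb ht
  set c : ℝ := min c0 (1 / 20) with hc
  set C : ℝ := max (C0 + 4) ((max N1 32 : ℕ) : ℝ) with hC
  have hc0' : c ≤ c0 := min_le_left _ _
  have hc20 : c ≤ 1 / 20 := min_le_right _ _
  have hcpos : 0 < c := by rw [hc]; positivity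
  have haR : (2 : ℝ) ≤ a := by exact_mod_cast ha
  have ha0 : (0 : ℝ) < a := by linarith
  set l : ℝ := Real.log a with hl
  have hl0 : 0 < l := Real.log_pos (by linarith)
  have hel : Real.exp l = a := Real.exp_log ha0
  have hta : 0 < t := lt_of_lt_of_le (Real.rpow_pos_of_pos ha0 _) ht
  set τ : ℝ := Real.log t with hτ
  have heτ : Real.exp τ = t := Real.exp_log hta
  have hτl : 4 / 5 * l ≤ τ := by
    have h1 := Real.log_le_log (Real.rpow_pos_of_pos ha0 ((4 : ℝ) / 5)) ht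
    rwa [Real.log_rpow ha0] at h1
  have hτ0 : 0 < τ := by linarith
  have hpow : ∀ x : ℝ, (a : ℝ) ^ x = Real.exp (l * x) := fun x => Real.rpow_def_of_pos ha0 x
  -- the quantity in the exponent
  set Q : ℝ := l ^ 6 / τ ^ 5 with hQ
  have hQ0 : 0 ≤ Q := by positivity
  have hQ4 : Q ≤ 4 * l := by
    rw [hQ, div_le_iff₀ (by positivity)]
    have h1 : (4 / 5 * l) ^ 5 ≤ τ ^ 5 := pow_le_pow_left₀ (by positivity) hτl 5
    have h2 : 4 * l * (4 / 5 * l) ^ 5 ≤ 4 * l * τ ^ 5 :=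
      mul_le_mul_of_nonneg_left h1 (by positivity)
    have h3 : l ^ 6 ≤ 4 * l * (4 / 5 * l) ^ 5 := by
      have : 4 * l * (4 / 5 * l) ^ 5 = 4096 / 3125 * l ^ 6 := by ring
      rw [this]
      have := pow_pos hl0 6
      linarith
    linarith
  have hcQ : c * Q ≤ l / 5 := by
    calc c * Q ≤ 1 / 20 * Q := mul_le_mul_of_nonneg_right hc20 hQ0
      _ ≤ 1 / 20 * (4 * l) := mul_le_mul_of_nonneg_left hQ4 (by norm_num)
      _ = l / 5 := by ring
  have hform : ∀ d : ℝ, -d * l ^ 6 / τ ^ 5 = -(d * Q) := by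
    intro d
    rw [hQ]
    ring
  rw [hform]
  have hba : (b : ℝ) - a ≤ a := by
    have : (b : ℝ) ≤ 2 * a := by exact_mod_cast hb
    linarith
  have hba0 : 0 ≤ (b : ℝ) - a := by
    have : (a : ℝ) ≤ b := by exact_mod_cast hab.le
    linarith
  have hcard : ((Ioc a b).card : ℝ) = (b : ℝ) - a := by
    rw [Nat.card_Ioc, Nat.cast_sub hab.le]
  have hE0 : 0 < Real.exp (-(c * Q)) := Real.exp_pos _
  have hN : (((max N1 32 : ℕ) : ℕ) : ℝ) ≤ C := le_max_right _ _
  have hC4 : C0 + 4 ≤ C := le_max_left _ _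
  by_cases hbig : a < max N1 32
  · -- trivial bound
    have h1 : ‖∑ n ∈ Ioc a b, (n : ℂ) ^ (-(t * Complex.I))‖ ≤ a := by
      calc ‖∑ n ∈ Ioc a b, (n : ℂ) ^ (-(t * Complex.I))‖
          ≤ ∑ n ∈ Ioc a b, ‖(n : ℂ) ^ (-(t * Complex.I))‖ := norm_sum_le _ _
        _ = ∑ n ∈ Ioc a b, (1 : ℝ) := by
            refine Finset.sum_congr rfl fun n hn => norm_cpow_I n ?_ t
            have := (Finset.mem_Ioc.1 hn).1
            omega
        _ = (b : ℝ) - a := by rw [Finset.sum_const, nsmul_eq_mul, mul_one, hcard]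
        _ ≤ a := hba
    refine le_trans h1 ?_
    have h2 : Real.exp (c * Q) ≤ C := by
      calc Real.exp (c * Q) ≤ Real.exp l := Real.exp_le_exp.2 (by linarith)
        _ = a := hel
        _ ≤ ((max N1 32 : ℕ) : ℝ) := by exact_mod_cast hbig.le
        _ ≤ C := hN
    have h3 : 1 ≤ C * Real.exp (-(c * Q)) := by
      calc (1 : ℝ) = Real.exp (c * Q) * Real.exp (-(c * Q)) := by
            rw [← Real.exp_add]; simp
        _ ≤ C * Real.exp (-(c * Q)) := mul_le_mul_of_nonneg_right h2 hE0.le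
    calc (a : ℝ) = a * 1 := (mul_one _).symm
      _ ≤ a * (C * Real.exp (-(c * Q))) := mul_le_mul_of_nonneg_left h3 ha0.le
      _ = C * a * Real.exp (-(c * Q)) := by ring
  · rw [not_lt] at hbig
    have haN1 : N1 ≤ a := le_trans (le_max_left _ _) hbig
    have ha32 : 32 ≤ a := le_trans (le_max_right _ _) hbig
    set k : ℕ := ⌈5 * (Real.log t / Real.log a)⌉₊ + 5 with hk
    set M : ℕ := ⌊(a : ℝ) ^ ((2 : ℝ) / 5)⌋₊ with hM
    have hMle : (M : ℝ) ≤ Real.exp (l * (2 / 5)) := by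
      rw [← hpow]
      exact Nat.floor_le (Real.rpow_nonneg ha0.le _)
    have hM1 : 1 ≤ M := by
      rw [hM]
      refine Nat.le_floor ?_
      rw [Nat.cast_one]
      exact Real.one_le_rpow (by linarith) (by norm_num)
    have hM0 : (0 : ℝ) < M := by exact_mod_cast hM1
    have hM2 : (M : ℝ) ^ 2 ≤ Real.exp (l * (4 / 5)) := by
      calc (M : ℝ) ^ 2 ≤ (Real.exp (l * (2 / 5))) ^ 2 := pow_le_pow_left₀ hM0.le hMle 2
        _ = Real.exp (l * (4 / 5)) := by
            rw [← Real.exp_nat_mul]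
            congr 1
            push_cast
            ring
    -- log a ≥ 5 log 2
    have hl2 : 5 * Real.log 2 ≤ l := by
      have h1 : (32 : ℝ) ≤ a := by exact_mod_cast ha32
      have h2 := Real.log_le_log (by norm_num) h1
      have h3 : Real.log 32 = 5 * Real.log 2 := by
        rw [show (32 : ℝ) = 2 ^ 5 by norm_num, Real.log_pow]
        norm_num
      rw [h3] at h2
      exact h2
    have h2exp : (2 : ℝ) ≤ Real.exp (l / 5) := by
      calc (2 : ℝ) = Real.exp (Real.log 2) := (Real.exp_log (by norm_num)).symm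
        _ ≤ Real.exp (l / 5) := Real.exp_le_exp.2 (by linarith)
    have hMa : 2 * M ^ 2 ≤ a := by
      have h1 : 2 * (M : ℝ) ^ 2 ≤ a := by
        calc 2 * (M : ℝ) ^ 2 ≤ Real.exp (l / 5) * Real.exp (l * (4 / 5)) :=
              mul_le_mul h2exp hM2 (by positivity) (Real.exp_pos _).le
          _ = Real.exp l := by rw [← Real.exp_add]; congr 1; ring
          _ = a := hel
      exact_mod_cast h1
    have hsh := shift_bound (k := k) hab hM1 hMa hta.le
    refine le_trans hsh ?_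
    -- first term
    have hT1 : (1 / (M : ℝ) ^ 2) * ∑ n ∈ Ioc a b, ‖U t k M n‖ ≤
        C0 * a * Real.exp (-(c * Q)) := by
      have h1 : ∀ n ∈ Ioc a b, ‖U t k M n‖ ≤ C0 * (M : ℝ) ^ 2 * Real.exp (-(c * Q)) := by
        intro n hn
        rw [Finset.mem_Ioc] at hn
        have h2 := hU a n t haN1 hn.1 (by omega) ht
        refine le_trans h2 ?_
        rw [hform]
        refine mul_le_mul_of_nonneg_left (Real.exp_le_exp.2 ?_) (by positivity)
        have := mul_le_mul_of_nonneg_right hc0' hQ0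
        linarith
      have h3 : ∑ n ∈ Ioc a b, ‖U t k M n‖ ≤
          ((b : ℝ) - a) * (C0 * (M : ℝ) ^ 2 * Real.exp (-(c * Q))) := by
        calc ∑ n ∈ Ioc a b, ‖U t k M n‖
            ≤ ∑ n ∈ Ioc a b, C0 * (M : ℝ) ^ 2 * Real.exp (-(c * Q)) := Finset.sum_le_sum h1
          _ = ((b : ℝ) - a) * (C0 * (M : ℝ) ^ 2 * Real.exp (-(c * Q))) := by
              rw [Finset.sum_const, nsmul_eq_mul, hcard]
      calc (1 / (M : ℝ) ^ 2) * ∑ n ∈ Ioc a b, ‖U t k M n‖
          ≤ (1 / (M : ℝ) ^ 2) *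
            (((b : ℝ) - a) * (C0 * (M : ℝ) ^ 2 * Real.exp (-(c * Q)))) :=
            mul_le_mul_of_nonneg_left h3 (by positivity)
        _ = ((b : ℝ) - a) * (C0 * Real.exp (-(c * Q))) := by
            field_simp
        _ ≤ a * (C0 * Real.exp (-(c * Q))) :=
            mul_le_mul_of_nonneg_right hba (by positivity)
        _ = C0 * a * Real.exp (-(c * Q)) := by ring
    -- second term
    have hT2 : 2 * (M : ℝ) ^ 2 ≤ 2 * a * Real.exp (-(c * Q)) := by
      calc 2 * (M : ℝ) ^ 2 ≤ 2 * Real.exp (l * (4 / 5)) := by linarith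
        _ = 2 * (Real.exp l * Real.exp (-(l / 5))) := by
            rw [← Real.exp_add]; congr 2; ring
        _ ≤ 2 * (Real.exp l * Real.exp (-(c * Q))) := by
            refine mul_le_mul_of_nonneg_left ?_ (by norm_num)
            exact mul_le_mul_of_nonneg_left (Real.exp_le_exp.2 (by linarith)) (Real.exp_pos _).le
        _ = 2 * a * Real.exp (-(c * Q)) := by rw [hel]; ring
    -- third term
    have hT3 : ((b : ℝ) - a) * (2 * t * ((M : ℝ) ^ 2 / a) ^ (k + 1)) ≤
        2 * a * Real.exp (-(c * Q)) := by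
      have h1 : (M : ℝ) ^ 2 / a ≤ Real.exp (-(l / 5)) := by
        rw [div_le_iff₀ ha0]
        calc (M : ℝ) ^ 2 ≤ Real.exp (l * (4 / 5)) := hM2
          _ = Real.exp (-(l / 5)) * Real.exp l := by rw [← Real.exp_add]; congr 1; ring
          _ = Real.exp (-(l / 5)) * a := by rw [hel]
      have h2 : ((M : ℝ) ^ 2 / a) ^ (k + 1) ≤ Real.exp (((k + 1 : ℕ) : ℝ) * (-(l / 5))) := by
        rw [Real.exp_nat_mul]
        exact pow_le_pow_left₀ (by positivity) h1 (k + 1)
      have h3 : 5 * (τ / l) + 6 ≤ ((k + 1 : ℕ) : ℝ) := by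
        rw [hk]
        push_cast
        have := Nat.le_ceil (5 * (Real.log t / Real.log a))
        linarith
      have h4 : τ + 6 / 5 * l ≤ ((k + 1 : ℕ) : ℝ) * (l / 5) := by
        have h5 := mul_le_mul_of_nonneg_right h3 (show 0 ≤ l / 5 by positivity)
        have h6 : (5 * (τ / l) + 6) * (l / 5) = τ + 6 / 5 * l := by
          field_simp
        linarith
      have h5 : t * ((M : ℝ) ^ 2 / a) ^ (k + 1) ≤ Real.exp (-(c * Q)) := by
        calc t * ((M : ℝ) ^ 2 / a) ^ (k + 1)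
            ≤ t * Real.exp (((k + 1 : ℕ) : ℝ) * (-(l / 5))) :=
              mul_le_mul_of_nonneg_left h2 hta.le
          _ = Real.exp τ * Real.exp (((k + 1 : ℕ) : ℝ) * (-(l / 5))) := by rw [heτ]
          _ = Real.exp (τ + ((k + 1 : ℕ) : ℝ) * (-(l / 5))) := by rw [Real.exp_add]
          _ ≤ Real.exp (-(c * Q)) := by
              refine Real.exp_le_exp.2 ?_
              have : ((k + 1 : ℕ) : ℝ) * (-(l / 5)) = -(((k + 1 : ℕ) : ℝ) * (l / 5)) := by ring
              rw [this]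
              linarith
      have h6 : 0 ≤ t * ((M : ℝ) ^ 2 / a) ^ (k + 1) := by positivity
      calc ((b : ℝ) - a) * (2 * t * ((M : ℝ) ^ 2 / a) ^ (k + 1))
          = ((b : ℝ) - a) * (2 * (t * ((M : ℝ) ^ 2 / a) ^ (k + 1))) := by ring
        _ ≤ a * (2 * (t * ((M : ℝ) ^ 2 / a) ^ (k + 1))) :=
            mul_le_mul_of_nonneg_right hba (by positivity)
        _ ≤ a * (2 * Real.exp (-(c * Q))) := by
            refine mul_le_mul_of_nonneg_left ?_ ha0.le
            exact mul_le_mul_of_nonneg_left h5 (by norm_num)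
        _ = 2 * a * Real.exp (-(c * Q)) := by ring
    have hsum : C0 * a * Real.exp (-(c * Q)) + 2 * a * Real.exp (-(c * Q)) +
        2 * a * Real.exp (-(c * Q)) ≤ C * a * Real.exp (-(c * Q)) := by
      have h1 : (C0 + 4) * (a * Real.exp (-(c * Q))) ≤ C * (a * Real.exp (-(c * Q))) :=
        mul_le_mul_of_nonneg_right hC4 (by positivity)
      calc C0 * a * Real.exp (-(c * Q)) + 2 * a * Real.exp (-(c * Q)) +
            2 * a * Real.exp (-(c * Q)) = (C0 + 4) * (a * Real.exp (-(c * Q))) := by ring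
        _ ≤ C * (a * Real.exp (-(c * Q))) := h1
        _ = C * a * Real.exp (-(c * Q)) := by ring
    linarith

end VKZ
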