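import Pool.Agent.VKZ.Fin1

/-!
# VKZ.Holder: Vinogradov's bilinear inequality

PROOF. `U = ∑_{x,y} e(∑_j α_j x^j y^j)`, `x`, `y` from `1` to `M`. Let `V_x = ∑_y e(∑ α_j x^j y^j)`.
(1) `|U|^(2s) ≤ M^(2s-1) ∑_x |V_x|^(2s)`, and `|V_x|^(2s) = ∑_λ c(λ) e(∑_j α_j x^j λ_j)`, where `c(λ)` is the number
of `(y, y')` in `[1,M]^s × [1,M]^s` with `∑ y_i^j - ∑ y'_i^j = λ_j` for `1 ≤ j ≤ k`; it is zero unless
`|λ_j| ≤ s M^j`; `c(λ) ≤ J` (`J_coeff` with `a = 1`), `∑_λ c(λ) = M^(2s)`.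
(2) With `G(λ) = ∑_x e(∑_j α_j λ_j x^j)`: `|U|^(2s) ≤ M^(2s-1) ∑_λ c(λ) |G(λ)|`, and by Hölder and
Cauchy-Schwarz `(∑ c |G|)^(2s) ≤ (∑ c)^(2s-2) (∑ c²) ∑_λ |G(λ)|^(2s)`, `∑ c² ≤ J M^(2s)`.
(3) `∑_{λ ∈ box} |G(λ)|^(2s) = ∑_{λ ∈ box} ∑_μ c(μ) e(∑_j α_j λ_j μ_j) ≤ J ∏_j ∑_{|μ|≤sM^j} |∑_{|λ|≤sM^j} e(α_j λ μ)|`.
Together `|U|^(4s²) ≤ M^(2s(2s-1)) M^(2s(2s-2)) J M^(2s) J ∏ = M^(8s²-4s) J² ∏`.
-/

namespace VKZ

open Finset

private theorem Holder_e_add (x y : ℝ) : e (x + y) = e x * e y := by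
  unfold e
  rw [← Complex.exp_add]
  congr 1
  push_cast
  ring

private theorem Holder_e_zero : e 0 = 1 := by simp [e]

private theorem Holder_e_conj (x : ℝ) : (starRingEnd ℂ) (e x) = e (-x) := by
  unfold e
  rw [← Complex.exp_conj]
  congr 1
  simp only [map_mul, Complex.conj_ofReal, Complex.conj_I, map_ofNat]
  push_cast
  ring

private theorem Holder_e_sum {ι : Type*} (s : Finset ι) (f : ι → ℝ) :
    e (∑ i ∈ s, f i) = ∏ i ∈ s, e (f i) := by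
  classical
  induction s using Finset.induction_on with
  | empty => simp [Holder_e_zero]
  | insert a s ha ih => rw [Finset.sum_insert ha, Finset.prod_insert ha, Holder_e_add, ih]

/-- the differences of the power sums -/
private noncomputable def mm {s M : ℕ} (w : (Fin s → Fin M) × (Fin s → Fin M)) (j : ℕ) : ℤ :=
  ∑ i, (((w.1 i : ℕ) : ℤ) + 1) ^ j - ∑ i, (((w.2 i : ℕ) : ℤ) + 1) ^ j

/-- the extension of a vector -/
private noncomputable def ext {k : ℕ} (v : Fin k → ℤ) (j : ℕ) : ℤ :=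
  if h : 1 ≤ j ∧ j ≤ k then v ⟨j - 1, by omega⟩ else 0

private theorem ext_succ {k : ℕ} (v : Fin k → ℤ) (j : Fin k) : ext v ((j : ℕ) + 1) = v j := by
  unfold ext
  rw [dif_pos ⟨by omega, by omega⟩]
  congr 1

/-- the interval -/
private noncomputable def II (s M j : ℕ) : Finset ℤ := Icc (-((s * M ^ j : ℕ) : ℤ)) ((s * M ^ j : ℕ) : ℤ)

/-- the box -/
private noncomputable def box (k s M : ℕ) : Finset (Fin k → ℤ) :=
  Fintype.piFinset fun j : Fin k => II s M ((j : ℕ) + 1)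

private theorem Holder_prod {R : Type*} [CommMonoid R] (k : ℕ) (g : ℕ → R) :
    ∏ j ∈ Icc 1 k, g j = ∏ j : Fin k, g ((j : ℕ) + 1) := by
  rw [Fin.prod_univ_eq_prod_range (fun j => g (j + 1)) k]
  apply Finset.prod_nbij' (fun j => j - 1) (fun j => j + 1)
  · intro j hj
    rw [Finset.mem_Icc] at hj
    rw [Finset.mem_range]
    omega
  · intro j hj
    rw [Finset.mem_range] at hj
    rw [Finset.mem_Icc]
    omega
  · intro j hj
    rw [Finset.mem_Icc] at hj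
    omega
  · intro j hj
    omega
  · intro j hj
    rw [Finset.mem_Icc] at hj
    congr 1
    omega

private theorem Holder_sum {R : Type*} [AddCommMonoid R] (k : ℕ) (g : ℕ → R) :
    ∑ j ∈ Icc 1 k, g j = ∑ j : Fin k, g ((j : ℕ) + 1) := by
  rw [Fin.sum_univ_eq_sum_range (fun j => g (j + 1)) k]
  apply Finset.sum_nbij' (fun j => j - 1) (fun j => j + 1)
  · intro j hj
    rw [Finset.mem_Icc] at hj
    rw [Finset.mem_range]
    omega
  · intro j hj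
    rw [Finset.mem_range] at hj
    rw [Finset.mem_Icc]
    omega
  · intro j hj
    rw [Finset.mem_Icc] at hj
    omega
  · intro j hj
    omega
  · intro j hj
    rw [Finset.mem_Icc] at hj
    congr 1
    omega

private theorem Holder_Icc (M : ℕ) (g : ℕ → ℂ) :
    ∑ y ∈ Icc 1 M, g y = ∑ y : Fin M, g ((y : ℕ) + 1) := Holder_sum M g

private theorem Holder_mem (s M j : ℕ) (w : (Fin s → Fin M) × (Fin s → Fin M)) :
    mm w j ∈ II s M j := by
  have h : ∀ y : Fin s → Fin M, 0 ≤ ∑ i, (((y i : ℕ) : ℤ) + 1) ^ j ∧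
      ∑ i, (((y i : ℕ) : ℤ) + 1) ^ j ≤ ((s * M ^ j : ℕ) : ℤ) := by
    intro y
    constructor
    · apply Finset.sum_nonneg
      intro i _
      positivity
    · calc ∑ i, (((y i : ℕ) : ℤ) + 1) ^ j ≤ ∑ i : Fin s, (M : ℤ) ^ j := by
            apply Finset.sum_le_sum
            intro i _
            apply pow_le_pow_left₀ (by positivity)
            have := (y i).isLt
            omega
        _ = _ := by
            rw [Finset.sum_const, Finset.card_univ, Fintype.card_fin]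
            push_cast
            rw [nsmul_eq_mul]
  have h1 := h w.1
  have h2 := h w.2
  unfold mm II
  rw [Finset.mem_Icc]
  constructor <;> linarith [h1.1, h1.2, h2.1, h2.2]

private theorem Holder_count (k s M : ℕ) (F : (Fin k → ℤ) → ℝ) (hF : ∀ v, 0 ≤ F v) :
    ∑ w : (Fin s → Fin M) × (Fin s → Fin M), F (fun j => mm w ((j : ℕ) + 1)) ≤
      (J k s M : ℝ) * ∑ v ∈ box k s M, F v := by
  classical
  rw [← Finset.sum_fiberwise_of_maps_to
    (g := fun w : (Fin s → Fin M) × (Fin s → Fin M) => (fun j : Fin k => mm w ((j : ℕ) + 1)))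
    (t := box k s M)]
  · rw [Finset.mul_sum]
    apply Finset.sum_le_sum
    intro v _
    have h1 : ∑ w ∈ (univ : Finset ((Fin s → Fin M) × (Fin s → Fin M))).filter
        (fun w => (fun j : Fin k => mm w ((j : ℕ) + 1)) = v),
        F (fun j => mm w ((j : ℕ) + 1)) =
        ((((univ : Finset ((Fin s → Fin M) × (Fin s → Fin M))).filter
        (fun w => (fun j : Fin k => mm w ((j : ℕ) + 1)) = v)).card : ℕ) : ℝ) * F v := by
      rw [← nsmul_eq_mul, ← Finset.sum_const]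
      apply Finset.sum_congr rfl
      intro w hw
      rw [Finset.mem_filter] at hw
      rw [hw.2]
    rw [h1]
    apply mul_le_mul_of_nonneg_right _ (hF v)
    have h2 := J_coeff k s M 1 (ext v)
    refine le_trans ?_ (Nat.cast_le.mpr h2)
    rw [Nat.cast_le]
    apply Finset.card_le_card
    intro w hw
    rw [Finset.mem_filter] at hw
    simp only [Finset.mem_filter]
    refine ⟨Finset.mem_univ _, ?_⟩
    intro j hj
    rw [Finset.mem_Icc] at hj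
    obtain ⟨i, rfl⟩ : ∃ i : ℕ, j = i + 1 := ⟨j - 1, by omega⟩
    have h3 := congrFun hw.2 ⟨i, by omega⟩
    have h4 := ext_succ v ⟨i, by omega⟩
    simp only at h3 h4
    rw [h4, ← h3]
    rfl
  · intro w _
    unfold box
    rw [Fintype.mem_piFinset]
    intro j
    exact Holder_mem s M _ w

private theorem Holder_expand (k s M : ℕ) (β : ℕ → ℝ) :
    ((‖∑ y ∈ Icc 1 M, e (∑ j ∈ Icc 1 k, β j * (y : ℝ) ^ j)‖ ^ (2 * s) : ℝ) : ℂ) =
      ∑ w : (Fin s → Fin M) × (Fin s → Fin M), e (∑ j ∈ Icc 1 k, β j * (mm w j : ℝ)) := by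
  set P : ℕ → ℝ := fun y => ∑ j ∈ Icc 1 k, β j * (y : ℝ) ^ j with hP
  have h0 : ∑ y ∈ Icc 1 M, e (P y) = ∑ y : Fin M, e (P ((y : ℕ) + 1)) :=
    Holder_Icc M (fun y => e (P y))
  rw [h0]
  set z : ℂ := ∑ y : Fin M, e (P ((y : ℕ) + 1)) with hz
  have h1 : ((‖z‖ ^ (2 * s) : ℝ) : ℂ) = z ^ s * ((starRingEnd ℂ) z) ^ s := by
    rw [← mul_pow, Complex.mul_conj, pow_mul]
    push_cast
    rw [Complex.normSq_eq_norm_sq]
    push_cast
    rfl
  have h2 : z ^ s = ∑ y : Fin s → Fin M, e (∑ i, P ((y i : ℕ) + 1)) := by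
    rw [hz, Fintype.sum_pow]
    apply Finset.sum_congr rfl
    intro y _
    rw [Holder_e_sum]
  have h3 : ((starRingEnd ℂ) z) ^ s =
      ∑ y : Fin s → Fin M, e (-∑ i, P ((y i : ℕ) + 1)) := by
    rw [← map_pow, h2, map_sum]
    apply Finset.sum_congr rfl
    intro y _
    rw [Holder_e_conj]
  rw [h1, h2, h3, Finset.sum_mul_sum, ← Finset.univ_product_univ, Finset.sum_product]
  apply Finset.sum_congr rfl
  intro y _
  apply Finset.sum_congr rfl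
  intro y' _
  rw [← Holder_e_add]
  congr 1
  have h4 : ∀ u : Fin s → Fin M, ∑ i, P ((u i : ℕ) + 1) =
      ∑ j ∈ Icc 1 k, β j * ∑ i, (((u i : ℕ) : ℝ) + 1) ^ j := by
    intro u
    rw [hP]
    simp only
    rw [Finset.sum_comm]
    apply Finset.sum_congr rfl
    intro j _
    rw [Finset.mul_sum]
    apply Finset.sum_congr rfl
    intro i _
    push_cast
    rfl
  rw [h4, h4, ← sub_eq_add_neg, ← Finset.sum_sub_distrib]
  apply Finset.sum_congr rfl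
  intro j _
  unfold mm
  push_cast
  ring

private theorem Holder_pow {ι : Type*} (s : Finset ι) (f : ι → ℝ) (hf : ∀ i ∈ s, 0 ≤ f i) {n : ℕ}
    (hn : 1 ≤ n) : (∑ i ∈ s, f i) ^ n ≤ (s.card : ℝ) ^ (n - 1) * ∑ i ∈ s, f i ^ n := by
  obtain ⟨m, rfl⟩ : ∃ m, n = m + 1 := ⟨n - 1, by omega⟩
  exact pow_sum_le_card_mul_sum_pow hf m

theorem holder {k s M : ℕ} (hs : 1 ≤ s) (hM : 1 ≤ M) (α : ℕ → ℝ) :
    ‖∑ x ∈ Icc 1 M, ∑ y ∈ Icc 1 M, e (∑ j ∈ Icc 1 k, α j * (x : ℝ) ^ j * (y : ℝ) ^ j)‖ ^ (4 * s ^ 2) ≤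
      (M : ℝ) ^ (8 * s ^ 2 - 4 * s) * (J k s M : ℝ) ^ 2 *
        ∏ j ∈ Icc 1 k, ∑ μ ∈ Icc (-((s * M ^ j : ℕ) : ℤ)) ((s * M ^ j : ℕ) : ℤ),
          ‖∑ lam ∈ Icc (-((s * M ^ j : ℕ) : ℤ)) ((s * M ^ j : ℕ) : ℤ), e (α j * (lam : ℝ) * (μ : ℝ))‖ := by
  classical
  obtain ⟨G, hG⟩ : ∃ G : (Fin k → ℤ) → ℂ, G = fun v =>
    ∑ x ∈ Icc 1 M, e (∑ j ∈ Icc 1 k, (α j * (ext v j : ℝ)) * (x : ℝ) ^ j) := ⟨_, rfl⟩
  obtain ⟨V, hV⟩ : ∃ V : ℕ → ℂ, V = fun (x : ℕ) =>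
    ∑ y ∈ Icc 1 M, e (∑ j ∈ Icc 1 k, α j * ((x : ℕ) : ℝ) ^ j * (y : ℝ) ^ j) := ⟨_, rfl⟩
  obtain ⟨K, hK⟩ : ∃ K : ℕ → ℤ → ℝ, K = fun (j : ℕ) (μ : ℤ) =>
    ‖∑ lam ∈ II s M j, e (α j * (lam : ℝ) * (μ : ℝ))‖ := ⟨_, rfl⟩
  have hJ0 : (0 : ℝ) ≤ J k s M := Nat.cast_nonneg _
  have hcard : Fintype.card ((Fin s → Fin M) × (Fin s → Fin M)) = M ^ (2 * s) := by
    simp only [Fintype.card_prod, Fintype.card_fun, Fintype.card_fin]
    rw [← pow_add]
    congr 1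
    ring
  -- (1)
  have h1 : ‖∑ x ∈ Icc 1 M, V x‖ ^ (2 * s) ≤
      (M : ℝ) ^ (2 * s - 1) * ∑ x ∈ Icc 1 M, ‖V x‖ ^ (2 * s) := by
    calc ‖∑ x ∈ Icc 1 M, V x‖ ^ (2 * s) ≤ (∑ x ∈ Icc 1 M, ‖V x‖) ^ (2 * s) :=
          pow_le_pow_left₀ (norm_nonneg _) (norm_sum_le _ _) _
      _ ≤ _ := by
          have := Holder_pow (Icc 1 M) (fun x => ‖V x‖) (fun _ _ => norm_nonneg _)
            (n := 2 * s) (by omega)
          rwa [Nat.card_Icc, Nat.add_sub_cancel] at this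
  -- the sum over x
  have h2 : ∑ x ∈ Icc 1 M, ‖V x‖ ^ (2 * s) ≤
      ∑ w : (Fin s → Fin M) × (Fin s → Fin M), ‖G (fun j => mm w ((j : ℕ) + 1))‖ := by
    have h3 : ((∑ x ∈ Icc 1 M, ‖V x‖ ^ (2 * s) : ℝ) : ℂ) =
        ∑ w : (Fin s → Fin M) × (Fin s → Fin M), G (fun j => mm w ((j : ℕ) + 1)) := by
      push_cast
      rw [hG]
      simp only
      rw [Finset.sum_comm]
      apply Finset.sum_congr rfl
      intro x _
      have h4 := Holder_expand k s M (fun j => α j * (x : ℝ) ^ j)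
      rw [hV]
      push_cast at h4 ⊢
      rw [h4]
      apply Finset.sum_congr rfl
      intro w _
      congr 1
      rw [Holder_sum, Holder_sum]
      apply Finset.sum_congr rfl
      intro j _
      rw [ext_succ]
      ring
    have h5 : 0 ≤ ∑ x ∈ Icc 1 M, ‖V x‖ ^ (2 * s) :=
      Finset.sum_nonneg fun _ _ => by positivity
    calc ∑ x ∈ Icc 1 M, ‖V x‖ ^ (2 * s) = ‖((∑ x ∈ Icc 1 M, ‖V x‖ ^ (2 * s) : ℝ) : ℂ)‖ := by
          rw [Complex.norm_real, Real.norm_of_nonneg h5]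
      _ ≤ _ := by
          rw [h3]
          exact norm_sum_le _ _
  -- (2)
  have h6 : (∑ w : (Fin s → Fin M) × (Fin s → Fin M),
      ‖G (fun j => mm w ((j : ℕ) + 1))‖) ^ (2 * s) ≤
      ((M : ℝ) ^ (2 * s)) ^ (2 * s - 1) *
        ∑ w : (Fin s → Fin M) × (Fin s → Fin M), ‖G (fun j => mm w ((j : ℕ) + 1))‖ ^ (2 * s) := by
    have := Holder_pow (univ : Finset ((Fin s → Fin M) × (Fin s → Fin M)))
      (fun w => ‖G (fun j => mm w ((j : ℕ) + 1))‖) (fun _ _ => norm_nonneg _)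
      (n := 2 * s) (by omega)
    rw [Finset.card_univ, hcard] at this
    push_cast at this
    exact this
  have h7 := Holder_count k s M (fun v => ‖G v‖ ^ (2 * s)) (fun v => by positivity)
  -- (3)
  have h8 : ∑ v ∈ box k s M, ‖G v‖ ^ (2 * s) ≤
      ∑ w : (Fin s → Fin M) × (Fin s → Fin M), ∏ j : Fin k, K ((j : ℕ) + 1) (mm w ((j : ℕ) + 1)) := by
    have h3 : ((∑ v ∈ box k s M, ‖G v‖ ^ (2 * s) : ℝ) : ℂ) =
        ∑ w : (Fin s → Fin M) × (Fin s → Fin M), ∏ j : Fin k,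
          ∑ lam ∈ II s M ((j : ℕ) + 1), e (α ((j : ℕ) + 1) * (lam : ℝ) *
            ((mm w ((j : ℕ) + 1) : ℤ) : ℝ)) := by
      have h4 : ∀ w : (Fin s → Fin M) × (Fin s → Fin M), ∏ j : Fin k,
          ∑ lam ∈ II s M ((j : ℕ) + 1), e (α ((j : ℕ) + 1) * (lam : ℝ) *
            ((mm w ((j : ℕ) + 1) : ℤ) : ℝ)) =
          ∑ v ∈ box k s M, ∏ j : Fin k, e (α ((j : ℕ) + 1) * ((v j : ℤ) : ℝ) *
            ((mm w ((j : ℕ) + 1) : ℤ) : ℝ)) := by
        intro w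
        rw [Finset.prod_univ_sum]
        rfl
      simp_rw [h4]
      rw [Finset.sum_comm]
      push_cast
      apply Finset.sum_congr rfl
      intro v _
      have h5 := Holder_expand k s M (fun j => α j * (ext v j : ℝ))
      rw [hG]
      push_cast at h5 ⊢
      rw [h5]
      apply Finset.sum_congr rfl
      intro w _
      rw [← Holder_e_sum, Holder_sum]
      congr 1
      apply Finset.sum_congr rfl
      intro j _
      rw [ext_succ]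
    have h5 : 0 ≤ ∑ v ∈ box k s M, ‖G v‖ ^ (2 * s) :=
      Finset.sum_nonneg fun _ _ => by positivity
    calc ∑ v ∈ box k s M, ‖G v‖ ^ (2 * s) =
        ‖((∑ v ∈ box k s M, ‖G v‖ ^ (2 * s) : ℝ) : ℂ)‖ := by
          rw [Complex.norm_real, Real.norm_of_nonneg h5]
      _ ≤ _ := by
          rw [h3]
          refine (norm_sum_le _ _).trans (le_of_eq ?_)
          apply Finset.sum_congr rfl
          intro w _
          rw [norm_prod, hK]
  have h9 := Holder_count k s M (fun v => ∏ j : Fin k, K ((j : ℕ) + 1) (v j))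
    (fun v => Finset.prod_nonneg fun j _ => by rw [hK]; exact norm_nonneg _)
  simp only at h9
  have h10 : ∑ v ∈ box k s M, ∏ j : Fin k, K ((j : ℕ) + 1) (v j) =
      ∏ j ∈ Icc 1 k, ∑ μ ∈ II s M j, K j μ := by
    rw [Holder_prod, Finset.prod_univ_sum]
    rfl
  -- put together
  obtain ⟨Q, hQ⟩ : ∃ Q : ℝ, Q = ∏ j ∈ Icc 1 k, ∑ μ ∈ II s M j, K j μ := ⟨_, rfl⟩
  rw [h10, ← hQ] at h9
  have hQ' : ∏ j ∈ Icc 1 k, ∑ μ ∈ Icc (-((s * M ^ j : ℕ) : ℤ)) ((s * M ^ j : ℕ) : ℤ),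
      ‖∑ lam ∈ Icc (-((s * M ^ j : ℕ) : ℤ)) ((s * M ^ j : ℕ) : ℤ),
        e (α j * (lam : ℝ) * (μ : ℝ))‖ = Q := by
    rw [hQ, hK]
    rfl
  rw [hQ']
  have hUV : ∑ x ∈ Icc 1 M, ∑ y ∈ Icc 1 M,
      e (∑ j ∈ Icc 1 k, α j * (x : ℝ) ^ j * (y : ℝ) ^ j) = ∑ x ∈ Icc 1 M, V x := by
    rw [hV]
  rw [hUV]
  have h11 : ∑ w : (Fin s → Fin M) × (Fin s → Fin M),
      ‖G (fun j => mm w ((j : ℕ) + 1))‖ ^ (2 * s) ≤ (J k s M : ℝ) * ((J k s M : ℝ) * Q) :=
    h7.trans (mul_le_mul_of_nonneg_left (h8.trans h9) hJ0)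
  have h12 : (0 : ℝ) ≤ (M : ℝ) ^ (2 * s - 1) := by positivity
  calc ‖∑ x ∈ Icc 1 M, V x‖ ^ (4 * s ^ 2) = (‖∑ x ∈ Icc 1 M, V x‖ ^ (2 * s)) ^ (2 * s) := by
        rw [← pow_mul]
        congr 1
        ring
    _ ≤ ((M : ℝ) ^ (2 * s - 1) * ∑ w : (Fin s → Fin M) × (Fin s → Fin M),
        ‖G (fun j => mm w ((j : ℕ) + 1))‖) ^ (2 * s) := by
        apply pow_le_pow_left₀ (by positivity)
        exact h1.trans (mul_le_mul_of_nonneg_left h2 h12)
    _ = ((M : ℝ) ^ (2 * s - 1)) ^ (2 * s) * (∑ w : (Fin s → Fin M) × (Fin s → Fin M),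
        ‖G (fun j => mm w ((j : ℕ) + 1))‖) ^ (2 * s) := mul_pow _ _ _
    _ ≤ ((M : ℝ) ^ (2 * s - 1)) ^ (2 * s) * (((M : ℝ) ^ (2 * s)) ^ (2 * s - 1) *
        ((J k s M : ℝ) * ((J k s M : ℝ) * Q))) := by
        apply mul_le_mul_of_nonneg_left _ (by positivity)
        exact h6.trans (mul_le_mul_of_nonneg_left h11 (by positivity))
    _ = _ := by
        have e1 : ((M : ℝ) ^ (2 * s - 1)) ^ (2 * s) * ((M : ℝ) ^ (2 * s)) ^ (2 * s - 1) =
            (M : ℝ) ^ (8 * s ^ 2 - 4 * s) := by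
          rw [← pow_mul, ← pow_mul, ← pow_add]
          congr 1
          obtain ⟨r, rfl⟩ : ∃ r, s = r + 1 := ⟨s - 1, by omega⟩
          have e2 : 2 * (r + 1) - 1 = 2 * r + 1 := by omega
          have e3 : 8 * (r + 1) ^ 2 - 4 * (r + 1) = 8 * r ^ 2 + 12 * r + 4 := by
            rw [Nat.sub_eq_iff_eq_add]
            · ring
            · nlinarith
          rw [e2, e3]
          ring
        rw [← e1]
        ring

end VKZ
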