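import Pool.Agent.VKZ.Fin1

/-!
# VKZ.Comb: `J` in terms of `R1`

PROOF. `s = k + t`. Let `A` be the set of the `x : Fin s → Fin X` with at most `k - 1` distinct values:
`|A| ≤ X^(k-1) (k-1)^s` (choose a `(k-1)`-tuple of values and for each position which of them it takes;
`|A| ≤ X^(k-1) k^s`). By `J_le_cs` the solutions with `x ∈ A` or `y ∈ A` are at most `2 |A| √J`. For the other
solutions there are `I, I' ⊂ Fin s` with `|I| = |I'| = k` such that `x` is injective on `I` and `y` on `I'`; after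
permutations of the coordinates (at most `s^k` embeddings `Fin k → Fin s` each for `x` and `y`, extended to
permutations) we count the solutions with `x_1, ..., x_k` distinct and `y_1, ..., y_k` distinct. For such a
solution `D = ∏_{i<j≤k} (x_i - x_j) ∏_{i<j≤k} (y_i - y_j) ≠ 0`, `|D| < X^(k(k-1))` (if `k ≥ 2`; for `X = 1` there is
nothing to do). If `n` of the primes of `P` divide `D` then `X^(n/k) ≤ ∏ p ≤ |D| < X^(k(k-1))`, so
`n < k²(k-1) < k³ ≤ |P|` and some `p ∈ P` does not divide `D`. So the number is at most `∑_{p∈P} R1 k t X p`.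
Finally `J ≤ 2 |A| √J + B` implies `J ≤ 16 |A|²` or `J ≤ 2 B`.
-/

namespace VKZ

open Finset

/-- the system of equations -/
private def Comb_Sol (k : ℕ) {s X : ℕ} (w : (Fin s → Fin X) × (Fin s → Fin X)) : Prop :=
  ∀ j ∈ Icc 1 k, ∑ i, ((w.1 i : ℕ) : ℤ) ^ j = ∑ i, ((w.2 i : ℕ) : ℤ) ^ j

private theorem Comb_swap {k s X : ℕ} {w : (Fin s → Fin X) × (Fin s → Fin X)}
    (h : Comb_Sol k w) : Comb_Sol k w.swap := fun j hj => (h j hj).symm

private theorem Comb_perm {k s X : ℕ} {w : (Fin s → Fin X) × (Fin s → Fin X)}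
    (h : Comb_Sol k w) (e1 e2 : Equiv.Perm (Fin s)) : Comb_Sol k (w.1 ∘ e1, w.2 ∘ e2) := by
  intro j hj
  have h1 := Equiv.sum_comp e1 fun i => ((w.1 i : ℕ) : ℤ) ^ j
  have h2 := Equiv.sum_comp e2 fun i => ((w.2 i : ℕ) : ℤ) ^ j
  have h3 := h j hj
  simp only [Function.comp_apply]
  rw [h1, h2, h3]

open Classical in
private theorem Comb_J (k s X : ℕ) :
    J k s X = (univ.filter fun w : (Fin s → Fin X) × (Fin s → Fin X) => Comb_Sol k w).card := by
  unfold J Comb_Sol
  congr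

open Classical in
private theorem Comb_total (k s X : ℕ) (A : Finset (Fin s → Fin X)) :
    (J k s X : ℝ) ≤ 2 * (A.card * Real.sqrt (J k s X)) +
      ((univ.filter fun w : (Fin s → Fin X) × (Fin s → Fin X) =>
        Comb_Sol k w ∧ w.1 ∉ A ∧ w.2 ∉ A).card : ℝ) := by
  have h1 : ((univ.filter fun w : (Fin s → Fin X) × (Fin s → Fin X) =>
      Comb_Sol k w ∧ w.1 ∈ A).card : ℝ) ≤ A.card * Real.sqrt (J k s X) := by
    have h := J_le_cs k s X A
    refine le_trans (le_of_eq ?_) h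
    congr 2
    ext w
    simp only [mem_filter, mem_univ, true_and, mem_product, and_true]
    exact and_comm
  have h2 : (univ.filter fun w : (Fin s → Fin X) × (Fin s → Fin X) =>
      Comb_Sol k w ∧ w.2 ∈ A).card ≤ (univ.filter fun w : (Fin s → Fin X) × (Fin s → Fin X) =>
      Comb_Sol k w ∧ w.1 ∈ A).card := by
    refine card_le_card_of_injOn Prod.swap ?_ (Prod.swap_injective.injOn)
    intro w hw
    have hw' := (mem_filter.1 (mem_coe.1 hw)).2
    exact mem_coe.2 (mem_filter.2 ⟨mem_univ _, Comb_swap hw'.1, hw'.2⟩)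
  have h3 : (univ.filter fun w : (Fin s → Fin X) × (Fin s → Fin X) => Comb_Sol k w) ⊆
      ((univ.filter fun w : (Fin s → Fin X) × (Fin s → Fin X) => Comb_Sol k w ∧ w.1 ∈ A) ∪
      (univ.filter fun w : (Fin s → Fin X) × (Fin s → Fin X) => Comb_Sol k w ∧ w.2 ∈ A)) ∪
      (univ.filter fun w : (Fin s → Fin X) × (Fin s → Fin X) =>
        Comb_Sol k w ∧ w.1 ∉ A ∧ w.2 ∉ A) := by
    intro w hw
    have hw' := (mem_filter.1 hw).2
    simp only [mem_union, mem_filter, mem_univ, true_and]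
    tauto
  have h4 := (card_le_card h3).trans ((card_union_le _ _).trans
    (Nat.add_le_add_right (card_union_le _ _) _))
  rw [← Comb_J] at h4
  have h5 : (J k s X : ℝ) ≤
      ((univ.filter fun w : (Fin s → Fin X) × (Fin s → Fin X) =>
        Comb_Sol k w ∧ w.1 ∈ A).card : ℝ) +
      ((univ.filter fun w : (Fin s → Fin X) × (Fin s → Fin X) =>
        Comb_Sol k w ∧ w.2 ∈ A).card : ℝ) +
      ((univ.filter fun w : (Fin s → Fin X) × (Fin s → Fin X) =>
        Comb_Sol k w ∧ w.1 ∉ A ∧ w.2 ∉ A).card : ℝ) := by exact_mod_cast h4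
  have h6 : ((univ.filter fun w : (Fin s → Fin X) × (Fin s → Fin X) =>
        Comb_Sol k w ∧ w.2 ∈ A).card : ℝ) ≤ ((univ.filter fun w : (Fin s → Fin X) × (Fin s → Fin X) =>
        Comb_Sol k w ∧ w.1 ∈ A).card : ℝ) := by exact_mod_cast h2
  linarith

open Classical in
/-- vectors with few values -/
private noncomputable def Comb_A (k s X : ℕ) : Finset (Fin s → Fin X) :=
  univ.filter fun x => (univ.image x).card < k

private theorem Comb_A_card {k s X : ℕ} (hk : 2 ≤ k) (hs : 0 < s) :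
    (Comb_A k s X).card ≤ X ^ (k - 1) * k ^ s := by
  classical
  have h1 : Comb_A k s X ⊆ (univ : Finset ((Fin (k - 1) → Fin X) × (Fin s → Fin (k - 1)))).image
      fun z => z.1 ∘ z.2 := by
    intro x hx
    have hx' := (mem_filter.1 hx).2
    have h2 : Fintype.card (univ.image x : Finset (Fin X)) ≤ Fintype.card (Fin (k - 1)) := by
      rw [Fintype.card_coe, Fintype.card_fin]
      have h3 : (univ.image x).card < k := by
        convert hx'
      omega
    obtain ⟨f⟩ := Function.Embedding.nonempty_of_card_le h2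
    rw [mem_image]
    refine ⟨(Function.extend f (fun τ => (τ : Fin X)) (fun _ => x ⟨0, hs⟩),
      fun i => f ⟨x i, mem_image_of_mem x (mem_univ i)⟩), mem_univ _, ?_⟩
    funext i
    simp only [Function.comp_apply]
    rw [f.injective.extend_apply]
  refine (card_le_card h1).trans (card_image_le.trans ?_)
  rw [card_univ, Fintype.card_prod, Fintype.card_fun, Fintype.card_fun, Fintype.card_fin,
    Fintype.card_fin, Fintype.card_fin]
  exact Nat.mul_le_mul_left _ (Nat.pow_le_pow_left (Nat.sub_le k 1) s)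

private theorem Comb_notA {k s X : ℕ} {x : Fin s → Fin X} (hx : x ∉ Comb_A k s X) :
    ∃ σ : Fin k → Fin s, Function.Injective (x ∘ σ) := by
  classical
  have h1 : k ≤ (univ.image x).card := by
    by_contra h
    refine hx (mem_filter.2 ⟨mem_univ _, ?_⟩)
    push Not at h
    convert h
  have h2 : Fintype.card (Fin k) ≤ Fintype.card (univ.image x : Finset (Fin X)) := by
    rw [Fintype.card_coe, Fintype.card_fin]
    exact h1
  obtain ⟨f⟩ := Function.Embedding.nonempty_of_card_le h2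
  have h3 : ∀ i : Fin k, ∃ a : Fin s, x a = (f i : Fin X) := by
    intro i
    obtain ⟨a, -, ha⟩ := mem_image.1 (f i).2
    exact ⟨a, ha⟩
  choose σ hσ using h3
  refine ⟨σ, ?_⟩
  intro i j hij
  have h4 : (f i : Fin X) = f j := by
    rw [← hσ i, ← hσ j]
    exact hij
  exact f.injective (Subtype.ext h4)

private theorem Comb_extend {k t : ℕ} {σ : Fin k → Fin (k + t)} (hσ : Function.Injective σ) :
    ∃ e : Equiv.Perm (Fin (k + t)), ∀ i, e (Fin.castAdd t i) = σ i := by
  classical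
  have h1 : Function.Injective (Fin.castAdd t : Fin k → Fin (k + t)) :=
    Fin.castAdd_injective k t
  refine ⟨((Equiv.ofInjective _ h1).symm.trans (Equiv.ofInjective _ hσ)).extendSubtype,
    fun i => ?_⟩
  rw [Equiv.extendSubtype_apply_of_mem _ _ ⟨i, rfl⟩]
  have h2 : (⟨Fin.castAdd t i, ⟨i, rfl⟩⟩ : Set.range (Fin.castAdd t : Fin k → Fin (k + t))) =
      Equiv.ofInjective _ h1 i := rfl
  have h3 : ((Equiv.ofInjective _ h1).symm.trans (Equiv.ofInjective _ hσ))
      ⟨Fin.castAdd t i, ⟨i, rfl⟩⟩ = Equiv.ofInjective _ hσ i := by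
    rw [h2, Equiv.trans_apply, Equiv.symm_apply_apply]
  exact congrArg Subtype.val h3

open Classical in
/-- solutions with distinct first coordinates -/
private noncomputable def Comb_B (k t X : ℕ) :
    Finset ((Fin (k + t) → Fin X) × (Fin (k + t) → Fin X)) :=
  univ.filter fun w => Comb_Sol k w ∧ Function.Injective (fun i : Fin k => w.1 (Fin.castAdd t i)) ∧
    Function.Injective (fun i : Fin k => w.2 (Fin.castAdd t i))

open Classical in
private theorem Comb_third (k t X : ℕ) :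
    (univ.filter fun w : (Fin (k + t) → Fin X) × (Fin (k + t) → Fin X) =>
      Comb_Sol k w ∧ w.1 ∉ Comb_A k (k + t) X ∧ w.2 ∉ Comb_A k (k + t) X).card ≤
      (k + t) ^ (2 * k) * (Comb_B k t X).card := by
  have hsub : (univ.filter fun w : (Fin (k + t) → Fin X) × (Fin (k + t) → Fin X) =>
      Comb_Sol k w ∧ w.1 ∉ Comb_A k (k + t) X ∧ w.2 ∉ Comb_A k (k + t) X) ⊆
      (univ : Finset ((Fin k → Fin (k + t)) × (Fin k → Fin (k + t)))).biUnion fun τ =>
        univ.filter fun w => Comb_Sol k w ∧ Function.Injective (w.1 ∘ τ.1) ∧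
          Function.Injective (w.2 ∘ τ.2) := by
    intro w hw
    obtain ⟨h1, h2, h3⟩ := (mem_filter.1 hw).2
    obtain ⟨σ, hσ⟩ := Comb_notA h2
    obtain ⟨σ', hσ'⟩ := Comb_notA h3
    exact mem_biUnion.2 ⟨(σ, σ'), mem_univ _, mem_filter.2 ⟨mem_univ _, h1, hσ, hσ'⟩⟩
  refine (card_le_card hsub).trans (card_biUnion_le.trans ?_)
  have h1 : ∀ τ ∈ (univ : Finset ((Fin k → Fin (k + t)) × (Fin k → Fin (k + t)))),
      (univ.filter fun w : (Fin (k + t) → Fin X) × (Fin (k + t) → Fin X) => Comb_Sol k w ∧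
        Function.Injective (w.1 ∘ τ.1) ∧ Function.Injective (w.2 ∘ τ.2)).card ≤
        (Comb_B k t X).card := by
    intro τ _
    by_cases hτ : Function.Injective τ.1 ∧ Function.Injective τ.2
    · obtain ⟨e1, he1⟩ := Comb_extend hτ.1
      obtain ⟨e2, he2⟩ := Comb_extend hτ.2
      refine card_le_card_of_injOn (fun w => (w.1 ∘ e1, w.2 ∘ e2)) ?_ ?_
      · intro w hw
        obtain ⟨h2, h3, h4⟩ := (mem_filter.1 (mem_coe.1 hw)).2
        refine mem_coe.2 (mem_filter.2 ⟨mem_univ _, Comb_perm h2 e1 e2, ?_, ?_⟩)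
        · have : (fun i : Fin k => (w.1 ∘ e1) (Fin.castAdd t i)) = w.1 ∘ τ.1 := by
            funext i
            simp only [Function.comp_apply, he1]
          rw [this]
          exact h3
        · have : (fun i : Fin k => (w.2 ∘ e2) (Fin.castAdd t i)) = w.2 ∘ τ.2 := by
            funext i
            simp only [Function.comp_apply, he2]
          rw [this]
          exact h4
      · intro w _ w' _ hww
        have hww' : (w.1 ∘ e1, w.2 ∘ e2) = (w'.1 ∘ e1, w'.2 ∘ e2) := hww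
        rw [Prod.mk.injEq] at hww'
        exact Prod.ext (e1.surjective.injective_comp_right hww'.1)
          (e2.surjective.injective_comp_right hww'.2)
    · have : (univ.filter fun w : (Fin (k + t) → Fin X) × (Fin (k + t) → Fin X) =>
          Comb_Sol k w ∧ Function.Injective (w.1 ∘ τ.1) ∧
          Function.Injective (w.2 ∘ τ.2)) = ∅ := by
        rw [filter_eq_empty_iff]
        rintro w - ⟨-, h3, h4⟩
        exact hτ ⟨h3.of_comp, h4.of_comp⟩
      rw [this, card_empty]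
      exact Nat.zero_le _
  refine (sum_le_sum h1).trans (le_of_eq ?_)
  rw [sum_const, card_univ, Fintype.card_prod, Fintype.card_fun, Fintype.card_fin,
    Fintype.card_fin, smul_eq_mul]
  congr 1
  rw [two_mul, pow_add]

/-- pairs of indices -/
private def Comb_Q (k : ℕ) : Finset (Fin k × Fin k) := univ.filter fun z => z.1 < z.2

private theorem Comb_Q_card (k : ℕ) : 2 * (Comb_Q k).card ≤ k * (k - 1) := by
  have h1 : Disjoint (Comb_Q k) ((Comb_Q k).image Prod.swap) := by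
    rw [disjoint_left]
    intro z hz hz'
    obtain ⟨z', hz1, rfl⟩ := mem_image.1 hz'
    have h2 := (mem_filter.1 hz).2
    have h3 := (mem_filter.1 hz1).2
    exact absurd h2 (not_lt.2 h3.le)
  have h2 : Comb_Q k ∪ (Comb_Q k).image Prod.swap ⊆ (univ : Finset (Fin k)).offDiag := by
    intro z hz
    rw [mem_offDiag]
    refine ⟨mem_univ _, mem_univ _, ?_⟩
    rcases mem_union.1 hz with h | h
    · exact (mem_filter.1 h).2.ne
    · obtain ⟨z', hz1, rfl⟩ := mem_image.1 h
      exact (mem_filter.1 hz1).2.ne'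
  have h3 := card_le_card h2
  rw [card_union_of_disjoint h1, card_image_of_injective _ Prod.swap_injective, offDiag_card,
    card_univ, Fintype.card_fin] at h3
  have h4 : k * (k - 1) = k * k - k := by
    rw [Nat.mul_sub, mul_one]
  omega

/-- the product of the differences -/
private def Comb_D {k : ℕ} (x : Fin k → ℕ) : ℕ :=
  ∏ z ∈ Comb_Q k, (((x z.2 : ℕ) : ℤ) - ((x z.1 : ℕ) : ℤ)).natAbs

private theorem Comb_D_pos {k : ℕ} {x : Fin k → ℕ} (hx : Function.Injective x) :
    0 < Comb_D x := by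
  refine prod_pos fun z hz => ?_
  rw [Int.natAbs_pos, sub_ne_zero]
  intro h
  have h1 : x z.2 = x z.1 := by exact_mod_cast h
  exact absurd (hx h1) (mem_filter.1 hz).2.ne'

private theorem Comb_D_le {k X : ℕ} {x : Fin k → ℕ} (hx : ∀ i, x i < X) :
    Comb_D x ≤ X ^ (Comb_Q k).card := by
  refine prod_le_pow_card _ _ _ fun z _ => ?_
  have h1 := hx z.1
  have h2 := hx z.2
  omega

private theorem Comb_D_mod {k p : ℕ} {x : Fin k → ℕ} (hp : ¬ p ∣ Comb_D x) {i i' : Fin k}
    (hii : i ≠ i') : ¬ (x i ≡ x i' [MOD p]) := by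
  have key : ∀ a b : Fin k, a < b → ¬ (x a ≡ x b [MOD p]) := by
    intro a b hab h
    apply hp
    have h1 : p ∣ (((x b : ℕ) : ℤ) - ((x a : ℕ) : ℤ)).natAbs :=
      Int.natCast_dvd.1 ((Nat.modEq_iff_dvd).1 h)
    exact h1.trans (dvd_prod_of_mem (fun z : Fin k × Fin k =>
      (((x z.2 : ℕ) : ℤ) - ((x z.1 : ℕ) : ℤ)).natAbs)
      (mem_filter.2 ⟨mem_univ (a, b), hab⟩))
  rcases lt_or_gt_of_ne hii with h | h
  · exact key i i' h
  · exact fun h' => key i' i h h'.symm

private theorem Comb_prime {k X : ℕ} (hk : 2 ≤ k) (hX : 2 ≤ X) (P : Finset ℕ)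
    (hP : ∀ p ∈ P, p.Prime) (hPX : ∀ p ∈ P, X ≤ p ^ k) (hcard : k ^ 3 ≤ P.card)
    {x y : Fin k → ℕ} (hx : Function.Injective x) (hy : Function.Injective y)
    (hxX : ∀ i, x i < X) (hyX : ∀ i, y i < X) :
    ∃ p ∈ P, ¬ p ∣ Comb_D x ∧ ¬ p ∣ Comb_D y := by
  by_contra hcon
  push Not at hcon
  have h1 : ∀ p ∈ P, p ∣ Comb_D x * Comb_D y := by
    intro p hp
    by_cases h : p ∣ Comb_D x
    · exact h.mul_right _
    · exact (hcon p hp h).mul_left _
  have h2 : ∏ p ∈ P, p ∣ Comb_D x * Comb_D y :=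
    Finset.prod_primes_dvd _ (fun p hp => (hP p hp).prime) h1
  have h3 : ∏ p ∈ P, p ≤ Comb_D x * Comb_D y :=
    Nat.le_of_dvd (Nat.mul_pos (Comb_D_pos hx) (Comb_D_pos hy)) h2
  have h4 : ∏ p ∈ P, p ≤ X ^ (k * (k - 1)) := by
    refine h3.trans ((Nat.mul_le_mul (Comb_D_le hxX) (Comb_D_le hyX)).trans ?_)
    rw [← pow_add]
    refine Nat.pow_le_pow_right (by omega) ?_
    have := Comb_Q_card k
    omega
  have h5 : X ^ P.card ≤ (∏ p ∈ P, p) ^ k := by
    rw [← prod_pow]
    exact pow_card_le_prod _ _ _ hPX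
  have h6 : X ^ P.card ≤ X ^ (k * (k - 1) * k) := by
    rw [pow_mul]
    exact h5.trans (Nat.pow_le_pow_left h4 k)
  have h7 : P.card ≤ k * (k - 1) * k := (Nat.pow_le_pow_iff_right (by omega)).1 h6
  have h8 : k * (k - 1) * k < k ^ 3 := by
    obtain ⟨m, rfl⟩ := Nat.exists_eq_add_of_le hk
    have : 2 + m - 1 = m + 1 := by omega
    rw [this]
    nlinarith
  omega

/-- the condition in `R1` -/
private def Comb_Rp (k t : ℕ) {X : ℕ} (p : ℕ)
    (w : (Fin (k + t) → Fin X) × (Fin (k + t) → Fin X)) : Prop :=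
  (∀ j ∈ Icc 1 k, ∑ i, ((w.1 i : ℕ) : ℤ) ^ j = ∑ i, ((w.2 i : ℕ) : ℤ) ^ j) ∧
    (∀ i i' : Fin k, i ≠ i' → ¬ ((w.1 (Fin.castAdd t i) : ℕ) ≡ (w.1 (Fin.castAdd t i') : ℕ) [MOD p])) ∧
    (∀ i i' : Fin k, i ≠ i' →
      ¬ ((w.2 (Fin.castAdd t i) : ℕ) ≡ (w.2 (Fin.castAdd t i') : ℕ) [MOD p]))

open Classical in
private theorem Comb_R (k t X p : ℕ) :
    (univ.filter fun w : (Fin (k + t) → Fin X) × (Fin (k + t) → Fin X) => Comb_Rp k t p w).card =
      R1 k t X p := by
  unfold R1 Comb_Rp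
  congr

open Classical in
private theorem Comb_BR {k t X : ℕ} (hk : 2 ≤ k) (hX : 2 ≤ X) (P : Finset ℕ)
    (hP : ∀ p ∈ P, p.Prime) (hPX : ∀ p ∈ P, X ≤ p ^ k) (hcard : k ^ 3 ≤ P.card) :
    (Comb_B k t X).card ≤ ∑ p ∈ P, R1 k t X p := by
  have hsub : Comb_B k t X ⊆ P.biUnion fun p =>
      univ.filter fun w : (Fin (k + t) → Fin X) × (Fin (k + t) → Fin X) => Comb_Rp k t p w := by
    intro w hw
    obtain ⟨h1, h2, h3⟩ := (mem_filter.1 hw).2
    obtain ⟨p, hp, h4, h5⟩ := Comb_prime hk hX P hP hPX hcard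
      (x := fun i => (w.1 (Fin.castAdd t i) : ℕ)) (y := fun i => (w.2 (Fin.castAdd t i) : ℕ))
      (fun i j hij => h2 (Fin.ext hij)) (fun i j hij => h3 (Fin.ext hij))
      (fun i => (w.1 (Fin.castAdd t i)).2) (fun i => (w.2 (Fin.castAdd t i)).2)
    refine mem_biUnion.2 ⟨p, hp, ?_⟩
    rw [mem_filter]
    refine ⟨mem_univ _, h1, ?_, ?_⟩
    · intro i i' hii
      exact Comb_D_mod h4 hii
    · intro i i' hii
      exact Comb_D_mod h5 hii
  exact (card_le_card hsub).trans (card_biUnion_le.trans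
    (sum_le_sum fun p _ => le_of_eq (Comb_R k t X p)))

theorem J_le_R1 {k t X : ℕ} (hk : 2 ≤ k) (P : Finset ℕ) (hP : ∀ p ∈ P, p.Prime)
    (hPX : ∀ p ∈ P, X ≤ p ^ k) (hcard : k ^ 3 ≤ P.card) :
    (J k (k + t) X : ℝ) ≤ 16 * ((X : ℝ) ^ (k - 1) * (k : ℝ) ^ (k + t)) ^ 2 +
      2 * ((k + t : ℕ) : ℝ) ^ (2 * k) * ∑ p ∈ P, (R1 k t X p : ℝ) := by
  have hRnn : (0 : ℝ) ≤ ∑ p ∈ P, (R1 k t X p : ℝ) := sum_nonneg fun p _ => Nat.cast_nonneg _
  rcases Nat.lt_or_ge X 2 with hX | hX
  · have h1 := J_trivial k (k + t) X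
    have h2 : J k (k + t) X ≤ 1 := by
      refine h1.trans ?_
      interval_cases X
      · rw [zero_pow (by omega)]
        exact Nat.zero_le _
      · rw [one_pow]
    rcases Nat.eq_zero_or_pos X with h0 | h0
    · have h3 : J k (k + t) X = 0 := by
        rw [h0, zero_pow (by omega)] at h1
        rw [h0]
        omega
      rw [h3, Nat.cast_zero]
      positivity
    · have hX1 : X = 1 := by omega
      have h3 : (J k (k + t) X : ℝ) ≤ 1 := by exact_mod_cast h2
      have hkr : (1 : ℝ) ≤ k := by exact_mod_cast (by omega : 1 ≤ k)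
      have h4 : (1 : ℝ) ≤ (k : ℝ) ^ (k + t) := one_le_pow₀ hkr
      have h5 : (1 : ℝ) ≤ ((X : ℝ) ^ (k - 1) * (k : ℝ) ^ (k + t)) ^ 2 := by
        rw [hX1, Nat.cast_one, one_pow, one_mul]
        exact one_le_pow₀ h4
      have h6 : (0 : ℝ) ≤ 2 * ((k + t : ℕ) : ℝ) ^ (2 * k) * ∑ p ∈ P, (R1 k t X p : ℝ) := by
        positivity
      linarith
  · have h1 := Comb_total k (k + t) X (Comb_A k (k + t) X)
    have h2 := Comb_third k t X
    have h3 := Comb_BR (t := t) hk hX P hP hPX hcard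
    have h4 := Comb_A_card (X := X) hk (show 0 < k + t by omega)
    set a : ℝ := ((Comb_A k (k + t) X).card : ℝ) with ha
    set Jr : ℝ := (J k (k + t) X : ℝ) with hJr
    have hJ0 : 0 ≤ Jr := Nat.cast_nonneg _
    have ha0 : 0 ≤ a := Nat.cast_nonneg _
    have h5 : Jr ≤ 2 * (a * Real.sqrt Jr) +
        ((k + t : ℕ) : ℝ) ^ (2 * k) * ∑ p ∈ P, (R1 k t X p : ℝ) := by
      refine h1.trans (add_le_add le_rfl ?_)
      have h6 : (k + t) ^ (2 * k) * (Comb_B k t X).card ≤
          (k + t) ^ (2 * k) * ∑ p ∈ P, R1 k t X p := Nat.mul_le_mul_left _ h3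
      exact_mod_cast h2.trans h6
    set B : ℝ := ((k + t : ℕ) : ℝ) ^ (2 * k) * ∑ p ∈ P, (R1 k t X p : ℝ) with hB
    have hB0 : 0 ≤ B := by positivity
    have h6 : a ≤ (X : ℝ) ^ (k - 1) * (k : ℝ) ^ (k + t) := by
      rw [ha]
      exact_mod_cast h4
    have h7 : a ^ 2 ≤ ((X : ℝ) ^ (k - 1) * (k : ℝ) ^ (k + t)) ^ 2 :=
      pow_le_pow_left₀ ha0 h6 2
    have h8 : Jr ≤ 16 * a ^ 2 + 2 * B := by
      rcases le_total Jr (2 * B) with h | h
      · linarith [sq_nonneg a]
      · have hs := Real.sq_sqrt hJ0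
        have hs0 := Real.sqrt_nonneg Jr
        have h9 : Real.sqrt Jr * Real.sqrt Jr ≤ 4 * a * Real.sqrt Jr := by
          rw [← pow_two, hs]
          linarith
        rcases hs0.eq_or_lt with h10 | h10
        · rw [← h10] at hs
          have h13 : Jr = 0 := by linarith
          have h14 := sq_nonneg a
          linarith
        · have h11 : Real.sqrt Jr ≤ 4 * a := le_of_mul_le_mul_right h9 h10
          have h12 : Real.sqrt Jr ^ 2 ≤ (4 * a) ^ 2 := pow_le_pow_left₀ hs0 h11 2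
          rw [hs] at h12
          nlinarith
    have h9 : 2 * ((k + t : ℕ) : ℝ) ^ (2 * k) * ∑ p ∈ P, (R1 k t X p : ℝ) = 2 * B := by
      rw [hB]
      ring
    rw [h9]
    linarith

end VKZ
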