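import Pool.Agent.VKZ.Defs
import Pool.Agent.Lib.PNT

/-!
# VKZ.Primes: many primes between `y` and `2y`

PROOF. By the prime number theorem (`Pool/Agent/Lib/PNT.lean`, `pi_real`), `π(2y) - π(y) ≥ y/(2 log y) ≥ y^(1/2)` for
`y ≥ y0`. So for `y ≥ C k^6`, `C = max y0 1`: at least `k³` primes.
-/

namespace VKZ

open Finset

private theorem primes_ev : ∀ᶠ y : ℝ in Filter.atTop,
    √y ≤ (((Ioc ⌊y⌋₊ ⌊2 * y⌋₊).filter Nat.Prime).card : ℝ) := by
  have h1 := Pool.Agent.Lib.PNT.theta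
  have h2 : Filter.Tendsto (fun y : ℝ => 2 * y) Filter.atTop Filter.atTop :=
    Filter.tendsto_id.const_mul_atTop (by norm_num)
  have h3 := h1.comp h2
  have h4 : Filter.Tendsto (fun y : ℝ => 2 * (Chebyshev.theta (2 * y) / (2 * y)) -
      Chebyshev.theta y / y) Filter.atTop (nhds (2 * 1 - 1)) := (h3.const_mul 2).sub h1
  have h5 : ∀ᶠ y : ℝ in Filter.atTop, 1 / 2 < 2 * (Chebyshev.theta (2 * y) / (2 * y)) -
      Chebyshev.theta y / y := h4.eventually_const_lt (by norm_num)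
  have h6 : ∀ᶠ y : ℝ in Filter.atTop, Real.log y ≤ 1 / 8 * y ^ (1 / 2 : ℝ) := by
    have := (isLittleO_log_rpow_atTop (r := 1 / 2) (by norm_num)).bound (c := 1 / 8) (by norm_num)
    filter_upwards [this, Filter.eventually_ge_atTop 1] with y hy hy1
    have hl : 0 ≤ Real.log y := Real.log_nonneg hy1
    rw [Real.norm_of_nonneg hl, Real.norm_of_nonneg (by positivity)] at hy
    exact hy
  filter_upwards [h5, h2.eventually h6, Filter.eventually_ge_atTop 1] with y hy hlog hy1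
  have hy0 : 0 < y := by linarith
  have hs0 : 0 < √y := Real.sqrt_pos.mpr hy0
  have hss : √y * √y = y := Real.mul_self_sqrt hy0.le
  have hlog2 : Real.log (2 * y) ≤ √y / 4 := by
    have h7 : (2 * y) ^ (1 / 2 : ℝ) ≤ 2 * √y := by
      rw [← Real.sqrt_eq_rpow]
      rw [show 2 * √y = √(4 * y) by
        rw [Real.sqrt_mul (by norm_num), show (4 : ℝ) = 2 ^ 2 by norm_num,
          Real.sqrt_sq (by norm_num)]]
      exact Real.sqrt_le_sqrt (by linarith)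
    calc Real.log (2 * y) ≤ 1 / 8 * (2 * y) ^ (1 / 2 : ℝ) := hlog
      _ ≤ 1 / 8 * (2 * √y) := by gcongr
      _ = √y / 4 := by ring
  have hlogpos : 0 < Real.log (2 * y) := Real.log_pos (by linarith)
  have hdiff : y / 2 ≤ Chebyshev.theta (2 * y) - Chebyshev.theta y := by
    have h8 : 2 * (Chebyshev.theta (2 * y) / (2 * y)) - Chebyshev.theta y / y =
        (Chebyshev.theta (2 * y) - Chebyshev.theta y) / y := by field_simp
    rw [h8, lt_div_iff₀ hy0] at hy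
    linarith
  have hle : ⌊y⌋₊ ≤ ⌊2 * y⌋₊ := Nat.floor_mono (by linarith)
  have hsum : Chebyshev.theta (2 * y) - Chebyshev.theta y =
      ∑ p ∈ (Ioc ⌊y⌋₊ ⌊2 * y⌋₊).filter Nat.Prime, Real.log p := by
    unfold Chebyshev.theta
    rw [sub_eq_iff_eq_add]
    rw [← Finset.sum_union]
    · congr 1
      ext p
      simp only [Finset.mem_filter, Finset.mem_Ioc, Finset.mem_union]
      constructor
      · rintro ⟨⟨h1, h2⟩, h3⟩
        by_cases h : p ≤ ⌊y⌋₊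
        · right; exact ⟨⟨h1, h⟩, h3⟩
        · left; exact ⟨⟨not_le.mp h, h2⟩, h3⟩
      · rintro (⟨⟨h1, h2⟩, h3⟩ | ⟨⟨h1, h2⟩, h3⟩)
        · exact ⟨⟨by omega, h2⟩, h3⟩
        · exact ⟨⟨h1, h2.trans hle⟩, h3⟩
    · rw [Finset.disjoint_left]
      intro p hp hq
      simp only [Finset.mem_filter, Finset.mem_Ioc] at hp hq
      omega
  have hbound : ∑ p ∈ (Ioc ⌊y⌋₊ ⌊2 * y⌋₊).filter Nat.Prime, Real.log p ≤
      (((Ioc ⌊y⌋₊ ⌊2 * y⌋₊).filter Nat.Prime).card : ℝ) * Real.log (2 * y) := by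
    rw [← nsmul_eq_mul]
    apply Finset.sum_le_card_nsmul
    intro p hp
    simp only [Finset.mem_filter, Finset.mem_Ioc] at hp
    have hp0 : (0 : ℝ) < p := by exact_mod_cast hp.2.pos
    apply Real.log_le_log hp0
    exact (Nat.le_floor_iff (by linarith)).mp hp.1.2
  have hcard0 : (0 : ℝ) ≤ (((Ioc ⌊y⌋₊ ⌊2 * y⌋₊).filter Nat.Prime).card : ℝ) := by positivity
  by_contra hcon
  push Not at hcon
  have : (((Ioc ⌊y⌋₊ ⌊2 * y⌋₊).filter Nat.Prime).card : ℝ) * Real.log (2 * y) ≤ √y * (√y / 4) := by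
    gcongr
  have h9 : √y * (√y / 4) = y / 4 := by rw [← mul_div_assoc, hss]
  linarith

theorem many_primes : ∃ C : ℝ, 1 ≤ C ∧ ∀ (k : ℕ) (y : ℝ), 1 ≤ k → C * (k : ℝ) ^ 6 ≤ y →
    ∃ P : Finset ℕ, P.card = k ^ 3 ∧ ∀ p ∈ P, p.Prime ∧ y < (p : ℝ) ∧ (p : ℝ) ≤ 2 * y := by
  obtain ⟨y0, hy0⟩ := Filter.eventually_atTop.mp primes_ev
  refine ⟨max y0 1, le_max_right _ _, ?_⟩
  intro k y hk hy
  have hk1 : (1 : ℝ) ≤ k := by exact_mod_cast hk
  have hk6 : (1 : ℝ) ≤ (k : ℝ) ^ 6 := one_le_pow₀ hk1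
  have hC0 : (0 : ℝ) < max y0 1 := lt_of_lt_of_le one_pos (le_max_right _ _)
  have h1 : max y0 1 ≤ y := by
    refine le_trans ?_ hy
    nlinarith
  have h2 : (k : ℝ) ^ 6 ≤ y := by
    refine le_trans ?_ hy
    have := le_max_right y0 1
    nlinarith
  have hy1 : 1 ≤ y := (le_max_right _ _).trans h1
  have h3 := hy0 y ((le_max_left _ _).trans h1)
  have h4 : (k : ℝ) ^ 3 ≤ √y := by
    apply Real.le_sqrt_of_sq_le
    calc ((k : ℝ) ^ 3) ^ 2 = (k : ℝ) ^ 6 := by ring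
      _ ≤ y := h2
  have h5 : k ^ 3 ≤ ((Ioc ⌊y⌋₊ ⌊2 * y⌋₊).filter Nat.Prime).card := by
    exact_mod_cast h4.trans h3
  obtain ⟨P, hP, hPc⟩ := Finset.exists_subset_card_eq h5
  refine ⟨P, hPc, ?_⟩
  intro p hp
  have hp2 := hP hp
  simp only [Finset.mem_filter, Finset.mem_Ioc] at hp2
  refine ⟨hp2.2, (Nat.floor_lt (by linarith)).mp hp2.1.1, (Nat.le_floor_iff (by linarith)).mp hp2.1.2⟩

end VKZ
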