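import Pool.Agent.VKZ.StepR
import Pool.Agent.VKZ.Comb
import Pool.Agent.VKZ.Primes

/-!
# VKZ.Mvt: Vinogradov's mean value theorem

PROOF. `E k l = 2k(l+1) - k(k+1)/2 + (k(k-1)/2) (1-1/k)^l`. Claim: there is an absolute `C1 ≥ 1` with
`J k (k(l+1)) X ≤ exp(C1 (k^4 + k^3 l)) X^(E k l)` for `k ≥ 2`, `l ≤ 2k²`, `X ≥ 1`. Induction on `l`.

`E_ge`: `E k l ≥ k(l+1)` by Bernoulli's inequality `(1-1/k)^l ≥ 1 - l/k`.

`l = 0`: `s = k`, `E k 0 = k`. By Newton's identities over `ℚ` (or `ℤ`) the `y_i` are a permutation of the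
`x_i`, so `J k k X ≤ k! X^k`. (This can be deduced from the polynomial identity `∏ (T - x_i) = ∏ (T - y_i)`;
or from `newton` with a huge prime `p`, after the observation that for a prime `p > X^k + k` power sums
equal in `ℤ` are equal modulo `p^k`; distinctness is not needed for the polynomial identity over a field.)

Step `l → l+1`: `t = k(l+1)`, `s = k + t`. Let `C` be the constant of `many_primes`, `y = X^(1/k)`.
(a) `y < C k^6`: trivially `J ≤ X^(2s) = X^(E) X^(2s-E) ≤ X^E X^(k(k+1)/2) ≤ X^E X^(k²)` and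
`X^(k²) ≤ exp(k³ log(C k^6)) ≤ exp(C' k^4)`.
(b) `y ≥ C k^6`: let `P` be given by `many_primes`; `y < p ≤ 2y`, so `X ≤ p^k`, `k < p`. `R1_le` and the induction
hypothesis for `J k t (X/p+1)`, `X/p + 1 ≤ 2 X^(1-1/k)`, give
`R1 ≤ (2y)^(2t + k(k-1)/2) k! X^k exp(..) (2 X^(1-1/k))^(E k l)`
`≤ 2^(4t+k²) k! exp(..) X^(E k (l+1))`, because `(2t + k(k-1)/2)/k + k + (1-1/k) E k l = E k (l+1)`, and
`E k l ≤ 2t`. By `J_le_R1`: `J ≤ 16 k^(2s) X^(2k-2) + 2 s^(2k) k³ (..)`, and `2k - 2 ≤ E k (l+1)`. As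
`s ≤ 3k³` all the factors are `≤ exp(C' k³)`, except `k^(2s) ≤ exp(6 k^4)`.

`mvt`: `l = 2k²`: `(k(k-1)/2) (1-1/k)^(2k²) ≤ (k²/2) exp(-2k) ≤ 1/4` and `k^4 + 2k^5 ≤ 3k^5`.
-/

namespace VKZ

open Finset

/-! ### The base case -/

private theorem mvt_esymm {k : ℕ} (x y : Fin k → ℤ)
    (h : ∀ j ∈ Icc 1 k, ∑ i, x i ^ j = ∑ i, y i ^ j) (n : ℕ) (hn : n ≤ k) :
    MvPolynomial.aeval x (MvPolynomial.esymm (Fin k) ℤ n) =
      MvPolynomial.aeval y (MvPolynomial.esymm (Fin k) ℤ n) := by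
  induction n using Nat.strong_induction_on with
  | _ n ih =>
    rcases Nat.eq_zero_or_pos n with rfl | hn0
    · simp
    have e1 := congrArg (MvPolynomial.aeval x) (MvPolynomial.mul_esymm_eq_sum (Fin k) ℤ n)
    have e2 := congrArg (MvPolynomial.aeval y) (MvPolynomial.mul_esymm_eq_sum (Fin k) ℤ n)
    simp only [map_mul, map_natCast, map_pow, map_neg, map_one, map_sum] at e1 e2
    have e3 : (∑ a ∈ antidiagonal n with a.1 < n,
          (-1) ^ a.1 * (MvPolynomial.aeval x) (MvPolynomial.esymm (Fin k) ℤ a.1) *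
            (MvPolynomial.aeval x) (MvPolynomial.psum (Fin k) ℤ a.2)) =
        ∑ a ∈ antidiagonal n with a.1 < n,
          (-1) ^ a.1 * (MvPolynomial.aeval y) (MvPolynomial.esymm (Fin k) ℤ a.1) *
            (MvPolynomial.aeval y) (MvPolynomial.psum (Fin k) ℤ a.2) := by
      apply Finset.sum_congr rfl
      intro a ha
      rw [mem_filter, HasAntidiagonal.mem_antidiagonal] at ha
      rw [ih a.1 ha.2 (by omega)]
      congr 1
      simp only [MvPolynomial.psum, map_sum, map_pow, MvPolynomial.aeval_X]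
      exact h a.2 (by rw [mem_Icc]; omega)
    rw [e3, ← e2] at e1
    exact mul_left_cancel₀ (by exact_mod_cast hn0.ne') e1

private theorem mvt_multiset {k : ℕ} (x y : Fin k → ℤ)
    (h : ∀ j ∈ Icc 1 k, ∑ i, x i ^ j = ∑ i, y i ^ j) :
    ((univ : Finset (Fin k)).val.map x : Multiset ℤ) = (univ : Finset (Fin k)).val.map y := by
  have h1 : (((univ : Finset (Fin k)).val.map x).map
      (fun a => Polynomial.X - Polynomial.C a)).prod =
      (((univ : Finset (Fin k)).val.map y).map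
      (fun a => Polynomial.X - Polynomial.C a)).prod := by
    rw [Multiset.prod_X_sub_X_eq_sum_esymm, Multiset.prod_X_sub_X_eq_sum_esymm]
    simp only [Multiset.card_map, card_val, card_univ, Fintype.card_fin]
    apply Finset.sum_congr rfl
    intro j hj
    rw [mem_range] at hj
    rw [← MvPolynomial.aeval_esymm_eq_multiset_esymm (Fin k) ℤ,
      ← MvPolynomial.aeval_esymm_eq_multiset_esymm (Fin k) ℤ, mvt_esymm x y h j (by omega)]
  have h2 := congrArg Polynomial.roots h1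
  rwa [Polynomial.roots_multiset_prod_X_sub_C, Polynomial.roots_multiset_prod_X_sub_C] at h2

private def MvtP (k s X : ℕ) (x y : Fin s → Fin X) : Prop :=
  ∀ j ∈ Icc 1 k, ∑ i, ((x i : ℕ) : ℤ) ^ j = ∑ i, ((y i : ℕ) : ℤ) ^ j

open Classical in
private theorem mvt_J (k s X : ℕ) : J k s X =
    ((univ : Finset ((Fin s → Fin X) × (Fin s → Fin X))).filter
      fun w => MvtP k s X w.1 w.2).card := by
  unfold J
  congr!

open Classical in
private theorem mvt_base (k X : ℕ) : J k k X ≤ k.factorial * X ^ k := by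
  rw [mvt_J, Finset.card_filter, Fintype.sum_prod_type]
  have hx : ∀ x : Fin k → Fin X, (∑ y : Fin k → Fin X,
      if MvtP k k X x y then 1 else 0) ≤ k.factorial := by
    intro x
    rw [← Finset.card_filter]
    have hinj : Function.Injective (fun y : Fin k → Fin X => List.ofFn (fun i => ((y i : ℕ) : ℤ))) := by
      intro y y' hy
      have := List.ofFn_injective hy
      funext i
      have h3 := congrFun this i
      exact Fin.ext (by exact_mod_cast h3)
    rw [← Finset.card_image_of_injective _ hinj]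
    have hsub : ((univ : Finset (Fin k → Fin X)).filter fun y => MvtP k k X x y).image
        (fun y : Fin k → Fin X => List.ofFn (fun i => ((y i : ℕ) : ℤ))) ⊆
        (List.ofFn (fun i => ((x i : ℕ) : ℤ))).permutations.toFinset := by
      intro L hL
      rw [mem_image] at hL
      obtain ⟨y, hy, rfl⟩ := hL
      rw [mem_filter] at hy
      rw [List.mem_toFinset, List.mem_permutations]
      have := mvt_multiset (fun i => ((x i : ℕ) : ℤ)) (fun i => ((y i : ℕ) : ℤ)) hy.2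
      rw [← Multiset.coe_eq_coe]
      rw [← Fin.univ_val_map, ← Fin.univ_val_map]
      exact this.symm
    refine (Finset.card_le_card hsub).trans ((List.toFinset_card_le _).trans ?_)
    rw [List.length_permutations, List.length_ofFn]
  calc _ ≤ ∑ x : Fin k → Fin X, k.factorial := Finset.sum_le_sum fun x _ => hx x
    _ = k.factorial * X ^ k := by
      rw [Finset.sum_const, card_univ, Fintype.card_fun, Fintype.card_fin, Fintype.card_fin]
      simp [mul_comm]

private theorem mvt_trivial (k s X : ℕ) : J k s X ≤ X ^ (2 * s) := by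
  classical
  rw [mvt_J]
  refine (Finset.card_filter_le _ _).trans ?_
  rw [card_univ, Fintype.card_prod, Fintype.card_fun, Fintype.card_fin, Fintype.card_fin, two_mul,
    pow_add]

/-! ### The exponents -/

private theorem mvt_pow_nonneg {k : ℕ} (hk : 1 ≤ k) (l : ℕ) : 0 ≤ (1 - 1 / (k : ℝ)) ^ l := by
  have hk' : (1 : ℝ) ≤ k := by exact_mod_cast hk
  apply pow_nonneg
  rw [sub_nonneg, div_le_one (by linarith)]
  exact hk'

private theorem mvt_E_ge {k : ℕ} (hk : 1 ≤ k) (l : ℕ) : (k : ℝ) * (l + 1) ≤ E k l := by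
  have hk' : (1 : ℝ) ≤ k := by exact_mod_cast hk
  have hk0 : (k : ℝ) ≠ 0 := by linarith
  have hl : (0 : ℝ) ≤ l := by positivity
  have hB := one_add_mul_le_pow (a := -(1 / (k : ℝ))) (by
    have : 1 / (k : ℝ) ≤ 1 := by rw [div_le_one (by linarith)]; exact hk'
    linarith) l
  unfold E
  have h1 : 1 - (l : ℝ) / k ≤ (1 - 1 / (k : ℝ)) ^ l := by
    have : (1 : ℝ) + l * -(1 / (k : ℝ)) = 1 - l / k := by ring
    rw [this, ← sub_eq_add_neg] at hB
    exact hB
  have h2 : ((k : ℝ) * (k - 1) / 2) * (1 - (l : ℝ) / k) ≤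
      ((k : ℝ) * (k - 1) / 2) * (1 - 1 / (k : ℝ)) ^ l :=
    mul_le_mul_of_nonneg_left h1 (by nlinarith)
  have h3 : ((k : ℝ) * (k - 1) / 2) * (1 - (l : ℝ) / k) = k * (k - 1) / 2 - l * (k - 1) / 2 := by
    field_simp
  rw [h3] at h2
  nlinarith

private theorem mvt_E_le {k : ℕ} (hk : 1 ≤ k) (l : ℕ) : E k l ≤ 2 * (k : ℝ) * (l + 1) := by
  have hk' : (1 : ℝ) ≤ k := by exact_mod_cast hk
  have h1 : (1 - 1 / (k : ℝ)) ^ l ≤ 1 := by
    apply pow_le_one₀
    · rw [sub_nonneg, div_le_one (by linarith)]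
      exact hk'
    · have : 0 ≤ 1 / (k : ℝ) := by positivity
      linarith
  unfold E
  have h2 : ((k : ℝ) * (k - 1) / 2) * (1 - 1 / (k : ℝ)) ^ l ≤ ((k : ℝ) * (k - 1) / 2) * 1 :=
    mul_le_mul_of_nonneg_left h1 (by nlinarith)
  nlinarith

private theorem mvt_E_succ {k : ℕ} (hk : 1 ≤ k) (l : ℕ) :
    2 * ((l : ℝ) + 1) + ((k : ℝ) - 1) / 2 + k + (1 - 1 / (k : ℝ)) * E k l = E k (l + 1) := by
  have hk' : (1 : ℝ) ≤ k := by exact_mod_cast hk
  have hk0 : (k : ℝ) ≠ 0 := by linarith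
  unfold E
  push_cast
  rw [pow_succ]
  field_simp
  ring

/-! ### Constants -/

private theorem mvt_le_exp (x : ℝ) : x ≤ Real.exp x := by
  have := Real.add_one_le_exp x
  linarith

private theorem mvt_two_le : (2 : ℝ) ≤ Real.exp 1 := by
  have := Real.add_one_le_exp 1
  linarith

/-- bound of one `R1` -/
private theorem mvt_R1 {k l X p : ℕ} {C y : ℝ} (hk : 2 ≤ k) (hX : 1 ≤ X) (hp : p.Prime) (hkp : k < p)
    (hy1 : 1 ≤ y) (hyX : y ^ k = X) (hyp : y < p) (hpy : (p : ℝ) ≤ 2 * y)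
    (ih : ∀ X' : ℕ, 1 ≤ X' → (J k (k * (l + 1)) X' : ℝ) ≤
      Real.exp (C * ((k : ℝ) ^ 4 + (k : ℝ) ^ 3 * l)) * (X' : ℝ) ^ (E k l)) :
    (R1 k (k * (l + 1)) X p : ℝ) ≤ Real.exp (4 * ((k : ℝ) * (l + 1)) + 2 * (k : ℝ) ^ 2) *
      Real.exp (C * ((k : ℝ) ^ 4 + (k : ℝ) ^ 3 * l)) * (X : ℝ) ^ (E k (l + 1)) := by
  have hk' : (2 : ℝ) ≤ k := by exact_mod_cast hk
  have hk0 : (k : ℝ) ≠ 0 := by linarith
  have hX' : (1 : ℝ) ≤ X := by exact_mod_cast hX
  have hX0 : (0 : ℝ) < X := by linarith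
  have hy0 : 0 < y := by linarith
  have hp0 : (0 : ℝ) < p := by linarith
  have hXp : X ≤ p ^ k := by
    have : (X : ℝ) ≤ (p : ℝ) ^ k := by
      rw [← hyX]
      exact pow_le_pow_left₀ hy0.le hyp.le k
    exact_mod_cast this
  have h1 := R1_le (k := k) (t := k * (l + 1)) (X := X) (p := p) (by omega)
    (Nat.mul_pos (by omega) (by omega)) hp hkp hXp hX
  have h2 : (R1 k (k * (l + 1)) X p : ℝ) ≤ (p : ℝ) ^ (2 * (k * (l + 1))) *
      ((k.factorial : ℝ) * (p : ℝ) ^ (k * (k - 1) / 2)) * (X : ℝ) ^ k *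
      (J k (k * (l + 1)) (X / p + 1) : ℝ) := by exact_mod_cast h1
  refine h2.trans ?_
  have hyk : y = (X : ℝ) ^ (1 / (k : ℝ)) := by
    rw [← hyX, ← Real.rpow_natCast, ← Real.rpow_mul hy0.le, mul_one_div_cancel hk0, Real.rpow_one]
  -- first factor
  have a1 : (p : ℝ) ^ (2 * (k * (l + 1))) ≤ Real.exp (2 * ((k : ℝ) * (l + 1))) *
      (X : ℝ) ^ (2 * ((l : ℝ) + 1)) := by
    calc (p : ℝ) ^ (2 * (k * (l + 1))) ≤ (2 * y) ^ (2 * (k * (l + 1))) :=
          pow_le_pow_left₀ hp0.le hpy _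
      _ = 2 ^ (2 * (k * (l + 1))) * (y ^ k) ^ (2 * (l + 1)) := by
          rw [mul_pow, ← pow_mul]
          congr 2
          ring
      _ ≤ (Real.exp 1) ^ (2 * (k * (l + 1))) * (X : ℝ) ^ (2 * (l + 1)) := by
          rw [hyX]
          exact mul_le_mul_of_nonneg_right (pow_le_pow_left₀ (by norm_num) mvt_two_le _)
            (by positivity)
      _ = _ := by
          rw [← Real.exp_nat_mul, ← Real.rpow_natCast]
          push_cast
          rw [mul_one]
  -- factorial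
  have a2 : (k.factorial : ℝ) ≤ Real.exp ((k : ℝ) ^ 2) := by
    calc (k.factorial : ℝ) ≤ (k : ℝ) ^ k := by exact_mod_cast Nat.factorial_le_pow k
      _ ≤ (Real.exp k) ^ k := pow_le_pow_left₀ (by linarith) (mvt_le_exp _) _
      _ = _ := by rw [← Real.exp_nat_mul]; congr 1; ring
  -- second power of p
  have hdiv : ((k * (k - 1) / 2 : ℕ) : ℝ) = (k : ℝ) * (k - 1) / 2 := by
    have hev : 2 ∣ k * (k - 1) := (Nat.even_mul_pred_self k).two_dvd
    rw [Nat.cast_div hev (by norm_num)]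
    rw [Nat.cast_mul, Nat.cast_sub (by omega)]
    norm_num
  have a3 : (p : ℝ) ^ (k * (k - 1) / 2) ≤ Real.exp ((k : ℝ) ^ 2) *
      (X : ℝ) ^ (((k : ℝ) - 1) / 2) := by
    calc (p : ℝ) ^ (k * (k - 1) / 2) ≤ (2 * y) ^ (k * (k - 1) / 2) :=
          pow_le_pow_left₀ hp0.le hpy _
      _ = 2 ^ (k * (k - 1) / 2) * y ^ (k * (k - 1) / 2) := mul_pow _ _ _
      _ ≤ (Real.exp 1) ^ (k * (k - 1) / 2) * y ^ (k * (k - 1) / 2) := by
          exact mul_le_mul_of_nonneg_right (pow_le_pow_left₀ (by norm_num) mvt_two_le _)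
            (by positivity)
      _ ≤ _ := by
          apply mul_le_mul
          · rw [← Real.exp_nat_mul, hdiv]
            apply Real.exp_le_exp.mpr
            nlinarith
          · rw [← Real.rpow_natCast, hdiv, hyk, ← Real.rpow_mul hX0.le]
            apply le_of_eq
            congr 1
            field_simp
          · positivity
          · positivity
  -- the factor J
  have a4 : (J k (k * (l + 1)) (X / p + 1) : ℝ) ≤
      Real.exp (C * ((k : ℝ) ^ 4 + (k : ℝ) ^ 3 * l)) *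
      (Real.exp (2 * ((k : ℝ) * (l + 1))) * (X : ℝ) ^ ((1 - 1 / (k : ℝ)) * E k l)) := by
    refine (ih (X / p + 1) (Nat.succ_le_succ (Nat.zero_le _))).trans (mul_le_mul_of_nonneg_left ?_ (Real.exp_nonneg _))
    have hE0 : 0 ≤ E k l := le_trans (by positivity) (mvt_E_ge (by omega) l)
    have hc : ((X / p + 1 : ℕ) : ℝ) ≤ 2 * (X : ℝ) ^ (1 - 1 / (k : ℝ)) := by
      have e1 : (X : ℝ) ^ (1 - 1 / (k : ℝ)) = X / y := by
        rw [Real.rpow_sub hX0, Real.rpow_one, ← hyk]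
      have e2 : ((X / p : ℕ) : ℝ) ≤ X / y := by
        refine (Nat.cast_div_le).trans ?_
        exact div_le_div_of_nonneg_left hX0.le hy0 hyp.le
      have e3 : 1 ≤ (X : ℝ) / y := by
        rw [le_div_iff₀ hy0, one_mul, ← hyX]
        exact le_self_pow₀ hy1 (by omega)
      rw [e1]
      push_cast
      linarith
    calc ((X / p + 1 : ℕ) : ℝ) ^ (E k l) ≤ (2 * (X : ℝ) ^ (1 - 1 / (k : ℝ))) ^ (E k l) :=
          Real.rpow_le_rpow (by positivity) hc hE0
      _ = 2 ^ (E k l) * (X : ℝ) ^ ((1 - 1 / (k : ℝ)) * E k l) := by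
          rw [Real.mul_rpow (by norm_num) (by positivity), ← Real.rpow_mul hX0.le]
      _ ≤ _ := by
          apply mul_le_mul_of_nonneg_right _ (by positivity)
          calc (2 : ℝ) ^ (E k l) ≤ (Real.exp 1) ^ (E k l) :=
                Real.rpow_le_rpow (by norm_num) mvt_two_le hE0
            _ = Real.exp (E k l) := by rw [← Real.exp_mul, one_mul]
            _ ≤ _ := by
              apply Real.exp_le_exp.mpr
              have := mvt_E_le (k := k) (by omega) l
              linarith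
  have hXk : (X : ℝ) ^ k = (X : ℝ) ^ (k : ℝ) := (Real.rpow_natCast _ _).symm
  calc (p : ℝ) ^ (2 * (k * (l + 1))) *
      ((k.factorial : ℝ) * (p : ℝ) ^ (k * (k - 1) / 2)) * (X : ℝ) ^ k *
      (J k (k * (l + 1)) (X / p + 1) : ℝ)
      ≤ (Real.exp (2 * ((k : ℝ) * (l + 1))) * (X : ℝ) ^ (2 * ((l : ℝ) + 1))) *
        (Real.exp ((k : ℝ) ^ 2) * (Real.exp ((k : ℝ) ^ 2) * (X : ℝ) ^ (((k : ℝ) - 1) / 2))) *
        (X : ℝ) ^ k * (Real.exp (C * ((k : ℝ) ^ 4 + (k : ℝ) ^ 3 * l)) *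
      (Real.exp (2 * ((k : ℝ) * (l + 1))) * (X : ℝ) ^ ((1 - 1 / (k : ℝ)) * E k l))) := by
        gcongr
    _ = (Real.exp (2 * ((k : ℝ) * (l + 1))) * Real.exp (2 * ((k : ℝ) * (l + 1))) *
          Real.exp ((k : ℝ) ^ 2) * Real.exp ((k : ℝ) ^ 2)) *
          Real.exp (C * ((k : ℝ) ^ 4 + (k : ℝ) ^ 3 * l)) *
        ((X : ℝ) ^ (2 * ((l : ℝ) + 1)) * (X : ℝ) ^ (((k : ℝ) - 1) / 2) * (X : ℝ) ^ (k : ℝ) *
          (X : ℝ) ^ ((1 - 1 / (k : ℝ)) * E k l)) := by
        rw [hXk]; ring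
    _ = _ := by
        rw [← Real.exp_add, ← Real.exp_add, ← Real.exp_add, ← Real.rpow_add hX0,
          ← Real.rpow_add hX0, ← Real.rpow_add hX0, mvt_E_succ (by omega) l]
        congr 3
        ring

theorem J_ind : ∃ C : ℝ, 1 ≤ C ∧ ∀ k l X : ℕ, 2 ≤ k → l ≤ 2 * k ^ 2 → 1 ≤ X →
    (J k (k * (l + 1)) X : ℝ) ≤ Real.exp (C * ((k : ℝ) ^ 4 + (k : ℝ) ^ 3 * l)) * (X : ℝ) ^ (E k l) := by
  obtain ⟨C0, hC0, hP⟩ := many_primes
  have hlog0 : 0 ≤ Real.log C0 := Real.log_nonneg hC0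
  refine ⟨50 + Real.log C0, by linarith, ?_⟩
  intro k l
  induction l with
  | zero =>
    intro X hk _ hX
    have hk' : (2 : ℝ) ≤ k := by exact_mod_cast hk
    have hX' : (1 : ℝ) ≤ X := by exact_mod_cast hX
    have hE : E k 0 = k := by
      unfold E
      push_cast
      ring
    rw [hE, Real.rpow_natCast]
    have h1 : (J k (k * (0 + 1)) X : ℝ) ≤ (k.factorial : ℝ) * (X : ℝ) ^ k := by
      have := mvt_base k X
      rw [zero_add, mul_one]
      exact_mod_cast this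
    refine h1.trans (mul_le_mul_of_nonneg_right ?_ (by positivity))
    calc (k.factorial : ℝ) ≤ (k : ℝ) ^ k := by exact_mod_cast Nat.factorial_le_pow k
      _ ≤ (Real.exp k) ^ k := pow_le_pow_left₀ (by linarith) (mvt_le_exp _) _
      _ = Real.exp ((k : ℝ) ^ 2) := by rw [← Real.exp_nat_mul]; congr 1; ring
      _ ≤ _ := by
        apply Real.exp_le_exp.mpr
        have h2 : (k : ℝ) ^ 2 ≤ (k : ℝ) ^ 4 := pow_le_pow_right₀ (by linarith) (by norm_num)
        have h3 : 0 ≤ (k : ℝ) ^ 4 := by positivity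
        push_cast
        nlinarith
  | succ l ih =>
    intro X hk hl hX
    have hk' : (2 : ℝ) ≤ k := by exact_mod_cast hk
    have hk0 : (k : ℝ) ≠ 0 := by linarith
    have hX' : (1 : ℝ) ≤ X := by exact_mod_cast hX
    have hX0 : (0 : ℝ) < X := by linarith
    have hl' : ((l : ℝ) + 1) ≤ 2 * (k : ℝ) ^ 2 := by exact_mod_cast hl
    have hl0 : (0 : ℝ) ≤ l := by positivity
    set C : ℝ := 50 + Real.log C0 with hC
    obtain ⟨y, hy1, hyX⟩ : ∃ y : ℝ, 1 ≤ y ∧ y ^ k = X := by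
      refine ⟨(X : ℝ) ^ (1 / (k : ℝ)), Real.one_le_rpow hX' (by positivity), ?_⟩
      rw [← Real.rpow_natCast, ← Real.rpow_mul hX0.le, one_div_mul_cancel hk0, Real.rpow_one]
    have hy0 : 0 < y := by linarith
    have hEge : (k : ℝ) * (l + 2) ≤ E k (l + 1) := by
      have := mvt_E_ge (k := k) (by omega) (l + 1)
      push_cast at this
      linarith
    have hk34 : (k : ℝ) ^ 3 ≤ (k : ℝ) ^ 4 := pow_le_pow_right₀ (by linarith) (by norm_num)
    have hk23 : (k : ℝ) ^ 2 ≤ (k : ℝ) ^ 3 := pow_le_pow_right₀ (by linarith) (by norm_num)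
    have hk13 : (k : ℝ) ≤ (k : ℝ) ^ 3 := le_self_pow₀ (by linarith) (by norm_num)
    have hk8 : (8 : ℝ) ≤ (k : ℝ) ^ 3 := by nlinarith [sq_nonneg ((k : ℝ) - 2)]
    have hs : (k : ℝ) * (l + 2) ≤ 3 * (k : ℝ) ^ 3 := by
      nlinarith
    by_cases hcase : C0 * (k : ℝ) ^ 6 ≤ y
    · -- large `y`
      obtain ⟨P, hPc, hPp⟩ := hP k y (by omega) hcase
      have hky : (k : ℝ) ≤ y := by
        have h6 : (k : ℝ) ≤ (k : ℝ) ^ 6 := le_self_pow₀ (by linarith) (by norm_num)
        nlinarith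
      have ih' : ∀ X' : ℕ, 1 ≤ X' → (J k (k * (l + 1)) X' : ℝ) ≤
          Real.exp (C * ((k : ℝ) ^ 4 + (k : ℝ) ^ 3 * l)) * (X' : ℝ) ^ (E k l) :=
        fun X' hX'' => ih X' hk (by omega) hX''
      have hR : ∀ p ∈ P, (R1 k (k * (l + 1)) X p : ℝ) ≤
          Real.exp (4 * ((k : ℝ) * (l + 1)) + 2 * (k : ℝ) ^ 2) *
          Real.exp (C * ((k : ℝ) ^ 4 + (k : ℝ) ^ 3 * l)) * (X : ℝ) ^ (E k (l + 1)) := by
        intro p hp
        obtain ⟨hpp, hyp, hpy⟩ := hPp p hp
        refine mvt_R1 hk hX hpp ?_ hy1 hyX hyp hpy ih'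
        have : (k : ℝ) < p := by linarith
        exact_mod_cast this
      have hJ := J_le_R1 (k := k) (t := k * (l + 1)) (X := X) hk P (fun p hp => (hPp p hp).1)
        (fun p hp => by
          have : (X : ℝ) ≤ (p : ℝ) ^ k := by
            rw [← hyX]
            exact pow_le_pow_left₀ hy0.le (hPp p hp).2.1.le k
          exact_mod_cast this) (by rw [hPc])
      have hsum : ∑ p ∈ P, (R1 k (k * (l + 1)) X p : ℝ) ≤ (k : ℝ) ^ 3 *
          (Real.exp (4 * ((k : ℝ) * (l + 1)) + 2 * (k : ℝ) ^ 2) *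
          Real.exp (C * ((k : ℝ) ^ 4 + (k : ℝ) ^ 3 * l)) * (X : ℝ) ^ (E k (l + 1))) := by
        refine (Finset.sum_le_sum hR).trans ?_
        rw [Finset.sum_const, hPc, nsmul_eq_mul]
        push_cast
        exact le_rfl
      have hidx : k * (l + 1 + 1) = k + k * (l + 1) := by ring
      rw [hidx]
      refine hJ.trans ?_
      -- first summand
      have hs' : ((k + k * (l + 1) : ℕ) : ℝ) = (k : ℝ) * (l + 2) := by push_cast; ring
      have b1 : 16 * ((X : ℝ) ^ (k - 1) * (k : ℝ) ^ (k + k * (l + 1))) ^ 2 ≤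
          Real.exp (3 + 6 * (k : ℝ) ^ 4) * (X : ℝ) ^ (E k (l + 1)) := by
        have c1 : (16 : ℝ) ≤ Real.exp 3 := by
          have e1 : (2.7 : ℝ) ≤ Real.exp 1 := by
            have := Real.exp_one_gt_d9
            linarith
          have : Real.exp 3 = (Real.exp 1) ^ 3 := by
            rw [← Real.exp_nat_mul]; norm_num
          rw [this]
          calc (16 : ℝ) ≤ 2.7 ^ 3 := by norm_num
            _ ≤ _ := pow_le_pow_left₀ (by norm_num) e1 3
        have c2 : ((k : ℝ) ^ (k + k * (l + 1))) ^ 2 ≤ Real.exp (6 * (k : ℝ) ^ 4) := by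
          calc ((k : ℝ) ^ (k + k * (l + 1))) ^ 2 ≤ ((Real.exp k) ^ (k + k * (l + 1))) ^ 2 := by
                apply pow_le_pow_left₀ (by positivity)
                exact pow_le_pow_left₀ (by linarith) (mvt_le_exp _) _
            _ = Real.exp (2 * (((k : ℝ) * (l + 2)) * k)) := by
                rw [← Real.exp_nat_mul, ← Real.exp_nat_mul, hs']
                norm_num
            _ ≤ _ := by
                apply Real.exp_le_exp.mpr
                nlinarith
        have c3 : ((X : ℝ) ^ (k - 1)) ^ 2 ≤ (X : ℝ) ^ (E k (l + 1)) := by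
          rw [← pow_mul, ← Real.rpow_natCast]
          apply Real.rpow_le_rpow_of_exponent_le hX'
          refine le_trans ?_ hEge
          have : ((k - 1) * 2 : ℕ) ≤ k * (l + 2) := by
            calc (k - 1) * 2 ≤ k * 2 := Nat.mul_le_mul_right _ (by omega)
              _ ≤ k * (l + 2) := Nat.mul_le_mul_left _ (by omega)
          have h3 : (((k - 1) * 2 : ℕ) : ℝ) ≤ ((k * (l + 2) : ℕ) : ℝ) := by exact_mod_cast this
          refine h3.trans (le_of_eq ?_)
          push_cast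
          ring
        calc 16 * ((X : ℝ) ^ (k - 1) * (k : ℝ) ^ (k + k * (l + 1))) ^ 2
            = 16 * (((k : ℝ) ^ (k + k * (l + 1))) ^ 2) * (((X : ℝ) ^ (k - 1)) ^ 2) := by
              rw [mul_pow]; ring
          _ ≤ Real.exp 3 * Real.exp (6 * (k : ℝ) ^ 4) * (X : ℝ) ^ (E k (l + 1)) := by
              gcongr
          _ = _ := by rw [← Real.exp_add]
      have b2 : 2 * ((k + k * (l + 1) : ℕ) : ℝ) ^ (2 * k) *
          ∑ p ∈ P, (R1 k (k * (l + 1)) X p : ℝ) ≤
          Real.exp (1 + 10 * (k : ℝ) ^ 2 + 3 * k + 8 * (k : ℝ) ^ 3 + 2 * (k : ℝ) ^ 2 +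
            C * ((k : ℝ) ^ 4 + (k : ℝ) ^ 3 * l)) * (X : ℝ) ^ (E k (l + 1)) := by
        have c1 : ((k + k * (l + 1) : ℕ) : ℝ) ^ (2 * k) ≤ Real.exp (10 * (k : ℝ) ^ 2) := by
          rw [hs']
          have c11 : (k : ℝ) * (l + 2) ≤ Real.exp (2 + 3 * k) := by
            refine hs.trans ?_
            have d1 : (3 : ℝ) ≤ Real.exp 2 := by
              have := Real.add_one_le_exp 2
              linarith
            have d2 : (k : ℝ) ^ 3 ≤ Real.exp (3 * k) := by
              calc (k : ℝ) ^ 3 ≤ (Real.exp k) ^ 3 := pow_le_pow_left₀ (by linarith) (mvt_le_exp _) _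
                _ = _ := by rw [← Real.exp_nat_mul]; norm_num
            rw [Real.exp_add]
            gcongr
          calc ((k : ℝ) * (l + 2)) ^ (2 * k) ≤ (Real.exp (2 + 3 * k)) ^ (2 * k) :=
                pow_le_pow_left₀ (by positivity) c11 _
            _ = Real.exp ((2 * k) * (2 + 3 * k)) := by
                rw [← Real.exp_nat_mul]; push_cast; rfl
            _ ≤ _ := by
                apply Real.exp_le_exp.mpr
                nlinarith
        have c2 : (k : ℝ) ^ 3 ≤ Real.exp (3 * k) := by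
          calc (k : ℝ) ^ 3 ≤ (Real.exp k) ^ 3 := pow_le_pow_left₀ (by linarith) (mvt_le_exp _) _
            _ = _ := by rw [← Real.exp_nat_mul]; norm_num
        have c3 : Real.exp (4 * ((k : ℝ) * (l + 1)) + 2 * (k : ℝ) ^ 2) ≤
            Real.exp (8 * (k : ℝ) ^ 3 + 2 * (k : ℝ) ^ 2) := by
          apply Real.exp_le_exp.mpr
          nlinarith
        calc 2 * ((k + k * (l + 1) : ℕ) : ℝ) ^ (2 * k) * ∑ p ∈ P, (R1 k (k * (l + 1)) X p : ℝ)
            ≤ Real.exp 1 * Real.exp (10 * (k : ℝ) ^ 2) * (Real.exp (3 * k) *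
              (Real.exp (8 * (k : ℝ) ^ 3 + 2 * (k : ℝ) ^ 2) *
              Real.exp (C * ((k : ℝ) ^ 4 + (k : ℝ) ^ 3 * l)) * (X : ℝ) ^ (E k (l + 1)))) := by
              apply mul_le_mul
              · exact mul_le_mul mvt_two_le c1 (by positivity) (by positivity)
              · refine hsum.trans ?_
                gcongr
              · exact Finset.sum_nonneg fun _ _ => by positivity
              · positivity
          _ = _ := by
              rw [Real.exp_add, Real.exp_add, Real.exp_add, Real.exp_add, Real.exp_add,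
                Real.exp_add]
              ring
      -- sum
      have half : Real.exp (-1) ≤ 1 / 2 := by
        rw [Real.exp_neg, ← one_div]
        exact one_div_le_one_div_of_le (by norm_num) mvt_two_le
      have hCge : 50 ≤ C := by rw [hC]; linarith
      have hXE : 0 ≤ (X : ℝ) ^ (E k (l + 1)) := by positivity
      have d1 : Real.exp (3 + 6 * (k : ℝ) ^ 4) ≤
          1 / 2 * Real.exp (C * ((k : ℝ) ^ 4 + (k : ℝ) ^ 3 * ((l + 1 : ℕ) : ℝ))) := by
        have : Real.exp (3 + 6 * (k : ℝ) ^ 4) ≤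
            Real.exp (-1) * Real.exp (C * ((k : ℝ) ^ 4 + (k : ℝ) ^ 3 * ((l + 1 : ℕ) : ℝ))) := by
          rw [← Real.exp_add]
          apply Real.exp_le_exp.mpr
          push_cast
          have e1 : 50 * ((k : ℝ) ^ 4 + (k : ℝ) ^ 3 * (l + 1)) ≤
              C * ((k : ℝ) ^ 4 + (k : ℝ) ^ 3 * (l + 1)) :=
            mul_le_mul_of_nonneg_right hCge (by positivity)
          have e2 : 0 ≤ (k : ℝ) ^ 3 * l := by positivity
          nlinarith
        refine this.trans (mul_le_mul_of_nonneg_right half (Real.exp_nonneg _))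
      have d2 : Real.exp (1 + 10 * (k : ℝ) ^ 2 + 3 * k + 8 * (k : ℝ) ^ 3 + 2 * (k : ℝ) ^ 2 +
            C * ((k : ℝ) ^ 4 + (k : ℝ) ^ 3 * l)) ≤
          1 / 2 * Real.exp (C * ((k : ℝ) ^ 4 + (k : ℝ) ^ 3 * ((l + 1 : ℕ) : ℝ))) := by
        have : Real.exp (1 + 10 * (k : ℝ) ^ 2 + 3 * k + 8 * (k : ℝ) ^ 3 + 2 * (k : ℝ) ^ 2 +
            C * ((k : ℝ) ^ 4 + (k : ℝ) ^ 3 * l)) ≤
            Real.exp (-1) * Real.exp (C * ((k : ℝ) ^ 4 + (k : ℝ) ^ 3 * ((l + 1 : ℕ) : ℝ))) := by
          rw [← Real.exp_add]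
          apply Real.exp_le_exp.mpr
          push_cast
          have e1 : 50 * (k : ℝ) ^ 3 ≤ C * (k : ℝ) ^ 3 :=
            mul_le_mul_of_nonneg_right hCge (by positivity)
          nlinarith
        refine this.trans (mul_le_mul_of_nonneg_right half (Real.exp_nonneg _))
      calc _ ≤ Real.exp (3 + 6 * (k : ℝ) ^ 4) * (X : ℝ) ^ (E k (l + 1)) +
            Real.exp (1 + 10 * (k : ℝ) ^ 2 + 3 * k + 8 * (k : ℝ) ^ 3 + 2 * (k : ℝ) ^ 2 +
            C * ((k : ℝ) ^ 4 + (k : ℝ) ^ 3 * l)) * (X : ℝ) ^ (E k (l + 1)) := add_le_add b1 b2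
        _ ≤ 1 / 2 * Real.exp (C * ((k : ℝ) ^ 4 + (k : ℝ) ^ 3 * ((l + 1 : ℕ) : ℝ))) *
              (X : ℝ) ^ (E k (l + 1)) +
            1 / 2 * Real.exp (C * ((k : ℝ) ^ 4 + (k : ℝ) ^ 3 * ((l + 1 : ℕ) : ℝ))) *
              (X : ℝ) ^ (E k (l + 1)) :=
            add_le_add (mul_le_mul_of_nonneg_right d1 hXE) (mul_le_mul_of_nonneg_right d2 hXE)
        _ = _ := by ring
    · -- small `y`
      rw [not_le] at hcase
      have h1 : (J k (k * (l + 1 + 1)) X : ℝ) ≤ (X : ℝ) ^ (2 * (k * (l + 1 + 1))) := by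
        exact_mod_cast mvt_trivial k (k * (l + 1 + 1)) X
      refine h1.trans ?_
      have hexp : 2 * ((k : ℝ) * (l + 2)) - E k (l + 1) ≤ (k : ℝ) ^ 2 := by
        have hp := mvt_pow_nonneg (k := k) (by omega) (l + 1)
        unfold E
        push_cast
        have h2 : 0 ≤ ((k : ℝ) * (k - 1) / 2) * (1 - 1 / (k : ℝ)) ^ (l + 1) :=
          mul_nonneg (by nlinarith) hp
        nlinarith
      have h2 : (X : ℝ) ^ (2 * (k * (l + 1 + 1))) =
          (X : ℝ) ^ (2 * ((k : ℝ) * (l + 2)) - E k (l + 1)) * (X : ℝ) ^ (E k (l + 1)) := by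
        rw [← Real.rpow_add hX0, ← Real.rpow_natCast]
        congr 1
        push_cast
        ring
      rw [h2]
      apply mul_le_mul_of_nonneg_right _ (by positivity)
      have hbase : (C0 * (k : ℝ) ^ 6) ≤ Real.exp (Real.log C0 + 6 * k) := by
        rw [Real.exp_add, Real.exp_log (by linarith)]
        apply mul_le_mul_of_nonneg_left _ (by linarith)
        calc (k : ℝ) ^ 6 ≤ (Real.exp k) ^ 6 := pow_le_pow_left₀ (by linarith) (mvt_le_exp _) _
          _ = _ := by rw [← Real.exp_nat_mul]; norm_num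
      calc (X : ℝ) ^ (2 * ((k : ℝ) * (l + 2)) - E k (l + 1)) ≤ (X : ℝ) ^ ((k ^ 2 : ℕ) : ℝ) := by
            apply Real.rpow_le_rpow_of_exponent_le hX'
            push_cast
            exact hexp
        _ = y ^ (k * k ^ 2) := by
            rw [Real.rpow_natCast, ← hyX, ← pow_mul]
        _ ≤ (Real.exp (Real.log C0 + 6 * k)) ^ (k * k ^ 2) :=
            pow_le_pow_left₀ hy0.le (hcase.le.trans hbase) _
        _ = Real.exp ((k : ℝ) ^ 3 * (Real.log C0 + 6 * k)) := by
            rw [← Real.exp_nat_mul]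
            push_cast
            congr 1
            ring
        _ ≤ _ := by
            apply Real.exp_le_exp.mpr
            rw [hC]
            push_cast
            have e1 : (k : ℝ) ^ 3 * Real.log C0 ≤ (k : ℝ) ^ 4 * Real.log C0 :=
              mul_le_mul_of_nonneg_right hk34 hlog0
            have e2 : 0 ≤ (k : ℝ) ^ 3 * (l + 1) * (50 + Real.log C0) := by positivity
            nlinarith

theorem mvt : ∃ C : ℝ, 1 ≤ C ∧ ∀ k X : ℕ, 2 ≤ k → 1 ≤ X →
    (J k (2 * k ^ 3 + k) X : ℝ) ≤ Real.exp (C * (k : ℝ) ^ 5) *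
      (X : ℝ) ^ ((2 * (2 * (k : ℝ) ^ 3 + k) - k * (k + 1) / 2 + 1 / 4 : ℝ)) := by
  obtain ⟨C, hC, h⟩ := J_ind
  refine ⟨3 * C, by linarith, ?_⟩
  intro k X hk hX
  have hk' : (2 : ℝ) ≤ k := by exact_mod_cast hk
  have hk0 : (k : ℝ) ≠ 0 := by linarith
  have hX' : (1 : ℝ) ≤ X := by exact_mod_cast hX
  have h1 := h k (2 * k ^ 2) X hk le_rfl hX
  have hidx : k * (2 * k ^ 2 + 1) = 2 * k ^ 3 + k := by ring
  rw [hidx] at h1
  refine h1.trans ?_
  apply mul_le_mul
  · apply Real.exp_le_exp.mpr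
    push_cast
    have h45 : (k : ℝ) ^ 4 ≤ (k : ℝ) ^ 5 := pow_le_pow_right₀ (by linarith) (by norm_num)
    nlinarith
  · apply Real.rpow_le_rpow_of_exponent_le hX'
    unfold E
    push_cast
    have h2 : (1 - 1 / (k : ℝ)) ^ (2 * k ^ 2) ≤ Real.exp (-(2 * k)) := by
      have h3 : 1 - 1 / (k : ℝ) ≤ Real.exp (-(1 / k)) := by
        have := Real.add_one_le_exp (-(1 / (k : ℝ)))
        linarith
      calc (1 - 1 / (k : ℝ)) ^ (2 * k ^ 2) ≤ (Real.exp (-(1 / k))) ^ (2 * k ^ 2) := by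
            apply pow_le_pow_left₀ _ h3
            rw [sub_nonneg, div_le_one (by linarith)]
            linarith
        _ = _ := by
            rw [← Real.exp_nat_mul]
            congr 1
            push_cast
            field_simp
    have h3 : (2 * (k : ℝ) ^ 2) * Real.exp (-(2 * k)) ≤ 1 := by
      have h4 : 2 * (k : ℝ) ^ 2 ≤ Real.exp (2 * k) := by
        have := Real.quadratic_le_exp_of_nonneg (x := 2 * (k : ℝ)) (by linarith)
        nlinarith
      rw [Real.exp_neg]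
      rw [← div_eq_mul_inv, div_le_one (Real.exp_pos _)]
      exact h4
    have h5 : 0 ≤ Real.exp (-(2 * (k : ℝ))) := Real.exp_nonneg _
    have h6 : ((k : ℝ) * (k - 1) / 2) * (1 - 1 / (k : ℝ)) ^ (2 * k ^ 2) ≤
        ((k : ℝ) * (k - 1) / 2) * Real.exp (-(2 * k)) :=
      mul_le_mul_of_nonneg_left h2 (by nlinarith)
    have h7 : ((k : ℝ) * (k - 1) / 2) * Real.exp (-(2 * k)) ≤ 1 / 4 := by
      have : (k : ℝ) * (k - 1) / 2 ≤ (k : ℝ) ^ 2 / 2 := by nlinarith
      nlinarith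
    have h8 : 2 * (k : ℝ) * (2 * (k : ℝ) ^ 2 + 1) = 2 * (2 * (k : ℝ) ^ 3 + k) := by ring
    rw [h8]
    linarith
  · positivity
  · positivity

end VKZ
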