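import Pool.Agent.VKZ.Defs

/-!
# VKZ.Wsum: the one-dimensional sums

PROOF. `W_trivial`: `(2L+1)² ≤ 9L²`. `W_small`: the term `μ = 0` is `2L + 1 ≤ 3L`; for `0 < |μ| ≤ L` the geometric
sum is at most `1/|sin(π α μ)| ≤ 1/(2 |α μ|)`, as `|α μ| ≤ 1/2`; `∑_{μ ≤ L} 1/μ ≤ 1 + log L`.
-/

namespace VKZ

open Finset

private theorem Wsum_norm_e (x : ℝ) : ‖e x‖ = 1 := by
  unfold e
  rw [show (2 * Real.pi * Complex.I * x : ℂ) = ((2 * Real.pi * x : ℝ) : ℂ) * Complex.I by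
    push_cast; ring]
  exact Complex.norm_exp_ofReal_mul_I _

private theorem Wsum_e_add (x y : ℝ) : e (x + y) = e x * e y := by
  unfold e
  rw [← Complex.exp_add]
  congr 1
  push_cast
  ring

private theorem Wsum_e_zero : e 0 = 1 := by
  unfold e
  simp

private theorem Wsum_e_nat (x : ℝ) (n : ℕ) : e (x * n) = e x ^ n := by
  unfold e
  rw [← Complex.exp_nat_mul]
  congr 1
  push_cast
  ring

private theorem Wsum_norm_e_sub_one (x : ℝ) (hx : |x| ≤ 1 / 2) : 4 * |x| ≤ ‖e x - 1‖ := by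
  have h1 : ‖e x - 1‖ = ‖2 * Real.sin (2 * Real.pi * x / 2)‖ := by
    rw [← Complex.norm_exp_I_mul_ofReal_sub_one]
    unfold e
    congr 3
    push_cast
    ring
  rw [h1, show 2 * Real.pi * x / 2 = Real.pi * x by ring, norm_mul, Real.norm_eq_abs,
    Real.norm_eq_abs, abs_two]
  have hpi := Real.pi_pos
  have h2 : |Real.pi * x| ≤ Real.pi / 2 := by
    rw [abs_mul, abs_of_pos hpi]
    nlinarith
  have h3 := Real.mul_abs_le_abs_sin h2
  rw [abs_mul, abs_of_pos hpi] at h3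
  have h4 : 2 / Real.pi * (Real.pi * |x|) = 2 * |x| := by
    field_simp
  rw [h4] at h3
  linarith

private theorem Wsum_reindex (L : ℕ) (f : ℤ → ℂ) :
    ∑ lam ∈ Icc (-(L : ℤ)) (L : ℤ), f lam = ∑ i ∈ range (2 * L + 1), f ((i : ℤ) - L) := by
  symm
  refine Finset.sum_nbij' (fun i => (i : ℤ) - L) (fun z => (z + L).toNat) ?_ ?_ ?_ ?_ ?_
  · intro i hi
    rw [mem_range] at hi
    rw [mem_Icc]
    constructor <;> omega
  · intro z hz
    rw [mem_Icc] at hz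
    rw [mem_range]
    omega
  · intro i _
    simp
  · intro z hz
    rw [mem_Icc] at hz
    have : ((z + L).toNat : ℤ) = z + L := Int.toNat_of_nonneg (by omega)
    simp only [this]
    ring
  · intro i _
    rfl

private theorem Wsum_geom (L : ℕ) (β : ℝ) (hβ : β ≠ 0) (h : |β| ≤ 1 / 2) :
    ‖∑ lam ∈ Icc (-(L : ℤ)) (L : ℤ), e (β * (lam : ℝ))‖ ≤ 1 / (2 * |β|) := by
  have hb : 0 < |β| := abs_pos.mpr hβ
  have h4 := Wsum_norm_e_sub_one β h
  have hq : e β ≠ 1 := by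
    intro hq
    rw [hq, sub_self, norm_zero] at h4
    linarith
  have hne : 0 < ‖e β - 1‖ := by linarith
  rw [Wsum_reindex]
  have hf : ∀ i ∈ range (2 * L + 1), e (β * (((i : ℤ) - L : ℤ) : ℝ)) =
      e (β * (-(L : ℝ))) * e β ^ i := by
    intro i _
    rw [← Wsum_e_nat, ← Wsum_e_add]
    congr 1
    push_cast
    ring
  rw [Finset.sum_congr rfl hf, ← Finset.mul_sum, norm_mul, Wsum_norm_e, one_mul,
    geom_sum_eq hq, norm_div]
  have hnum : ‖e β ^ (2 * L + 1) - 1‖ ≤ 2 := by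
    refine (norm_sub_le _ _).trans ?_
    rw [norm_pow, Wsum_norm_e, one_pow, norm_one]
    norm_num
  rw [div_le_div_iff₀ hne (by positivity)]
  nlinarith

private theorem Wsum_split (L : ℕ) (h : ℕ → ℝ) :
    ∑ μ ∈ Icc (-(L : ℤ)) (L : ℤ), h μ.natAbs = h 0 + 2 * ∑ m ∈ Icc 1 L, h m := by
  induction L with
  | zero => simp
  | succ L ih =>
    have hset : Icc (-((L + 1 : ℕ) : ℤ)) ((L + 1 : ℕ) : ℤ) =
        insert ((L + 1 : ℕ) : ℤ) (insert (-((L + 1 : ℕ) : ℤ)) (Icc (-(L : ℤ)) (L : ℤ))) := by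
      ext z
      simp only [mem_Icc, mem_insert]
      push_cast
      omega
    have h1 : (-((L + 1 : ℕ) : ℤ)) ∉ Icc (-(L : ℤ)) (L : ℤ) := by
      rw [mem_Icc]
      push_cast
      omega
    have h2 : ((L + 1 : ℕ) : ℤ) ∉ insert (-((L + 1 : ℕ) : ℤ)) (Icc (-(L : ℤ)) (L : ℤ)) := by
      rw [mem_insert, mem_Icc]
      push_cast
      omega
    rw [hset, sum_insert h2, sum_insert h1, ih, Int.natAbs_neg, Int.natAbs_natCast,
      Finset.sum_Icc_succ_top (by omega)]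
    ring

private theorem Wsum_natAbs (L : ℕ) (α : ℝ) (μ : ℤ) :
    ‖∑ lam ∈ Icc (-(L : ℤ)) (L : ℤ), e (α * (lam : ℝ) * (μ : ℝ))‖ ≤ 2 * (L : ℝ) + 1 := by
  refine (norm_sum_le _ _).trans ?_
  rw [Finset.sum_congr rfl (fun lam _ => Wsum_norm_e _)]
  simp only [sum_const, Int.card_Icc, nsmul_eq_mul, mul_one]
  have : ((L : ℤ) + 1 - -(L : ℤ)).toNat = 2 * L + 1 := by omega
  rw [this]
  push_cast
  linarith

theorem W_trivial {L : ℕ} (hL : 1 ≤ L) (α : ℝ) :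
    ∑ μ ∈ Icc (-(L : ℤ)) (L : ℤ), ‖∑ lam ∈ Icc (-(L : ℤ)) (L : ℤ), e (α * (lam : ℝ) * (μ : ℝ))‖ ≤
      9 * (L : ℝ) ^ 2 := by
  have hL' : (1 : ℝ) ≤ L := by exact_mod_cast hL
  refine (Finset.sum_le_sum (fun μ _ => Wsum_natAbs L α μ)).trans ?_
  simp only [sum_const, Int.card_Icc, nsmul_eq_mul]
  have : ((L : ℤ) + 1 - -(L : ℤ)).toNat = 2 * L + 1 := by omega
  rw [this]
  push_cast
  nlinarith

theorem W_small {L : ℕ} (hL : 1 ≤ L) {α : ℝ} (hα : α ≠ 0) (h : |α| * L ≤ 1 / 2) :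
    ∑ μ ∈ Icc (-(L : ℤ)) (L : ℤ), ‖∑ lam ∈ Icc (-(L : ℤ)) (L : ℤ), e (α * (lam : ℝ) * (μ : ℝ))‖ ≤
      3 * (L : ℝ) + (1 + Real.log L) / |α| := by
  have hL' : (1 : ℝ) ≤ L := by exact_mod_cast hL
  have ha : 0 < |α| := abs_pos.mpr hα
  set g : ℕ → ℝ := fun m => if m = 0 then 2 * (L : ℝ) + 1 else 1 / (2 * |α| * m) with hg
  have hle : ∀ μ ∈ Icc (-(L : ℤ)) (L : ℤ),
      ‖∑ lam ∈ Icc (-(L : ℤ)) (L : ℤ), e (α * (lam : ℝ) * (μ : ℝ))‖ ≤ g μ.natAbs := by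
    intro μ hμ
    rw [mem_Icc] at hμ
    by_cases h0 : μ = 0
    · have := Wsum_natAbs L α μ
      rw [hg]
      simp only [h0, Int.natAbs_zero, if_true]
      rw [h0] at this
      exact this
    · have hn : μ.natAbs ≠ 0 := by simpa using h0
      rw [hg]
      simp only [hn, if_false]
      have habs : |(μ : ℝ)| = (μ.natAbs : ℝ) := by
        rw [Nat.cast_natAbs, Int.cast_abs]
      have hμ0 : (μ : ℝ) ≠ 0 := by exact_mod_cast h0
      have hμL : |(μ : ℝ)| ≤ L := by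
        rw [abs_le]
        constructor
        · exact_mod_cast hμ.1
        · exact_mod_cast hμ.2
      have hβ : |α * μ| ≤ 1 / 2 := by
        rw [abs_mul]
        exact (mul_le_mul_of_nonneg_left hμL ha.le).trans h
      have := Wsum_geom L (α * μ) (mul_ne_zero hα hμ0) hβ
      rw [Finset.sum_congr rfl (fun lam _ => by
        rw [show α * (μ : ℝ) * (lam : ℝ) = α * (lam : ℝ) * (μ : ℝ) by ring])] at this
      rw [abs_mul, habs] at this
      rw [← mul_assoc] at this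
      exact this
  refine (Finset.sum_le_sum hle).trans ?_
  rw [Wsum_split L g]
  have h0 : g 0 = 2 * (L : ℝ) + 1 := by simp [hg]
  have hs : ∑ m ∈ Icc 1 L, g m = (1 / (2 * |α|)) * ∑ m ∈ Icc 1 L, (m : ℝ)⁻¹ := by
    rw [Finset.mul_sum]
    refine Finset.sum_congr rfl ?_
    intro m hm
    rw [mem_Icc] at hm
    have hm0 : m ≠ 0 := by omega
    have hm1 : (m : ℝ) ≠ 0 := by exact_mod_cast hm0
    simp only [hg, hm0, if_false]
    field_simp
  have hh : ∑ m ∈ Icc 1 L, (m : ℝ)⁻¹ ≤ 1 + Real.log L := by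
    have := harmonic_le_one_add_log L
    rw [harmonic_eq_sum_Icc] at this
    push_cast at this
    exact this
  rw [h0, hs]
  have h5 : 2 * (1 / (2 * |α|) * ∑ m ∈ Icc 1 L, (m : ℝ)⁻¹) ≤ (1 + Real.log L) / |α| := by
    rw [show 2 * (1 / (2 * |α|) * ∑ m ∈ Icc 1 L, (m : ℝ)⁻¹) =
      (∑ m ∈ Icc 1 L, (m : ℝ)⁻¹) / |α| by field_simp]
    exact div_le_div_of_nonneg_right hh ha.le
  linarith

end VKZ
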