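import Pool.Agent.VKZ.Defs
import Pool.Agent.Hhelper76.SC.ZetaBd

/-!
# VKZ.Approx: the zeta function and its finite sums

PROOF. For `Re s > 1` (Euler-Maclaurin, Abel summation):
`ζ(s) = ∑_{n≤N} n^(-s) + N^(1-s)/(s-1) - s ∫_N^∞ (x - ⌊x⌋) x^(-s-1) dx`. Both sides are analytic in
`Re s > 0`, `s ≠ 1` (the integral converges locally uniformly), so the formula holds there. For `σ ≥ 1/2`
the integral is at most `|s| N^(-σ)/σ ≤ 2 |s| N^(-σ)`. (Look for related statements in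
`Mathlib/NumberTheory/Harmonic/ZetaAsymp.lean`, `Mathlib/NumberTheory/LSeries/SumCoeff.lean`.)
`Zf`: `(s-1) ζ(s)` is analytic, the removable singularity gives `Zf`. `Zf_poly`: use the formula with `N = 1`.
-/

namespace VKZ

open Finset Complex MeasureTheory Pool.Hhelper76.SC

private theorem Approx_Zf : Zf = riemannZeta₁ := by
  funext s
  unfold Zf
  split_ifs with h
  · rw [h, riemannZeta₁_one]
  · rw [riemannZeta_eq_inv_sub_mul h, ← mul_assoc, mul_inv_cancel₀ (sub_ne_zero.2 h), one_mul]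

/-- the tail of the integral -/
private noncomputable def Approx_R (N : ℕ) (s : ℂ) : ℂ :=
  ∫ t : ℝ in Set.Ioi (N : ℝ), ((Int.fract t : ℝ) : ℂ) * (t : ℂ) ^ (-(s + 1))

private theorem Approx_step {s : ℂ} (hs : 0 < s.re) (hs1 : s ≠ 1) {N : ℕ} (hN : 1 ≤ N) :
    Approx_R N s - Approx_R (N + 1) s =
      (((N : ℂ) + 1) ^ (1 - s) - (N : ℂ) ^ (1 - s)) / (1 - s) +
        N * ((((N : ℂ) + 1) ^ (-s) - (N : ℂ) ^ (-s)) / s) := by
  have hN1 : (1 : ℝ) ≤ N := by exact_mod_cast hN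
  have hN0 : (0 : ℝ) < N := by linarith
  have hs0 : s ≠ 0 := by
    rintro rfl
    simp at hs
  have hint := zbJ_integrable hs
  have hsub : Set.Ioi (N : ℝ) ⊆ Set.Ioi 1 := Set.Ioi_subset_Ioi hN1
  have hu : Set.Ioi (N : ℝ) = Set.Ioc (N : ℝ) (N + 1) ∪ Set.Ioi ((N : ℝ) + 1) :=
    (Set.Ioc_union_Ioi_eq_Ioi (by linarith)).symm
  have hR : Approx_R N s = (∫ t : ℝ in Set.Ioc (N : ℝ) (N + 1),
      ((Int.fract t : ℝ) : ℂ) * (t : ℂ) ^ (-(s + 1))) + Approx_R (N + 1) s := by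
    unfold Approx_R
    rw [hu, setIntegral_union]
    · push_cast
      rfl
    · rw [Set.disjoint_left]
      intro t ht ht'
      exact absurd ht.2 (not_le.2 ht')
    · exact measurableSet_Ioi
    · exact hint.mono_set (fun t ht => hsub ht.1)
    · exact hint.mono_set (fun t ht => hsub (by
        have : (N : ℝ) + 1 < t := ht
        show (N : ℝ) < t
        linarith))
  rw [hR, add_sub_cancel_right]
  have h1 : (∫ t : ℝ in Set.Ioc (N : ℝ) (N + 1),
      ((Int.fract t : ℝ) : ℂ) * (t : ℂ) ^ (-(s + 1))) =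
      ∫ t : ℝ in (N : ℝ)..(N + 1), ((t : ℂ) ^ (-s) - N * (t : ℂ) ^ (-s - 1)) := by
    rw [intervalIntegral.integral_of_le (by linarith), integral_Ioc_eq_integral_Ioo,
      integral_Ioc_eq_integral_Ioo]
    refine setIntegral_congr_fun measurableSet_Ioo fun t ht => ?_
    have ht0 : (0 : ℝ) < t := lt_trans hN0 ht.1
    have htc : (t : ℂ) ≠ 0 := by exact_mod_cast ht0.ne'
    have hf : Int.fract t = t - N := by
      have h2 : ⌊t⌋ = (N : ℤ) := by
        rw [Int.floor_eq_iff]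
        refine ⟨?_, ?_⟩
        · push_cast
          exact ht.1.le
        · push_cast
          exact ht.2
      rw [← Int.self_sub_floor, h2]
      push_cast
      rfl
    have h3 : (t : ℂ) ^ (-s) = t * (t : ℂ) ^ (-s - 1) := by
      rw [Complex.cpow_sub _ _ htc, Complex.cpow_one]
      field_simp
    rw [hf, h3, show -(s + 1) = -s - 1 by ring]
    push_cast
    ring
  rw [h1]
  have hnot : (0 : ℝ) ∉ Set.uIcc (N : ℝ) (N + 1) := by
    rw [Set.uIcc_of_le (by linarith)]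
    intro h
    linarith [h.1]
  have hi : ∀ r : ℂ, IntervalIntegrable (fun t : ℝ => (t : ℂ) ^ r) volume (N : ℝ) (N + 1) :=
    fun r => intervalIntegral.intervalIntegrable_cpow (Or.inr hnot)
  rw [intervalIntegral.integral_sub (hi _) ((hi _).const_mul _),
    intervalIntegral.integral_const_mul,
    integral_cpow (Or.inr ⟨by
      intro h
      apply hs1
      have := congrArg Neg.neg h
      simpa using this, hnot⟩),
    integral_cpow (Or.inr ⟨by
      intro h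
      apply hs0
      have : -s = 0 := by
        linear_combination h
      simpa using this, hnot⟩)]
  push_cast
  rw [show -s + 1 = 1 - s by ring, show -s - 1 + 1 = -s by ring]
  rw [div_neg]
  ring

private theorem Approx_eq {s : ℂ} (hs : 0 < s.re) (hs1 : s ≠ 1) {N : ℕ} (hN : 1 ≤ N) :
    riemannZeta s - ∑ n ∈ Icc 1 N, (n : ℂ) ^ (-s) - (N : ℂ) ^ (1 - s) / (s - 1) =
      -(s * Approx_R N s) := by
  have hs0 : s ≠ 0 := by
    rintro rfl
    simp at hs
  have h10 : s - 1 ≠ 0 := sub_ne_zero.2 hs1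
  have h01 : 1 - s ≠ 0 := sub_ne_zero.2 (Ne.symm hs1)
  induction N, hN using Nat.le_induction with
  | base =>
    have h1 : Approx_R 1 s = zbJ s := by
      unfold Approx_R zbJ
      norm_num
    rw [h1, riemannZeta_eq_inv_sub_mul hs1, zeta₁_eq hs]
    simp only [Icc_self, sum_singleton, Nat.cast_one, one_cpow]
    field_simp
    ring
  | succ N hN ih =>
    have h1 := Approx_step hs hs1 hN
    have hNc : ((N : ℂ) + 1) ≠ 0 := by exact_mod_cast Nat.succ_ne_zero N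
    have hN0 : (N : ℂ) ≠ 0 := by
      have : N ≠ 0 := by omega
      exact_mod_cast this
    have e1 : ((N : ℂ) + 1) ^ (1 - s) = (N + 1) * ((N : ℂ) + 1) ^ (-s) := by
      rw [sub_eq_add_neg, Complex.cpow_add _ _ hNc, Complex.cpow_one]
    have e2 : (N : ℂ) ^ (1 - s) = N * (N : ℂ) ^ (-s) := by
      rw [sub_eq_add_neg, Complex.cpow_add _ _ hN0, Complex.cpow_one]
    rw [Finset.sum_Icc_succ_top (by omega)]
    push_cast
    have h2 : Approx_R (N + 1) s = Approx_R N s - ((((N : ℂ) + 1) ^ (1 - s) - (N : ℂ) ^ (1 - s)) / (1 - s) +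
        N * ((((N : ℂ) + 1) ^ (-s) - (N : ℂ) ^ (-s)) / s)) := by
      rw [← h1]
      ring
    rw [h2]
    have h3 : -(s * (Approx_R N s - ((((N : ℂ) + 1) ^ (1 - s) - (N : ℂ) ^ (1 - s)) / (1 - s) +
        N * ((((N : ℂ) + 1) ^ (-s) - (N : ℂ) ^ (-s)) / s)))) =
        -(s * Approx_R N s) + s * ((((N : ℂ) + 1) ^ (1 - s) - (N : ℂ) ^ (1 - s)) / (1 - s) +
        N * ((((N : ℂ) + 1) ^ (-s) - (N : ℂ) ^ (-s)) / s)) := by ring
    rw [h3, ← ih, e1, e2]
    have h4 : s - 1 = -(1 - s) := by ring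
    rw [h4]
    field_simp
    ring

private theorem Approx_norm {s : ℂ} (hs : 0 < s.re) {N : ℕ} (hN : 1 ≤ N) :
    ‖Approx_R N s‖ ≤ (N : ℝ) ^ (-s.re) / s.re := by
  have hN1 : (1 : ℝ) ≤ N := by exact_mod_cast hN
  have hN0 : (0 : ℝ) < N := by linarith
  have h1 : ∫ t : ℝ in Set.Ioi (N : ℝ), t ^ (-(s.re + 1)) = (N : ℝ) ^ (-s.re) / s.re := by
    rw [integral_Ioi_rpow_of_lt (by linarith) hN0]
    rw [show -(s.re + 1) + 1 = -s.re by ring, neg_div_neg_eq]
  rw [← h1]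
  unfold Approx_R
  refine norm_integral_le_of_norm_le (integrableOn_Ioi_rpow_of_lt (by linarith) hN0) ?_
  refine (ae_restrict_iff' measurableSet_Ioi).2 (Filter.Eventually.of_forall fun t ht => ?_)
  have ht1 : t ∈ Set.Ioi (1 : ℝ) := lt_of_le_of_lt hN1 ht
  rw [norm_mul, zb_norm_cpow ht1, Complex.norm_real, Real.norm_of_nonneg (Int.fract_nonneg t)]
  have h1 : 0 < t ^ (-(s.re + 1)) := Real.rpow_pos_of_pos (lt_trans one_pos ht1) _
  nlinarith [(Int.fract_lt_one t).le, Int.fract_nonneg t]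

theorem zeta_approx {s : ℂ} (hs : 1 / 2 ≤ s.re) (hs1 : s ≠ 1) {N : ℕ} (hN : 1 ≤ N) :
    ‖riemannZeta s - ∑ n ∈ Icc 1 N, (n : ℂ) ^ (-s) - (N : ℂ) ^ (1 - s) / (s - 1)‖ ≤
      2 * ‖s‖ * (N : ℝ) ^ (-s.re) := by
  have hs0 : 0 < s.re := by linarith
  rw [Approx_eq hs0 hs1 hN, norm_neg, norm_mul]
  have h1 := Approx_norm hs0 hN
  have h2 : 0 ≤ (N : ℝ) ^ (-s.re) := by positivity
  have h3 : (N : ℝ) ^ (-s.re) / s.re ≤ 2 * (N : ℝ) ^ (-s.re) := by
    rw [div_le_iff₀ hs0]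
    nlinarith
  calc ‖s‖ * ‖Approx_R N s‖ ≤ ‖s‖ * (2 * (N : ℝ) ^ (-s.re)) :=
        mul_le_mul_of_nonneg_left (h1.trans h3) (norm_nonneg _)
    _ = _ := by ring

theorem Zf_analytic : Differentiable ℂ Zf := by
  rw [Approx_Zf]
  exact differentiable_riemannZeta₁

theorem Zf_poly {s : ℂ} (hs : 1 / 2 ≤ s.re) : ‖Zf s‖ ≤ 4 * (‖s‖ + 1) ^ 2 := by
  have hs0 : 0 < s.re := by linarith
  have hJ : ‖zbJ s‖ ≤ 2 := by
    refine (zbJ_norm_le hs0).trans ?_
    rw [div_le_iff₀ hs0]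
    linarith
  have h1 : ‖s - 1‖ ≤ ‖s‖ + 1 := by
    calc ‖s - 1‖ ≤ ‖s‖ + ‖(1 : ℂ)‖ := norm_sub_le _ _
      _ = _ := by rw [norm_one]
  have h0 := norm_nonneg s
  rw [Approx_Zf, zeta₁_eq hs0]
  calc ‖s - (s - 1) * s * zbJ s‖ ≤ ‖s‖ + ‖(s - 1) * s * zbJ s‖ := norm_sub_le _ _
    _ = ‖s‖ + ‖s - 1‖ * ‖s‖ * ‖zbJ s‖ := by rw [norm_mul, norm_mul]
    _ ≤ ‖s‖ + (‖s‖ + 1) * ‖s‖ * 2 := by gcongr
    _ ≤ 4 * (‖s‖ + 1) ^ 2 := by nlinarith

/-- The values on `Re s = σ > 1` (Euler product): `|ζ(σ + it)| ≥ ζ(2σ)/ζ(σ) ≥ c (σ - 1)`. -/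
theorem zeta_lower : ∃ c : ℝ, 0 < c ∧ ∀ s : ℂ, 1 < s.re → s.re ≤ 3 →
    c * (s.re - 1) ≤ ‖riemannZeta s‖ := by
  refine ⟨1 / 3, by norm_num, fun s hs hs3 => ?_⟩
  have hz : 0 < (s - 1).re := by
    simp only [sub_re, one_re]
    linarith
  have h1 := zeta_inv_le (s - 1) hz
  rw [add_sub_cancel] at h1
  have h2 : 0 < ‖riemannZeta s‖ := norm_pos_iff.2 (riemannZeta_ne_zero_of_one_lt_re hs)
  have h3 : (s - 1).re = s.re - 1 := by simp
  rw [h3] at h1 hz
  have h4 : 1 ≤ (1 + 1 / (s.re - 1)) * ‖riemannZeta s‖ := by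
    rw [inv_le_iff_one_le_mul₀ h2] at h1
    exact h1
  have h5 : (1 + 1 / (s.re - 1)) * (s.re - 1) = s.re := by
    field_simp
    ring
  have h6 : (s.re - 1) ≤ s.re * ‖riemannZeta s‖ := by
    calc s.re - 1 = (s.re - 1) * 1 := by ring
      _ ≤ (s.re - 1) * ((1 + 1 / (s.re - 1)) * ‖riemannZeta s‖) :=
          mul_le_mul_of_nonneg_left h4 hz.le
      _ = ((1 + 1 / (s.re - 1)) * (s.re - 1)) * ‖riemannZeta s‖ := by ring
      _ = _ := by rw [h5]
  nlinarith

/-- the values of the series of `Λ` at the real point -/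
private noncomputable def Approx_g (σ : ℝ) (n : ℕ) : ℝ :=
  if n = 0 then 0 else ArithmeticFunction.vonMangoldt n / (n : ℝ) ^ σ

private theorem Approx_g_nonneg (σ : ℝ) (n : ℕ) : 0 ≤ Approx_g σ n := by
  unfold Approx_g
  split_ifs
  · exact le_rfl
  · exact div_nonneg ArithmeticFunction.vonMangoldt_nonneg (by positivity)

private theorem Approx_g_norm (s : ℂ) (n : ℕ) :
    ‖LSeries.term (fun n => ((ArithmeticFunction.vonMangoldt n : ℝ) : ℂ)) s n‖ =
      Approx_g s.re n := by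
  rw [LSeries.norm_term_eq]
  unfold Approx_g
  split_ifs
  · rfl
  · rw [Complex.norm_real, Real.norm_of_nonneg ArithmeticFunction.vonMangoldt_nonneg]

private theorem Approx_g_term (σ : ℝ) (n : ℕ) :
    LSeries.term (fun n => ((ArithmeticFunction.vonMangoldt n : ℝ) : ℂ)) (σ : ℂ) n =
      ((Approx_g σ n : ℝ) : ℂ) := by
  unfold LSeries.term Approx_g
  split_ifs
  · simp
  · rw [Complex.ofReal_div, Complex.ofReal_cpow (Nat.cast_nonneg n)]
    simp

private theorem Approx_g_summable {σ : ℝ} (hσ : 1 < σ) : Summable (Approx_g σ) := by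
  have h1 := (ArithmeticFunction.LSeriesSummable_vonMangoldt (s := (σ : ℂ)) (by simpa using hσ)).norm
  refine h1.congr fun n => ?_
  have h2 := Approx_g_norm (σ : ℂ) n
  rw [Complex.ofReal_re] at h2
  exact h2

private theorem Approx_L_le {s : ℂ} (hs : 1 < s.re) :
    ‖deriv riemannZeta s / riemannZeta s‖ ≤ ∑' n, Approx_g s.re n := by
  have h1 := ArithmeticFunction.LSeries_vonMangoldt_eq_deriv_riemannZeta_div hs
  have h2 : ‖deriv riemannZeta s / riemannZeta s‖ =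
      ‖LSeries (fun n => ((ArithmeticFunction.vonMangoldt n : ℝ) : ℂ)) s‖ := by
    rw [h1, neg_div, norm_neg]
  rw [h2]
  unfold LSeries
  have h3 := (ArithmeticFunction.LSeriesSummable_vonMangoldt hs).norm
  refine (norm_tsum_le_tsum_norm h3).trans (le_of_eq ?_)
  exact tsum_congr fun n => Approx_g_norm s n

private theorem Approx_L_eq {σ : ℝ} (hσ : 1 < σ) :
    ∑' n, Approx_g σ n = ‖deriv riemannZeta (σ : ℂ) / riemannZeta (σ : ℂ)‖ := by
  have hs : 1 < (σ : ℂ).re := by simpa using hσ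
  have h1 := ArithmeticFunction.LSeries_vonMangoldt_eq_deriv_riemannZeta_div hs
  have h2 : ‖deriv riemannZeta (σ : ℂ) / riemannZeta (σ : ℂ)‖ =
      ‖LSeries (fun n => ((ArithmeticFunction.vonMangoldt n : ℝ) : ℂ)) (σ : ℂ)‖ := by
    rw [h1, neg_div, norm_neg]
  rw [h2]
  unfold LSeries
  simp only [Approx_g_term]
  rw [← Complex.ofReal_tsum, Complex.norm_real, Real.norm_of_nonneg]
  exact tsum_nonneg fun n => Approx_g_nonneg σ n

/-- `|ζ'/ζ(s)| ≤ -ζ'/ζ(σ) ≤ 1/(σ-1) + C` for `σ > 1`. -/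
theorem logderiv_upper : ∃ C : ℝ, 0 < C ∧ ∀ s : ℂ, 1 < s.re →
    ‖deriv riemannZeta s / riemannZeta s‖ ≤ 1 / (s.re - 1) + C := by
  obtain ⟨C1, hC1⟩ := log_deriv_riemannZeta_add_inv_sub_bounded.bound
  rw [eventually_nhdsWithin_iff, Metric.eventually_nhds_iff] at hC1
  obtain ⟨δ, hδ, hC⟩ := hC1
  have hsum0 : 0 ≤ ∑' n, Approx_g (1 + δ / 2) n := tsum_nonneg fun n => Approx_g_nonneg _ n
  refine ⟨|C1| + (∑' n, Approx_g (1 + δ / 2) n) + 1, by positivity, fun s hs => ?_⟩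
  have hσ : 0 < s.re - 1 := by linarith
  refine (Approx_L_le hs).trans ?_
  by_cases h : s.re < 1 + δ / 2
  · rw [Approx_L_eq hs]
    have h1 : dist ((s.re : ℝ) : ℂ) 1 < δ := by
      rw [Complex.dist_eq, ← Complex.ofReal_one, ← Complex.ofReal_sub, Complex.norm_real,
        Real.norm_of_nonneg hσ.le]
      linarith
    have h2 : ((s.re : ℝ) : ℂ) ∈ ({1}ᶜ : Set ℂ) := by
      rw [Set.mem_compl_iff, Set.mem_singleton_iff]
      intro h3
      have h4 := congrArg Complex.re h3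
      rw [Complex.ofReal_re, Complex.one_re] at h4
      linarith
    have h3 := hC h1 h2
    rw [norm_one, mul_one] at h3
    have h4 : ‖(((s.re : ℝ) : ℂ) - 1)⁻¹‖ = 1 / (s.re - 1) := by
      rw [norm_inv, ← Complex.ofReal_one, ← Complex.ofReal_sub, Complex.norm_real,
        Real.norm_of_nonneg hσ.le, one_div]
    have h5 : deriv riemannZeta ((s.re : ℝ) : ℂ) / riemannZeta ((s.re : ℝ) : ℂ) =
        (deriv riemannZeta ((s.re : ℝ) : ℂ) / riemannZeta ((s.re : ℝ) : ℂ) +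
          (((s.re : ℝ) : ℂ) - 1)⁻¹) - (((s.re : ℝ) : ℂ) - 1)⁻¹ := by ring
    rw [h5]
    refine (norm_sub_le _ _).trans ?_
    rw [h4]
    have := le_abs_self C1
    linarith
  · have h1 : ∑' n, Approx_g s.re n ≤ ∑' n, Approx_g (1 + δ / 2) n := by
      refine (Approx_g_summable hs).tsum_le_tsum (fun n => ?_) (Approx_g_summable (by linarith))
      unfold Approx_g
      split_ifs with hn
      · exact le_rfl
      · have hn1 : (1 : ℝ) ≤ n := by exact_mod_cast Nat.one_le_iff_ne_zero.2 hn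
        refine div_le_div_of_nonneg_left ArithmeticFunction.vonMangoldt_nonneg (by positivity) ?_
        exact Real.rpow_le_rpow_of_exponent_le hn1 (not_lt.1 h)
    have h2 : 0 < 1 / (s.re - 1) := by positivity
    have h3 := abs_nonneg C1
    linarith

end VKZ
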