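import Mathlib

/-!
# VKZ: a zero free region of the type of Vinogradov, Korobov and Chudakov for the Riemann zeta function

Main results: `VKZ.exp_sum` (sums of `n^(-it)`), `VKZ.region` (zero free region
`σ ≥ 1 - c / (log (|t| + 3))^(19/20)` with bounds for the logarithmic derivative and for `1/ζ`),
`VKZ.prime_gauss`, `VKZ.mu_gauss` (sums of `Λ(n) n^(-1-it)`, `μ(n) n^(-1-it)` with a Gaussian weight are
smaller than any power of the logarithm, for `t` up to any power of the length).

Route: Vinogradov's mean value theorem with explicit dependence on the degree (Linnik's p-adic method),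
Vinogradov's bilinear method, Landau's lemma, contour integrals.
-/

namespace VKZ

open Finset

/-- `e(x) = exp(2πix)`. -/
noncomputable def e (x : ℝ) : ℂ := Complex.exp (2 * Real.pi * Complex.I * x)

open Classical in
/-- The number of solutions of Vinogradov's system of degree `k` in `2s` variables `0 ≤ x_i, y_i < X`. -/
noncomputable def J (k s X : ℕ) : ℕ :=
  (univ.filter fun w : (Fin s → Fin X) × (Fin s → Fin X) =>
    ∀ j ∈ Icc 1 k, ∑ i, ((w.1 i : ℕ) : ℤ) ^ j = ∑ i, ((w.2 i : ℕ) : ℤ) ^ j).card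

open Classical in
/-- The solutions for which the first `k` of the `x_i` are pairwise incongruent modulo `p`, and the first
`k` of the `y_i` too. -/
noncomputable def R1 (k t X p : ℕ) : ℕ :=
  (univ.filter fun w : (Fin (k + t) → Fin X) × (Fin (k + t) → Fin X) =>
    (∀ j ∈ Icc 1 k, ∑ i, ((w.1 i : ℕ) : ℤ) ^ j = ∑ i, ((w.2 i : ℕ) : ℤ) ^ j) ∧
    (∀ i i' : Fin k, i ≠ i' → ¬ ((w.1 (Fin.castAdd t i) : ℕ) ≡ (w.1 (Fin.castAdd t i') : ℕ) [MOD p])) ∧
    (∀ i i' : Fin k, i ≠ i' →
      ¬ ((w.2 (Fin.castAdd t i) : ℕ) ≡ (w.2 (Fin.castAdd t i') : ℕ) [MOD p]))).card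

/-- The exponent in Vinogradov's mean value theorem after `l` steps. -/
noncomputable def E (k l : ℕ) : ℝ :=
  2 * k * (l + 1) - k * (k + 1) / 2 + (k * (k - 1) / 2) * (1 - 1 / (k : ℝ)) ^ l

/-- The function `(z - 1) ζ(z)`, with the value `1` at `z = 1`. -/
noncomputable def Zf (z : ℂ) : ℂ := if z = 1 then 1 else (z - 1) * riemannZeta z

/-- `1/ζ`, with the value `0` at `1`. -/
noncomputable def iz (z : ℂ) : ℂ := (z - 1) / Zf z

end VKZ
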