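import Pool.Agent.VKZ.Defs

/-!
# VKZ.Fin1: elementary properties of `J`

PROOF. `J_shift`: translation invariance: `∑ (x_i + a)^j` is a combination of the power sums of lower order
(binomial theorem), with coefficients independent of `x`; both systems have the same solutions.
`J_trivial`: there are `X^(2s)` pairs. `J_mono`: embed `Fin X` in `Fin Y`.
`J_le_cs`: for a set `A` of vectors the number of pairs `(x, y)`, `x ∈ A`, `y` arbitrary, with the same
power sums is `∑_λ r_A(λ) r(λ) ≤ (∑ r_A²)^(1/2) (∑ r²)^(1/2) ≤ |A| J^(1/2)`.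
`J_coeff`: for any `λ` the number of `(x, y)` with `∑ x_i^j - ∑ y_i^j = λ_j` is at most `J`
(`∑_ν r(ν + λ) r(ν) ≤ ∑ r²`, Cauchy-Schwarz).
-/

namespace VKZ

open Finset

private theorem Fin1_mem {α : Type*} {s : Finset α} {p : α → Prop} {ip : DecidablePred p} {a : α} :
    a ∈ @Finset.filter α p ip s ↔ a ∈ s ∧ p a := mem_filter

private theorem Fin1_congr {α : Type*} {s : Finset α} {p q : α → Prop} {ip : DecidablePred p}
    {iq : DecidablePred q} (h : ∀ a ∈ s, p a ↔ q a) :
    @Finset.filter α p ip s = @Finset.filter α q iq s := by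
  ext a
  rw [Fin1_mem, Fin1_mem]
  constructor
  · rintro ⟨h1, h2⟩
    exact ⟨h1, (h a h1).mp h2⟩
  · rintro ⟨h1, h2⟩
    exact ⟨h1, (h a h1).mpr h2⟩

private theorem Fin1_card_le {α : Type*} {s : Finset α} {p : α → Prop} {ip : DecidablePred p} :
    (@Finset.filter α p ip s).card ≤ s.card := card_filter_le _ _

private theorem Fin1_prod {α β : Type*} {A : Finset α} {B : Finset β} {p : α × β → Prop}
    {ip : DecidablePred p} {iq : ∀ x, DecidablePred fun y => p (x, y)} :
    (@Finset.filter _ p ip (A ×ˢ B)).card =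
      ∑ x ∈ A, (@Finset.filter β (fun y => p (x, y)) (iq x) B).card := by
  rw [card_filter, sum_product]
  refine sum_congr rfl fun x _ => ?_
  rw [card_filter]
  refine sum_congr rfl fun y _ => ?_
  by_cases h : p (x, y)
  · rw [if_pos h, if_pos h]
  · rw [if_neg h, if_neg h]

theorem J_trivial (k s X : ℕ) : J k s X ≤ X ^ (2 * s) := by
  unfold J
  refine Fin1_card_le.trans ?_
  rw [card_univ, Fintype.card_prod, Fintype.card_fun, Fintype.card_fin, Fintype.card_fin]
  rw [← pow_add, two_mul]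

theorem J_mono (k s : ℕ) {X Y : ℕ} (h : X ≤ Y) : J k s X ≤ J k s Y := by
  unfold J
  refine card_le_card_of_injOn
    (fun w => (fun i => Fin.castLE h (w.1 i), fun i => Fin.castLE h (w.2 i))) ?_ ?_
  · intro w hw
    rw [mem_coe, Fin1_mem] at hw ⊢
    refine ⟨mem_univ _, ?_⟩
    intro j hj
    simpa using hw.2 j hj
  · intro w _ w' _ hww
    rw [Prod.mk.injEq] at hww
    refine Prod.ext ?_ ?_
    · funext i
      exact Fin.castLE_injective h (congrFun hww.1 i)
    · funext i
      exact Fin.castLE_injective h (congrFun hww.2 i)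

private theorem Fin1_shift {k s : ℕ} {x y : Fin s → ℤ}
    (h : ∀ j ∈ Icc 1 k, ∑ i, x i ^ j = ∑ i, y i ^ j) (a : ℤ) :
    ∀ j ∈ Icc 1 k, ∑ i, (x i + a) ^ j = ∑ i, (y i + a) ^ j := by
  intro j hj
  have h0 : ∀ m ∈ range (j + 1), ∑ i, x i ^ m = ∑ i, y i ^ m := by
    intro m hm
    rcases Nat.eq_zero_or_pos m with rfl | hm0
    · simp
    · refine h m ?_
      rw [mem_range] at hm
      rw [mem_Icc] at hj ⊢
      omega
  have e : ∀ z : Fin s → ℤ, ∑ i, (z i + a) ^ j =
      ∑ m ∈ range (j + 1), (∑ i, z i ^ m) * (a ^ (j - m) * (j.choose m : ℤ)) := by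
    intro z
    simp_rw [add_pow]
    rw [sum_comm]
    refine sum_congr rfl fun m _ => ?_
    rw [sum_mul]
    refine sum_congr rfl fun i _ => ?_
    ring
  rw [e, e]
  exact sum_congr rfl fun m hm => by rw [h0 m hm]

private theorem Fin1_shift_iff {k s : ℕ} (x y : Fin s → ℤ) (a : ℤ) :
    (∀ j ∈ Icc 1 k, ∑ i, (x i + a) ^ j = ∑ i, (y i + a) ^ j) ↔
      ∀ j ∈ Icc 1 k, ∑ i, x i ^ j = ∑ i, y i ^ j := by
  constructor
  · intro h
    have := Fin1_shift h (-a)
    simpa using this
  · intro h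
    exact Fin1_shift h a

open Classical in
theorem J_shift (k s X : ℕ) (a : ℤ) :
    ((univ : Finset ((Fin s → Fin X) × (Fin s → Fin X))).filter fun w =>
      ∀ j ∈ Icc 1 k, ∑ i, (((w.1 i : ℕ) : ℤ) + a) ^ j = ∑ i, (((w.2 i : ℕ) : ℤ) + a) ^ j).card =
      J k s X := by
  unfold J
  refine congrArg card (Fin1_congr fun w _ => ?_)
  exact Fin1_shift_iff (fun i => ((w.1 i : ℕ) : ℤ)) (fun i => ((w.2 i : ℕ) : ℤ)) a

open Classical in
/-- the number of pairs with `f x = f y + l` as a sum over the values -/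
private theorem Fin1_sum {V K : Type*} [Fintype V] [AddGroup K] (f : V → K) (l : K) :
    ((univ : Finset (V × V)).filter fun w => f w.1 = f w.2 + l).card =
      ∑ v ∈ univ.image f, ((univ : Finset V).filter fun x => f x = v + l).card *
        ((univ : Finset V).filter fun x => f x = v).card := by
  have h1 := card_eq_sum_card_fiberwise (f := fun w : V × V => f w.2)
    (s := (univ : Finset (V × V)).filter fun w => f w.1 = f w.2 + l) (t := univ.image f)
    (fun w _ => mem_coe.mpr (mem_image_of_mem f (mem_univ _)))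
  rw [h1]
  refine sum_congr rfl fun v _ => ?_
  rw [← card_product]
  congr 1
  ext ⟨x, y⟩
  simp only [mem_filter, mem_univ, true_and, mem_product]
  constructor
  · rintro ⟨h2, h3⟩
    exact ⟨by rw [h2, h3], h3⟩
  · rintro ⟨h2, h3⟩
    exact ⟨by rw [h2, h3], h3⟩

open Classical in
private theorem Fin1_le {V K : Type*} [Fintype V] [AddGroup K] (f : V → K) (l : K) :
    ((univ : Finset (V × V)).filter fun w => f w.1 = f w.2 + l).card ≤
      ((univ : Finset (V × V)).filter fun w => f w.1 = f w.2).card := by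
  obtain ⟨r, hr⟩ : ∃ r : K → ℕ, r = fun v => ((univ : Finset V).filter fun x => f x = v).card :=
    ⟨_, rfl⟩
  have h1 : ((univ : Finset (V × V)).filter fun w => f w.1 = f w.2 + l).card =
      ∑ v ∈ univ.image f, r (v + l) * r v := by rw [Fin1_sum, hr]
  have h2 : ((univ : Finset (V × V)).filter fun w => f w.1 = f w.2).card =
      ∑ v ∈ univ.image f, r v * r v := by
    have := Fin1_sum f 0
    simp only [add_zero] at this
    rw [this, hr]
  rw [h1, h2]
  have h3 : ∑ v ∈ univ.image f, r (v + l) * r (v + l) ≤ ∑ v ∈ univ.image f, r v * r v := by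
    have h4 : ∑ v ∈ univ.image f, r (v + l) * r (v + l) =
        ∑ v ∈ (univ.image f).image (fun v => v + l), r v * r v := by
      symm
      refine sum_image ?_
      intro a _ b _ hab
      exact add_right_cancel hab
    rw [h4]
    have h5 : ∑ v ∈ (univ.image f).image (fun v => v + l), r v * r v =
        ∑ v ∈ (univ.image f).image (fun v => v + l) ∩ univ.image f, r v * r v := by
      symm
      refine sum_subset inter_subset_left ?_
      intro v hv hv'
      have : r v = 0 := by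
        rw [hr]
        dsimp only
        rw [card_eq_zero, filter_eq_empty_iff]
        intro x _ hx
        exact hv' (mem_inter.mpr ⟨hv, hx ▸ mem_image_of_mem f (mem_univ x)⟩)
      rw [this, mul_zero]
    rw [h5]
    exact sum_le_sum_of_subset inter_subset_right
  have h6 : 2 * ∑ v ∈ univ.image f, r (v + l) * r v ≤
      ∑ v ∈ univ.image f, r (v + l) * r (v + l) + ∑ v ∈ univ.image f, r v * r v := by
    rw [mul_sum, ← sum_add_distrib]
    refine sum_le_sum fun v _ => ?_
    have h7 : ∀ a b : ℕ, 2 * (a * b) ≤ a * a + b * b := by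
      intro a b
      zify
      nlinarith [sq_nonneg ((a : ℤ) - b)]
    exact h7 _ _
  omega

open Classical in
theorem J_coeff (k s X : ℕ) (a : ℤ) (lam : ℕ → ℤ) :
    ((univ : Finset ((Fin s → Fin X) × (Fin s → Fin X))).filter fun w =>
      ∀ j ∈ Icc 1 k, ∑ i, (((w.1 i : ℕ) : ℤ) + a) ^ j - ∑ i, (((w.2 i : ℕ) : ℤ) + a) ^ j = lam j).card ≤
      J k s X := by
  obtain ⟨f, hf⟩ : ∃ f : (Fin s → Fin X) → (ℕ → ℤ), f = fun x j =>
      if j ∈ Icc 1 k then ∑ i, (((x i : ℕ) : ℤ) + a) ^ j else 0 := ⟨_, rfl⟩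
  obtain ⟨l, hl⟩ : ∃ l : ℕ → ℤ, l = fun j => if j ∈ Icc 1 k then lam j else 0 := ⟨_, rfl⟩
  have h1 := Fin1_le f l
  have h2 : ((univ : Finset ((Fin s → Fin X) × (Fin s → Fin X))).filter
      fun w => f w.1 = f w.2 + l) =
      (univ : Finset ((Fin s → Fin X) × (Fin s → Fin X))).filter fun w =>
        ∀ j ∈ Icc 1 k, ∑ i, (((w.1 i : ℕ) : ℤ) + a) ^ j - ∑ i, (((w.2 i : ℕ) : ℤ) + a) ^ j =
          lam j := by
    refine Fin1_congr fun w _ => ?_
    rw [hf, hl]
    constructor
    · intro h j hj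
      have h3 := congrFun h j
      simp only [Pi.add_apply, if_pos hj] at h3
      rw [h3]; ring
    · intro h
      funext j
      simp only [Pi.add_apply]
      by_cases hj : j ∈ Icc 1 k
      · rw [if_pos hj, if_pos hj, if_pos hj, ← h j hj]; ring
      · rw [if_neg hj, if_neg hj, if_neg hj]; rfl
  have h3 : ((univ : Finset ((Fin s → Fin X) × (Fin s → Fin X))).filter
      fun w => f w.1 = f w.2) =
      (univ : Finset ((Fin s → Fin X) × (Fin s → Fin X))).filter fun w =>
        ∀ j ∈ Icc 1 k, ∑ i, (((w.1 i : ℕ) : ℤ) + a) ^ j = ∑ i, (((w.2 i : ℕ) : ℤ) + a) ^ j := by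
    refine Fin1_congr fun w _ => ?_
    rw [hf]
    constructor
    · intro h j hj
      have h4 := congrFun h j
      simpa only [if_pos hj] using h4
    · intro h
      funext j
      dsimp only
      by_cases hj : j ∈ Icc 1 k
      · rw [if_pos hj, if_pos hj, h j hj]
      · rw [if_neg hj, if_neg hj]
  rw [h2, h3, J_shift] at h1
  exact h1

open Classical in
theorem J_le_cs (k s X : ℕ) (A : Finset (Fin s → Fin X)) :
    ((((A ×ˢ (univ : Finset (Fin s → Fin X))).filter fun w : (Fin s → Fin X) × (Fin s → Fin X) =>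
      ∀ j ∈ Icc 1 k, ∑ i, ((w.1 i : ℕ) : ℤ) ^ j = ∑ i, ((w.2 i : ℕ) : ℤ) ^ j).card : ℕ) : ℝ) ≤
      (A.card : ℝ) * Real.sqrt (J k s X) := by
  have h1 : ((A ×ˢ (univ : Finset (Fin s → Fin X))).filter
      fun w : (Fin s → Fin X) × (Fin s → Fin X) =>
      ∀ j ∈ Icc 1 k, ∑ i, ((w.1 i : ℕ) : ℤ) ^ j = ∑ i, ((w.2 i : ℕ) : ℤ) ^ j).card =
      ∑ x ∈ A, ((univ : Finset (Fin s → Fin X)).filter fun y =>
        ∀ j ∈ Icc 1 k, ∑ i, ((x i : ℕ) : ℤ) ^ j = ∑ i, ((y i : ℕ) : ℤ) ^ j).card := Fin1_prod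
  rw [h1]
  push_cast
  rw [← nsmul_eq_mul]
  refine sum_le_card_nsmul _ _ _ fun x _ => ?_
  refine Real.le_sqrt_of_sq_le ?_
  have h2 : ((univ : Finset (Fin s → Fin X)).filter fun y =>
        ∀ j ∈ Icc 1 k, ∑ i, ((x i : ℕ) : ℤ) ^ j = ∑ i, ((y i : ℕ) : ℤ) ^ j).card ^ 2 ≤
      J k s X := by
    rw [sq, ← card_product]
    unfold J
    refine card_le_card ?_
    rintro ⟨y, z⟩ hyz
    rw [mem_product, Fin1_mem, Fin1_mem] at hyz
    rw [Fin1_mem]
    refine ⟨mem_univ _, fun j hj => ?_⟩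
    dsimp only at hyz ⊢
    rw [← hyz.1.2 j hj, hyz.2.2 j hj]
  exact_mod_cast h2

end VKZ
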