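import Pool.Agent.VKZ.ZBound
import Pool.Agent.VKZ.LandauL

/-!
# VKZ.Free: the zero free region for large `|t|`

PROOF (`free`). Let `γ ≥ γ0` be large, `β ≤ 1`, `ζ(β + iγ) = 0`, `θ = (log (3γ))^(-9/10)`, `r = θ/2`, `a0 = 1/100`,
`M = C' log log γ` (`≥ 1`), `δ = a0 r/M`. The discs of radius `r` around `z0 = 1 + δ + iγ` and
`z1 = 1 + δ + 2iγ` lie in the region of `zeta_bound`, so there `|ζ| ≤ C log(3γ)`, and by `zeta_lower`
`|ζ(z0)|, |ζ(z1)| ≥ c δ`; so `|ζ(z)| ≤ exp(M) |ζ(z_i)|` if `C'` is large (`δ ≥ 1/log γ`). `ζ` has no zeros with real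
part `> 1`. Suppose `1 - β < δ/8`; `d = 1 + δ - β < (9/8) δ < r`. `landau_point`:
`-Re ζ'/ζ(z0) ≤ 2M/r - 1/d + d/r²`, `-Re ζ'/ζ(z1) ≤ 2M/r`, `-ζ'/ζ(1+δ) ≤ 1/δ + C''` (`logderiv_upper`). The
inequality `3 + 4 cos + cos 2 ≥ 0` gives `-3 ζ'/ζ(1+δ) - 4 Re ζ'/ζ(z0) - Re ζ'/ζ(z1) ≥ 0` (series of `Λ`;
Mathlib has a related statement in the proof that `ζ(1+it) ≠ 0`; it may be easier to derive it from
`LSeries` of `Λ`). So `4/d ≤ 3/δ + 3C'' + 10M/r + 4d/r²`; with `δ = a0 r/M`, `M ≥ 1` the right side is at most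
`(3 + 10 a0 + 5 a0² + 3 C'' δ)/δ < 3.3/δ`, the left side is `> 3.5/δ`: contradiction. So
`1 - β ≥ δ/8 ≥ (log γ)^(-19/20)` for `γ ≥ γ0`. Negative `γ` by conjugation.

PROOF (`near`). `|t| ≥ t1`, `w = (log (2|t|))^(-19/20)/2`. For `σ ≥ 1 + w/8`: `logderiv_upper`. Otherwise take
`z1 = 1 + w/8 + it`, `r = w/2`: the disc of radius `r` is zero free (leftmost point `1 - 3w/8`) and there
`|ζ| ≤ C log(2|t|)`, `|ζ(z1)| ≥ c w/8`, so `M ≤ C' log log |t|`. `landau_free`: `|ζ'/ζ| ≤ 48 M/w` for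
`|z - z1| ≤ w/4`, which contains `1 - w/8 ≤ σ ≤ 1 + w/8`. Integrating `ζ'/ζ` along the horizontal
segment to `z1`: `|ζ(z)| ≥ |ζ(z1)| exp(-(w/4)(48 M/w)) ≥ (log |t|)^(-C)`. As `w/8 ≥ (1/32) (log |t|)^(-19/20)`
the constant `c = 1/32` works.
-/

namespace VKZ

open Complex

open scoped ArithmeticFunction.vonMangoldt in
/-- the real part of a term of the series of `Λ`. -/
private lemma free_term (σ τ : ℝ) (n : ℕ) :
    (LSeries.term (fun n => (ArithmeticFunction.vonMangoldt n : ℂ)) (σ + τ * I) n).re =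
      if n = 0 then 0 else ArithmeticFunction.vonMangoldt n *
        (Real.exp (-(σ * Real.log n)) * Real.cos (τ * Real.log n)) := by
  by_cases hn : n = 0
  · simp [hn]
  · rw [LSeries.term_of_ne_zero hn, if_neg hn]
    have hn0 : (n : ℂ) ≠ 0 := by exact_mod_cast hn
    rw [div_eq_mul_inv, ← Complex.cpow_neg, Complex.re_ofReal_mul,
      Complex.cpow_def_of_ne_zero hn0, Complex.exp_re]
    have hlog : Complex.log (n : ℂ) = ((Real.log n : ℝ) : ℂ) := by
      rw [← Complex.natCast_log]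
    have h1 : (Complex.log (n : ℂ) * -(σ + τ * I)).re = -(σ * Real.log n) := by
      rw [hlog, Complex.re_ofReal_mul]
      simp
      ring
    have h2 : (Complex.log (n : ℂ) * -(σ + τ * I)).im = -(τ * Real.log n) := by
      rw [hlog, Complex.im_ofReal_mul]
      simp
      ring
    rw [h1, h2, Real.cos_neg]

/-- `3 + 4 cos + cos 2 ≥ 0` for the logarithmic derivative. -/
private lemma free_341 (σ t : ℝ) (hσ : 1 < σ) :
    0 ≤ 3 * (-(deriv riemannZeta (σ : ℂ) / riemannZeta (σ : ℂ)).re) +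
      4 * (-(deriv riemannZeta (σ + t * I) / riemannZeta (σ + t * I)).re) +
      (-(deriv riemannZeta (σ + (2 * t : ℝ) * I) / riemannZeta (σ + (2 * t : ℝ) * I)).re) := by
  have hre : ∀ τ : ℝ, 1 < ((σ : ℂ) + τ * I).re := by
    intro τ
    simpa using hσ
  have hval : ∀ τ : ℝ, -(deriv riemannZeta (σ + τ * I) / riemannZeta (σ + τ * I)).re =
      ∑' n, (if n = 0 then 0 else ArithmeticFunction.vonMangoldt n *
        (Real.exp (-(σ * Real.log n)) * Real.cos (τ * Real.log n))) := by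
    intro τ
    have h1 := ArithmeticFunction.LSeries_vonMangoldt_eq_deriv_riemannZeta_div (hre τ)
    have h2 := ArithmeticFunction.LSeriesSummable_vonMangoldt (hre τ)
    rw [show -(deriv riemannZeta (σ + τ * I) / riemannZeta (σ + τ * I)).re =
      (-deriv riemannZeta (σ + τ * I) / riemannZeta (σ + τ * I)).re by
        rw [neg_div, Complex.neg_re], ← h1, LSeries, Complex.re_tsum h2]
    exact tsum_congr (fun n => free_term σ τ n)
  have hsum : ∀ τ : ℝ, Summable (fun n : ℕ => (if n = 0 then 0 else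
      ArithmeticFunction.vonMangoldt n *
        (Real.exp (-(σ * Real.log n)) * Real.cos (τ * Real.log n)))) := by
    intro τ
    have h2 := ArithmeticFunction.LSeriesSummable_vonMangoldt (hre τ)
    have h3 := (Complex.hasSum_re h2.hasSum).summable
    refine h3.congr (fun n => ?_)
    exact free_term σ τ n
  have e0 : -(deriv riemannZeta (σ : ℂ) / riemannZeta (σ : ℂ)).re =
      -(deriv riemannZeta (σ + (0 : ℝ) * I) / riemannZeta (σ + (0 : ℝ) * I)).re := by simp
  rw [e0, hval 0, hval t, hval (2 * t), ← tsum_mul_left, ← tsum_mul_left,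
    ← ((hsum 0).mul_left 3).tsum_add ((hsum t).mul_left 4),
    ← (((hsum 0).mul_left 3).add ((hsum t).mul_left 4)).tsum_add (hsum (2 * t))]
  refine tsum_nonneg (fun n => ?_)
  by_cases hn : n = 0
  · simp [hn]
  · simp only [if_neg hn]
    have h1 : 0 ≤ ArithmeticFunction.vonMangoldt n := ArithmeticFunction.vonMangoldt_nonneg
    have h2 : 0 < Real.exp (-(σ * Real.log n)) := Real.exp_pos _
    have h3 : Real.cos (2 * t * Real.log n) = 2 * Real.cos (t * Real.log n) ^ 2 - 1 := by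
      rw [← Real.cos_two_mul]; ring_nf
    rw [h3, zero_mul, Real.cos_zero]
    have h4 : 3 * (ArithmeticFunction.vonMangoldt n * (Real.exp (-(σ * Real.log n)) * 1)) +
        4 * (ArithmeticFunction.vonMangoldt n *
          (Real.exp (-(σ * Real.log n)) * Real.cos (t * Real.log n))) +
        ArithmeticFunction.vonMangoldt n * (Real.exp (-(σ * Real.log n)) *
          (2 * Real.cos (t * Real.log n) ^ 2 - 1)) =
        ArithmeticFunction.vonMangoldt n * Real.exp (-(σ * Real.log n)) *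
          (2 * (1 + Real.cos (t * Real.log n)) ^ 2) := by ring
    rw [h4]
    positivity

/-- the bound for the zeta function in the form used here. -/
private lemma free_disc {C0 T0 : ℝ} (hC0 : 1 ≤ C0) (hT0 : 3 ≤ T0)
    (hzb : ∀ s : ℂ, T0 ≤ |s.im| → s.re ≤ 3 →
      1 - (Real.log |s.im|) ^ (-(9 : ℝ) / 10) ≤ s.re → ‖riemannZeta s‖ ≤ C0 * Real.log |s.im|)
    {γ : ℝ} (hγ : 3 ≤ γ) {z : ℂ} (h1 : T0 ≤ |z.im|) (h2 : |z.im| ≤ γ ^ 2) (h3 : z.re ≤ 3)
    (h4 : 1 - (2 * Real.log γ) ^ (-(9 : ℝ) / 10) ≤ z.re) :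
    ‖riemannZeta z‖ ≤ 2 * C0 * Real.log γ := by
  have h5 : Real.log |z.im| ≤ 2 * Real.log γ := by
    have := Real.log_le_log (by linarith) h2
    rw [Real.log_pow] at this
    exact_mod_cast this
  have h6 : 0 < Real.log |z.im| := Real.log_pos (by linarith)
  have h7 : (2 * Real.log γ) ^ (-(9 : ℝ) / 10) ≤ (Real.log |z.im|) ^ (-(9 : ℝ) / 10) :=
    Real.rpow_le_rpow_of_nonpos h6 h5 (by norm_num)
  have h8 := hzb z h1 h3 (by linarith)
  have h9 : C0 * Real.log |z.im| ≤ C0 * (2 * Real.log γ) :=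
    mul_le_mul_of_nonneg_left h5 (by linarith)
  linarith

/-- analyticity away from the real axis. -/
private lemma free_an {z : ℂ} (h : z ≠ 1) : AnalyticAt ℂ riemannZeta z := by
  have h1 : DifferentiableOn ℂ riemannZeta {1}ᶜ := fun w hw =>
    (differentiableAt_riemannZeta hw).differentiableWithinAt
  exact h1.analyticAt (isOpen_compl_singleton.mem_nhds h)

/-- the parameters of the proof of `free`. -/
private lemma free_par (C0 c0 C1 : ℝ) (hc0 : 0 < c0) (hC1 : 0 < C1) : ∃ L0 : ℝ, 2 ≤ L0 ∧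
    ∀ L ≥ L0, 1 ≤ 3 * Real.log L ∧ (2 * L) ^ (-(9 : ℝ) / 10) ≤ 1 ∧
      2 * C0 * L ≤ L ^ 3 * (c0 * ((2 * L) ^ (-(9 : ℝ) / 10) / 2 / (100 * (3 * Real.log L)))) ∧
      3 * C1 * ((2 * L) ^ (-(9 : ℝ) / 10) / 2 / (100 * (3 * Real.log L))) ≤ 1 / 10 ∧
      L ^ (-(19 : ℝ) / 20) ≤ (2 * L) ^ (-(9 : ℝ) / 10) / 2 / (100 * (3 * Real.log L)) / 8 := by
  have f1 : ∀ᶠ L : ℝ in Filter.atTop, Real.log L ≤ 1 / 9600 * L ^ (1 / 20 : ℝ) := by
    have h1 := (isLittleO_log_rpow_atTop (by norm_num : (0 : ℝ) < 1 / 20)).bound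
      (by norm_num : (0 : ℝ) < 1 / 9600)
    filter_upwards [h1, Filter.eventually_ge_atTop 1] with L hL hL1
    rw [Real.norm_of_nonneg (Real.log_nonneg hL1),
      Real.norm_of_nonneg (Real.rpow_nonneg (by linarith) _)] at hL
    exact hL
  have f2 : ∀ᶠ L : ℝ in Filter.atTop, (2 * L) ^ (-(9 : ℝ) / 10) ≤ 1 / (30 * C1) := by
    have h1 : Filter.Tendsto (fun L : ℝ => (2 * L) ^ (-(9 / 10 : ℝ))) Filter.atTop (nhds 0) :=
      (tendsto_rpow_neg_atTop (by norm_num : (0 : ℝ) < 9 / 10)).comp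
        (Filter.tendsto_id.const_mul_atTop (by norm_num : (0 : ℝ) < 2))
    filter_upwards [h1.eventually (ge_mem_nhds (by positivity : (0 : ℝ) < 1 / (30 * C1)))]
      with L hL
    rw [show (-(9 : ℝ) / 10) = -(9 / 10 : ℝ) by ring]
    exact hL
  obtain ⟨L1, hL1⟩ := Filter.eventually_atTop.1 f1
  obtain ⟨L2, hL2⟩ := Filter.eventually_atTop.1 f2
  refine ⟨max (max L1 L2) (max 2 (C0 / (4 * c0))), (le_max_left _ _).trans (le_max_right _ _), ?_⟩
  intro L hL
  have g1 : L1 ≤ L := ((le_max_left _ _).trans (le_max_left _ _)).trans hL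
  have g2 : L2 ≤ L := ((le_max_right _ _).trans (le_max_left _ _)).trans hL
  have g3 : 2 ≤ L := ((le_max_left _ _).trans (le_max_right _ _)).trans hL
  have g4 : C0 / (4 * c0) ≤ L := ((le_max_right _ _).trans (le_max_right _ _)).trans hL
  have hL0 : 0 < L := by linarith
  have k1 := hL1 L g1
  have k2 := hL2 L g2
  have hlog2 : 1 / 2 ≤ Real.log L := by
    have h1 := Real.log_two_gt_d9
    have h2 := Real.log_le_log (by norm_num) g3
    linarith
  have hlogpos : 0 < Real.log L := by linarith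
  have hP : 0 < (2 * L) ^ (-(9 : ℝ) / 10) := Real.rpow_pos_of_pos (by linarith) _
  have hP1 : (2 * L) ^ (-(9 : ℝ) / 10) ≤ 1 :=
    Real.rpow_le_one_of_one_le_of_nonpos (by linarith) (by norm_num)
  have hPlow : 1 / 2 * L ^ (-(9 : ℝ) / 10) ≤ (2 * L) ^ (-(9 : ℝ) / 10) := by
    rw [Real.mul_rpow (by norm_num) hL0.le]
    refine mul_le_mul_of_nonneg_right ?_ (Real.rpow_nonneg hL0.le _)
    calc (1 / 2 : ℝ) = 2 ^ (-1 : ℝ) := by norm_num [Real.rpow_neg_one]
      _ ≤ 2 ^ (-(9 : ℝ) / 10) := Real.rpow_le_rpow_of_exponent_le (by norm_num) (by norm_num)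
  have hprod : L ^ (-(19 : ℝ) / 20) * L ^ (1 / 20 : ℝ) = L ^ (-(9 : ℝ) / 10) := by
    rw [← Real.rpow_add hL0]; norm_num
  have hQ : 0 < L ^ (-(19 : ℝ) / 20) := Real.rpow_pos_of_pos hL0 _
  have k5 : L ^ (-(19 : ℝ) / 20) ≤
      (2 * L) ^ (-(9 : ℝ) / 10) / 2 / (100 * (3 * Real.log L)) / 8 := by
    rw [div_div, div_div, le_div_iff₀ (by positivity)]
    calc L ^ (-(19 : ℝ) / 20) * (2 * (100 * (3 * Real.log L) * 8))
        = 4800 * (L ^ (-(19 : ℝ) / 20) * Real.log L) := by ring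
      _ ≤ 4800 * (L ^ (-(19 : ℝ) / 20) * (1 / 9600 * L ^ (1 / 20 : ℝ))) := by gcongr
      _ = 1 / 2 * L ^ (-(9 : ℝ) / 10) := by rw [← hprod]; ring
      _ ≤ _ := hPlow
  have hδ : 8 * L ^ (-(19 : ℝ) / 20) ≤
      (2 * L) ^ (-(9 : ℝ) / 10) / 2 / (100 * (3 * Real.log L)) := by linarith
  have hinv : 1 / L ≤ L ^ (-(19 : ℝ) / 20) := by
    rw [one_div, ← Real.rpow_neg_one]
    exact Real.rpow_le_rpow_of_exponent_le (by linarith) (by norm_num)
  refine ⟨by linarith, hP1, ?_, ?_, k5⟩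
  · have h1 : L ^ 3 * (c0 * (8 * (1 / L))) ≤
        L ^ 3 * (c0 * ((2 * L) ^ (-(9 : ℝ) / 10) / 2 / (100 * (3 * Real.log L)))) := by
      gcongr
      linarith
    have h2 : L ^ 3 * (c0 * (8 * (1 / L))) = 8 * c0 * L ^ 2 := by field_simp
    have h3 : C0 ≤ 4 * c0 * L := by
      rw [div_le_iff₀ (by positivity)] at g4
      linarith
    nlinarith
  · have h1 : (2 * L) ^ (-(9 : ℝ) / 10) / 2 / (100 * (3 * Real.log L)) ≤
        (2 * L) ^ (-(9 : ℝ) / 10) := by
      rw [div_div, div_le_iff₀ (by positivity)]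
      nlinarith
    calc 3 * C1 * ((2 * L) ^ (-(9 : ℝ) / 10) / 2 / (100 * (3 * Real.log L)))
        ≤ 3 * C1 * (1 / (30 * C1)) := by
          refine mul_le_mul_of_nonneg_left (h1.trans k2) (by positivity)
      _ = 1 / 10 := by field_simp; norm_num

theorem free : ∃ t0 : ℝ, 3 ≤ t0 ∧ ∀ s : ℂ, t0 ≤ |s.im| →
    1 - (Real.log |s.im|) ^ (-(19 : ℝ) / 20) ≤ s.re → riemannZeta s ≠ 0 := by
  obtain ⟨C0, T0, hC0, hT0, hzb⟩ := zeta_bound
  obtain ⟨c0, hc0, hlow⟩ := zeta_lower
  obtain ⟨C1, hC1, hder⟩ := logderiv_upper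
  obtain ⟨L0, hL0, hpar⟩ := free_par C0 c0 C1 hc0 hC1
  refine ⟨max (T0 + 1) (Real.exp L0), le_trans (by linarith) (le_max_left _ _), ?_⟩
  intro s hs1 hs2 hs0
  set γ : ℝ := |s.im| with hγ
  have hγ1 : T0 + 1 ≤ γ := (le_max_left _ _).trans hs1
  have hγ2 : Real.exp L0 ≤ γ := (le_max_right _ _).trans hs1
  have hγ3 : 4 ≤ γ := by linarith
  set L : ℝ := Real.log γ with hL
  have hLL : L0 ≤ L := (Real.le_log_iff_exp_le (by linarith)).2 hγ2
  obtain ⟨p1, p2, p3, p4, p5⟩ := hpar L hLL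
  set P : ℝ := (2 * L) ^ (-(9 : ℝ) / 10) with hP
  set M : ℝ := 3 * Real.log L with hM
  have hLpos : 0 < L := by linarith
  have hP0 : 0 < P := Real.rpow_pos_of_pos (by linarith) _
  set r : ℝ := P / 2 with hr
  set δ : ℝ := r / (100 * M) with hδ
  have hr0 : 0 < r := by positivity
  have hδ0 : 0 < δ := by positivity
  have hrδ : r = 100 * M * δ := by
    rw [hδ]
    have : M ≠ 0 := by positivity
    field_simp
  have hexpM : Real.exp M = L ^ 3 := by
    rw [hM, mul_comm, Real.exp_mul, Real.exp_log hLpos]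
    norm_cast
  -- the zero
  have hβ1 : s.re < 1 := by
    by_contra hc
    exact riemannZeta_ne_zero_of_one_le_re (not_lt.1 hc) hs0
  have hβ2 : 1 - s.re ≤ δ / 8 := by linarith
  have hzre : ∀ z : ℂ, riemannZeta z = 0 → z.re < 1 := by
    intro z hz
    by_contra hc
    exact riemannZeta_ne_zero_of_one_le_re (not_lt.1 hc) hz
  set t : ℝ := s.im with ht
  have hδr : 100 * δ ≤ r := by
    rw [hrδ]
    nlinarith
  have hr12 : r ≤ 1 / 2 := by rw [hr]; linarith
  -- points of the discs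
  have hdisc : ∀ τ : ℝ, (τ = t ∨ τ = 2 * t) → ∀ z ∈ Metric.closedBall ((1 + δ : ℝ) + τ * I : ℂ) r,
      z ≠ 1 ∧ ‖riemannZeta z‖ ≤ 2 * C0 * L := by
    intro τ hτ z hz
    have hz' : ‖z - ((1 + δ : ℝ) + τ * I)‖ ≤ r := by
      rw [Metric.mem_closedBall, dist_eq_norm] at hz
      exact hz
    have hre : |z.re - (1 + δ)| ≤ r := by
      have h1 := (Complex.abs_re_le_norm (z - ((1 + δ : ℝ) + τ * I))).trans hz'
      simpa using h1
    have him : |z.im - τ| ≤ r := by
      have h1 := (Complex.abs_im_le_norm (z - ((1 + δ : ℝ) + τ * I))).trans hz'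
      simpa using h1
    have hτ1 : γ ≤ |τ| := by
      rcases hτ with h | h
      · rw [h]
      · rw [h, abs_mul, abs_two]
        linarith
    have hτ2 : |τ| ≤ 2 * γ := by
      rcases hτ with h | h
      · rw [h]; linarith
      · rw [h, abs_mul, abs_two]
    have him1 : γ - 1 ≤ |z.im| := by
      have := abs_sub_abs_le_abs_sub τ z.im
      rw [abs_sub_comm] at this
      linarith
    have him2 : |z.im| ≤ 2 * γ + 1 := by
      have := abs_sub_abs_le_abs_sub z.im τ
      linarith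
    rw [abs_le] at hre
    refine ⟨?_, ?_⟩
    · rintro rfl
      simp at him1
      linarith
    · refine free_disc hC0 hT0 hzb (by linarith) (by linarith) (by nlinarith) (by linarith) ?_
      rw [← hL, ← hP]
      linarith
  have hlowz : ∀ τ : ℝ, c0 * δ ≤ ‖riemannZeta ((1 + δ : ℝ) + τ * I)‖ := by
    intro τ
    have h1 := hlow ((1 + δ : ℝ) + τ * I) (by simpa using hδ0) (by simp; linarith)
    simpa using h1
  have hbd : ∀ τ : ℝ, (τ = t ∨ τ = 2 * t) → ∀ z ∈ Metric.closedBall ((1 + δ : ℝ) + τ * I : ℂ) r,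
      ‖riemannZeta z‖ ≤ Real.exp M * ‖riemannZeta ((1 + δ : ℝ) + τ * I)‖ := by
    intro τ hτ z hz
    refine (hdisc τ hτ z hz).2.trans (p3.trans ?_)
    rw [hexpM]
    exact mul_le_mul_of_nonneg_left (hlowz τ) (by positivity)
  have hne0 : ∀ τ : ℝ, riemannZeta ((1 + δ : ℝ) + τ * I) ≠ 0 := by
    intro τ
    refine riemannZeta_ne_zero_of_one_le_re ?_
    simpa using hδ0.le
  have hzz : ∀ τ : ℝ, ∀ z ∈ Metric.closedBall ((1 + δ : ℝ) + τ * I : ℂ) r,
      riemannZeta z = 0 → z.re ≤ ((1 + δ : ℝ) + τ * I : ℂ).re := by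
    intro τ z _ hz
    have := hzre z hz
    simp
    linarith
  have hM0 : 0 ≤ M := by linarith
  obtain ⟨-, a1⟩ := landau_point hr0 hM0 (fun z hz => free_an (hdisc t (Or.inl rfl) z hz).1)
    (hne0 t) (hbd t (Or.inl rfl)) (hzz t)
  obtain ⟨a2, -⟩ := landau_point hr0 hM0 (fun z hz => free_an (hdisc (2 * t) (Or.inr rfl) z hz).1)
    (hne0 (2 * t)) (hbd (2 * t) (Or.inr rfl)) (hzz (2 * t))
  set d : ℝ := 1 + δ - s.re with hd
  have hd0 : 0 < d := by linarith
  have hd9 : d ≤ 9 / 8 * δ := by linarith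
  have hdr : d < r := by linarith
  have hs' : ((1 + δ : ℝ) + t * I : ℂ) - (d : ℂ) = s := by
    apply Complex.ext
    · simp [hd]
    · simp [ht]
  have a3 := a1 d hd0 hdr (by rw [hs']; exact hs0)
  have a4 : -(deriv riemannZeta ((1 + δ : ℝ) : ℂ) / riemannZeta ((1 + δ : ℝ) : ℂ)).re ≤
      1 / δ + C1 := by
    have h1 := hder ((1 + δ : ℝ) : ℂ) (by simpa using hδ0)
    have h2 := Complex.abs_re_le_norm
      (deriv riemannZeta ((1 + δ : ℝ) : ℂ) / riemannZeta ((1 + δ : ℝ) : ℂ))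
    have h3 := neg_le_abs (deriv riemannZeta ((1 + δ : ℝ) : ℂ) / riemannZeta ((1 + δ : ℝ) : ℂ)).re
    simp only [Complex.ofReal_re] at h1
    have h4 : (1 : ℝ) + δ - 1 = δ := by ring
    rw [h4] at h1
    linarith
  have a5 := free_341 (1 + δ) t (by linarith)
  -- numerical contradiction
  have b1 : 2 * M / r = 1 / (50 * δ) := by
    rw [hrδ]
    have : M ≠ 0 := by positivity
    field_simp
    norm_num
  have b2 : d * (1 / d ^ 2 - 1 / r ^ 2) = 1 / d - d / r ^ 2 := by field_simp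
  have b3 : 8 / (9 * δ) ≤ 1 / d := by
    rw [div_le_div_iff₀ (by positivity) hd0]
    linarith
  have b4 : d / r ^ 2 ≤ 1 / (1000 * δ) := by
    rw [div_le_div_iff₀ (by positivity) (by positivity)]
    have h1 : (100 * δ) ^ 2 ≤ r ^ 2 := pow_le_pow_left₀ (by positivity) hδr 2
    nlinarith
  have b5 : C1 ≤ 1 / 30 * (1 / δ) := by
    rw [mul_one_div, le_div_iff₀ hδ0]
    linarith
  set x : ℝ := 1 / δ with hx
  have hx0 : 0 < x := by positivity
  have c1 : 1 / (50 * δ) = x / 50 := by rw [hx]; field_simp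
  have c2 : 8 / (9 * δ) = 8 / 9 * x := by rw [hx]; field_simp
  have c3 : 1 / (1000 * δ) = x / 1000 := by rw [hx]; field_simp
  rw [b1, c1] at a2 a3
  rw [b2] at a3
  rw [c2] at b3
  rw [c3] at b4
  linarith

/-- comparison of the values in a disc on which the logarithmic derivative is bounded. -/
private lemma near_gronwall {f : ℂ → ℂ} {z1 z : ℂ} {ρ B : ℝ} (hB : 0 ≤ B)
    (hf : ∀ w ∈ Metric.closedBall z1 ρ, DifferentiableAt ℂ f w ∧ f w ≠ 0)
    (hb : ∀ w ∈ Metric.closedBall z1 ρ, ‖deriv f w / f w‖ ≤ B)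
    (hz : z ∈ Metric.closedBall z1 ρ) : ‖f z1‖ ≤ ‖f z‖ * Real.exp (B * ρ) := by
  have hz' : ‖z - z1‖ ≤ ρ := by
    rw [Metric.mem_closedBall, dist_eq_norm] at hz
    exact hz
  have hρ : 0 ≤ ρ := (norm_nonneg _).trans hz'
  have hmem : ∀ u ∈ Set.Icc (0 : ℝ) 1, z + (u : ℂ) * (z1 - z) ∈ Metric.closedBall z1 ρ := by
    intro u hu
    rw [Metric.mem_closedBall, dist_eq_norm]
    have e1 : z + (u : ℂ) * (z1 - z) - z1 = ((1 - u : ℝ) : ℂ) * (z - z1) := by
      push_cast; ring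
    rw [e1, norm_mul, Complex.norm_real, Real.norm_of_nonneg (by linarith [hu.2])]
    have : (1 - u) * ‖z - z1‖ ≤ 1 * ‖z - z1‖ :=
      mul_le_mul_of_nonneg_right (by linarith [hu.1]) (norm_nonneg _)
    linarith
  have hder : ∀ u ∈ Set.Icc (0 : ℝ) 1, HasDerivAt (fun u : ℝ => f (z + (u : ℂ) * (z1 - z)))
      (deriv f (z + (u : ℂ) * (z1 - z)) * (z1 - z)) u := by
    intro u hu
    have h1 : HasDerivAt f (deriv f (z + (u : ℂ) * (z1 - z))) (z + (u : ℂ) * (z1 - z)) :=
      (hf _ (hmem u hu)).1.hasDerivAt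
    have h2 : HasDerivAt (fun u : ℝ => z + (u : ℂ) * (z1 - z)) (z1 - z) u := by
      have h3 := ((Complex.ofRealCLM.hasDerivAt (x := u)).mul_const (z1 - z)).const_add z
      simpa using h3
    exact h1.comp u h2
  have key := norm_le_gronwallBound_of_norm_deriv_right_le
    (f := fun u : ℝ => f (z + (u : ℂ) * (z1 - z)))
    (f' := fun u : ℝ => deriv f (z + (u : ℂ) * (z1 - z)) * (z1 - z))
    (δ := ‖f z‖) (K := B * ρ) (ε := 0) (a := 0) (b := 1)
    (fun u hu => (hder u hu).continuousAt.continuousWithinAt)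
    (fun u hu => (hder u ⟨hu.1, hu.2.le⟩).hasDerivWithinAt)
    (by simp)
    (fun u hu => by
      have hm := hmem u ⟨hu.1, hu.2.le⟩
      have h1 := hb _ hm
      have h2 : 0 < ‖f (z + (u : ℂ) * (z1 - z))‖ := norm_pos_iff.2 (hf _ hm).2
      rw [norm_div, div_le_iff₀ h2] at h1
      rw [norm_mul, add_zero]
      have h3 : ‖z1 - z‖ ≤ ρ := by rw [norm_sub_rev]; exact hz'
      calc ‖deriv f (z + (u : ℂ) * (z1 - z))‖ * ‖z1 - z‖
          ≤ (B * ‖f (z + (u : ℂ) * (z1 - z))‖) * ρ :=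
            mul_le_mul h1 h3 (norm_nonneg _) (by positivity)
        _ = B * ρ * ‖f (z + (u : ℂ) * (z1 - z))‖ := by ring) 1 ⟨zero_le_one, le_rfl⟩
  rw [gronwallBound_ε0] at key
  simpa using key

/-- the parameters of the proof of `near`. -/
private lemma near_par (C0 c0 : ℝ) (hc0 : 0 < c0) : ∃ L0 : ℝ, 3 ≤ L0 ∧
    ∀ L ≥ L0, 0 < L ^ (-(19 : ℝ) / 20) ∧ L ^ (-(19 : ℝ) / 20) ≤ 1 ∧
      1 / L ≤ L ^ (-(19 : ℝ) / 20) ∧
      1 / 2 * L ^ (-(19 : ℝ) / 20) ≤ (2 * L) ^ (-(19 : ℝ) / 20) ∧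
      1 / 2 * L ^ (-(19 : ℝ) / 20) ≤ (2 * L) ^ (-(9 : ℝ) / 10) ∧
      2 * C0 * L ≤ L ^ 3 * (c0 * (1 / 32 * L ^ (-(19 : ℝ) / 20))) := by
  refine ⟨max 3 (64 * C0 / c0), le_max_left _ _, ?_⟩
  intro L hL
  have g3 : 3 ≤ L := (le_max_left _ _).trans hL
  have g4 : 64 * C0 / c0 ≤ L := (le_max_right _ _).trans hL
  have hL0 : 0 < L := by linarith
  have hQ : 0 < L ^ (-(19 : ℝ) / 20) := Real.rpow_pos_of_pos hL0 _
  have hQ1 : L ^ (-(19 : ℝ) / 20) ≤ 1 :=
    Real.rpow_le_one_of_one_le_of_nonpos (by linarith) (by norm_num)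
  have hinv : 1 / L ≤ L ^ (-(19 : ℝ) / 20) := by
    rw [one_div, ← Real.rpow_neg_one]
    exact Real.rpow_le_rpow_of_exponent_le (by linarith) (by norm_num)
  have h1 : 1 / 2 * L ^ (-(19 : ℝ) / 20) ≤ (2 * L) ^ (-(19 : ℝ) / 20) := by
    rw [Real.mul_rpow (by norm_num) hL0.le]
    refine mul_le_mul_of_nonneg_right ?_ hQ.le
    calc (1 / 2 : ℝ) = 2 ^ (-1 : ℝ) := by norm_num [Real.rpow_neg_one]
      _ ≤ 2 ^ (-(19 : ℝ) / 20) := Real.rpow_le_rpow_of_exponent_le (by norm_num) (by norm_num)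
  have h2 : (2 * L) ^ (-(19 : ℝ) / 20) ≤ (2 * L) ^ (-(9 : ℝ) / 10) :=
    Real.rpow_le_rpow_of_exponent_le (by linarith) (by norm_num)
  refine ⟨hQ, hQ1, hinv, h1, h1.trans h2, ?_⟩
  have h3 : L ^ 3 * (c0 * (1 / 32 * (1 / L))) ≤
      L ^ 3 * (c0 * (1 / 32 * L ^ (-(19 : ℝ) / 20))) := by gcongr
  have h4 : L ^ 3 * (c0 * (1 / 32 * (1 / L))) = c0 / 32 * L ^ 2 := by field_simp
  have h5 : 64 * C0 ≤ L * c0 := by rwa [div_le_iff₀ hc0] at g4
  nlinarith

theorem near : ∃ C t1 : ℝ, 1 ≤ C ∧ 3 ≤ t1 ∧ ∀ s : ℂ, t1 ≤ |s.im| → s.re ≤ 3 →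
    1 - (1 / 32) * (Real.log |s.im|) ^ (-(19 : ℝ) / 20) ≤ s.re →
    ‖deriv riemannZeta s / riemannZeta s‖ ≤ C * Real.log |s.im| ^ C ∧
    1 ≤ C * Real.log |s.im| ^ C * ‖riemannZeta s‖ := by
  obtain ⟨C0, T0, hC0, hT0, hzb⟩ := zeta_bound
  obtain ⟨c0, hc0, hlow⟩ := zeta_lower
  obtain ⟨C1, hC1, hder⟩ := logderiv_upper
  obtain ⟨T1, hT1, hfree⟩ := free
  obtain ⟨L0, hL0, hpar⟩ := near_par C0 c0 hc0
  set C : ℝ := 1000 + C1 + 32 / c0 with hC
  have hC1000 : 1000 ≤ C := by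
    have : 0 < 32 / c0 := by positivity
    linarith
  refine ⟨C, max (max (T0 + 1) (T1 + 1)) (Real.exp L0), by linarith,
    le_trans (by linarith) ((le_max_left _ _).trans (le_max_left _ _)), ?_⟩
  intro s hs1 hs3 hs2
  set γ : ℝ := |s.im| with hγ
  have hγ1 : T0 + 1 ≤ γ := ((le_max_left _ _).trans (le_max_left _ _)).trans hs1
  have hγ1' : T1 + 1 ≤ γ := ((le_max_right _ _).trans (le_max_left _ _)).trans hs1
  have hγ2 : Real.exp L0 ≤ γ := (le_max_right _ _).trans hs1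
  have hγ3 : 4 ≤ γ := by linarith
  set L : ℝ := Real.log γ with hL
  have hLL : L0 ≤ L := (Real.le_log_iff_exp_le (by linarith)).2 hγ2
  have hL3 : 3 ≤ L := hL0.trans hLL
  have hLpos : 0 < L := by linarith
  obtain ⟨q1, q2, q3, q4, q5, q6⟩ := hpar L hLL
  set Q : ℝ := L ^ (-(19 : ℝ) / 20) with hQ
  -- powers of `L`
  have hLC : ∀ k : ℕ, (k : ℝ) ≤ 1000 → L ^ k ≤ L ^ C := by
    intro k hk
    rw [← Real.rpow_natCast]
    exact Real.rpow_le_rpow_of_exponent_le (by linarith) (by linarith)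
  have hQinv : 1 / Q ≤ L := by
    rw [div_le_iff₀ q1]
    rw [div_le_iff₀ hLpos] at q3
    linarith
  -- it is enough to have these two bounds
  suffices hmain : ‖deriv riemannZeta s / riemannZeta s‖ ≤ (1000 + C1) * L ^ 2 ∧
      c0 / 32 ≤ L ^ 37 * ‖riemannZeta s‖ by
    obtain ⟨m1, m2⟩ := hmain
    constructor
    · refine m1.trans ?_
      have h1 : 0 < 32 / c0 := by positivity
      have h2 := hLC 2 (by norm_num)
      calc (1000 + C1) * L ^ 2 ≤ (1000 + C1) * L ^ C := by gcongr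
        _ ≤ C * L ^ C := by
          refine mul_le_mul_of_nonneg_right (by linarith) ?_
          exact Real.rpow_nonneg hLpos.le _
    · have h2 := hLC 37 (by norm_num)
      have h3 : 32 / c0 ≤ C := by linarith
      calc (1 : ℝ) = 32 / c0 * (c0 / 32) := by field_simp
        _ ≤ 32 / c0 * (L ^ 37 * ‖riemannZeta s‖) :=
            mul_le_mul_of_nonneg_left m2 (by positivity)
        _ ≤ C * (L ^ C * ‖riemannZeta s‖) := by
            refine mul_le_mul h3 (mul_le_mul_of_nonneg_right h2 (norm_nonneg _))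
              (by positivity) (by linarith)
        _ = C * L ^ C * ‖riemannZeta s‖ := by ring
  by_cases hcase : 1 + 1 / 32 * Q ≤ s.re
  · -- right of the line
    have h1 := hder s (by linarith)
    have h2 := hlow s (by linarith) hs3
    have h3 : 1 / (s.re - 1) ≤ 32 * L := by
      have h4 : 1 / 32 * Q ≤ s.re - 1 := by linarith
      have h5 : 1 / (s.re - 1) ≤ 1 / (1 / 32 * Q) := one_div_le_one_div_of_le (by positivity) h4
      have h6 : 1 / (1 / 32 * Q) = 32 * (1 / Q) := by field_simp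
      rw [h6] at h5
      linarith
    constructor
    · refine h1.trans ?_
      have h4 : L ≤ L ^ 2 := by nlinarith
      have h5 : (1 : ℝ) ≤ L ^ 2 := by nlinarith
      nlinarith
    · have h4 : c0 * (1 / 32 * Q) ≤ ‖riemannZeta s‖ := by
        refine le_trans ?_ h2
        exact mul_le_mul_of_nonneg_left (by linarith) hc0.le
      have h5 : 1 ≤ L ^ 37 * Q := by
        have h6 : L ≤ L ^ 37 := le_self_pow₀ (by linarith) (by norm_num)
        rw [div_le_iff₀ q1] at hQinv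
        nlinarith
      calc c0 / 32 = c0 / 32 * 1 := by ring
        _ ≤ c0 / 32 * (L ^ 37 * Q) := mul_le_mul_of_nonneg_left h5 (by positivity)
        _ = L ^ 37 * (c0 * (1 / 32 * Q)) := by ring
        _ ≤ L ^ 37 * ‖riemannZeta s‖ := mul_le_mul_of_nonneg_left h4 (by positivity)
  · -- near the line
    rw [not_le] at hcase
    set t : ℝ := s.im with ht
    set z1 : ℂ := ((1 + 1 / 32 * Q : ℝ) : ℂ) + t * I with hz1
    set w : ℝ := 1 / 4 * Q with hw
    have hw0 : 0 < w := by positivity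
    have hw1 : w ≤ 1 / 4 := by linarith
    have hball : ∀ z ∈ Metric.closedBall z1 (w / 2),
        z ≠ 1 ∧ riemannZeta z ≠ 0 ∧ ‖riemannZeta z‖ ≤ 2 * C0 * L := by
      intro z hz
      have hz' : ‖z - z1‖ ≤ w / 2 := by
        rw [Metric.mem_closedBall, dist_eq_norm] at hz
        exact hz
      have hre : |z.re - (1 + 1 / 32 * Q)| ≤ w / 2 := by
        have h1 := (Complex.abs_re_le_norm (z - z1)).trans hz'
        simpa [hz1] using h1
      have him : |z.im - t| ≤ w / 2 := by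
        have h1 := (Complex.abs_im_le_norm (z - z1)).trans hz'
        simpa [hz1] using h1
      have him1 : γ - 1 ≤ |z.im| := by
        have := abs_sub_abs_le_abs_sub t z.im
        rw [abs_sub_comm] at this
        linarith
      have him2 : |z.im| ≤ γ + 1 := by
        have := abs_sub_abs_le_abs_sub z.im t
        linarith
      rw [abs_le] at hre
      have him3 : |z.im| ≤ γ ^ 2 := by nlinarith
      refine ⟨?_, ?_, ?_⟩
      · rintro rfl
        simp at him1
        linarith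
      · refine hfree z (by linarith) ?_
        have h5 : Real.log |z.im| ≤ 2 * L := by
          have := Real.log_le_log (by linarith) him3
          rw [Real.log_pow] at this
          exact_mod_cast this
        have h6 : 0 < Real.log |z.im| := Real.log_pos (by linarith)
        have h7 : (2 * L) ^ (-(19 : ℝ) / 20) ≤ (Real.log |z.im|) ^ (-(19 : ℝ) / 20) :=
          Real.rpow_le_rpow_of_nonpos h6 h5 (by norm_num)
        linarith
      · refine free_disc hC0 hT0 hzb (by linarith) (by linarith) him3 (by linarith) ?_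
        rw [← hL]
        linarith
    have hlowz : c0 * (1 / 32 * Q) ≤ ‖riemannZeta z1‖ := by
      have h1 := hlow z1 (by simp [hz1]; positivity) (by simp [hz1]; linarith)
      simpa [hz1] using h1
    set M : ℝ := 3 * Real.log L with hM
    have hlogL : 0 < Real.log L := Real.log_pos (by linarith)
    have hM0 : 0 < M := by positivity
    have hexpM : Real.exp M = L ^ 3 := by
      rw [hM, mul_comm, Real.exp_mul, Real.exp_log hLpos]
      norm_cast
    have hland := landau_free (f := riemannZeta) (z0 := z1) (r := w / 2) (M := M) (by positivity)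
      hM0 (fun z hz => free_an (hball z hz).1) (fun z hz => (hball z hz).2.1)
      (fun z hz => by
        refine (hball z hz).2.2.trans (q6.trans ?_)
        rw [hexpM]
        exact mul_le_mul_of_nonneg_left hlowz (by positivity))
    have hsb : s ∈ Metric.closedBall z1 (w / 2 / 2) := by
      rw [Metric.mem_closedBall, dist_eq_norm]
      have e1 : s - z1 = ((s.re - (1 + 1 / 32 * Q) : ℝ) : ℂ) := by
        apply Complex.ext
        · simp [hz1]
        · simp [hz1, ht]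
      rw [e1, Complex.norm_real, Real.norm_eq_abs, abs_le]
      constructor <;> linarith
    have hB : 24 * M / (w / 2) = 576 * (Real.log L * (1 / Q)) := by
      rw [hM, hw]
      field_simp
      ring
    have hlogLL : Real.log L ≤ L := by
      have := Real.log_le_sub_one_of_pos hLpos
      linarith
    constructor
    · refine (hland s hsb).trans ?_
      rw [hB]
      have h1 : Real.log L * (1 / Q) ≤ L * L :=
        mul_le_mul hlogLL hQinv (by positivity) hLpos.le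
      nlinarith
    · have hg := near_gronwall (f := riemannZeta) (z1 := z1) (z := s) (ρ := w / 2 / 2)
        (B := 24 * M / (w / 2)) (by positivity)
        (fun z hz => by
          have hz2 : z ∈ Metric.closedBall z1 (w / 2) :=
            Metric.closedBall_subset_closedBall (by linarith) hz
          exact ⟨(free_an (hball z hz2).1).differentiableAt, (hball z hz2).2.1⟩)
        hland hsb
      have hexp : Real.exp (24 * M / (w / 2) * (w / 2 / 2)) = L ^ 36 := by
        have h1 : 24 * M / (w / 2) * (w / 2 / 2) = 12 * M := by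
          field_simp
          ring
        rw [h1, mul_comm, Real.exp_mul, hexpM, ← Real.rpow_natCast, ← Real.rpow_mul hLpos.le,
          ← Real.rpow_natCast]
        norm_num
      rw [hexp] at hg
      have h5 : 1 ≤ L * Q := by
        rw [div_le_iff₀ q1] at hQinv
        exact hQinv
      calc c0 / 32 = c0 / 32 * 1 := by ring
        _ ≤ c0 / 32 * (L * Q) := mul_le_mul_of_nonneg_left h5 (by positivity)
        _ = L * (c0 * (1 / 32 * Q)) := by ring
        _ ≤ L * (‖riemannZeta s‖ * L ^ 36) :=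
            mul_le_mul_of_nonneg_left (hlowz.trans hg) hLpos.le
        _ = L ^ 37 * ‖riemannZeta s‖ := by ring

end VKZ
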