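import Pool.Agent.VKZ.Newton

/-!
# VKZ.Linnik: Linnik's lemma

PROOF. `x i < X ≤ p^k` are determined by their residues modulo `p^k`. Given `lam j` modulo `p^j`
(`1 ≤ j ≤ k`) there are `∏_j p^(k-j) = p^(k(k-1)/2)` possibilities for the power sums `∑ (x_i - u)^j` modulo
`p^k`, and for each of them at most `k!` vectors `(x_i - u)_i` modulo `p^k` by `newton_count`.
-/

namespace VKZ

open Finset

private theorem linnik_sum_exp (k : ℕ) : ∑ j ∈ Icc 1 k, (k - j) = k * (k - 1) / 2 := by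
  rw [← Finset.sum_range_id]
  refine Finset.sum_nbij' (fun j => k - j) (fun i => k - i) ?_ ?_ ?_ ?_ ?_
  · intro j hj
    simp only [mem_Icc, mem_range] at *
    omega
  · intro i hi
    simp only [mem_Icc, mem_range] at *
    omega
  · intro j hj
    simp only [mem_Icc] at *
    omega
  · intro i hi
    simp only [mem_range] at *
    omega
  · intro j hj
    rfl

private theorem linnik_cast {k p j : ℕ} (hp : 0 < p) (hj : j ≤ k) (S l : ℤ) (h : (p : ℤ) ^ j ∣ S - l) :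
    ((S : ℤ) : ZMod (p ^ k)) = (l : ZMod (p ^ k)) +
      (p : ZMod (p ^ k)) ^ j * ((((S - l) / (p : ℤ) ^ j % (p : ℤ) ^ (k - j)).toNat : ℕ) : ZMod (p ^ k)) := by
  obtain ⟨q, hq⟩ := h
  have hpj : (0 : ℤ) < (p : ℤ) ^ j := by positivity
  have hpk : (0 : ℤ) < (p : ℤ) ^ (k - j) := by positivity
  have hq' : (S - l) / (p : ℤ) ^ j = q := by
    rw [hq, Int.mul_ediv_cancel_left _ hpj.ne']
  have hn : 0 ≤ q % (p : ℤ) ^ (k - j) := Int.emod_nonneg _ hpk.ne'
  have e1 : ((((q % (p : ℤ) ^ (k - j)).toNat : ℕ)) : ZMod (p ^ k)) =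
      ((q % (p : ℤ) ^ (k - j) : ℤ) : ZMod (p ^ k)) := by
    conv_rhs => rw [← Int.toNat_of_nonneg hn]
    push_cast
    rfl
  rw [hq', e1]
  have e2 : (l : ZMod (p ^ k)) + (p : ZMod (p ^ k)) ^ j * ((q % (p : ℤ) ^ (k - j) : ℤ) : ZMod (p ^ k)) =
      ((l + (p : ℤ) ^ j * (q % (p : ℤ) ^ (k - j)) : ℤ) : ZMod (p ^ k)) := by
    push_cast
    rfl
  rw [e2, ZMod.intCast_eq_intCast_iff_dvd_sub]
  refine ⟨-(q / (p : ℤ) ^ (k - j)), ?_⟩
  have h3 : (p : ℤ) ^ k = (p : ℤ) ^ j * (p : ℤ) ^ (k - j) := by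
    rw [← pow_add]
    congr 1
    omega
  have h4 := Int.mul_ediv_add_emod q ((p : ℤ) ^ (k - j))
  push_cast
  rw [h3]
  have h5 : S = l + (p : ℤ) ^ j * q := by linarith
  rw [h5]
  nth_rewrite 2 [← h4]
  ring

open Classical in
theorem linnik {k p X : ℕ} (hk : 1 ≤ k) (hp : p.Prime) (hkp : k < p) (hX : X ≤ p ^ k) (u : ℤ)
    (lam : ℕ → ℤ) :
    ((univ : Finset (Fin k → Fin X)).filter fun x =>
      (∀ i i' : Fin k, i ≠ i' → ¬ ((x i : ℕ) ≡ (x i' : ℕ) [MOD p])) ∧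
      ∀ j ∈ Icc 1 k, (p : ℤ) ^ j ∣ ∑ i, (((x i : ℕ) : ℤ) - u) ^ j - lam j).card ≤
      k.factorial * p ^ (k * (k - 1) / 2) := by
  have hp0 : 0 < p := hp.pos
  have : NeZero (p ^ k) := ⟨(pow_pos hp0 k).ne'⟩
  let t : Finset ((j : ℕ) → j ∈ Icc 1 k → ℕ) := (Icc 1 k).pi (fun j => range (p ^ (k - j)))
  let f : (Fin k → Fin X) → ((j : ℕ) → j ∈ Icc 1 k → ℕ) := fun x j _ =>
    ((∑ i, (((x i : ℕ) : ℤ) - u) ^ j - lam j) / (p : ℤ) ^ j % (p : ℤ) ^ (k - j)).toNat
  have ht : t.card = p ^ (k * (k - 1) / 2) := by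
    simp only [t, Finset.card_pi, card_range]
    rw [Finset.prod_pow_eq_pow_sum, linnik_sum_exp]
  rw [← ht]
  refine Finset.card_le_mul_card_image_of_maps_to (f := f) ?_ _ ?_
  · intro x _
    simp only [t, Finset.mem_pi, mem_range]
    intro j hj
    have hpk : (0 : ℤ) < (p : ℤ) ^ (k - j) := by positivity
    have h1 := Int.emod_lt_of_pos ((∑ i, (((x i : ℕ) : ℤ) - u) ^ j - lam j) / (p : ℤ) ^ j) hpk
    have h2 := Int.emod_nonneg ((∑ i, (((x i : ℕ) : ℤ) - u) ^ j - lam j) / (p : ℤ) ^ j) hpk.ne'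
    have h3 : (f x j hj : ℤ) < ((p ^ (k - j) : ℕ) : ℤ) := by
      simp only [f]
      rw [Int.toNat_of_nonneg h2]
      push_cast
      exact h1
    exact_mod_cast h3
  · intro b _
    let lam' : ℕ → ZMod (p ^ k) := fun j =>
      if hj : j ∈ Icc 1 k then ((lam j : ℤ) : ZMod (p ^ k)) + (p : ZMod (p ^ k)) ^ j * (b j hj : ZMod (p ^ k))
      else 0
    refine le_trans ?_ (newton_count hk hp hkp lam')
    refine Finset.card_le_card_of_injOn
      (fun (x : Fin k → Fin X) (i : Fin k) => ((((x i : ℕ) : ℤ) - u : ℤ) : ZMod (p ^ k))) ?_ ?_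
    · intro x hx
      simp only [coe_filter, Finset.mem_filter, mem_univ, true_and] at hx ⊢
      obtain ⟨⟨h1, h2⟩, h3⟩ := hx
      refine ⟨?_, ?_⟩
      · intro i i' hii' hdvd
        apply h1 i i' hii'
        have e : (((((x i : ℕ) : ℤ) - u : ℤ) : ZMod (p ^ k)) - ((((x i' : ℕ) : ℤ) - u : ℤ) : ZMod (p ^ k))) =
            ((((x i : ℕ) : ℤ) - ((x i' : ℕ) : ℤ) : ℤ) : ZMod (p ^ k)) := by
          push_cast
          ring
        rw [e] at hdvd
        have h4 : (p : ℤ) ∣ (((((((x i : ℕ) : ℤ) - ((x i' : ℕ) : ℤ) : ℤ) : ZMod (p ^ k))).val : ℕ) : ℤ) := by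
          exact_mod_cast hdvd
        rw [ZMod.val_intCast] at h4
        have h5 : (p : ℤ) ∣ ((p ^ k : ℕ) : ℤ) := by
          push_cast
          exact dvd_pow_self _ (by omega)
        have h6 : (p : ℤ) ∣ ((x i : ℕ) : ℤ) - ((x i' : ℕ) : ℤ) := by
          rw [← Int.mul_ediv_add_emod (((x i : ℕ) : ℤ) - ((x i' : ℕ) : ℤ)) ((p ^ k : ℕ) : ℤ)]
          exact dvd_add (dvd_mul_of_dvd_left h5 _) h4
        rw [Nat.modEq_iff_dvd]
        rw [← dvd_neg, neg_sub] at h6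
        exact h6
      · intro j hj
        have h4 := h2 j hj
        have h5 : b j hj = f x j hj := by rw [h3]
        simp only [lam', hj, dif_pos]
        rw [h5]
        have h6 := linnik_cast hp0 (mem_Icc.mp hj).2 _ _ h4
        simp only [f]
        rw [← h6]
        push_cast
        rfl
    · intro x hx x' hx' hxx'
      funext i
      have h := congrFun hxx' i
      simp only at h
      have h1 : (((x i : ℕ)) : ZMod (p ^ k)) = (((x' i : ℕ)) : ZMod (p ^ k)) := by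
        push_cast at h
        exact sub_left_injective h
      rw [ZMod.natCast_eq_natCast_iff'] at h1
      rw [Nat.mod_eq_of_lt ((x i).isLt.trans_le hX), Nat.mod_eq_of_lt ((x' i).isLt.trans_le hX)] at h1
      exact Fin.ext h1

end VKZ
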