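import Pool.Agent.VKZ.Defs

/-!
# VKZ.Newton: power sums modulo a prime power determine the numbers

PROOF. `p > k`. By Newton's identities (`MvPolynomial.mul_esymm_eq_sum` or similar; `1, ..., k` are units of
`ZMod (p^k)`) the power sums `∑ x_i^j`, `1 ≤ j ≤ k`, determine the elementary symmetric functions, hence
`∏ (T - x_i) = ∏ (T - y_i)` in `ZMod (p^k)[T]`. So `∏_i (y_a - x_i) = 0` in `ZMod (p^k)` for every `a`. The `x_i`
are distinct modulo `p`, so at most one factor is divisible by `p`, hence one factor is `0`: every `y_a` is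
one of the `x_i`. The `y_a` are also distinct modulo `p`, so `a ↦ i` is injective, a permutation. (The
hypothesis `hy` is there to make this easy.) `count`: fix one solution `x`; the others are `x ∘ σ`.
-/

namespace VKZ

open Finset

private theorem Newton_esymm {k p : ℕ} (hp : p.Prime) (hkp : k < p) (x y : Fin k → ZMod (p ^ k))
    (h : ∀ j ∈ Icc 1 k, ∑ i, x i ^ j = ∑ i, y i ^ j) (j : ℕ) (hj : j ≤ k) :
    MvPolynomial.aeval x (MvPolynomial.esymm (Fin k) (ZMod (p ^ k)) j) =
      MvPolynomial.aeval y (MvPolynomial.esymm (Fin k) (ZMod (p ^ k)) j) := by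
  induction j using Nat.strong_induction_on with
  | _ j ih =>
    rcases Nat.eq_zero_or_pos j with h0 | hpos
    · subst h0
      simp
    · have key : ∀ z : Fin k → ZMod (p ^ k),
          (j : ZMod (p ^ k)) * MvPolynomial.aeval z (MvPolynomial.esymm (Fin k) (ZMod (p ^ k)) j) =
          (-1) ^ (j + 1) * ∑ a ∈ antidiagonal j with a.1 < j, (-1) ^ a.1 *
            MvPolynomial.aeval z (MvPolynomial.esymm (Fin k) (ZMod (p ^ k)) a.1) *
              ∑ i, z i ^ a.2 := by
        intro z
        have h1 := congrArg (MvPolynomial.aeval z)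
          (MvPolynomial.mul_esymm_eq_sum (Fin k) (ZMod (p ^ k)) j)
        simpa [MvPolynomial.psum, map_sum, map_mul, map_pow] using h1
      have hu : IsUnit (j : ZMod (p ^ k)) := by
        rw [ZMod.isUnit_iff_coprime]
        apply Nat.Coprime.pow_right
        exact ((Nat.Prime.coprime_iff_not_dvd hp).mpr
          (fun hd => absurd (Nat.le_of_dvd hpos hd) (by omega))).symm
      apply hu.mul_left_cancel
      rw [key x, key y]
      congr 1
      refine Finset.sum_congr rfl ?_
      intro a ha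
      rw [Finset.mem_filter] at ha
      obtain ⟨ha1, ha2⟩ := ha
      have ha1 : a.1 + a.2 = j := Finset.HasAntidiagonal.mem_antidiagonal.mp ha1
      rw [ih a.1 ha2 (by omega), h a.2 (by rw [Finset.mem_Icc]; omega)]

private theorem Newton_prod {k p : ℕ} (hp : p.Prime) (hkp : k < p) (x y : Fin k → ZMod (p ^ k))
    (h : ∀ j ∈ Icc 1 k, ∑ i, x i ^ j = ∑ i, y i ^ j) (z : ZMod (p ^ k)) :
    ∏ i, (z - x i) = ∏ i, (z - y i) := by
  have key : ∀ w : Fin k → ZMod (p ^ k), ∏ i, (z - w i) =
      ∑ j ∈ Finset.range (k + 1), (-1) ^ j *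
        (MvPolynomial.aeval w (MvPolynomial.esymm (Fin k) (ZMod (p ^ k)) j) * z ^ (k - j)) := by
    intro w
    have h1 := congrArg (Polynomial.eval z)
      (Multiset.prod_X_sub_X_eq_sum_esymm ((Finset.univ : Finset (Fin k)).val.map w))
    rw [Multiset.map_map] at h1
    have h2 : (Multiset.map ((fun t => (Polynomial.X - Polynomial.C t : Polynomial (ZMod (p ^ k)))) ∘ w)
        (Finset.univ : Finset (Fin k)).val).prod = ∏ i, (Polynomial.X - Polynomial.C (w i)) := rfl
    rw [h2, Polynomial.eval_prod, Polynomial.eval_finsetSum] at h1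
    simp only [Polynomial.eval_sub, Polynomial.eval_X, Polynomial.eval_C, Polynomial.eval_mul,
      Polynomial.eval_pow, Polynomial.eval_neg, Polynomial.eval_one, Multiset.card_map,
      Finset.card_val, Finset.card_univ, Fintype.card_fin] at h1
    rw [h1]
    refine Finset.sum_congr rfl fun j _ => ?_
    rw [MvPolynomial.aeval_esymm_eq_multiset_esymm]
  rw [key x, key y]
  refine Finset.sum_congr rfl fun j hj => ?_
  rw [Newton_esymm hp hkp x y h j (by rw [Finset.mem_range] at hj; omega)]

private theorem Newton_dvd {k p : ℕ} (hk : 1 ≤ k) (hp : p.Prime) (z : ZMod (p ^ k)) :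
    p ∣ z.val ↔ ZMod.castHom (dvd_pow_self p (by omega : k ≠ 0)) (ZMod p) z = 0 := by
  have : NeZero (p ^ k) := ⟨pow_ne_zero _ hp.ne_zero⟩
  rw [ZMod.castHom_apply, ZMod.cast_eq_val, ZMod.natCast_eq_zero_iff]

private theorem Newton_unit {k p : ℕ} (hp : p.Prime) (z : ZMod (p ^ k))
    (h : ¬ p ∣ z.val) : IsUnit z := by
  have : NeZero (p ^ k) := ⟨pow_ne_zero _ hp.ne_zero⟩
  rw [← ZMod.natCast_zmod_val z, ZMod.isUnit_iff_coprime]
  apply Nat.Coprime.pow_right
  exact ((Nat.Prime.coprime_iff_not_dvd hp).mpr h).symm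

theorem newton {k p : ℕ} (hk : 1 ≤ k) (hp : p.Prime) (hkp : k < p) (x y : Fin k → ZMod (p ^ k))
    (hx : ∀ i i', i ≠ i' → ¬ (p ∣ (x i - x i').val)) (hy : ∀ i i', i ≠ i' → ¬ (p ∣ (y i - y i').val))
    (h : ∀ j ∈ Icc 1 k, ∑ i, x i ^ j = ∑ i, y i ^ j) :
    ∃ σ : Equiv.Perm (Fin k), ∀ i, y i = x (σ i) := by
  have : Fact (1 < p ^ k) := ⟨Nat.one_lt_pow (by omega) hp.one_lt⟩
  have h1 : ∀ a, ∃ i, y a = x i := by
    intro a
    have h2 : ∏ i, (y a - x i) = 0 := by
      rw [Newton_prod hp hkp x y h]
      exact Finset.prod_eq_zero (Finset.mem_univ a) (sub_self _)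
    by_cases h3 : ∀ i, ¬ p ∣ (y a - x i).val
    · exfalso
      have h4 : IsUnit (∏ i, (y a - x i)) := by
        rw [IsUnit.prod_univ_iff]
        exact fun i => Newton_unit hp _ (h3 i)
      rw [h2] at h4
      exact not_isUnit_zero h4
    · push Not at h3
      obtain ⟨i, hi⟩ := h3
      refine ⟨i, ?_⟩
      rw [← Finset.mul_prod_erase Finset.univ _ (Finset.mem_univ i)] at h2
      have h4 : IsUnit (∏ i' ∈ Finset.univ.erase i, (y a - x i')) := by
        rw [IsUnit.prod_iff]
        intro i' hi'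
        apply Newton_unit hp
        intro h5
        have hne : i ≠ i' := fun hh => (Finset.ne_of_mem_erase hi') hh.symm
        apply hx i i' hne
        rw [Newton_dvd hk hp] at hi h5 ⊢
        rw [map_sub] at hi h5 ⊢
        rw [sub_eq_zero] at hi h5 ⊢
        rw [← hi, h5]
      exact sub_eq_zero.mp (h4.mul_left_eq_zero.mp h2)
  choose f hf using h1
  have hinj : Function.Injective f := by
    intro a a' haa
    by_contra hne
    apply hy a a' hne
    rw [hf a, hf a', haa, sub_self, ZMod.val_zero]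
    exact dvd_zero p
  exact ⟨Equiv.ofBijective f (Finite.injective_iff_bijective.mp hinj), hf⟩

open Classical in
/-- For given power sums modulo `p^k` there are at most `k!` solutions which are distinct modulo `p`. -/
theorem newton_count {k p : ℕ} [NeZero (p ^ k)] (hk : 1 ≤ k) (hp : p.Prime) (hkp : k < p)
    (lam : ℕ → ZMod (p ^ k)) :
    ((univ : Finset (Fin k → ZMod (p ^ k))).filter fun x =>
      (∀ i i', i ≠ i' → ¬ (p ∣ (x i - x i').val)) ∧
      ∀ j ∈ Icc 1 k, ∑ i, x i ^ j = lam j).card ≤ k.factorial := by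
  rcases Finset.eq_empty_or_nonempty ((univ : Finset (Fin k → ZMod (p ^ k))).filter fun x =>
      (∀ i i', i ≠ i' → ¬ (p ∣ (x i - x i').val)) ∧
      ∀ j ∈ Icc 1 k, ∑ i, x i ^ j = lam j) with h0 | ⟨x, hx⟩
  · rw [h0]
    simp
  · have hx' := (Finset.mem_filter.mp hx).2
    calc _ ≤ ((univ : Finset (Equiv.Perm (Fin k))).image
          (fun σ : Equiv.Perm (Fin k) => fun i => x (σ i))).card := by
          apply Finset.card_le_card
          intro y hy
          have hy' := (Finset.mem_filter.mp hy).2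
          obtain ⟨σ, hσ⟩ := newton hk hp hkp x y hx'.1 hy'.1
            (fun j hj => by rw [hx'.2 j hj, hy'.2 j hj])
          exact Finset.mem_image.mpr ⟨σ, Finset.mem_univ _, (funext hσ).symm⟩
      _ ≤ (univ : Finset (Equiv.Perm (Fin k))).card := Finset.card_image_le
      _ = k.factorial := by
          rw [Finset.card_univ, Fintype.card_perm, Fintype.card_fin]

end VKZ
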