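import Pool.Agent.VKZ.Free

/-!
# VKZ.Region: the zero free region, uniform version

PROOF. For `|t| ≥ t1` use `free` and `near` (`Zf s = (s-1) ζ(s)`, `Zf'/Zf = 1/(s-1) + ζ'/ζ`,
`1/Zf = 1/((s-1) ζ(s))`, `(log |t|)` and `log(|t|+3)` are comparable). For `|t| ≤ t1`: `Zf` is
entire (`Zf_analytic`) and has no zeros on `Re s ≥ 1` (`riemannZeta_ne_zero_of_one_le_re`, `Zf 1 = 1`), so by
compactness it has no zeros in `1 - w0 ≤ σ ≤ 3`, `|t| ≤ t1` for some `w0 > 0`, and `Zf'/Zf`, `1/Zf` are bounded there.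
Take `c` small.
-/

namespace VKZ

open Complex

private theorem Region_ne {z : ℂ} (hz : 1 ≤ z.re) : Zf z ≠ 0 := by
  unfold Zf
  split_ifs with h
  · exact one_ne_zero
  · exact mul_ne_zero (sub_ne_zero.2 h) (riemannZeta_ne_zero_of_one_le_re hz)

private theorem Region_log (t : ℝ) : 1 ≤ Real.log (|t| + 3) := by
  have h1 : Real.exp 1 ≤ |t| + 3 := by
    have h2 := Real.exp_one_lt_d9
    have h3 := abs_nonneg t
    linarith
  rw [Real.le_log_iff_exp_le (by positivity)]
  exact h1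

private theorem Region_compact (T : ℝ) : ∃ w B : ℝ, 0 < w ∧ ∀ s : ℂ, s.re ≤ 3 → 1 - w ≤ s.re →
    |s.im| ≤ T → Zf s ≠ 0 ∧ ‖deriv Zf s / Zf s‖ ≤ B ∧ ‖iz s‖ ≤ B := by
  set K : Set ℂ := {z : ℂ | z.re ∈ Set.Icc 1 3 ∧ z.im ∈ Set.Icc (-T) T} with hK
  have hKc : IsCompact K := by
    have h1 : K = Set.Icc (1 : ℝ) 3 ×ℂ Set.Icc (-T) T := by
      ext z
      rw [Complex.mem_reProdIm]
      rfl
    rw [h1]
    exact isCompact_Icc.reProdIm isCompact_Icc
  have hcont : Continuous Zf := Zf_analytic.continuous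
  have hopen : IsOpen {z : ℂ | Zf z ≠ 0} := isOpen_ne.preimage hcont
  obtain ⟨δ, hδ, hsub⟩ := hKc.exists_cthickening_subset_open hopen
    (fun z hz => Region_ne hz.1.1)
  have hcpt : IsCompact (Metric.cthickening δ K) := hKc.cthickening
  have hd : Continuous (deriv Zf) :=
    (Zf_analytic.contDiff (n := 1)).continuous_deriv le_rfl
  have c1 : ContinuousOn (fun z => deriv Zf z / Zf z) (Metric.cthickening δ K) :=
    hd.continuousOn.div hcont.continuousOn fun z hz => hsub hz
  have c2 : ContinuousOn (fun z => iz z) (Metric.cthickening δ K) := by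
    unfold iz
    exact ((continuous_id.sub continuous_const).continuousOn).div hcont.continuousOn
      fun z hz => hsub hz
  obtain ⟨B1, hB1⟩ := hcpt.exists_bound_of_continuousOn c1
  obtain ⟨B2, hB2⟩ := hcpt.exists_bound_of_continuousOn c2
  refine ⟨δ, max B1 B2, hδ, fun s hs3 hs1 ht => ?_⟩
  have hmem : s ∈ Metric.cthickening δ K := by
    refine Metric.mem_cthickening_of_dist_le s (⟨max s.re 1, s.im⟩ : ℂ) δ K ?_ ?_
    · refine ⟨⟨le_max_right _ _, max_le hs3 (by norm_num)⟩, ?_⟩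
      rw [abs_le] at ht
      exact ht
    · rw [Complex.dist_eq]
      have e : s - (⟨max s.re 1, s.im⟩ : ℂ) = ((s.re - max s.re 1 : ℝ) : ℂ) := by
        apply Complex.ext <;> simp
      rw [e, Complex.norm_real, Real.norm_eq_abs, abs_le]
      rcases le_total s.re 1 with h | h
      · rw [max_eq_right h]
        constructor <;> linarith
      · rw [max_eq_left h]
        constructor <;> linarith
  exact ⟨hsub hmem, (hB1 s hmem).trans (le_max_left _ _), (hB2 s hmem).trans (le_max_right _ _)⟩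

theorem region : ∃ c C : ℝ, 0 < c ∧ c ≤ 1 / 4 ∧ 1 ≤ C ∧ ∀ s : ℂ, s.re ≤ 3 →
    1 - c * (Real.log (|s.im| + 3)) ^ (-(19 : ℝ) / 20) ≤ s.re →
    Zf s ≠ 0 ∧ ‖deriv Zf s / Zf s‖ ≤ C * Real.log (|s.im| + 3) ^ C ∧
    ‖iz s‖ ≤ C * Real.log (|s.im| + 3) ^ C := by
  obtain ⟨C1, t1, hC1, ht1, hnear⟩ := near
  obtain ⟨w, B, hw, hcomp⟩ := Region_compact t1
  refine ⟨min (1 / 32) w, C1 + 1 + |B|, lt_min (by norm_num) hw,
    (min_le_left _ _).trans (by norm_num), ?_, ?_⟩
  · have := abs_nonneg B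
    linarith
  intro s hs3 hs1
  have hL1 := Region_log s.im
  set L' : ℝ := Real.log (|s.im| + 3) with hL'
  have hpow1 : L' ^ (-(19 : ℝ) / 20) ≤ 1 := Real.rpow_le_one_of_one_le_of_nonpos hL1 (by norm_num)
  have hpow0 : 0 ≤ L' ^ (-(19 : ℝ) / 20) := Real.rpow_nonneg (by linarith) _
  have hB0 := abs_nonneg B
  have hCpos : 0 ≤ C1 + 1 + |B| := by linarith
  have hLC : 1 ≤ L' ^ (C1 + 1 + |B|) := Real.one_le_rpow hL1 hCpos
  rcases le_total |s.im| t1 with ht | ht
  · have hs1' : 1 - w ≤ s.re := by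
      have h1 : min (1 / 32) w * L' ^ (-(19 : ℝ) / 20) ≤ w * 1 :=
        mul_le_mul (min_le_right _ _) hpow1 hpow0 hw.le
      linarith
    obtain ⟨h1, h2, h3⟩ := hcomp s hs3 hs1' ht
    have h4 : B ≤ (C1 + 1 + |B|) * L' ^ (C1 + 1 + |B|) := by
      have h5 := le_abs_self B
      calc B ≤ (C1 + 1 + |B|) * 1 := by linarith
        _ ≤ _ := mul_le_mul_of_nonneg_left hLC hCpos
    exact ⟨h1, h2.trans h4, h3.trans h4⟩
  · have ht3 : 3 ≤ |s.im| := ht1.trans ht
    have hL0 : 1 ≤ Real.log |s.im| := by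
      have h1 : Real.exp 1 ≤ |s.im| := by
        have h2 := Real.exp_one_lt_d9
        linarith
      rw [Real.le_log_iff_exp_le (by positivity)]
      exact h1
    set L : ℝ := Real.log |s.im| with hL
    have hLL : L ≤ L' := Real.log_le_log (by linarith) (by linarith)
    have hreg : 1 - (1 / 32) * L ^ (-(19 : ℝ) / 20) ≤ s.re := by
      have h1 : L' ^ (-(19 : ℝ) / 20) ≤ L ^ (-(19 : ℝ) / 20) :=
        Real.rpow_le_rpow_of_nonpos (by linarith) hLL (by norm_num)
      have h2 : min (1 / 32) w * L' ^ (-(19 : ℝ) / 20) ≤ 1 / 32 * L ^ (-(19 : ℝ) / 20) :=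
        mul_le_mul (min_le_left _ _) h1 hpow0 (by norm_num)
      linarith
    obtain ⟨h1, h2⟩ := hnear s ht hs3 hreg
    have hpL : 0 < L ^ C1 := Real.rpow_pos_of_pos (by linarith) _
    have hz : riemannZeta s ≠ 0 := by
      intro h0
      rw [h0, norm_zero, mul_zero] at h2
      linarith
    have hs : s ≠ 1 := by
      intro h0
      rw [h0, Complex.one_im, abs_zero] at ht3
      norm_num at ht3
    have hs0 : s - 1 ≠ 0 := sub_ne_zero.2 hs
    have hZ : Zf s = (s - 1) * riemannZeta s := by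
      unfold Zf
      rw [if_neg hs]
    have hZ0 : Zf s ≠ 0 := by
      rw [hZ]
      exact mul_ne_zero hs0 hz
    have hder : deriv Zf s = riemannZeta s + (s - 1) * deriv riemannZeta s := by
      have he : Zf =ᶠ[nhds s] fun z => (z - 1) * riemannZeta z := by
        filter_upwards [isOpen_ne.mem_nhds hs] with z hz'
        unfold Zf
        rw [if_neg hz']
      rw [he.deriv_eq]
      have hd1 : HasDerivAt (fun z : ℂ => z - 1) 1 s := (hasDerivAt_id s).sub_const 1
      have hd2 : HasDerivAt riemannZeta (deriv riemannZeta s) s :=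
        (differentiableAt_riemannZeta hs).hasDerivAt
      have hd3 := hd1.mul hd2
      have e3 := hd3.deriv
      rw [one_mul] at e3
      exact e3
    have hquot : deriv Zf s / Zf s = 1 / (s - 1) + deriv riemannZeta s / riemannZeta s := by
      rw [hder, hZ]
      field_simp
    have hizs : iz s = 1 / riemannZeta s := by
      unfold iz
      rw [hZ]
      field_simp
    have hbig : C1 * L ^ C1 + 1 ≤ (C1 + 1 + |B|) * L' ^ (C1 + 1 + |B|) := by
      have h3 : L ^ C1 ≤ L' ^ (C1 + 1 + |B|) :=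
        (Real.rpow_le_rpow (by linarith) hLL (by linarith)).trans
          (Real.rpow_le_rpow_of_exponent_le hL1 (by linarith))
      have h4 : C1 * L ^ C1 ≤ C1 * L' ^ (C1 + 1 + |B|) :=
        mul_le_mul_of_nonneg_left h3 (by linarith)
      have h5 : (1 : ℝ) ≤ (1 + |B|) * L' ^ (C1 + 1 + |B|) := by
        calc (1 : ℝ) = 1 * 1 := by ring
          _ ≤ _ := mul_le_mul (by linarith) hLC (by norm_num) (by linarith)
      calc C1 * L ^ C1 + 1 ≤ C1 * L' ^ (C1 + 1 + |B|) + (1 + |B|) * L' ^ (C1 + 1 + |B|) :=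
            add_le_add h4 h5
        _ = _ := by ring
    refine ⟨hZ0, ?_, ?_⟩
    · rw [hquot]
      refine (norm_add_le _ _).trans ?_
      have h6 : ‖1 / (s - 1)‖ ≤ 1 := by
        rw [norm_div, norm_one]
        have h7 : |(s - 1).im| ≤ ‖s - 1‖ := Complex.abs_im_le_norm _
        rw [Complex.sub_im, Complex.one_im, sub_zero] at h7
        rw [div_le_one (by linarith)]
        linarith
      linarith
    · rw [hizs, norm_div, norm_one, div_le_iff₀ (norm_pos_iff.2 hz)]
      have h8 : C1 * L ^ C1 ≤ (C1 + 1 + |B|) * L' ^ (C1 + 1 + |B|) := by linarith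
      exact h2.trans (mul_le_mul_of_nonneg_right h8 (norm_nonneg _))

end VKZ
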