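import Pool.Agent.VKZ.Defs

/-!
# VKZ.Shift: shifting the sum by products and Taylor expansion

PROOF. `(n+h)^(-it)` summed over `a < n ≤ b` differs from the sum with `h = 0` by at most `2h`, `h = x y ≤ M²`.
Average over `x, y ∈ [1, M]`. With `z = xy/n ≤ M²/a ≤ 1/2`: `(n+xy)^(-it) = n^(-it) exp(-it log(1+z))` and
`|log(1+z) - ∑_{j≤k} (-1)^(j-1) z^j/j| ≤ 2 z^(k+1)` (Mathlib: `Complex.norm_log_sub_logTaylor_le` or
`Real.abs_log_sub_add_sum_range_le`), so `exp(-it log(1+z))` and `e(∑_{j≤k} alf t n j x^j y^j)` differ by at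
most `2 t z^(k+1)`.
-/

namespace VKZ

open Finset

/-- The coefficients of the Taylor polynomial. -/
noncomputable def alf (t : ℝ) (n j : ℕ) : ℝ := (-1) ^ j * t / (2 * Real.pi * j * (n : ℝ) ^ j)

/-- The bilinear sum. -/
noncomputable def U (t : ℝ) (k M n : ℕ) : ℂ :=
  ∑ x ∈ Icc 1 M, ∑ y ∈ Icc 1 M, e (∑ j ∈ Icc 1 k, alf t n j * (x : ℝ) ^ j * (y : ℝ) ^ j)

private theorem Shift_exp (A B : ℝ) :
    ‖Complex.exp (A * Complex.I) - Complex.exp (B * Complex.I)‖ ≤ |A - B| := by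
  have h1 : Complex.exp (A * Complex.I) - Complex.exp (B * Complex.I) =
      Complex.exp (B * Complex.I) * (Complex.exp (Complex.I * ((A - B : ℝ) : ℂ)) - 1) := by
    rw [mul_sub, ← Complex.exp_add, mul_one]
    congr 2
    push_cast
    ring
  rw [h1, norm_mul, Complex.norm_exp_ofReal_mul_I, one_mul]
  exact Real.norm_exp_I_mul_ofReal_sub_one_le

private theorem Shift_cpow (t : ℝ) {n : ℕ} (hn : 0 < n) :
    (n : ℂ) ^ (-(t * Complex.I)) = Complex.exp ((-(t * Real.log n) : ℝ) * Complex.I) := by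
  rw [Complex.cpow_def_of_ne_zero (by exact_mod_cast hn.ne'), ← Complex.natCast_log]
  congr 1
  push_cast
  ring

private theorem Shift_norm (t : ℝ) {n : ℕ} (hn : 0 < n) : ‖(n : ℂ) ^ (-(t * Complex.I))‖ = 1 := by
  rw [Shift_cpow t hn, Complex.norm_exp_ofReal_mul_I]

private theorem Shift_tele (g : ℕ → ℂ) (a : ℕ) {b : ℕ} (hab : a ≤ b) :
    ∑ n ∈ Ioc a b, (g (n + 1) - g n) = g (b + 1) - g (a + 1) := by
  induction b, hab using Nat.le_induction with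
  | base => simp
  | succ b hb ih =>
    rw [Finset.sum_Ioc_succ_top hb, ih]
    ring

private theorem Shift_h (g : ℕ → ℂ) (hg : ∀ n, 0 < n → ‖g n‖ ≤ 1) (a : ℕ) {b : ℕ} (hab : a ≤ b)
    (h : ℕ) : ‖∑ n ∈ Ioc a b, g (n + h) - ∑ n ∈ Ioc a b, g n‖ ≤ 2 * h := by
  induction h with
  | zero => simp
  | succ h ih =>
    have h1 : ∑ n ∈ Ioc a b, g (n + (h + 1)) - ∑ n ∈ Ioc a b, g (n + h) =
        g (b + 1 + h) - g (a + 1 + h) := by
      rw [← Finset.sum_sub_distrib]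
      have := Shift_tele (fun n => g (n + h)) a hab
      rw [← this]
      apply Finset.sum_congr rfl
      intro n _
      congr 2
      ring
    have h2 : ∑ n ∈ Ioc a b, g (n + (h + 1)) - ∑ n ∈ Ioc a b, g n =
        (g (b + 1 + h) - g (a + 1 + h)) + (∑ n ∈ Ioc a b, g (n + h) - ∑ n ∈ Ioc a b, g n) := by
      rw [← h1]
      ring
    rw [h2]
    have h3 := hg (b + 1 + h) (by omega)
    have h4 := hg (a + 1 + h) (by omega)
    calc _ ≤ ‖g (b + 1 + h) - g (a + 1 + h)‖ +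
          ‖∑ n ∈ Ioc a b, g (n + h) - ∑ n ∈ Ioc a b, g n‖ := norm_add_le _ _
      _ ≤ (‖g (b + 1 + h)‖ + ‖g (a + 1 + h)‖) + 2 * h := add_le_add (norm_sub_le _ _) ih
      _ ≤ _ := by push_cast; linarith

private theorem Shift_log {z : ℝ} (hz : 0 ≤ z) (hz2 : z ≤ 1 / 2) (k : ℕ) :
    |∑ j ∈ Icc 1 k, (-1 : ℝ) ^ j * z ^ j / j + Real.log (1 + z)| ≤ 2 * z ^ (k + 1) := by
  have h := Real.abs_log_sub_add_sum_range_le (x := -z) (by rw [abs_neg, abs_of_nonneg hz]; linarith) k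
  rw [abs_neg, abs_of_nonneg hz, sub_neg_eq_add] at h
  have h1 : ∑ j ∈ Icc 1 k, (-1 : ℝ) ^ j * z ^ j / j = ∑ i ∈ range k, (-z) ^ (i + 1) / (i + 1) := by
    apply Finset.sum_nbij' (fun j => j - 1) (fun j => j + 1)
    · intro j hj
      rw [Finset.mem_Icc] at hj
      rw [Finset.mem_range]
      omega
    · intro j hj
      rw [Finset.mem_range] at hj
      rw [Finset.mem_Icc]
      omega
    · intro j hj
      rw [Finset.mem_Icc] at hj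
      omega
    · intro j hj
      omega
    · intro j hj
      rw [Finset.mem_Icc] at hj
      obtain ⟨i, rfl⟩ : ∃ i : ℕ, j = i + 1 := ⟨j - 1, by omega⟩
      simp only [Nat.add_sub_cancel]
      rw [neg_pow z]
      push_cast
      ring
  rw [h1]
  refine h.trans ?_
  rw [div_le_iff₀ (by linarith)]
  have h2 : 0 ≤ z ^ (k + 1) := by positivity
  nlinarith

private theorem Shift_term {t : ℝ} (ht : 0 ≤ t) (k : ℕ) {n x y : ℕ} (hn : 0 < n) (c : ℝ)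
    (hxy : ((x : ℝ) * y) / n ≤ c) (hc : c ≤ 1 / 2) :
    ‖((n + x * y : ℕ) : ℂ) ^ (-(t * Complex.I)) - (n : ℂ) ^ (-(t * Complex.I)) *
      e (∑ j ∈ Icc 1 k, alf t n j * (x : ℝ) ^ j * (y : ℝ) ^ j)‖ ≤ 2 * t * c ^ (k + 1) := by
  have hn' : (0 : ℝ) < n := by exact_mod_cast hn
  obtain ⟨z, hz⟩ : ∃ z : ℝ, z = ((x : ℝ) * y) / n := ⟨_, rfl⟩
  have hz0 : 0 ≤ z := by rw [hz]; positivity
  have h1 : e (∑ j ∈ Icc 1 k, alf t n j * (x : ℝ) ^ j * (y : ℝ) ^ j) =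
      Complex.exp ((t * ∑ j ∈ Icc 1 k, (-1 : ℝ) ^ j * z ^ j / j : ℝ) * Complex.I) := by
    unfold e
    congr 1
    have h2 : 2 * Real.pi * (∑ j ∈ Icc 1 k, alf t n j * (x : ℝ) ^ j * (y : ℝ) ^ j) =
        t * ∑ j ∈ Icc 1 k, (-1 : ℝ) ^ j * z ^ j / j := by
      rw [Finset.mul_sum, Finset.mul_sum]
      apply Finset.sum_congr rfl
      intro j hj
      rw [Finset.mem_Icc] at hj
      have hj' : (0 : ℝ) < j := by exact_mod_cast hj.1
      have hpi := Real.pi_pos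
      unfold alf
      rw [hz, div_pow, mul_pow]
      field_simp
    rw [← h2]
    push_cast
    ring
  have h3 : ((n + x * y : ℕ) : ℂ) ^ (-(t * Complex.I)) =
      (n : ℂ) ^ (-(t * Complex.I)) * Complex.exp ((-(t * Real.log (1 + z)) : ℝ) * Complex.I) := by
    rw [Shift_cpow t (by omega : 0 < n + x * y), Shift_cpow t hn, ← Complex.exp_add]
    congr 1
    have h4 : Real.log ((n + x * y : ℕ) : ℝ) = Real.log n + Real.log (1 + z) := by
      rw [← Real.log_mul (by positivity) (by positivity)]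
      congr 1
      rw [hz]
      push_cast
      field_simp
    rw [h4]
    push_cast
    ring
  rw [h3, h1, ← mul_sub, norm_mul, Shift_norm t hn, one_mul]
  refine (Shift_exp _ _).trans ?_
  have h5 := Shift_log hz0 (by linarith : z ≤ 1 / 2) k
  have h6 : -(t * Real.log (1 + z)) - t * ∑ j ∈ Icc 1 k, (-1 : ℝ) ^ j * z ^ j / j =
      -(t * (∑ j ∈ Icc 1 k, (-1 : ℝ) ^ j * z ^ j / j + Real.log (1 + z))) := by ring
  rw [h6, abs_neg, abs_mul, abs_of_nonneg ht]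
  have h7 : z ^ (k + 1) ≤ c ^ (k + 1) := pow_le_pow_left₀ hz0 (by linarith) _
  nlinarith

theorem shift_bound {a b M k : ℕ} {t : ℝ} (hab : a < b) (hM : 1 ≤ M) (hMa : 2 * M ^ 2 ≤ a)
    (ht : 0 ≤ t) :
    ‖∑ n ∈ Ioc a b, (n : ℂ) ^ (-(t * Complex.I))‖ ≤
      (1 / (M : ℝ) ^ 2) * ∑ n ∈ Ioc a b, ‖U t k M n‖ + 2 * (M : ℝ) ^ 2 +
        ((b : ℝ) - a) * (2 * t * ((M : ℝ) ^ 2 / a) ^ (k + 1)) := by
  have hM' : (0 : ℝ) < M := by exact_mod_cast hM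
  have ha : 0 < a := by nlinarith [Nat.pos_of_ne_zero (by positivity : M ^ 2 ≠ 0)]
  have ha' : (0 : ℝ) < a := by exact_mod_cast ha
  have hMa' : 2 * (M : ℝ) ^ 2 ≤ a := by exact_mod_cast hMa
  obtain ⟨c, hc⟩ : ∃ c : ℝ, c = (M : ℝ) ^ 2 / a := ⟨_, rfl⟩
  have hc0 : 0 ≤ c := by rw [hc]; positivity
  have hc2 : c ≤ 1 / 2 := by
    rw [hc, div_le_iff₀ ha']
    linarith
  obtain ⟨g, hg⟩ : ∃ g : ℕ → ℂ, g = fun (n : ℕ) => (n : ℂ) ^ (-(t * Complex.I)) := ⟨_, rfl⟩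
  have hg1 : ∀ n, 0 < n → ‖g n‖ ≤ 1 := by
    intro n hn
    rw [hg]
    exact (Shift_norm t hn).le
  have hgs : ∑ n ∈ Ioc a b, (n : ℂ) ^ (-(t * Complex.I)) = ∑ n ∈ Ioc a b, g n := by rw [hg]
  rw [hgs, ← hc]
  obtain ⟨S, hS⟩ : ∃ S : ℂ, S = ∑ n ∈ Ioc a b, g n := ⟨_, rfl⟩
  rw [← hS]
  -- the average
  have h1 : ‖∑ x ∈ Icc 1 M, ∑ y ∈ Icc 1 M, ∑ n ∈ Ioc a b, g (n + x * y) - (M : ℂ) ^ 2 * S‖ ≤
      (M : ℝ) ^ 2 * (2 * (M : ℝ) ^ 2) := by
    have e1 : (M : ℂ) ^ 2 * S = ∑ x ∈ Icc 1 M, ∑ y ∈ Icc 1 M, S := by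
      rw [Finset.sum_const, Finset.sum_const, Nat.card_Icc, Nat.add_sub_cancel, nsmul_eq_mul,
        nsmul_eq_mul]
      ring
    have e2 : (M : ℝ) ^ 2 * (2 * (M : ℝ) ^ 2) =
        ∑ x ∈ Icc 1 M, ∑ y ∈ Icc 1 M, 2 * (M : ℝ) ^ 2 := by
      rw [Finset.sum_const, Finset.sum_const, Nat.card_Icc, Nat.add_sub_cancel, nsmul_eq_mul,
        nsmul_eq_mul]
      ring
    rw [e1, e2, ← Finset.sum_sub_distrib]
    refine (norm_sum_le _ _).trans (Finset.sum_le_sum fun x hx => ?_)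
    rw [← Finset.sum_sub_distrib]
    refine (norm_sum_le _ _).trans (Finset.sum_le_sum fun y hy => ?_)
    rw [Finset.mem_Icc] at hx hy
    have h2 := Shift_h g hg1 a hab.le (x * y)
    rw [← hS] at h2
    refine h2.trans ?_
    have h3 : ((x * y : ℕ) : ℝ) ≤ (M : ℝ) ^ 2 := by
      have : x * y ≤ M ^ 2 := by
        rw [sq]
        exact Nat.mul_le_mul hx.2 hy.2
      exact_mod_cast this
    linarith
  -- the terms
  have h2 : ‖∑ x ∈ Icc 1 M, ∑ y ∈ Icc 1 M, ∑ n ∈ Ioc a b, g (n + x * y)‖ ≤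
      ∑ n ∈ Ioc a b, ‖U t k M n‖ + ((b : ℝ) - a) * ((M : ℝ) ^ 2 * (2 * t * c ^ (k + 1))) := by
    have e1 : ∑ x ∈ Icc 1 M, ∑ y ∈ Icc 1 M, ∑ n ∈ Ioc a b, g (n + x * y) =
        ∑ n ∈ Ioc a b, ∑ x ∈ Icc 1 M, ∑ y ∈ Icc 1 M, g (n + x * y) := by
      symm
      rw [Finset.sum_comm]
      apply Finset.sum_congr rfl
      intro x _
      rw [Finset.sum_comm]
    rw [e1]
    have e2 : ((b : ℝ) - a) * ((M : ℝ) ^ 2 * (2 * t * c ^ (k + 1))) =
        ∑ n ∈ Ioc a b, (M : ℝ) ^ 2 * (2 * t * c ^ (k + 1)) := by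
      rw [Finset.sum_const, Nat.card_Ioc, nsmul_eq_mul, Nat.cast_sub hab.le]
    rw [e2, ← Finset.sum_add_distrib]
    refine (norm_sum_le _ _).trans (Finset.sum_le_sum fun n hn => ?_)
    rw [Finset.mem_Ioc] at hn
    have hn0 : 0 < n := by omega
    have hn' : (a : ℝ) ≤ n := by exact_mod_cast hn.1.le
    have h3 : ‖∑ x ∈ Icc 1 M, ∑ y ∈ Icc 1 M, g (n + x * y) - g n * U t k M n‖ ≤
        (M : ℝ) ^ 2 * (2 * t * c ^ (k + 1)) := by
      have e3 : (M : ℝ) ^ 2 * (2 * t * c ^ (k + 1)) =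
          ∑ x ∈ Icc 1 M, ∑ y ∈ Icc 1 M, 2 * t * c ^ (k + 1) := by
        rw [Finset.sum_const, Finset.sum_const, Nat.card_Icc, Nat.add_sub_cancel, nsmul_eq_mul,
          nsmul_eq_mul]
        ring
      unfold U
      rw [e3, Finset.mul_sum, ← Finset.sum_sub_distrib]
      refine (norm_sum_le _ _).trans (Finset.sum_le_sum fun x hx => ?_)
      rw [Finset.mul_sum, ← Finset.sum_sub_distrib]
      refine (norm_sum_le _ _).trans (Finset.sum_le_sum fun y hy => ?_)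
      rw [Finset.mem_Icc] at hx hy
      rw [hg]
      apply Shift_term ht k hn0 c _ hc2
      rw [hc]
      have h4 : (x : ℝ) * y ≤ (M : ℝ) ^ 2 := by
        have : x * y ≤ M ^ 2 := by
          rw [sq]
          exact Nat.mul_le_mul hx.2 hy.2
        exact_mod_cast this
      have hn'' : (0 : ℝ) < n := by exact_mod_cast hn0
      rw [div_le_div_iff₀ hn'' ha']
      have h5 : (0 : ℝ) ≤ (x : ℝ) * y := by positivity
      nlinarith
    have h4 : ‖g n * U t k M n‖ ≤ ‖U t k M n‖ := by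
      rw [norm_mul]
      have := hg1 n hn0
      have h5 := norm_nonneg (U t k M n)
      nlinarith
    have h5 : ∑ x ∈ Icc 1 M, ∑ y ∈ Icc 1 M, g (n + x * y) =
        g n * U t k M n + (∑ x ∈ Icc 1 M, ∑ y ∈ Icc 1 M, g (n + x * y) - g n * U t k M n) := by
      ring
    rw [h5]
    refine (norm_add_le _ _).trans ?_
    linarith
  have h3 : (M : ℝ) ^ 2 * ‖S‖ ≤ ∑ n ∈ Ioc a b, ‖U t k M n‖ +
      ((b : ℝ) - a) * ((M : ℝ) ^ 2 * (2 * t * c ^ (k + 1))) + (M : ℝ) ^ 2 * (2 * (M : ℝ) ^ 2) := by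
    have e1 : (M : ℝ) ^ 2 * ‖S‖ = ‖(M : ℂ) ^ 2 * S‖ := by
      rw [norm_mul, norm_pow, Complex.norm_natCast]
    rw [e1]
    have e2 : (M : ℂ) ^ 2 * S = ∑ x ∈ Icc 1 M, ∑ y ∈ Icc 1 M, ∑ n ∈ Ioc a b, g (n + x * y) -
        (∑ x ∈ Icc 1 M, ∑ y ∈ Icc 1 M, ∑ n ∈ Ioc a b, g (n + x * y) - (M : ℂ) ^ 2 * S) := by ring
    rw [e2]
    refine (norm_sub_le _ _).trans ?_
    linarith
  have hM2 : (0 : ℝ) < (M : ℝ) ^ 2 := by positivity
  have h4 : ‖S‖ ≤ (∑ n ∈ Ioc a b, ‖U t k M n‖ +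
      ((b : ℝ) - a) * ((M : ℝ) ^ 2 * (2 * t * c ^ (k + 1))) +
        (M : ℝ) ^ 2 * (2 * (M : ℝ) ^ 2)) / (M : ℝ) ^ 2 := by
    rw [le_div_iff₀ hM2]
    linarith
  refine h4.trans (le_of_eq ?_)
  field_simp
  ring

end VKZ
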