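import Pool.Agent.VKZ.Linnik
import Pool.Agent.VKZ.Fin1

/-!
# VKZ.StepR: the recursive inequality for `R1`

PROOF. Let `Q > (k + t) X^k` be an integer (large). For `a : Fin k → ZMod Q` let
`f(a) = ∑_{x<X} e(∑_j a_j x^j / Q)` (`j = 1..k`), `F(a)` the same exponential sum over the vectors
`(x_1, ..., x_k)` distinct modulo `p`, `f_u(a)` the part of `f` with `x ≡ u (mod p)`, `0 ≤ u < p`. Then
`R1 = Q^(-k) ∑_a |F(a)|² |f(a)|^(2t)` (orthogonality; all differences are less than `Q` in absolute value),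
and by Hölder `|f|^(2t) ≤ p^(2t-1) ∑_u |f_u|^(2t)`. So `R1 ≤ p^(2t) max_u Q^(-k) ∑_a |F|² |f_u|^(2t)`, and this
counts the solutions of
`∑_{i≤k} (x_i^j - y_i^j) = ∑_{i≤t} ((p z_i + u)^j - (p w_i + u)^j)`, `1 ≤ j ≤ k`,
with `p z_i + u, p w_i + u < X` (so `z_i, w_i ≤ X/p`, they lie in `Fin (X/p + 1)`) and `x`, `y` distinct
modulo `p`. Translation by `-u` (binomial theorem): equivalent to
`∑ ((x_i - u)^j - (y_i - u)^j) = p^j ∑ (z_i^j - w_i^j)`. So for each of the at most `X^k` vectors `y` the vector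
`x` satisfies the congruences of `linnik` with `lam j = ∑ (y_i - u)^j`: at most `k! p^(k(k-1)/2)` vectors `x`.
For given `x`, `y` the number of `(z, w)` is at most `J k t (X/p + 1)` (`J_coeff`).
(One may replace the finite Fourier analysis by any other proof of the Hölder step.)
-/

namespace VKZ

open Finset

private theorem StepR_orth {G : Type} [AddCommGroup G] [Fintype G] [DecidableEq G] {α : Type}
    (A : Finset α) (φ : α → G) :
    ((((A ×ˢ A).filter fun w => φ w.1 = φ w.2).card : ℕ) : ℝ) * Fintype.card G =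
      ∑ ψ : AddChar G ℂ, ‖∑ a ∈ A, ψ (φ a)‖ ^ 2 := by
  apply Complex.ofReal_injective
  push_cast
  have h1 : ∀ ψ : AddChar G ℂ, ((‖∑ a ∈ A, ψ (φ a)‖ : ℝ) : ℂ) ^ 2 =
      ∑ w ∈ A ×ˢ A, ψ (φ w.1 - φ w.2) := by
    intro ψ
    rw [← Complex.mul_conj', map_sum, Finset.sum_mul_sum, Finset.sum_product]
    refine Finset.sum_congr rfl fun a _ => Finset.sum_congr rfl fun b _ => ?_
    rw [sub_eq_add_neg, AddChar.map_add_eq_mul, AddChar.map_neg_eq_conj]
  rw [Finset.sum_congr rfl fun ψ _ => h1 ψ, Finset.sum_comm]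
  rw [Finset.sum_congr rfl fun w _ => AddChar.sum_apply_eq_ite (φ w.1 - φ w.2)]
  rw [← Finset.sum_filter, Finset.sum_const, nsmul_eq_mul]
  congr 2
  refine congrArg Finset.card (Finset.filter_congr fun w _ => ?_)
  exact sub_eq_zero.symm

private theorem StepR_map_sum {G : Type} [AddCommGroup G] (ψ : AddChar G ℂ) {ι : Type}
    (s : Finset ι) (f : ι → G) : ψ (∑ i ∈ s, f i) = ∏ i ∈ s, ψ (f i) := by
  classical
  induction s using Finset.induction_on with
  | empty => simp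
  | insert a s ha ih => rw [Finset.sum_insert ha, Finset.prod_insert ha, AddChar.map_add_eq_mul, ih]

/-- The vector of powers modulo `Q`. -/
private def StepR_v (k Q : ℕ) (x : ℕ) : Fin k → ZMod Q := fun j => (x : ZMod Q) ^ ((j : ℕ) + 1)

private def StepR_Phi (k t X Q : ℕ) (a : (Fin k → Fin X) × (Fin t → Fin X)) : Fin k → ZMod Q :=
  ∑ i, StepR_v k Q (a.1 i) + ∑ i, StepR_v k Q (a.2 i)

private theorem StepR_factor {k t X Q : ℕ} [NeZero Q] (D : Finset (Fin k → Fin X))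
    (U : Finset (Fin X)) (ψ : AddChar (Fin k → ZMod Q) ℂ) :
    ∑ a ∈ D ×ˢ Fintype.piFinset (fun _ : Fin t => U), ψ (StepR_Phi k t X Q a) =
      (∑ x ∈ D, ψ (∑ i, StepR_v k Q (x i))) * (∑ x ∈ U, ψ (StepR_v k Q x)) ^ t := by
  have h1 : (∑ x ∈ U, ψ (StepR_v k Q x)) ^ t =
      ∑ z ∈ Fintype.piFinset (fun _ : Fin t => U), ∏ i, ψ (StepR_v k Q (z i)) := by
    rw [← Finset.prod_univ_sum (fun _ : Fin t => U) (fun _ x => ψ (StepR_v k Q x)),
      Finset.prod_const, Finset.card_univ, Fintype.card_fin]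
  rw [h1, Finset.sum_mul_sum, Finset.sum_product]
  refine Finset.sum_congr rfl fun x _ => Finset.sum_congr rfl fun z _ => ?_
  unfold StepR_Phi
  rw [AddChar.map_add_eq_mul, StepR_map_sum ψ univ (fun i => StepR_v k Q (z i))]

open Classical in
/-- Number of solutions modulo `Q`, the second part of the variables in `U`. -/
private noncomputable def StepR_N (k t X Q : ℕ) (D : Finset (Fin k → Fin X)) (U : Finset (Fin X)) : ℕ :=
  (((D ×ˢ Fintype.piFinset (fun _ : Fin t => U)) ×ˢ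
    (D ×ˢ Fintype.piFinset (fun _ : Fin t => U))).filter fun w =>
      StepR_Phi k t X Q w.1 = StepR_Phi k t X Q w.2).card

private theorem StepR_N_eq {k t X Q : ℕ} [NeZero Q] (D : Finset (Fin k → Fin X))
    (U : Finset (Fin X)) :
    (StepR_N k t X Q D U : ℝ) * Fintype.card (Fin k → ZMod Q) =
      ∑ ψ : AddChar (Fin k → ZMod Q) ℂ, ‖∑ x ∈ D, ψ (∑ i, StepR_v k Q (x i))‖ ^ 2 *
        ‖∑ x ∈ U, ψ (StepR_v k Q x)‖ ^ (2 * t) := by
  classical
  have h := StepR_orth (D ×ˢ Fintype.piFinset (fun _ : Fin t => U)) (StepR_Phi k t X Q)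
  have h2 : (StepR_N k t X Q D U : ℝ) = ((((D ×ˢ Fintype.piFinset (fun _ : Fin t => U)) ×ˢ
    (D ×ˢ Fintype.piFinset (fun _ : Fin t => U))).filter fun w =>
      StepR_Phi k t X Q w.1 = StepR_Phi k t X Q w.2).card : ℕ) := by
    unfold StepR_N
    congr 1
  rw [h2, h]
  refine Finset.sum_congr rfl fun ψ _ => ?_
  rw [StepR_factor, norm_mul, norm_pow, mul_pow, ← pow_mul, mul_comm t 2]

/-- Splitting into residue classes. -/
private theorem StepR_split {X p t : ℕ} (ht : 1 ≤ t) (hp : 1 ≤ p) (g : Fin X → ℂ) :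
    ‖∑ x, g x‖ ^ (2 * t) ≤ (p : ℝ) ^ (2 * t - 1) *
      ∑ u ∈ range p, ‖∑ x ∈ univ.filter (fun x : Fin X => (x : ℕ) % p = u), g x‖ ^ (2 * t) := by
  have h1 : ∑ x, g x = ∑ u ∈ range p, ∑ x ∈ univ.filter (fun x : Fin X => (x : ℕ) % p = u), g x := by
    rw [Finset.sum_fiberwise_of_maps_to]
    intro x _
    exact Finset.mem_range.2 (Nat.mod_lt _ hp)
  have h2 : ‖∑ x, g x‖ ≤ ∑ u ∈ range p,
      ‖∑ x ∈ univ.filter (fun x : Fin X => (x : ℕ) % p = u), g x‖ := by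
    rw [h1]
    exact norm_sum_le _ _
  have h3 := pow_sum_div_card_le_sum_pow (s := range p)
    (f := fun u => ‖∑ x ∈ univ.filter (fun x : Fin X => (x : ℕ) % p = u), g x‖)
    (fun _ _ => norm_nonneg _) (2 * t - 1)
  have h4 : 2 * t - 1 + 1 = 2 * t := by omega
  rw [h4, Finset.card_range, div_le_iff₀ (by positivity)] at h3
  calc ‖∑ x, g x‖ ^ (2 * t) ≤ _ := pow_le_pow_left₀ (norm_nonneg _) h2 _
    _ ≤ _ := h3
    _ = _ := mul_comm _ _

private theorem StepR_holder {k t X Q p : ℕ} [NeZero Q] (ht : 1 ≤ t) (hp : 1 ≤ p)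
    (D : Finset (Fin k → Fin X)) {M : ℕ}
    (hM : ∀ u < p, StepR_N k t X Q D (univ.filter (fun x : Fin X => (x : ℕ) % p = u)) ≤ M) :
    StepR_N k t X Q D univ ≤ p ^ (2 * t) * M := by
  have hG : (0 : ℝ) < Fintype.card (Fin k → ZMod Q) := by
    exact_mod_cast Fintype.card_pos
  have h1 : (StepR_N k t X Q D univ : ℝ) * Fintype.card (Fin k → ZMod Q) ≤
      ((p : ℝ) ^ (2 * t) * M) * Fintype.card (Fin k → ZMod Q) := by
    rw [StepR_N_eq]
    calc ∑ ψ : AddChar (Fin k → ZMod Q) ℂ, ‖∑ x ∈ D, ψ (∑ i, StepR_v k Q (x i))‖ ^ 2 *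
          ‖∑ x : Fin X, ψ (StepR_v k Q x)‖ ^ (2 * t)
        ≤ ∑ ψ : AddChar (Fin k → ZMod Q) ℂ, ‖∑ x ∈ D, ψ (∑ i, StepR_v k Q (x i))‖ ^ 2 *
          ((p : ℝ) ^ (2 * t - 1) * ∑ u ∈ range p,
            ‖∑ x ∈ univ.filter (fun x : Fin X => (x : ℕ) % p = u), ψ (StepR_v k Q x)‖ ^ (2 * t)) :=
          Finset.sum_le_sum fun ψ _ => mul_le_mul_of_nonneg_left
            (StepR_split ht hp fun x => ψ (StepR_v k Q x)) (by positivity)
      _ = (p : ℝ) ^ (2 * t - 1) * ∑ u ∈ range p,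
          (StepR_N k t X Q D (univ.filter (fun x : Fin X => (x : ℕ) % p = u)) : ℝ) *
            Fintype.card (Fin k → ZMod Q) := by
          rw [Finset.sum_congr rfl fun u _ => StepR_N_eq (t := t) D
            (univ.filter (fun x : Fin X => (x : ℕ) % p = u))]
          rw [Finset.sum_comm, Finset.mul_sum]
          refine Finset.sum_congr rfl fun ψ _ => ?_
          rw [← Finset.mul_sum]
          ring
      _ ≤ (p : ℝ) ^ (2 * t - 1) * ∑ u ∈ range p, (M : ℝ) * Fintype.card (Fin k → ZMod Q) := by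
          refine mul_le_mul_of_nonneg_left (Finset.sum_le_sum fun u hu => ?_) (by positivity)
          refine mul_le_mul_of_nonneg_right ?_ hG.le
          exact_mod_cast hM u (Finset.mem_range.1 hu)
      _ = ((p : ℝ) ^ (2 * t) * M) * Fintype.card (Fin k → ZMod Q) := by
          rw [Finset.sum_const, Finset.card_range, nsmul_eq_mul]
          obtain ⟨m, hm⟩ : ∃ m, 2 * t = m + 1 := ⟨2 * t - 1, by omega⟩
          rw [hm, Nat.add_sub_cancel, pow_succ]
          ring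
  have h2 := le_of_mul_le_mul_right h1 hG
  exact_mod_cast h2

private theorem StepR_bound {X n j k : ℕ} (x : Fin n → Fin X) (hj : j ≤ k) :
    ∑ i, (x i : ℕ) ^ j ≤ n * X ^ k := by
  calc ∑ i, (x i : ℕ) ^ j ≤ ∑ _i : Fin n, X ^ k := by
        refine Finset.sum_le_sum fun i _ => ?_
        have h1 : (x i : ℕ) < X := (x i).2
        calc (x i : ℕ) ^ j ≤ X ^ j := Nat.pow_le_pow_left h1.le j
          _ ≤ X ^ k := Nat.pow_le_pow_right (by omega) hj
    _ = n * X ^ k := by simp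

/-- From equality modulo `Q` to equality. -/
private theorem StepR_lift {k t X Q : ℕ} (hQ : (k + t) * X ^ k < Q)
    {a b : (Fin k → Fin X) × (Fin t → Fin X)}
    (h : StepR_Phi k t X Q a = StepR_Phi k t X Q b) {j : ℕ} (hj : j ∈ Icc 1 k) :
    ∑ i, (a.1 i : ℕ) ^ j + ∑ i, (a.2 i : ℕ) ^ j = ∑ i, (b.1 i : ℕ) ^ j + ∑ i, (b.2 i : ℕ) ^ j := by
  rw [Finset.mem_Icc] at hj
  have hlt : ∀ c : (Fin k → Fin X) × (Fin t → Fin X),
      ∑ i, (c.1 i : ℕ) ^ j + ∑ i, (c.2 i : ℕ) ^ j < Q := by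
    intro c
    calc ∑ i, (c.1 i : ℕ) ^ j + ∑ i, (c.2 i : ℕ) ^ j ≤ k * X ^ k + t * X ^ k :=
          add_le_add (StepR_bound c.1 hj.2) (StepR_bound c.2 hj.2)
      _ = (k + t) * X ^ k := by ring
      _ < Q := hQ
  have h1 := congrFun h ⟨j - 1, by omega⟩
  have h2 : ∀ c : (Fin k → Fin X) × (Fin t → Fin X), StepR_Phi k t X Q c ⟨j - 1, by omega⟩ =
      ((∑ i, (c.1 i : ℕ) ^ j + ∑ i, (c.2 i : ℕ) ^ j : ℕ) : ZMod Q) := by
    intro c
    have hj' : j - 1 + 1 = j := by omega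
    simp only [StepR_Phi, StepR_v, Pi.add_apply, Finset.sum_apply, hj']
    push_cast
    rfl
  rw [h2, h2, ZMod.natCast_eq_natCast_iff] at h1
  exact Nat.ModEq.eq_of_lt_of_lt h1 (hlt a) (hlt b)

private theorem StepR_binom {n : ℕ} (x : Fin n → ℤ) (u : ℤ) (j : ℕ) :
    ∑ i, (x i - u) ^ j = ∑ m ∈ range (j + 1), (∑ i, x i ^ m) * ((-u) ^ (j - m) * (j.choose m : ℤ)) := by
  have h1 : ∀ i, (x i - u) ^ j = ∑ m ∈ range (j + 1), x i ^ m * ((-u) ^ (j - m) * (j.choose m : ℤ)) := by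
    intro i
    rw [sub_eq_add_neg, add_pow]
    exact Finset.sum_congr rfl fun m _ => mul_assoc _ _ _
  rw [Finset.sum_congr rfl fun i _ => h1 i, Finset.sum_comm]
  exact Finset.sum_congr rfl fun m _ => (Finset.sum_mul _ _ _).symm

/-- Translation. -/
private theorem StepR_trans {k t X : ℕ} {a b : (Fin k → Fin X) × (Fin t → Fin X)}
    (h : ∀ j ∈ Icc 1 k,
      ∑ i, (a.1 i : ℕ) ^ j + ∑ i, (a.2 i : ℕ) ^ j = ∑ i, (b.1 i : ℕ) ^ j + ∑ i, (b.2 i : ℕ) ^ j)
    (u : ℤ) {j : ℕ} (hj : j ∈ Icc 1 k) :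
    ∑ i, (((a.1 i : ℕ) : ℤ) - u) ^ j + ∑ i, (((a.2 i : ℕ) : ℤ) - u) ^ j =
      ∑ i, (((b.1 i : ℕ) : ℤ) - u) ^ j + ∑ i, (((b.2 i : ℕ) : ℤ) - u) ^ j := by
  rw [StepR_binom (fun i => ((a.1 i : ℕ) : ℤ)) u j, StepR_binom (fun i => ((a.2 i : ℕ) : ℤ)) u j,
    StepR_binom (fun i => ((b.1 i : ℕ) : ℤ)) u j, StepR_binom (fun i => ((b.2 i : ℕ) : ℤ)) u j,
    ← Finset.sum_add_distrib, ← Finset.sum_add_distrib]
  refine Finset.sum_congr rfl fun m hm => ?_
  rw [← add_mul, ← add_mul]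
  congr 1
  rw [Finset.mem_Icc] at hj
  rcases Nat.eq_zero_or_pos m with h0 | h0
  · subst h0
    simp
  · have hm' := Finset.mem_range.1 hm
    have h1 := h m (Finset.mem_Icc.2 ⟨h0, by omega⟩)
    exact_mod_cast h1

open Classical in
private theorem StepR_class {k t X p Q : ℕ} (hk : 1 ≤ k) (hp : p.Prime) (hkp : k < p)
    (hX : X ≤ p ^ k) (hQ : (k + t) * X ^ k < Q) {u : ℕ} (hu : u < p) :
    StepR_N k t X Q (univ.filter fun x : Fin k → Fin X =>
        ∀ i i' : Fin k, i ≠ i' → ¬ ((x i : ℕ) ≡ (x i' : ℕ) [MOD p]))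
      (univ.filter (fun x : Fin X => (x : ℕ) % p = u)) ≤
      J k t (X / p + 1) * ((k.factorial * p ^ (k * (k - 1) / 2)) * X ^ k) := by
  set T : Finset ((Fin k → Fin X) × (Fin k → Fin X)) := univ.filter fun w =>
    (∀ i i' : Fin k, i ≠ i' → ¬ ((w.2 i : ℕ) ≡ (w.2 i' : ℕ) [MOD p])) ∧
      ∀ j ∈ Icc 1 k, (p : ℤ) ^ j ∣ ∑ i, (((w.2 i : ℕ) : ℤ) - u) ^ j -
        ∑ i, (((w.1 i : ℕ) : ℤ) - u) ^ j with hT
  have hTcard : T.card ≤ (k.factorial * p ^ (k * (k - 1) / 2)) * X ^ k := by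
    have h1 := Finset.card_le_mul_card_image_of_maps_to (s := T)
      (t := (univ : Finset (Fin k → Fin X))) (f := Prod.fst) (fun _ _ => Finset.mem_univ _)
      (k.factorial * p ^ (k * (k - 1) / 2)) ?_
    · simpa using h1
    · intro y _
      refine le_trans ?_ (linnik (X := X) hk hp hkp hX (u : ℤ)
        (fun j => ∑ i, (((y i : ℕ) : ℤ) - u) ^ j))
      refine Finset.card_le_card_of_injOn Prod.snd ?_ ?_
      · intro w hw
        rw [Finset.mem_coe, Finset.mem_filter, hT, Finset.mem_filter] at hw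
        obtain ⟨⟨-, h2, h3⟩, rfl⟩ := hw
        simp only [Finset.coe_filter, Finset.mem_univ, true_and, Set.mem_ofPred_eq]
        exact ⟨h2, h3⟩
      · intro w hw w' hw' h
        rw [Finset.mem_coe, Finset.mem_filter] at hw hw'
        exact Prod.ext (hw.2.trans hw'.2.symm) h
  have hpj : ∀ j, (p : ℤ) ^ j ≠ 0 := fun j => pow_ne_zero _ (by exact_mod_cast hp.ne_zero)
  -- the main equation
  have hmain : ∀ a b : (Fin k → Fin X) × (Fin t → Fin X),
      (∀ i, (a.2 i : ℕ) % p = u) → (∀ i, (b.2 i : ℕ) % p = u) →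
      StepR_Phi k t X Q a = StepR_Phi k t X Q b → ∀ j ∈ Icc 1 k,
      ∑ i, (((a.1 i : ℕ) : ℤ) - u) ^ j - ∑ i, (((b.1 i : ℕ) : ℤ) - u) ^ j =
        (p : ℤ) ^ j * (∑ i, (((b.2 i : ℕ) / p : ℕ) : ℤ) ^ j - ∑ i, (((a.2 i : ℕ) / p : ℕ) : ℤ) ^ j) := by
    intro a b ha hb hab j hj
    have h1 := StepR_trans (fun j hj => StepR_lift hQ hab hj) (u : ℤ) hj
    have h2 : ∀ c : Fin t → Fin X, (∀ i, (c i : ℕ) % p = u) →
        ∑ i, (((c i : ℕ) : ℤ) - u) ^ j = (p : ℤ) ^ j * ∑ i, (((c i : ℕ) / p : ℕ) : ℤ) ^ j := by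
      intro c hc
      rw [Finset.mul_sum]
      refine Finset.sum_congr rfl fun i _ => ?_
      rw [← mul_pow]
      congr 1
      have h3 := Nat.div_add_mod (c i : ℕ) p
      rw [hc i] at h3
      have h4 : ((c i : ℕ) : ℤ) = (p : ℤ) * (((c i : ℕ) / p : ℕ) : ℤ) + (u : ℤ) := by
        exact_mod_cast h3.symm
      linarith
    rw [h2 a.2 ha, h2 b.2 hb] at h1
    rw [mul_sub]
    linarith
  unfold StepR_N
  refine le_trans (Finset.card_le_mul_card_image_of_maps_to (t := T)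
    (f := fun w : (((Fin k → Fin X) × (Fin t → Fin X)) × ((Fin k → Fin X) × (Fin t → Fin X))) =>
      (w.2.1, w.1.1)) ?_ (J k t (X / p + 1)) ?_) (Nat.mul_le_mul_left _ hTcard)
  · intro w hw
    simp only [Finset.mem_filter, Finset.mem_product, Fintype.mem_piFinset, Finset.mem_univ,
      true_and] at hw
    obtain ⟨⟨⟨h1, h2⟩, h3, h4⟩, h5⟩ := hw
    rw [hT, Finset.mem_filter]
    refine ⟨Finset.mem_univ _, h1, fun j hj => ?_⟩
    exact ⟨_, hmain w.1 w.2 h2 h4 h5 j hj⟩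
  · rintro ⟨y, x⟩ _
    refine le_trans ?_ (J_coeff k t (X / p + 1) 0 (fun j =>
      (∑ i, (((y i : ℕ) : ℤ) - u) ^ j - ∑ i, (((x i : ℕ) : ℤ) - u) ^ j) / (p : ℤ) ^ j))
    have hdiv : ∀ c : Fin X, (c : ℕ) / p < X / p + 1 := fun c =>
      Nat.lt_succ_of_le (Nat.div_le_div_right c.2.le)
    refine Finset.card_le_card_of_injOn (fun w =>
      ((fun i => (⟨(w.1.2 i : ℕ) / p, hdiv _⟩ : Fin (X / p + 1))),
        (fun i => (⟨(w.2.2 i : ℕ) / p, hdiv _⟩ : Fin (X / p + 1))))) ?_ ?_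
    · intro w hw
      simp only [Finset.coe_filter, Finset.mem_filter, Finset.mem_product, Fintype.mem_piFinset,
        Finset.mem_univ, true_and, Set.mem_ofPred_eq, Prod.mk.injEq] at hw
      obtain ⟨⟨⟨⟨h1, h2⟩, h3, h4⟩, h5⟩, rfl, rfl⟩ := hw
      simp only [Finset.coe_filter, Finset.mem_univ, true_and, Set.mem_ofPred_eq, add_zero]
      intro j hj
      have h6 := hmain w.1 w.2 h2 h4 h5 j hj
      symm
      refine Int.ediv_eq_of_eq_mul_right (hpj j) ?_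
      rw [← neg_sub, h6, ← mul_neg, neg_sub]
    · intro w hw w' hw' h
      simp only [Finset.coe_filter, Finset.mem_filter, Finset.mem_product, Fintype.mem_piFinset,
        Finset.mem_univ, true_and, Set.mem_ofPred_eq, Prod.mk.injEq] at hw hw'
      obtain ⟨⟨⟨⟨h1, h2⟩, h3, h4⟩, h5⟩, h6, h7⟩ := hw
      obtain ⟨⟨⟨⟨h1', h2'⟩, h3', h4'⟩, h5'⟩, h6', h7'⟩ := hw'
      simp only [Prod.mk.injEq] at h
      obtain ⟨h8, h9⟩ := h
      have hinj : ∀ c c' : Fin t → Fin X, (∀ i, (c i : ℕ) % p = u) → (∀ i, (c' i : ℕ) % p = u) →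
          (fun i => (⟨(c i : ℕ) / p, hdiv _⟩ : Fin (X / p + 1))) =
            (fun i => (⟨(c' i : ℕ) / p, hdiv _⟩ : Fin (X / p + 1))) → c = c' := by
        intro c c' hc hc' hcc
        funext i
        have h10 := congrArg Fin.val (congrFun hcc i)
        simp only at h10
        apply Fin.ext
        rw [← Nat.div_add_mod (c i : ℕ) p, ← Nat.div_add_mod (c' i : ℕ) p, hc i, hc' i, h10]
      refine Prod.ext (Prod.ext (h7.trans h7'.symm) ?_) (Prod.ext (h6.trans h6'.symm) ?_)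
      · exact hinj _ _ h2 h2' h8
      · exact hinj _ _ h4 h4' h9

theorem R1_le {k t X p : ℕ} (hk : 1 ≤ k) (ht : 1 ≤ t) (hp : p.Prime) (hkp : k < p) (hX : X ≤ p ^ k)
    (hX1 : 1 ≤ X) :
    R1 k t X p ≤ p ^ (2 * t) * (k.factorial * p ^ (k * (k - 1) / 2)) * X ^ k * J k t (X / p + 1) := by
  classical
  set Q : ℕ := (k + t) * X ^ k + 1 with hQ
  have : NeZero Q := ⟨by omega⟩
  have h1 := StepR_holder (k := k) (t := t) (X := X) (Q := Q) (p := p) ht hp.one_lt.le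
    (univ.filter fun x : Fin k → Fin X =>
        ∀ i i' : Fin k, i ≠ i' → ¬ ((x i : ℕ) ≡ (x i' : ℕ) [MOD p]))
    (M := J k t (X / p + 1) * ((k.factorial * p ^ (k * (k - 1) / 2)) * X ^ k)) ?_
  · refine le_trans ?_ (h1.trans (le_of_eq (by ring)))
    unfold R1 StepR_N
    refine Finset.card_le_card_of_injOn (fun w =>
      (((fun i => w.1 (Fin.castAdd t i)), (fun i => w.1 (Fin.natAdd k i))),
        ((fun i => w.2 (Fin.castAdd t i)), (fun i => w.2 (Fin.natAdd k i))))) ?_ ?_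
    · intro w hw
      simp only [Finset.coe_filter, Finset.mem_univ, true_and, Set.mem_ofPred_eq] at hw
      obtain ⟨h2, h3, h4⟩ := hw
      simp only [Finset.coe_filter, Finset.mem_filter, Finset.mem_product, Fintype.mem_piFinset,
        Finset.mem_univ, true_and, Set.mem_ofPred_eq, implies_true, and_true]
      refine ⟨⟨h3, h4⟩, ?_⟩
      funext j
      have h5 := h2 ((j : ℕ) + 1) (Finset.mem_Icc.2 ⟨by omega, j.2⟩)
      rw [Fin.sum_univ_add, Fin.sum_univ_add] at h5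
      have h6 := congrArg (fun n : ℤ => (n : ZMod Q)) h5
      simp only [StepR_Phi, StepR_v, Pi.add_apply, Finset.sum_apply]
      push_cast at h6
      exact h6
    · intro w _ w' _ h
      simp only [Prod.mk.injEq] at h
      obtain ⟨⟨h2, h3⟩, h4, h5⟩ := h
      refine Prod.ext ?_ ?_
      · funext i
        refine Fin.addCases (fun i => ?_) (fun i => ?_) i
        · exact congrFun h2 i
        · exact congrFun h3 i
      · funext i
        refine Fin.addCases (fun i => ?_) (fun i => ?_) i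
        · exact congrFun h4 i
        · exact congrFun h5 i
  · intro u hu
    exact StepR_class hk hp hkp hX (by omega) hu

end VKZ
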