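import Pool.Agent.VKZ.ExpS
import Pool.Agent.VKZ.Approx

/-!
# VKZ.ZBound: the zeta function near the line `Re s = 1`

PROOF. `s = σ + it`, `t ≥ t0` large, `1 - (log t)^(-9/10) ≤ σ ≤ 3`, `N = ⌈t^(5/4)⌉`. By `zeta_approx`
`|ζ(s) - ∑_{n≤N} n^(-s)| ≤ N^(1-σ)/t + 2 (t + 3) N^(-σ) ≤ 1` for large `t`. The terms with
`n ≤ N0 = exp((log t)^(9/10))`: `n^(-σ) ≤ n^(-1) n^(1-σ) ≤ e/n`, sum at most `e (1 + (log t)^(9/10))`. For
`N0 ≤ a < b ≤ 2a`, `b ≤ N` (so `a^(4/5) ≤ t`; for `a` slightly larger than `t^(5/4)` use blocks ending at `N`):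
by Abel summation `|∑_{a<n≤b} n^(-s)| ≤ C a^(-σ) max_{b'≤b} |∑_{a<n≤b'} n^(-it)|`
`≤ C' a^(1-σ) exp(-c (log a)^6/(log t)^5) ≤ C' exp(2 (log t)^(1/10) - c (log t)^(2/5)) ≤ 1/log t` for large `t`
(`log a ≤ 2 log t`); there are at most `3 log t` dyadic blocks. For negative `t` use conjugation
(`riemannZeta_conj` or `ζ(conj s) = conj ζ(s)`).
-/

namespace VKZ

open Finset Complex

private theorem ZBound_abel (f : ℕ → ℝ) (g : ℕ → ℂ) (B : ℝ) (n : ℕ) (hn : 1 ≤ n)
    (hf : Antitone f) (hf0 : ∀ i, 0 ≤ f i)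
    (hg : ∀ m ≤ n, ‖∑ i ∈ range m, g i‖ ≤ B) :
    ‖∑ i ∈ range n, (f i : ℂ) * g i‖ ≤ f 0 * B := by
  have h := Finset.sum_range_by_parts f g n
  simp only [Complex.real_smul] at h
  rw [h]
  have h1 : ‖(f (n - 1) : ℂ) * ∑ i ∈ range n, g i‖ ≤ f (n - 1) * B := by
    rw [norm_mul, Complex.norm_real, Real.norm_of_nonneg (hf0 _)]
    exact mul_le_mul_of_nonneg_left (hg n le_rfl) (hf0 _)
  have h2 : ‖∑ i ∈ range (n - 1), (((f (i + 1) - f i : ℝ)) : ℂ) * ∑ j ∈ range (i + 1), g j‖ ≤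
      ∑ i ∈ range (n - 1), (f i - f (i + 1)) * B := by
    refine (norm_sum_le _ _).trans (Finset.sum_le_sum fun i hi => ?_)
    rw [Finset.mem_range] at hi
    have h3 : f (i + 1) ≤ f i := hf (Nat.le_succ i)
    rw [norm_mul, Complex.norm_real, Real.norm_of_nonpos (by linarith), neg_sub]
    exact mul_le_mul_of_nonneg_left (hg (i + 1) (by omega)) (by linarith)
  rw [← Finset.sum_mul, Finset.sum_range_sub'] at h2
  calc _ ≤ f (n - 1) * B + (f 0 - f (n - 1)) * B := (norm_sub_le _ _).trans (add_le_add h1 h2)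
    _ = f 0 * B := by ring

private theorem ZBound_sum_shift (F : ℕ → ℂ) (a m : ℕ) :
    ∑ n ∈ Ioc a (a + m), F n = ∑ i ∈ range m, F (a + 1 + i) := by
  induction m with
  | zero => simp
  | succ m ih =>
    rw [Finset.sum_range_succ, ← ih, ← add_assoc, Finset.sum_Ioc_succ_top (Nat.le_add_right a m)]
    congr 2
    omega

private theorem ZBound_split (σ t : ℝ) (s : ℂ) (hs : s = (σ : ℂ) + t * I) (n : ℕ) (hn : n ≠ 0) :
    (n : ℂ) ^ (-s) = (((n : ℝ) ^ (-σ) : ℝ) : ℂ) * (n : ℂ) ^ (-(t * I)) := by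
  have h0 : (n : ℂ) ≠ 0 := by exact_mod_cast hn
  rw [hs, neg_add, Complex.cpow_add _ _ h0, Complex.ofReal_cpow (Nat.cast_nonneg n)]
  push_cast
  ring

private theorem ZBound_block {c C : ℝ} (hC : 1 ≤ C)
    (hE : ∀ (a b : ℕ) (t : ℝ), 2 ≤ a → a < b → b ≤ 2 * a → (a : ℝ) ^ ((4 : ℝ) / 5) ≤ t →
      ‖∑ n ∈ Ioc a b, (n : ℂ) ^ (-(t * Complex.I))‖ ≤
        C * a * Real.exp (-c * Real.log a ^ 6 / Real.log t ^ 5))
    {σ t x : ℝ} (hx : 2 ≤ x) (hcx : 1 ≤ c * x ^ 4) (hL : Real.log t = x ^ 10)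
    (hre : 1 - (x ^ 9)⁻¹ ≤ σ) (a : ℕ) (ha : 1 ≤ a)
    (hat : (a : ℝ) ^ ((4 : ℝ) / 5) ≤ t) (s : ℂ) (hs : s = (σ : ℂ) + t * I) :
    ‖∑ n ∈ Ioc a (2 * a), (n : ℂ) ^ (-s)‖ ≤ 3 + C := by
  have hx0 : 0 < x := by linarith
  have hx9 : (1 : ℝ) ≤ x ^ 9 := one_le_pow₀ (by linarith)
  have ha0 : (0 : ℝ) < a := by exact_mod_cast ha
  have hinv : (x ^ 9)⁻¹ ≤ 1 := inv_le_one_of_one_le₀ hx9
  have hσ0 : 0 ≤ σ := by linarith
  have hloga : 0 ≤ Real.log a := Real.log_nonneg (by exact_mod_cast ha)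
  have hpow : (a : ℝ) ^ (1 - σ) ≤ Real.exp ((x ^ 9)⁻¹ * Real.log a) := by
    rw [Real.rpow_def_of_pos ha0]
    apply Real.exp_le_exp.mpr
    rw [mul_comm]
    apply mul_le_mul_of_nonneg_right _ hloga
    linarith
  have hanti : ∀ n : ℕ, a ≤ n → (n : ℝ) ^ (-σ) ≤ (a : ℝ) ^ (-σ) := by
    intro n hn
    exact Real.rpow_le_rpow_of_nonpos ha0 (by exact_mod_cast hn) (by linarith)
  by_cases hcase : Real.log a ≤ x ^ 9
  · have h1 : ‖∑ n ∈ Ioc a (2 * a), (n : ℂ) ^ (-s)‖ ≤ a * (a : ℝ) ^ (-σ) := by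
      refine (norm_sum_le _ _).trans ?_
      have h2 : ∀ n ∈ Ioc a (2 * a), ‖(n : ℂ) ^ (-s)‖ ≤ (a : ℝ) ^ (-σ) := by
        intro n hn
        rw [Finset.mem_Ioc] at hn
        rw [Complex.norm_natCast_cpow_of_pos (by omega)]
        have : (-s).re = -σ := by rw [hs]; simp
        rw [this]
        exact hanti n hn.1.le
      refine (Finset.sum_le_sum h2).trans ?_
      rw [Finset.sum_const, Nat.card_Ioc, nsmul_eq_mul]
      apply le_of_eq
      congr 2
      omega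
    have h3 : a * (a : ℝ) ^ (-σ) = (a : ℝ) ^ (1 - σ) := by
      rw [sub_eq_add_neg, Real.rpow_add ha0, Real.rpow_one]
    have h4 : (x ^ 9)⁻¹ * Real.log a ≤ 1 := by
      rw [inv_mul_le_iff₀ (by positivity)]
      linarith
    have h5 : Real.exp ((x ^ 9)⁻¹ * Real.log a) ≤ Real.exp 1 := Real.exp_le_exp.mpr h4
    have h6 := Real.exp_one_lt_d9
    linarith
  · push Not at hcase
    have ha2 : 2 ≤ a := by
      by_contra hcon
      have : a = 1 := by omega
      rw [this] at hcase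
      simp at hcase
      linarith
    have ht1 : 1 ≤ t := by
      refine le_trans ?_ hat
      exact Real.one_le_rpow (by exact_mod_cast ha) (by norm_num)
    set B := C * a * Real.exp (-c * Real.log a ^ 6 / Real.log t ^ 5) with hB
    have hBpos : 0 ≤ B := by positivity
    have hsum : ∑ n ∈ Ioc a (2 * a), (n : ℂ) ^ (-s) = ∑ i ∈ range a,
        ((((a + 1 + i : ℕ) : ℝ) ^ (-σ) : ℝ) : ℂ) * ((a + 1 + i : ℕ) : ℂ) ^ (-(t * I)) := by
      rw [two_mul, ZBound_sum_shift]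
      exact Finset.sum_congr rfl fun i _ => ZBound_split σ t s hs _ (by omega)
    rw [hsum]
    have key := ZBound_abel (fun i => ((a + 1 + i : ℕ) : ℝ) ^ (-σ))
      (fun i => ((a + 1 + i : ℕ) : ℂ) ^ (-(t * I))) B a ha
      (by
        intro i j hij
        apply Real.rpow_le_rpow_of_nonpos (by positivity) (by exact_mod_cast (by omega)) (by linarith))
      (fun i => by positivity)
      (by
        intro m hm
        rcases Nat.eq_zero_or_pos m with h0 | h0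
        · rw [h0]
          simpa using hBpos
        · rw [← ZBound_sum_shift (fun n => (n : ℂ) ^ (-(t * I)))]
          exact hE a (a + m) t ha2 (by omega) (by omega) hat)
    refine key.trans ?_
    have h7 : ((a + 1 + 0 : ℕ) : ℝ) ^ (-σ) ≤ (a : ℝ) ^ (-σ) := hanti _ (by omega)
    have h8 : (a : ℝ) ^ (-σ) * B = C * ((a : ℝ) ^ (1 - σ) *
        Real.exp (-c * Real.log a ^ 6 / Real.log t ^ 5)) := by
      have h3 : (a : ℝ) ^ (1 - σ) = a * (a : ℝ) ^ (-σ) := by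
        rw [sub_eq_add_neg, Real.rpow_add ha0, Real.rpow_one]
      rw [h3, hB]
      ring
    have h9 : (a : ℝ) ^ (1 - σ) * Real.exp (-c * Real.log a ^ 6 / Real.log t ^ 5) ≤ 1 := by
      calc (a : ℝ) ^ (1 - σ) * Real.exp (-c * Real.log a ^ 6 / Real.log t ^ 5) ≤
          Real.exp ((x ^ 9)⁻¹ * Real.log a) * Real.exp (-c * Real.log a ^ 6 / Real.log t ^ 5) :=
            mul_le_mul_of_nonneg_right hpow (Real.exp_pos _).le
        _ = Real.exp ((x ^ 9)⁻¹ * Real.log a + -c * Real.log a ^ 6 / Real.log t ^ 5) := by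
            rw [Real.exp_add]
        _ ≤ Real.exp 0 := by
            apply Real.exp_le_exp.mpr
            rw [hL]
            have hu : 0 < Real.log a := lt_of_lt_of_le (by positivity) hcase.le
            have hu5 : (x ^ 9) ^ 5 ≤ Real.log a ^ 5 := pow_le_pow_left₀ (by positivity) hcase.le 5
            have hc0 : 0 < c := by
              by_contra hcon
              push Not at hcon
              have : c * x ^ 4 ≤ 0 := mul_nonpos_of_nonpos_of_nonneg hcon (by positivity)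
              linarith
            have e1 : (x ^ 9)⁻¹ * Real.log a + -c * Real.log a ^ 6 / (x ^ 10) ^ 5 =
                (Real.log a / x ^ 50) * (x ^ 41 - c * Real.log a ^ 5) := by
              field_simp
              ring
            rw [e1]
            apply mul_nonpos_of_nonneg_of_nonpos (by positivity)
            have e2 : x ^ 41 ≤ c * (x ^ 9) ^ 5 := by
              have : c * (x ^ 9) ^ 5 = (c * x ^ 4) * x ^ 41 := by ring
              rw [this]
              have h10 : (0 : ℝ) ≤ x ^ 41 := by positivity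
              nlinarith
            have e3 : c * (x ^ 9) ^ 5 ≤ c * Real.log a ^ 5 := mul_le_mul_of_nonneg_left hu5 hc0.le
            linarith
        _ = 1 := Real.exp_zero
    calc ((a + 1 + 0 : ℕ) : ℝ) ^ (-σ) * B ≤ (a : ℝ) ^ (-σ) * B :=
          mul_le_mul_of_nonneg_right h7 hBpos
      _ = C * ((a : ℝ) ^ (1 - σ) * Real.exp (-c * Real.log a ^ 6 / Real.log t ^ 5)) := h8
      _ ≤ C * 1 := mul_le_mul_of_nonneg_left h9 (by linarith)
      _ ≤ 3 + C := by linarith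

private theorem ZBound_dyadic (F : ℕ → ℂ) (D : ℝ) (J : ℕ)
    (h : ∀ j < J, ‖∑ n ∈ Ioc (2 ^ j) (2 * 2 ^ j), F n‖ ≤ D) :
    ‖∑ n ∈ Icc 1 (2 ^ J), F n‖ ≤ ‖F 1‖ + J * D := by
  induction J with
  | zero => simp
  | succ J ih =>
    have h1 := ih fun j hj => h j (by omega)
    have h2 := h J (by omega)
    have h3 : ∑ n ∈ Icc 1 (2 ^ (J + 1)), F n =
        ∑ n ∈ Icc 1 (2 ^ J), F n + ∑ n ∈ Ioc (2 ^ J) (2 * 2 ^ J), F n := by
      have hp : 1 ≤ 2 ^ J := Nat.one_le_two_pow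
      rw [pow_succ, mul_comm]
      rw [← Finset.sum_union]
      · congr 1
        ext n
        simp only [Finset.mem_Icc, Finset.mem_union, Finset.mem_Ioc]
        omega
      · rw [Finset.disjoint_left]
        intro n hn hn'
        rw [Finset.mem_Icc] at hn
        rw [Finset.mem_Ioc] at hn'
        omega
    rw [h3]
    refine (norm_add_le _ _).trans ?_
    push_cast
    linarith

theorem zeta_bound : ∃ C t0 : ℝ, 1 ≤ C ∧ 3 ≤ t0 ∧ ∀ s : ℂ, t0 ≤ |s.im| → s.re ≤ 3 →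
    1 - (Real.log |s.im|) ^ (-(9 : ℝ) / 10) ≤ s.re → ‖riemannZeta s‖ ≤ C * Real.log |s.im| := by
  obtain ⟨c, C, hc, hC, hE⟩ := exp_sum
  set X0 := max 2 (1 / c) with hX0
  have hX2 : 2 ≤ X0 := le_max_left _ _
  have hXc : 1 / c ≤ X0 := le_max_right _ _
  have main : ∀ s : ℂ, Real.exp (X0 ^ 10) ≤ s.im → s.re ≤ 3 →
      1 - (Real.log s.im) ^ (-(9 : ℝ) / 10) ≤ s.re →
      ‖riemannZeta s‖ ≤ (16 + 2 * C) * Real.log s.im := by
    intro s him hre3 hre
    set t := s.im with ht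
    set σ := s.re with hσ
    have ht0 : 0 < t := lt_of_lt_of_le (Real.exp_pos _) him
    have hL1 : X0 ^ 10 ≤ Real.log t := (Real.le_log_iff_exp_le ht0).mpr him
    have hL0 : 0 < Real.log t := lt_of_lt_of_le (by positivity) hL1
    set x := (Real.log t) ^ (1 / 10 : ℝ) with hx
    have hx0 : 0 < x := Real.rpow_pos_of_pos hL0 _
    have hx10 : x ^ 10 = Real.log t := by
      rw [hx, ← Real.rpow_natCast, ← Real.rpow_mul hL0.le]
      norm_num
    have hx9 : (Real.log t) ^ (-(9 : ℝ) / 10) = (x ^ 9)⁻¹ := by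
      rw [hx, ← Real.rpow_natCast, ← Real.rpow_mul hL0.le, ← Real.rpow_neg hL0.le]
      norm_num
    have hxX : X0 ≤ x := by
      rw [← hx10] at hL1
      exact le_of_pow_le_pow_left₀ (by norm_num) hx0.le hL1
    have hx2 : 2 ≤ x := hX2.trans hxX
    have hcx : 1 ≤ c * x ^ 4 := by
      have h1 : 1 ≤ c * x := by
        have h2 : 1 / c ≤ x := hXc.trans hxX
        rw [div_le_iff₀ hc] at h2
        linarith
      have h3 : x ≤ x ^ 4 := by
        calc x = x ^ 1 := (pow_one x).symm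
          _ ≤ x ^ 4 := pow_le_pow_right₀ (by linarith) (by norm_num)
      have := mul_le_mul_of_nonneg_left h3 hc.le
      linarith
    rw [hx9] at hre
    have hx9' : (512 : ℝ) ≤ x ^ 9 := by
      calc (512 : ℝ) = 2 ^ 9 := by norm_num
        _ ≤ x ^ 9 := pow_le_pow_left₀ (by norm_num) hx2 9
    have hinv : (x ^ 9)⁻¹ ≤ 1 / 10 := by
      rw [one_div]
      apply inv_anti₀ (by norm_num)
      linarith
    have hσ9 : 9 / 10 ≤ σ := by linarith
    have hlog1 : 1 ≤ Real.log t := by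
      rw [← hx10]
      exact one_le_pow₀ (by linarith)
    have ht1 : 1 ≤ t := by
      by_contra hcon
      push Not at hcon
      have := Real.log_neg ht0 hcon
      linarith
    have ht3 : 3 ≤ t := by
      have h1 : Real.exp 1024 ≤ t := by
        refine le_trans (Real.exp_le_exp.mpr ?_) him
        calc (1024 : ℝ) = 2 ^ 10 := by norm_num
          _ ≤ X0 ^ 10 := pow_le_pow_left₀ (by norm_num) hX2 10
      have h2 := Real.add_one_le_exp (1024 : ℝ)
      linarith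
    -- the number of blocks
    set n0 := ⌊t ^ ((5 : ℝ) / 4)⌋₊ with hn0
    have htp : 1 ≤ t ^ ((5 : ℝ) / 4) := Real.one_le_rpow ht1 (by norm_num)
    have hn1 : 1 ≤ n0 := Nat.le_floor (by exact_mod_cast htp)
    have hn2 : (n0 : ℝ) ≤ t ^ ((5 : ℝ) / 4) := Nat.floor_le (by linarith)
    have hn3 : t ^ ((5 : ℝ) / 4) < n0 + 1 := Nat.lt_floor_add_one _
    set J := Nat.log 2 n0 with hJ
    have hJ1 : 2 ^ J ≤ n0 := Nat.pow_log_le_self 2 (by omega)
    have hJ2 : n0 < 2 ^ (J + 1) := Nat.lt_pow_succ_log_self (by norm_num) n0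
    have hJ1' : ((2 ^ J : ℕ) : ℝ) ≤ t ^ ((5 : ℝ) / 4) := by
      have : ((2 ^ J : ℕ) : ℝ) ≤ n0 := by exact_mod_cast hJ1
      linarith
    have hJ2' : t ^ ((5 : ℝ) / 4) ≤ 2 * ((2 ^ J : ℕ) : ℝ) := by
      have h1 : ((n0 + 1 : ℕ) : ℝ) ≤ ((2 ^ (J + 1) : ℕ) : ℝ) := by exact_mod_cast hJ2
      push_cast at h1 ⊢
      rw [pow_succ] at h1
      linarith
    have hs : s = (σ : ℂ) + t * I := (Complex.re_add_im s).symm
    have hblock : ∀ j < J, ‖∑ n ∈ Ioc ((2 : ℕ) ^ j) (2 * 2 ^ j), (n : ℂ) ^ (-s)‖ ≤ 3 + C := by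
      intro j hj
      apply ZBound_block hC hE hx2 hcx hx10.symm hre (2 ^ j) Nat.one_le_two_pow _ s hs
      have h1 : ((2 ^ j : ℕ) : ℝ) ≤ t ^ ((5 : ℝ) / 4) := by
        refine le_trans ?_ hJ1'
        exact_mod_cast Nat.pow_le_pow_right (by norm_num) hj.le
      calc ((2 ^ j : ℕ) : ℝ) ^ ((4 : ℝ) / 5) ≤ (t ^ ((5 : ℝ) / 4)) ^ ((4 : ℝ) / 5) :=
            Real.rpow_le_rpow (by positivity) h1 (by norm_num)
        _ = t := by
            rw [← Real.rpow_mul ht0.le]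
            norm_num
    have hsumle := ZBound_dyadic (fun n => (n : ℂ) ^ (-s)) (3 + C) J hblock
    have hF1 : ‖((1 : ℕ) : ℂ) ^ (-s)‖ = 1 := by simp
    rw [hF1] at hsumle
    have hJL : (J : ℝ) ≤ 2 * Real.log t := by
      have h1 : Real.log ((2 ^ J : ℕ) : ℝ) ≤ Real.log (t ^ ((5 : ℝ) / 4)) :=
        Real.log_le_log (by positivity) hJ1'
      rw [Real.log_rpow ht0] at h1
      push_cast at h1
      rw [Real.log_pow] at h1
      have h2 := Real.log_two_gt_d9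
      have h3 : (J : ℝ) * 0.6931471803 ≤ J * Real.log 2 :=
        mul_le_mul_of_nonneg_left h2.le (Nat.cast_nonneg J)
      linarith
    have hNpos : (0 : ℝ) < ((2 ^ J : ℕ) : ℝ) := by positivity
    have hN1 : (1 : ℝ) ≤ ((2 ^ J : ℕ) : ℝ) := by exact_mod_cast Nat.one_le_two_pow
    have hs1 : s ≠ 1 := by
      intro h
      have : t = 0 := by rw [ht, h]; simp
      linarith
    have happ := zeta_approx (s := s) (by linarith) hs1 (N := 2 ^ J) Nat.one_le_two_pow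
    -- first error term
    have hden : t ≤ ‖s - 1‖ := by
      have h1 := Complex.abs_im_le_norm (s - 1)
      have h2 : (s - 1).im = t := by simp [ht]
      rw [h2, abs_of_pos ht0] at h1
      exact h1
    have herr1 : ‖((2 ^ J : ℕ) : ℂ) ^ (1 - s) / (s - 1)‖ ≤ 1 := by
      rw [norm_div, Complex.norm_natCast_cpow_of_pos (by positivity)]
      have h1 : (1 - s).re = 1 - σ := by simp [hσ]
      rw [h1]
      have h2 : ((2 ^ J : ℕ) : ℝ) ^ (1 - σ) ≤ ((2 ^ J : ℕ) : ℝ) ^ ((1 : ℝ) / 10) :=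
        Real.rpow_le_rpow_of_exponent_le hN1 (by linarith)
      have h3 : ((2 ^ J : ℕ) : ℝ) ^ ((1 : ℝ) / 10) ≤ (t ^ ((5 : ℝ) / 4)) ^ ((1 : ℝ) / 10) :=
        Real.rpow_le_rpow (by positivity) hJ1' (by norm_num)
      have h4 : (t ^ ((5 : ℝ) / 4)) ^ ((1 : ℝ) / 10) ≤ t := by
        rw [← Real.rpow_mul ht0.le]
        calc t ^ ((5 : ℝ) / 4 * (1 / 10)) ≤ t ^ (1 : ℝ) :=
              Real.rpow_le_rpow_of_exponent_le ht1 (by norm_num)
          _ = t := Real.rpow_one t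
      rw [div_le_one (by linarith)]
      linarith
    -- second error term
    have hns : ‖s‖ ≤ 2 * t := by
      have h1 : ‖s‖ ≤ |s.re| + |s.im| := Complex.norm_le_abs_re_add_abs_im s
      rw [← ht, ← hσ, abs_of_pos ht0, abs_of_nonneg (by linarith)] at h1
      linarith
    have hNσ : ((2 ^ J : ℕ) : ℝ) ^ (-σ) ≤ 2 / t := by
      have h1 : ((2 ^ J : ℕ) : ℝ) ^ (-σ) ≤ ((2 ^ J : ℕ) : ℝ) ^ (-((9 : ℝ) / 10)) :=
        Real.rpow_le_rpow_of_exponent_le hN1 (by linarith)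
      have h2 : t ^ ((5 : ℝ) / 4) / 2 ≤ ((2 ^ J : ℕ) : ℝ) := by linarith
      have h3 : ((2 ^ J : ℕ) : ℝ) ^ (-((9 : ℝ) / 10)) ≤
          (t ^ ((5 : ℝ) / 4) / 2) ^ (-((9 : ℝ) / 10)) :=
        Real.rpow_le_rpow_of_nonpos (by positivity) h2 (by norm_num)
      have h4 : (t ^ ((5 : ℝ) / 4) / 2) ^ (-((9 : ℝ) / 10)) ≤ 2 / t := by
        rw [Real.div_rpow (by positivity) (by norm_num), ← Real.rpow_mul ht0.le]
        have h5 : t ^ ((5 : ℝ) / 4 * (-(9 / 10))) ≤ t ^ (-1 : ℝ) :=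
          Real.rpow_le_rpow_of_exponent_le ht1 (by norm_num)
        rw [Real.rpow_neg_one] at h5
        have h6 : (2 : ℝ) ^ (-((9 : ℝ) / 10)) ≥ 2⁻¹ := by
          rw [← Real.rpow_neg_one]
          exact Real.rpow_le_rpow_of_exponent_le (by norm_num) (by norm_num)
        have h7 : (0 : ℝ) < 2⁻¹ := by norm_num
        calc t ^ ((5 : ℝ) / 4 * (-(9 / 10))) / (2 : ℝ) ^ (-((9 : ℝ) / 10)) ≤ t⁻¹ / 2⁻¹ :=
              div_le_div₀ (by positivity) h5 h7 h6
          _ = 2 / t := by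
              field_simp
      linarith
    have herr2 : 2 * ‖s‖ * ((2 ^ J : ℕ) : ℝ) ^ (-s.re) ≤ 8 := by
      calc 2 * ‖s‖ * ((2 ^ J : ℕ) : ℝ) ^ (-s.re) ≤ 2 * (2 * t) * (2 / t) := by
            apply mul_le_mul _ hNσ (by positivity) (by positivity)
            linarith
        _ = 8 := by
            field_simp
            norm_num
    have hfin : ‖riemannZeta s‖ ≤ ‖∑ n ∈ Icc (1 : ℕ) (2 ^ J), (n : ℂ) ^ (-s)‖ + 1 + 8 := by
      have e1 : riemannZeta s = (riemannZeta s - ∑ n ∈ Icc (1 : ℕ) (2 ^ J), (n : ℂ) ^ (-s) -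
          ((2 ^ J : ℕ) : ℂ) ^ (1 - s) / (s - 1)) + ∑ n ∈ Icc (1 : ℕ) (2 ^ J), (n : ℂ) ^ (-s) +
          ((2 ^ J : ℕ) : ℂ) ^ (1 - s) / (s - 1) := by ring
      rw [e1]
      refine (norm_add_le _ _).trans ?_
      refine (add_le_add_left (norm_add_le _ _) _).trans ?_
      have := happ.trans herr2
      linarith
    have hJD : (J : ℝ) * (3 + C) ≤ 2 * Real.log t * (3 + C) :=
      mul_le_mul_of_nonneg_right hJL (by linarith)
    have : ‖∑ n ∈ Icc (1 : ℕ) (2 ^ J), (n : ℂ) ^ (-s)‖ ≤ 1 + J * (3 + C) := hsumle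
    nlinarith
  refine ⟨16 + 2 * C, Real.exp (X0 ^ 10), by linarith, ?_, fun s him hre3 hre => ?_⟩
  · have h1 : Real.exp 1024 ≤ Real.exp (X0 ^ 10) := by
      apply Real.exp_le_exp.mpr
      calc (1024 : ℝ) = 2 ^ 10 := by norm_num
        _ ≤ X0 ^ 10 := pow_le_pow_left₀ (by norm_num) hX2 10
    have h2 := Real.add_one_le_exp (1024 : ℝ)
    linarith
  · rcases le_total 0 s.im with h | h
    · rw [abs_of_nonneg h] at him hre ⊢
      exact main s him hre3 hre
    · rw [abs_of_nonpos h] at him hre ⊢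
      have := main ((starRingEnd ℂ) s) (by simpa using him) (by simpa using hre3)
        (by simpa using hre)
      rw [riemannZeta_conj, Complex.norm_conj] at this
      simpa using this

end VKZ
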